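import Pool.Agent.Helper1K9.LT.Stm3

/-!
# Relay LT, leaf (35) COD: the colouring exists in every omega-model
-/

set_option autoImplicit false

namespace Pool.Agent.Helper1K9.LT

open Encodable Pool.Agent.Helper446 Pool.Agent.Helper446.Defs Pool.Agent.Helper446.RE
  Pool.Agent.Helper446.Oracle Pool.Agent.R623.Dec Pool.Agent.R623.Om Pool.Agent.Helper617.RM

namespace CodL

variable {α β γ : Type*} [Primcodable α] [Primcodable β] [Primcodable γ] {A : Set ℕ}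

theorem dconst (P : Prop) : DecIn A fun _ : α => P :=
  ⟨REIn.of_re (const P), REIn.of_re (const (¬ P))⟩

theorem diff_ {S T : α → Prop} (hS : DecIn A S) (hT : DecIn A T) :
    DecIn A fun a => (S a ↔ T a) :=
  ((hS.imp hT).and (hT.imp hS)).of_eq fun _ => by tauto

theorem ex_lt {S : α → ℕ → Prop} (hS : DecIn A fun x : α × ℕ => S x.1 x.2) {f : α → ℕ}
    (hf : Computable f) : DecIn A fun a => ∃ i < f a, S a i := by
  refine (DecIn.all_lt (S := fun a i => ¬ S a i) hS.not hf).not.of_eq fun a => ?_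
  push Not
  rfl

theorem all_fin {ι : Type*} (s : Finset ι) {S : ι → α → Prop} (h : ∀ i, DecIn A (S i)) :
    DecIn A fun a => ∀ i ∈ s, S i a := by
  classical
  induction s using Finset.induction_on with
  | empty => exact (dconst True).of_eq fun a => by simp
  | insert i s _ ih => exact ((h i).and ih).of_eq fun a => by simp

theorem all_ft {ι : Type*} [Fintype ι] {S : ι → α → Prop} (h : ∀ i, DecIn A (S i)) :
    DecIn A fun a => ∀ i, S i a := (all_fin Finset.univ h).of_eq fun a => by simp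

theorem ex_ft {ι : Type*} [Fintype ι] {S : ι → α → Prop} (h : ∀ i, DecIn A (S i)) :
    DecIn A fun a => ∃ i, S i a := by
  refine (all_ft (S := fun i a => ¬ S i a) fun i => (h i).not).not.of_eq fun a => ?_
  push Not
  rfl

/-- the pairing function of the structure -/
def pr (x y : ℕ) : ℕ := (x + y) * (x + y) + x

theorem le_pr_left (x y : ℕ) : x ≤ pr x y := Nat.le_add_left _ _

theorem le_pr_right (x y : ℕ) : y ≤ pr x y := by
  have h : x + y ≤ (x + y) * (x + y) := Nat.le_mul_self _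
  unfold pr
  omega

theorem computable_pr {f g : α → ℕ} (hf : Computable f) (hg : Computable g) :
    Computable fun a => pr (f a) (g a) := by
  have h1 : Computable fun a => f a + g a := Primrec.nat_add.to_comp.comp hf hg
  have h2 : Computable fun a => (f a + g a) * (f a + g a) := Primrec.nat_mul.to_comp.comp h1 h1
  exact Primrec.nat_add.to_comp.comp h2 hf

/-- finite sets are decidable with every oracle -/
theorem dec_fin (A : Set ℕ) (l : List ℕ) : DecIn A fun n : ℕ => n ∈ {x | x ∈ l} :=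
  ⟨REIn.of_re (mem_list (f := fun n : ℕ => n) (l := fun _ : ℕ => l) Computable.id
      (Computable.const _)),
    REIn.of_re (not_mem_list (f := fun n : ℕ => n) (l := fun _ : ℕ => l)
      Computable.id (Computable.const _))⟩

/-- finite functions exist in the structure -/
theorem dec_fun (A : Set ℕ) (l : List ℕ) :
    DecIn A fun n : ℕ => n ∈ {p | ∃ x y, y = l.getD x 0 ∧ p = pr x y} := by
  have h : DecIn A fun n : ℕ => ∃ x < n + 1, ∃ y < n + 1, y = l.getD x 0 ∧ n = pr x y := by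
    refine ex_lt (S := fun n x => ∃ y < n + 1, y = l.getD x 0 ∧ n = pr x y) ?_ Computable.succ
    refine ex_lt (S := fun (a : ℕ × ℕ) y => y = l.getD a.2 0 ∧ a.1 = pr a.2 y) ?_
      (Computable.succ.comp Computable.fst)
    refine (DecIn.eq Computable.snd ?_).and (DecIn.eq (Computable.fst.comp Computable.fst) ?_)
    · exact computable_getD' (Computable.const l) (Computable.snd.comp Computable.fst)
    · exact computable_pr (Computable.snd.comp Computable.fst) Computable.snd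
  refine h.of_eq fun n => ?_
  constructor
  · rintro ⟨x, -, y, -, h1, h2⟩
    exact ⟨x, y, h1, h2⟩
  · rintro ⟨x, y, h1, h2⟩
    exact ⟨x, Nat.lt_succ_of_le (h2 ▸ le_pr_left x y), y, Nat.lt_succ_of_le (h2 ▸ le_pr_right x y),
      h1, h2⟩

/-- the pattern of a copy -/
def Pat (R : SimpleGraph ℕ) (H : ℕ → ℕ → Prop) (t : ℕ × ℕ × ℕ) : Prop :=
  ∃ σ : Equiv.Perm (Fin 3), ∀ i j : Fin 3,
    (H i j ↔ R.Adj (![t.1, t.2.1, t.2.2] (σ i)) (![t.1, t.2.1, t.2.2] (σ j)))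

theorem computable_vec (a : Fin 3) : Computable fun t : ℕ × ℕ × ℕ => ![t.1, t.2.1, t.2.2] a := by
  fin_cases a
  · exact Computable.fst
  · exact Computable.fst.comp Computable.snd
  · exact Computable.snd.comp Computable.snd

theorem dec_pat {R : SimpleGraph ℕ} (hR : ComputablePred (fun p : ℕ × ℕ => R.Adj p.1 p.2))
    (H : ℕ → ℕ → Prop) : DecIn A (Pat R H) := by
  refine ex_ft (S := fun (σ : Equiv.Perm (Fin 3)) (t : ℕ × ℕ × ℕ) => ∀ i j : Fin 3,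
    (H i j ↔ R.Adj (![t.1, t.2.1, t.2.2] (σ i)) (![t.1, t.2.1, t.2.2] (σ j)))) fun σ => ?_
  refine all_ft (S := fun (i : Fin 3) (t : ℕ × ℕ × ℕ) => ∀ j : Fin 3,
    (H i j ↔ R.Adj (![t.1, t.2.1, t.2.2] (σ i)) (![t.1, t.2.1, t.2.2] (σ j)))) fun i => ?_
  refine all_ft (S := fun (j : Fin 3) (t : ℕ × ℕ × ℕ) =>
    (H i j ↔ R.Adj (![t.1, t.2.1, t.2.2] (σ i)) (![t.1, t.2.1, t.2.2] (σ j)))) fun j => ?_
  refine diff_ (dconst _) ?_
  exact DecIn.comp (S := fun p : ℕ × ℕ => R.Adj p.1 p.2) (DecIn.of_cp hR)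
    ((computable_vec (σ i)).pair (computable_vec (σ j)))

theorem copy_iff {I : Set (Set ℕ)} (hI : Ideal I) (R : SimpleGraph ℕ) (H : ℕ → ℕ → Prop)
    (F : Set ℕ) : IsCopy (omegaModel I) (fun x y => R.Adj x y) (3 : ℕ) H F ↔
      ∃ t : ℕ × ℕ × ℕ, t.1 < t.2.1 ∧ t.2.1 < t.2.2 ∧ F = {t.1, t.2.1, t.2.2} ∧ Pat R H t := by
  constructor
  · rintro ⟨-, -, e, -, h1, h2, h3, h4⟩
    replace h1 : ∀ i : ℕ, i < 3 → e i ∈ F := h1
    replace h2 : ∀ y ∈ F, ∃ i : ℕ, i < 3 ∧ e i = y := h2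
    replace h3 : ∀ i j : ℕ, i < 3 → j < 3 → e i = e j → i = j := h3
    replace h4 : ∀ i j : ℕ, i < 3 → j < 3 → (H i j ↔ R.Adj (e i) (e j)) := h4
    set u : Fin 3 → ℕ := fun i => e (i : ℕ) with hu
    have hinj : Function.Injective u := fun i j h => Fin.ext (h3 i j i.2 j.2 h)
    set v : Fin 3 → ℕ := u ∘ Tuple.sort u with hv
    have hmono : Monotone v := Tuple.monotone_sort u
    have hvinj : Function.Injective v := hinj.comp (Tuple.sort u).injective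
    have hstrict : StrictMono v := hmono.strictMono_of_injective hvinj
    have huv : ∀ i, u i = v ((Tuple.sort u).symm i) := fun i => by simp [hv]
    have hvec : ![v 0, v 1, v 2] = v := by
      funext i
      fin_cases i <;> rfl
    refine ⟨(v 0, v 1, v 2), hstrict (by decide), hstrict (by decide), ?_,
      (Tuple.sort u).symm, fun i j => ?_⟩
    · ext y
      simp only [Set.mem_insert_iff, Set.mem_singleton_iff]
      constructor
      · intro hy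
        obtain ⟨i, hi, rfl⟩ := h2 y hy
        have h5 : e i = v ((Tuple.sort u).symm ⟨i, hi⟩) := huv ⟨i, hi⟩
        rw [h5]
        generalize (Tuple.sort u).symm ⟨i, hi⟩ = j
        fin_cases j <;> simp
      · rintro (h | h | h)
        · rw [h]; exact h1 _ (Fin.is_lt _)
        · rw [h]; exact h1 _ (Fin.is_lt _)
        · rw [h]; exact h1 _ (Fin.is_lt _)
    · show H i j ↔ R.Adj (![v 0, v 1, v 2] ((Tuple.sort u).symm i))
        (![v 0, v 1, v 2] ((Tuple.sort u).symm j))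
      rw [hvec, ← huv, ← huv]
      exact h4 i j i.2 j.2
  · rintro ⟨⟨x, y, z⟩, hxy, hyz, rfl, σ, hσ⟩
    obtain ⟨C, hC⟩ := hI.ne
    simp only at hxy hyz hσ ⊢
    set w : Fin 3 → ℕ := ![x, y, z] with hw
    have hwinj : Function.Injective w := by
      intro i j hij
      fin_cases i <;> fin_cases j <;> simp [hw] at hij ⊢ <;> omega
    have hwmem : ∀ i, w i ∈ ({x, y, z} : Set ℕ) := by
      intro i
      fin_cases i <;> simp [hw]
    have hwsurj : ∀ a ∈ ({x, y, z} : Set ℕ), ∃ i, w i = a := by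
      intro a ha
      simp only [Set.mem_insert_iff, Set.mem_singleton_iff] at ha
      rcases ha with rfl | rfl | rfl
      · exact ⟨0, rfl⟩
      · exact ⟨1, rfl⟩
      · exact ⟨2, rfl⟩
    set l : List ℕ := [w (σ 0), w (σ 1), w (σ 2)] with hl
    have hlw : ∀ i : Fin 3, l.getD (i : ℕ) 0 = w (σ i) := by
      intro i
      fin_cases i <;> rfl
    have hset : ({x, y, z} : Set ℕ) = {a | a ∈ [x, y, z]} := by
      ext a
      simp
    refine ⟨?_, ?_, fun i : ℕ => l.getD i 0, ?_, ?_, ?_, ?_, ?_⟩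
    · show ({x, y, z} : Set ℕ) ∈ I
      rw [hset]
      exact hI.down _ C (dec_fin C [x, y, z]) hC
    · refine ⟨(z + 1 : ℕ), ?_⟩
      show ∀ a ∈ ({x, y, z} : Set ℕ), a < z + 1
      intro a ha
      simp only [Set.mem_insert_iff, Set.mem_singleton_iff] at ha
      omega
    · exact hI.down _ C (dec_fun C l) hC
    · show ∀ i : ℕ, i < 3 → l.getD i 0 ∈ ({x, y, z} : Set ℕ)
      intro i hi
      rw [show l.getD i 0 = w (σ ⟨i, hi⟩) from hlw ⟨i, hi⟩]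
      exact hwmem _
    · show ∀ a ∈ ({x, y, z} : Set ℕ), ∃ i : ℕ, i < 3 ∧ l.getD i 0 = a
      intro a ha
      obtain ⟨i, rfl⟩ := hwsurj a ha
      refine ⟨(σ.symm i : Fin 3), Fin.is_lt _, ?_⟩
      rw [hlw, Equiv.apply_symm_apply]
    · show ∀ i j : ℕ, i < 3 → j < 3 → l.getD i 0 = l.getD j 0 → i = j
      intro i j hi hj h
      rw [show l.getD i 0 = w (σ ⟨i, hi⟩) from hlw ⟨i, hi⟩,
        show l.getD j 0 = w (σ ⟨j, hj⟩) from hlw ⟨j, hj⟩] at h
      have := σ.injective (hwinj h)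
      simpa using this
    · show ∀ i j : ℕ, i < 3 → j < 3 → (H i j ↔ R.Adj (l.getD i 0) (l.getD j 0))
      intro i j hi hj
      rw [show l.getD i 0 = w (σ ⟨i, hi⟩) from hlw ⟨i, hi⟩,
        show l.getD j 0 = w (σ ⟨j, hj⟩) from hlw ⟨j, hj⟩]
      exact hσ ⟨i, hi⟩ ⟨j, hj⟩

theorem dvd_iff {n d : ℕ} : (∃ q, n = d * q) ↔ n % d = 0 :=
  ⟨fun ⟨q, h⟩ => by rw [h]; exact Nat.mul_mod_right d q, fun h => Nat.dvd_of_mod_eq_zero h⟩

theorem codes_iff {I : Set (Set ℕ)} (p x y z : ℕ) :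
    Codes (omegaModel I) p ({x, y, z} : Set ℕ) ↔ ∃ k < p + 1, ∃ m < p + 1, ∃ n < p + 1,
      p = pr k (pr m n) ∧ (x < k ∧ y < k ∧ z < k) ∧
        ∀ i < k, ((i = x ∨ i = y ∨ i = z) ↔ n % (m * (i + 1) + 1) = 0) := by
  have key : ∀ k n m : ℕ, (∀ i : ℕ, i ∈ ({x, y, z} : Set ℕ) ↔ i < k ∧
      ∃ q, n = (m * (i + 1) + 1) * q) ↔ ((x < k ∧ y < k ∧ z < k) ∧
        ∀ i < k, ((i = x ∨ i = y ∨ i = z) ↔ n % (m * (i + 1) + 1) = 0)) := by
    intro k n m
    simp only [Set.mem_insert_iff, Set.mem_singleton_iff, dvd_iff]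
    constructor
    · intro h
      exact ⟨⟨((h x).1 (by simp)).1, ((h y).1 (by simp)).1, ((h z).1 (by simp)).1⟩,
        fun i hi => ⟨fun h1 => ((h i).1 h1).2, fun h1 => (h i).2 ⟨hi, h1⟩⟩⟩
    · rintro ⟨⟨h1, h2, h3⟩, h⟩ i
      constructor
      · intro hi
        have hk : i < k := by rcases hi with rfl | rfl | rfl <;> assumption
        exact ⟨hk, (h i hk).1 hi⟩
      · rintro ⟨hk, hi⟩
        exact (h i hk).2 hi
  have hc : Codes (omegaModel I) p ({x, y, z} : Set ℕ) ↔ ∃ k m n : ℕ, p = pr k (pr m n) ∧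
      ∀ i : ℕ, i ∈ ({x, y, z} : Set ℕ) ↔ i < k ∧ ∃ q, n = (m * (i + 1) + 1) * q := Iff.rfl
  rw [hc]
  constructor
  · rintro ⟨k, m, n, hp, h⟩
    have h1 : k ≤ p := hp ▸ le_pr_left _ _
    have h2 : pr m n ≤ p := hp ▸ le_pr_right _ _
    have h3 := le_pr_left m n
    have h4 := le_pr_right m n
    exact ⟨k, Nat.lt_succ_of_le h1, m, Nat.lt_succ_of_le (h3.trans h2), n,
      Nat.lt_succ_of_le (h4.trans h2), hp, (key k n m).1 h⟩
  · rintro ⟨k, -, m, -, n, -, hp, h⟩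
    exact ⟨k, m, n, hp, (key k n m).2 h⟩

theorem computable_mod {f g : α → ℕ} (hf : Computable f) (hg : Computable g) :
    Computable fun a => f a % g a := Primrec.nat_mod.to_comp.comp hf hg

theorem computable_add {f g : α → ℕ} (hf : Computable f) (hg : Computable g) :
    Computable fun a => f a + g a := Primrec.nat_add.to_comp.comp hf hg

theorem computable_mul {f g : α → ℕ} (hf : Computable f) (hg : Computable g) :
    Computable fun a => f a * g a := Primrec.nat_mul.to_comp.comp hf hg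

/-- the code of `{x, y, z}`, the argument is `((x, y, z), p)` -/
def CD (a : (ℕ × ℕ × ℕ) × ℕ) : Prop :=
  ∃ k < a.2 + 1, ∃ m < a.2 + 1, ∃ n < a.2 + 1,
      a.2 = pr k (pr m n) ∧ (a.1.1 < k ∧ a.1.2.1 < k ∧ a.1.2.2 < k) ∧
        ∀ i < k, ((i = a.1.1 ∨ i = a.1.2.1 ∨ i = a.1.2.2) ↔ n % (m * (i + 1) + 1) = 0)

theorem dec_cd : DecIn A CD := by
  refine ex_lt (S := fun (a : (ℕ × ℕ × ℕ) × ℕ) k => ∃ m < a.2 + 1, ∃ n < a.2 + 1,
      a.2 = pr k (pr m n) ∧ (a.1.1 < k ∧ a.1.2.1 < k ∧ a.1.2.2 < k) ∧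
        ∀ i < k, ((i = a.1.1 ∨ i = a.1.2.1 ∨ i = a.1.2.2) ↔ n % (m * (i + 1) + 1) = 0)) ?_
    (Computable.succ.comp Computable.snd)
  refine ex_lt (S := fun (b : ((ℕ × ℕ × ℕ) × ℕ) × ℕ) m => ∃ n < b.1.2 + 1,
      b.1.2 = pr b.2 (pr m n) ∧ (b.1.1.1 < b.2 ∧ b.1.1.2.1 < b.2 ∧ b.1.1.2.2 < b.2) ∧
        ∀ i < b.2, ((i = b.1.1.1 ∨ i = b.1.1.2.1 ∨ i = b.1.1.2.2) ↔
          n % (m * (i + 1) + 1) = 0)) ?_
    (Computable.succ.comp (by fun_prop))
  refine ex_lt (S := fun (b : (((ℕ × ℕ × ℕ) × ℕ) × ℕ) × ℕ) n =>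
      b.1.1.2 = pr b.1.2 (pr b.2 n) ∧ (b.1.1.1.1 < b.1.2 ∧ b.1.1.1.2.1 < b.1.2 ∧
        b.1.1.1.2.2 < b.1.2) ∧
        ∀ i < b.1.2, ((i = b.1.1.1.1 ∨ i = b.1.1.1.2.1 ∨ i = b.1.1.1.2.2) ↔
          n % (b.2 * (i + 1) + 1) = 0)) ?_
    (Computable.succ.comp (by fun_prop))
  refine (DecIn.eq (by fun_prop) (computable_pr (by fun_prop)
    (computable_pr (by fun_prop) (by fun_prop)))).and (((DecIn.lt (by fun_prop)
    (by fun_prop)).and ((DecIn.lt (by fun_prop) (by fun_prop)).and (DecIn.lt (by fun_prop)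
    (by fun_prop)))).and ?_)
  refine DecIn.all_lt (S := fun (b : ((((ℕ × ℕ × ℕ) × ℕ) × ℕ) × ℕ) × ℕ) i =>
    ((i = b.1.1.1.1.1 ∨ i = b.1.1.1.1.2.1 ∨ i = b.1.1.1.1.2.2) ↔
          b.2 % (b.1.2 * (i + 1) + 1) = 0)) ?_ (by fun_prop)
  refine diff_ ((DecIn.eq (by fun_prop) (by fun_prop)).or
    ((DecIn.eq (by fun_prop) (by fun_prop)).or (DecIn.eq (by fun_prop) (by fun_prop)))) ?_
  refine DecIn.eq (computable_mod (by fun_prop) (Computable.succ.comp (computable_mul (by fun_prop)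
    (Computable.succ.comp (by fun_prop))))) (Computable.const 0)

theorem code_iff {I : Set (Set ℕ)} (p x y z : ℕ) :
    IsCode (omegaModel I) p ({x, y, z} : Set ℕ) ↔
      CD ((x, y, z), p) ∧ ∀ q < p, ¬ CD ((x, y, z), q) := by
  have h : ∀ q : ℕ, Codes (omegaModel I) q ({x, y, z} : Set ℕ) ↔ CD ((x, y, z), q) :=
    fun q => codes_iff q x y z
  exact and_congr (h p) (forall_congr' fun q => imp_congr Iff.rfl (not_congr (h q)))

open Classical in
/-- the colouring -/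
noncomputable def colour (f : ℕ × ℕ × ℕ → ℕ) (F : Set ℕ) : ℕ :=
  if h : ∃ t : ℕ × ℕ × ℕ, t.1 < t.2.1 ∧ t.2.1 < t.2.2 ∧ F = {t.1, t.2.1, t.2.2} then f h.choose
  else 0

theorem sorted_unique {t t' : ℕ × ℕ × ℕ} (h1 : t.1 < t.2.1) (h2 : t.2.1 < t.2.2)
    (h1' : t'.1 < t'.2.1) (h2' : t'.2.1 < t'.2.2)
    (h : ({t.1, t.2.1, t.2.2} : Set ℕ) = {t'.1, t'.2.1, t'.2.2}) : t = t' := by
  obtain ⟨x, y, z⟩ := t
  obtain ⟨x', y', z'⟩ := t'
  simp only at h1 h2 h1' h2' h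
  have e1 : x ∈ ({x', y', z'} : Set ℕ) := h ▸ (by simp)
  have e2 : y ∈ ({x', y', z'} : Set ℕ) := h ▸ (by simp)
  have e3 : z ∈ ({x', y', z'} : Set ℕ) := h ▸ (by simp)
  simp only [Set.mem_insert_iff, Set.mem_singleton_iff] at e1 e2 e3
  have : x = x' ∧ y = y' ∧ z = z' := by omega
  obtain ⟨rfl, rfl, rfl⟩ := this
  rfl

theorem colour_eq (f : ℕ × ℕ × ℕ → ℕ) {x y z : ℕ} (hxy : x < y) (hyz : y < z) :
    colour f {x, y, z} = f (x, y, z) := by
  have h : ∃ t : ℕ × ℕ × ℕ, t.1 < t.2.1 ∧ t.2.1 < t.2.2 ∧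
      ({x, y, z} : Set ℕ) = {t.1, t.2.1, t.2.2} := ⟨(x, y, z), hxy, hyz, rfl⟩
  unfold colour
  rw [dif_pos h]
  obtain ⟨h1, h2, h3⟩ := h.choose_spec
  exact congrArg f (sorted_unique (t' := (x, y, z)) h1 h2 hxy hyz h3.symm)

/-- the colouring with bounded quantifiers -/
def Qr (R : SimpleGraph ℕ) (H : ℕ → ℕ → Prop) (f : ℕ × ℕ × ℕ → ℕ) (r : ℕ) : Prop :=
  ∃ p < r + 1, ∃ x < r + 1, ∃ y < r + 1, ∃ z < r + 1,
    (x < y ∧ y < z) ∧ Pat R H (x, y, z) ∧ CD ((x, y, z), p) ∧ (∀ q < p, ¬ CD ((x, y, z), q)) ∧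
      r = pr p (f (x, y, z))

theorem dec_qq {R : SimpleGraph ℕ} (hR : ComputablePred (fun p : ℕ × ℕ => R.Adj p.1 p.2))
    (H : ℕ → ℕ → Prop) {f : ℕ × ℕ × ℕ → ℕ} (hf : Computable f) : DecIn A (Qr R H f) := by
  refine ex_lt (S := fun r p => ∃ x < r + 1, ∃ y < r + 1, ∃ z < r + 1,
    (x < y ∧ y < z) ∧ Pat R H (x, y, z) ∧ CD ((x, y, z), p) ∧ (∀ q < p, ¬ CD ((x, y, z), q)) ∧
      r = pr p (f (x, y, z))) ?_ Computable.succ
  refine ex_lt (S := fun (a : ℕ × ℕ) x => ∃ y < a.1 + 1, ∃ z < a.1 + 1,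
    (x < y ∧ y < z) ∧ Pat R H (x, y, z) ∧ CD ((x, y, z), a.2) ∧
      (∀ q < a.2, ¬ CD ((x, y, z), q)) ∧ a.1 = pr a.2 (f (x, y, z))) ?_
    (Computable.succ.comp (by fun_prop))
  refine ex_lt (S := fun (a : (ℕ × ℕ) × ℕ) y => ∃ z < a.1.1 + 1,
    (a.2 < y ∧ y < z) ∧ Pat R H (a.2, y, z) ∧ CD ((a.2, y, z), a.1.2) ∧
      (∀ q < a.1.2, ¬ CD ((a.2, y, z), q)) ∧ a.1.1 = pr a.1.2 (f (a.2, y, z))) ?_
    (Computable.succ.comp (by fun_prop))
  refine ex_lt (S := fun (a : ((ℕ × ℕ) × ℕ) × ℕ) z =>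
    (a.1.2 < a.2 ∧ a.2 < z) ∧ Pat R H (a.1.2, a.2, z) ∧ CD ((a.1.2, a.2, z), a.1.1.2) ∧
      (∀ q < a.1.1.2, ¬ CD ((a.1.2, a.2, z), q)) ∧
        a.1.1.1 = pr a.1.1.2 (f (a.1.2, a.2, z))) ?_
    (Computable.succ.comp (by fun_prop))
  have ht : Computable fun b : (((ℕ × ℕ) × ℕ) × ℕ) × ℕ => (b.1.1.2, b.1.2, b.2) := by fun_prop
  refine ((DecIn.lt (by fun_prop) (by fun_prop)).and (DecIn.lt (by fun_prop)
    (by fun_prop))).and (((dec_pat hR H).comp ht).and ((dec_cd.comp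
    (ht.pair (by fun_prop))).and (DecIn.and ?_ (DecIn.eq (by fun_prop)
    (computable_pr (by fun_prop) (hf.comp ht))))))
  refine DecIn.all_lt (S := fun (b : (((ℕ × ℕ) × ℕ) × ℕ) × ℕ) q =>
    ¬ CD ((b.1.1.2, b.1.2, b.2), q)) ?_ (by fun_prop)
  exact (dec_cd.comp (f := fun c : ((((ℕ × ℕ) × ℕ) × ℕ) × ℕ) × ℕ =>
    ((c.1.1.1.2, c.1.1.2, c.1.2), c.2)) (by fun_prop)).not

end CodL

open CodL in
theorem cod : S_COD := by
  intro I hI R hR f hf H
  refine ⟨colour f, fun x y z hxy hyz => colour_eq f hxy hyz, ?_⟩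
  obtain ⟨C, hC⟩ := hI.ne
  refine hI.down _ C ((dec_qq (A := C) hR H hf).of_eq fun r => ?_) hC
  show Qr R H f r ↔ ∃ (F : Set ℕ) (p : ℕ), IsCopy (omegaModel I) (fun x y => R.Adj x y) (3 : ℕ) H F ∧
    IsCode (omegaModel I) p F ∧ r = pr p (colour f F)
  constructor
  · rintro ⟨p, -, x, -, y, -, z, -, ⟨hxy, hyz⟩, hpat, h1, h2, hr⟩
    refine ⟨({x, y, z} : Set ℕ), p, (copy_iff hI R H _).2 ⟨(x, y, z), hxy, hyz, rfl, hpat⟩,
      (code_iff p x y z).2 ⟨h1, h2⟩, ?_⟩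
    show r = pr p (colour f {x, y, z})
    rw [colour_eq f hxy hyz]
    exact hr
  · rintro ⟨F, p, hF, hp, hr⟩
    obtain ⟨⟨x, y, z⟩, hxy, hyz, rfl, hpat⟩ := (copy_iff hI R H F).1 hF
    simp only at hxy hyz hp hr
    obtain ⟨h1, h2⟩ := (code_iff p x y z).1 hp
    replace hr : r = pr p (colour f {x, y, z}) := hr
    rw [colour_eq f hxy hyz] at hr
    have hpr : p ≤ r := hr ▸ le_pr_left _ _
    obtain ⟨k, hk, m, -, n, -, -, ⟨hx, hy, hz⟩, -⟩ := id h1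
    simp only at hk hx hy hz
    exact ⟨p, by omega, x, by omega, y, by omega, z, by omega, ⟨hxy, hyz⟩, hpat, h1, h2, hr⟩

end Pool.Agent.Helper1K9.LT
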