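import Pool.Agent.Helper1K9.LT.Sel

/-!
# Relay LT: complexity of the forcing notion
-/

set_option autoImplicit false

namespace Pool.Agent.Helper1K9.LT

open Encodable Pool.Agent.Helper446 Pool.Agent.Helper446.Defs Pool.Agent.Helper446.RE
  Pool.Agent.Helper446.Oracle Pool.Agent.R623.Dec

namespace CpxL

section dec

variable {α : Type} [Primcodable α] {f g h : α → ℕ} {F E : α → List ℕ} (N : Set ℕ)

theorem colD (hf : Computable f) (hg : Computable g) : DecIn N fun a => f a ∈ col N (g a) :=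
  DecIn.mem (f := fun a => Nat.pair (g a) (f a)) (by fun_prop)

theorem P1D (hf : Computable f) (hg : Computable g) (hh : Computable h) :
    DecIn N fun a => P1 (col N (h a)) (f a) (g a) :=
  DecIn.or (colD N (by fun_prop) (by fun_prop)) (colD N (by fun_prop) (by fun_prop))

theorem P2D (hf : Computable f) (hg : Computable g) (hh : Computable h) :
    DecIn N fun a => P2 (col N (h a)) (f a) (g a) :=
  DecIn.or (colD N (by fun_prop) (by fun_prop)) (colD N (by fun_prop) (by fun_prop))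

theorem memD {β : Type} [Primcodable β] {x : α → β} {l : α → List β} (hx : Computable x)
    (hl : Computable l) : DecIn N fun a => x a ∈ l a :=
  ⟨REIn.of_re (RE.mem_list hx hl), REIn.of_re (RE.not_mem_list hx hl)⟩

theorem cleanD (hh : Computable h) (hF : Computable F) (hE : Computable E) :
    DecIn N fun a => Clean (col N (h a)) (F a) (E a) := by
  refine DecIn.and ?_ ?_
  · refine DecIn.all_mem (S := fun (a : α) (x : ℕ) => ∀ y ∈ F a ++ E a, x ≠ y →
      ¬ (x ∈ F a ∧ y ∈ F a) → ¬ P1 (col N (h a)) x y) (l := fun a => F a ++ E a) ?_ (by fun_prop)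
    refine DecIn.all_mem (S := fun (a : α × ℕ) (y : ℕ) => a.2 ≠ y →
      ¬ (a.2 ∈ F a.1 ∧ y ∈ F a.1) → ¬ P1 (col N (h a.1)) a.2 y)
      (l := fun a => F a.1 ++ E a.1) ?_ (by fun_prop)
    refine DecIn.imp (DecIn.eq (by fun_prop) (by fun_prop)).not (DecIn.imp (DecIn.not
      (DecIn.and (memD N (by fun_prop) (by fun_prop)) (memD N (by fun_prop) (by fun_prop)))) ?_)
    exact (P1D N (by fun_prop) (by fun_prop) (by fun_prop)).not
  · refine DecIn.all_mem (S := fun (a : α) (x : ℕ) => ∀ y ∈ F a ++ E a, ∀ x' ∈ F a ++ E a,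
      ∀ y' ∈ F a ++ E a, x < y → x' < y' → ¬ (x = x' ∧ y = y') → ¬ (y ∈ F a ∧ y' ∈ F a) →
      ¬ P2 (col N (h a)) (Nat.pair x y) (Nat.pair x' y')) (l := fun a => F a ++ E a) ?_
      (by fun_prop)
    refine DecIn.all_mem (S := fun (a : α × ℕ) (y : ℕ) => ∀ x' ∈ F a.1 ++ E a.1,
      ∀ y' ∈ F a.1 ++ E a.1, a.2 < y → x' < y' → ¬ (a.2 = x' ∧ y = y') →
      ¬ (y ∈ F a.1 ∧ y' ∈ F a.1) → ¬ P2 (col N (h a.1)) (Nat.pair a.2 y) (Nat.pair x' y'))
      (l := fun a => F a.1 ++ E a.1) ?_ (by fun_prop)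
    refine DecIn.all_mem (S := fun (a : (α × ℕ) × ℕ) (x' : ℕ) =>
      ∀ y' ∈ F a.1.1 ++ E a.1.1, a.1.2 < a.2 → x' < y' → ¬ (a.1.2 = x' ∧ a.2 = y') →
      ¬ (a.2 ∈ F a.1.1 ∧ y' ∈ F a.1.1) →
      ¬ P2 (col N (h a.1.1)) (Nat.pair a.1.2 a.2) (Nat.pair x' y'))
      (l := fun a => F a.1.1 ++ E a.1.1) ?_ (by fun_prop)
    refine DecIn.all_mem (S := fun (a : ((α × ℕ) × ℕ) × ℕ) (y' : ℕ) =>
      a.1.1.2 < a.1.2 → a.2 < y' → ¬ (a.1.1.2 = a.2 ∧ a.1.2 = y') →
      ¬ (a.1.2 ∈ F a.1.1.1 ∧ y' ∈ F a.1.1.1) →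
      ¬ P2 (col N (h a.1.1.1)) (Nat.pair a.1.1.2 a.1.2) (Nat.pair a.2 y'))
      (l := fun a => F a.1.1.1 ++ E a.1.1.1) ?_ (by fun_prop)
    refine DecIn.imp (DecIn.lt (by fun_prop) (by fun_prop)) (DecIn.imp
      (DecIn.lt (by fun_prop) (by fun_prop)) (DecIn.imp (DecIn.not (DecIn.and
      (DecIn.eq (by fun_prop) (by fun_prop)) (DecIn.eq (by fun_prop) (by fun_prop))))
      (DecIn.imp (DecIn.not (DecIn.and (memD N (by fun_prop) (by fun_prop))
      (memD N (by fun_prop) (by fun_prop)))) ?_)))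
    exact (P2D N (by fun_prop) (by fun_prop) (by fun_prop)).not

theorem resD (hE : Computable E) (hg : Computable g) :
    DecIn N fun a => ∀ y ∈ E a, y ∈ col N (g a) := by
  refine DecIn.all_mem (S := fun (a : α) (y : ℕ) => y ∈ col N (g a)) ?_ hE
  exact colD N (by fun_prop) (by fun_prop)

/-- some degree is too large -/
theorem degR (hf : Computable f) (hg : Computable g) :
    REIn N fun a => ¬ Deg (col N (f a)) (g a) := by
  have h1 : REIn N fun a => (∃ z : ℕ × List ℕ, z.2.Nodup ∧ g a < z.2.length ∧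
      ∀ y ∈ z.2, y ≠ z.1 ∧ P1 (col N (f a)) z.1 y) ∨
      (∃ z : ℕ × List ℕ, z.2.Nodup ∧ g a < z.2.length ∧
      ∀ y ∈ z.2, y ≠ z.1 ∧ P2 (col N (f a)) z.1 y) := by
    refine REIn.or ?_ ?_
    · refine REIn.ex (S := fun (a : α) (z : ℕ × List ℕ) => z.2.Nodup ∧ g a < z.2.length ∧
        ∀ y ∈ z.2, y ≠ z.1 ∧ P1 (col N (f a)) z.1 y) ?_
      refine REIn.and (REIn.of_re (RE.cp_nodup (by fun_prop)))
        (REIn.and (REIn.of_re (RE.lt (by fun_prop) (by fun_prop))) ?_)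
      refine REIn.all_mem (S := fun (a : α × (ℕ × List ℕ)) (y : ℕ) =>
        y ≠ a.2.1 ∧ P1 (col N (f a.1)) a.2.1 y) (l := fun a => a.2.2) ?_ (by fun_prop)
      exact REIn.and (REIn.of_re (RE.ne (by fun_prop) (by fun_prop)))
        (P1D N (by fun_prop) (by fun_prop) (by fun_prop)).1
    · refine REIn.ex (S := fun (a : α) (z : ℕ × List ℕ) => z.2.Nodup ∧ g a < z.2.length ∧
        ∀ y ∈ z.2, y ≠ z.1 ∧ P2 (col N (f a)) z.1 y) ?_
      refine REIn.and (REIn.of_re (RE.cp_nodup (by fun_prop)))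
        (REIn.and (REIn.of_re (RE.lt (by fun_prop) (by fun_prop))) ?_)
      refine REIn.all_mem (S := fun (a : α × (ℕ × List ℕ)) (y : ℕ) =>
        y ≠ a.2.1 ∧ P2 (col N (f a.1)) a.2.1 y) (l := fun a => a.2.2) ?_ (by fun_prop)
      exact REIn.and (REIn.of_re (RE.ne (by fun_prop) (by fun_prop)))
        (P2D N (by fun_prop) (by fun_prop) (by fun_prop)).1
  refine h1.of_eq fun a => ?_
  unfold Deg
  rw [not_and_or]
  refine or_congr ?_ ?_
  · constructor
    · rintro ⟨z, h2, h3, h4⟩ h5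
      have h6 := h5 z.1 z.2.toFinset fun y hy => h4 y (List.mem_toFinset.1 hy)
      rw [List.toFinset_card_of_nodup h2] at h6
      omega
    · intro h2
      push Not at h2
      obtain ⟨x, S, h3, h4⟩ := h2
      exact ⟨(x, S.toList), S.nodup_toList, by rw [Finset.length_toList]; exact h4,
        fun y hy => h3 y (Finset.mem_toList.1 hy)⟩
  · constructor
    · rintro ⟨z, h2, h3, h4⟩ h5
      have h6 := h5 z.1 z.2.toFinset fun y hy => h4 y (List.mem_toFinset.1 hy)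
      rw [List.toFinset_card_of_nodup h2] at h6
      omega
    · intro h2
      push Not at h2
      obtain ⟨x, S, h3, h4⟩ := h2
      exact ⟨(x, S.toList), S.nodup_toList, by rw [Finset.length_toList]; exact h4,
        fun y hy => h3 y (Finset.mem_toList.1 hy)⟩

/-- the reservoir is not allowed -/
theorem hhR (hF : Computable F) (hf : Computable f) (hg : Computable g) :
    REIn N fun a => ¬ ∀ y ∈ col N (f a), (∀ x ∈ F a, x < y) ∧ HH (col N (g a)) (F a) y := by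
  have h1 : REIn N fun a => ∃ y, y ∈ col N (f a) ∧ ((∃ x, x ∈ F a ∧ y ≤ x) ∨
      ∃ x : ℕ × ℕ, x.1 ∈ F a ∧ x.2 ∈ F a ∧ x.1 ≠ x.2 ∧
        P2 (col N (g a)) (Nat.pair x.1 y) (Nat.pair x.2 y)) := by
    refine REIn.ex (S := fun (a : α) (y : ℕ) => y ∈ col N (f a) ∧ ((∃ x, x ∈ F a ∧ y ≤ x) ∨
      ∃ x : ℕ × ℕ, x.1 ∈ F a ∧ x.2 ∈ F a ∧ x.1 ≠ x.2 ∧
        P2 (col N (g a)) (Nat.pair x.1 y) (Nat.pair x.2 y))) ?_
    refine REIn.and (colD N (by fun_prop) (by fun_prop)).1 (REIn.or ?_ ?_)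
    · refine REIn.of_re (RE.ex (p := fun (a : α × ℕ) (x : ℕ) => x ∈ F a.1 ∧ a.2 ≤ x) ?_)
      exact RE.and (RE.mem_list (by fun_prop) (by fun_prop)) (RE.le (by fun_prop) (by fun_prop))
    · refine REIn.ex (S := fun (a : α × ℕ) (x : ℕ × ℕ) => x.1 ∈ F a.1 ∧ x.2 ∈ F a.1 ∧
        x.1 ≠ x.2 ∧ P2 (col N (g a.1)) (Nat.pair x.1 a.2) (Nat.pair x.2 a.2)) ?_
      refine REIn.and (memD N (by fun_prop) (by fun_prop)).1 (REIn.and
        (memD N (by fun_prop) (by fun_prop)).1 (REIn.and (REIn.of_re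
        (RE.ne (by fun_prop) (by fun_prop))) ?_))
      exact (P2D N (by fun_prop) (by fun_prop) (by fun_prop)).1
  refine h1.of_eq fun a => ?_
  constructor
  · rintro ⟨y, hy, ⟨x, hx, hx2⟩ | ⟨x, hx1, hx2, hx3, hx4⟩⟩ h2
    · have := (h2 y hy).1 x hx
      omega
    · exact (h2 y hy).2 x.1 hx1 x.2 hx2 hx3 hx4
  · intro h2
    by_contra h3
    refine h2 fun y hy => ⟨fun x hx => ?_, fun x hx x' hx' hne hP => ?_⟩
    · by_contra h4
      exact h3 ⟨y, hy, Or.inl ⟨x, hx, by omega⟩⟩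
    · exact h3 ⟨y, hy, Or.inr ⟨(x, x'), hx, hx', hne, hP⟩⟩

/-- a column is not contained in another one -/
theorem subR (hf : Computable f) (hg : Computable g) :
    REIn N fun a => ¬ ∀ y ∈ col N (f a), y ∈ col N (g a) := by
  have h1 : REIn N fun a => ∃ y, y ∈ col N (f a) ∧ y ∉ col N (g a) := by
    refine REIn.ex (S := fun (a : α) (y : ℕ) => y ∈ col N (f a) ∧ y ∉ col N (g a)) ?_
    exact REIn.and (colD N (by fun_prop) (by fun_prop)).1 (colD N (by fun_prop) (by fun_prop)).2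
  refine h1.of_eq fun a => ?_
  push Not
  rfl

theorem disR (hf : Computable f) (hg : Computable g) :
    REIn N fun a => ¬ ∀ y ∈ col N (f a), y ∉ col N (g a) := by
  have h1 : REIn N fun a => ∃ y, y ∈ col N (f a) ∧ y ∈ col N (g a) := by
    refine REIn.ex (S := fun (a : α) (y : ℕ) => y ∈ col N (f a) ∧ y ∈ col N (g a)) ?_
    exact REIn.and (colD N (by fun_prop) (by fun_prop)).1 (colD N (by fun_prop) (by fun_prop)).1
  refine h1.of_eq fun a => ?_
  push Not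
  rfl

end dec

end CpxL

open CpxL

theorem cpx (hjmp : S_JMP) (hevl : S_EVL) (here : S_ERE) : S_CPX := by
  obtain ⟨-, j2, j3, -, j5, -, j7⟩ := hjmp
  intro B M N p q henv e
  set Q := Jn q (Jmp N) with hQ
  have hqQ : Le q Q := (j5 q (Jmp N)).1
  have hJQ : Le (Jmp N) Q := (j5 q (Jmp N)).2
  have hNQ : Le N Q := (j3 N).trans hJQ
  -- predicates enumerable in `N` and their negations are decidable in `Q`
  have up : ∀ {α : Type} [Primcodable α] {S : α → Prop}, REIn N S → DecIn Q S :=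
    fun {α} _ {S} h => DecIn.trans hJQ (j2 N α S h)
  have up' : ∀ {α : Type} [Primcodable α] {S : α → Prop}, REIn N (fun a => ¬ S a) → DecIn Q S :=
    fun {α} _ {S} h => (up h).not.of_eq fun a => not_not
  have hBN : Le B N := by
    obtain ⟨i, rfl⟩ := henv.base
    obtain ⟨j, hj⟩ := henv.jmp
    have h1 : Le (Jmp M) N := by rw [← hj]; exact j7 N j
    exact (j7 M i).trans ((j3 M).trans h1)
  refine ⟨?_, ?_, ?_, ?_, ?_⟩
  · refine DecIn.and (hqQ.comp (by fun_prop)) (DecIn.and (up' ?_) (up' ?_))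
    · exact degR N (by fun_prop) (by fun_prop)
    · exact hhR N (by fun_prop) (by fun_prop) (by fun_prop)
  · -- `Ext`
    have h1 : DecIn Q fun x : (Cnd × Cnd) × List ℕ => (∀ y ∈ x.2, y ∈ col N x.1.2.2.1) ∧
        Clean (col N x.1.2.2.2.1) x.1.2.1 x.2 ∧
        (∀ y ∈ col N x.1.1.2.1, y ∈ col N x.1.2.2.1) ∧
        (∀ y ∈ col N x.1.2.2.2.1, y ∈ col N x.1.1.2.2.1) := by
      refine DecIn.and (DecIn.trans hNQ (resD N (by fun_prop) (by fun_prop)))
        (DecIn.and (DecIn.trans hNQ (cleanD N (by fun_prop) (by fun_prop) (by fun_prop)))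
        (DecIn.and (up' ?_) (up' ?_)))
      · exact subR N (by fun_prop) (by fun_prop)
      · exact subR N (by fun_prop) (by fun_prop)
    constructor
    · refine REIn.ex (S := fun (x : Cnd × Cnd) (E : List ℕ) => x.1.1 = x.2.1 ++ E ∧
        (∀ y ∈ E, y ∈ col N x.2.2.1) ∧ Clean (col N x.2.2.2.1) x.2.1 E ∧
        (∀ y ∈ col N x.1.2.1, y ∈ col N x.2.2.1) ∧
        (∀ y ∈ col N x.2.2.2.1, y ∈ col N x.1.2.2.1)) ?_
      exact REIn.and (REIn.of_re (RE.eq (by fun_prop) (by fun_prop))) h1.1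
    · have h2 : REIn Q fun x : Cnd × Cnd => (∃ i, i < x.2.1.length ∧ x.1.1[i]? ≠ x.2.1[i]?) ∨
          ∃ E : List ℕ, x.1.1 = x.2.1 ++ E ∧ ¬ ((∀ y ∈ E, y ∈ col N x.2.2.1) ∧
            Clean (col N x.2.2.2.1) x.2.1 E ∧ (∀ y ∈ col N x.1.2.1, y ∈ col N x.2.2.1) ∧
            (∀ y ∈ col N x.2.2.2.1, y ∈ col N x.1.2.2.1)) := by
        refine REIn.or (REIn.of_re (RE.ex (p := fun (x : Cnd × Cnd) (i : ℕ) =>
          i < x.2.1.length ∧ x.1.1[i]? ≠ x.2.1[i]?) ?_)) ?_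
        · exact RE.and (RE.lt (by fun_prop) (by fun_prop)) (RE.ne (by fun_prop) (by fun_prop))
        · refine REIn.ex (S := fun (x : Cnd × Cnd) (E : List ℕ) => x.1.1 = x.2.1 ++ E ∧
            ¬ ((∀ y ∈ E, y ∈ col N x.2.2.1) ∧ Clean (col N x.2.2.2.1) x.2.1 E ∧
            (∀ y ∈ col N x.1.2.1, y ∈ col N x.2.2.1) ∧
            (∀ y ∈ col N x.2.2.2.1, y ∈ col N x.1.2.2.1))) ?_
          exact REIn.and (REIn.of_re (RE.eq (by fun_prop) (by fun_prop))) h1.2
      refine h2.of_eq fun x => ?_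
      constructor
      · rintro (⟨i, hi, hne⟩ | ⟨E, hE, hn⟩) ⟨E', h3, h4⟩
        · rw [h3, List.getElem?_append_left hi] at hne
          exact hne rfl
        · have h5 : E = E' := List.append_cancel_left (hE.symm.trans h3)
          subst h5
          exact hn h4
      · intro h3
        by_cases h4 : x.2.1 <+: x.1.1
        · obtain ⟨E, hE⟩ := h4
          exact Or.inr ⟨E, hE.symm, fun h5 => h3 ⟨E, hE.symm, h5⟩⟩
        · left
          by_contra h5
          push Not at h5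
          refine h4 ?_
          rw [List.prefix_iff_getElem?]
          intro i hi
          rw [h5 i hi, List.getElem?_eq_getElem hi]
  · -- `Neg`
    obtain ⟨C, ⟨i, rfl⟩, hC⟩ := here B M N p q henv e
    refine up' ?_
    have h1 : REIn N fun x : ℕ × Cnd => ∃ z : List ℕ × ℕ × ℕ,
        (∀ y ∈ z.1, y ∈ col N x.2.2.1) ∧ Clean (col N x.2.2.2.1) x.2.1 z.1 ∧
        EE B M p e x.1 z.2.1 z.2.2 (x.2.1 ++ z.1) := by
      refine REIn.ex (S := fun (x : ℕ × Cnd) (z : List ℕ × ℕ × ℕ) =>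
        (∀ y ∈ z.1, y ∈ col N x.2.2.1) ∧ Clean (col N x.2.2.2.1) x.2.1 z.1 ∧
        EE B M p e x.1 z.2.1 z.2.2 (x.2.1 ++ z.1)) ?_
      refine REIn.and (resD N (by fun_prop) (by fun_prop)).1
        (REIn.and (cleanD N (by fun_prop) (by fun_prop) (by fun_prop)).1 ?_)
      exact (REIn.trans (j7 N i) hC).comp (f := fun x : (ℕ × Cnd) × (List ℕ × ℕ × ℕ) =>
        ((x.1.1, x.2.2.1, x.2.2.2), x.1.2.1 ++ x.2.1)) (by fun_prop)
    refine h1.of_eq fun x => ?_
    unfold Neg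
    constructor
    · rintro ⟨z, h2, h3, h4⟩ h5
      exact h5 z.1 h2 h3 z.2.1 z.2.2 h4
    · intro h2
      by_contra h3
      exact h2 fun E hE hC v k hEE => h3 ⟨(E, v, k), hE, hC, hEE⟩
  · -- `Pos`
    refine up' ?_
    have h1 : REIn N fun x : (ℕ × ℕ) × Cnd => ∃ E : List ℕ,
        (∀ y ∈ E, y ∈ col N x.2.2.1) ∧ Clean (col N x.2.2.2.1) x.2.1 E ∧
        Ev B e (Nat.pair x.1.1 x.1.2) (x.2.1 ++ E) := by
      refine REIn.ex (S := fun (x : (ℕ × ℕ) × Cnd) (E : List ℕ) =>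
        (∀ y ∈ E, y ∈ col N x.2.2.1) ∧ Clean (col N x.2.2.2.1) x.2.1 E ∧
        Ev B e (Nat.pair x.1.1 x.1.2) (x.2.1 ++ E)) ?_
      refine REIn.and (resD N (by fun_prop) (by fun_prop)).1
        (REIn.and (cleanD N (by fun_prop) (by fun_prop) (by fun_prop)).1 ?_)
      exact (REIn.trans hBN (hevl.2.2.1 B e)).comp (f := fun x : ((ℕ × ℕ) × Cnd) × List ℕ =>
        (Nat.pair x.1.1.1 x.1.1.2, x.1.2.1 ++ x.2)) (by fun_prop)
    refine h1.of_eq fun x => ?_
    unfold Pos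
    push Not
    rfl
  · refine DecIn.or (up' ?_) (up' ?_)
    · exact subR N (by fun_prop) (by fun_prop)
    · exact disR N (by fun_prop) (by fun_prop)

end Pool.Agent.Helper1K9.LT
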