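import Pool.Agent.Helper1K9.LT.Stm3

/-!
# Relay LT: (36) CPY, copies in an omega-model
-/

set_option autoImplicit false

namespace Pool.Agent.Helper1K9.LT

open Encodable Pool.Agent.Helper446 Pool.Agent.Helper446.Defs Pool.Agent.Helper446.RE
  Pool.Agent.Helper446.Oracle Pool.Agent.R623.Dec Pool.Agent.R623.Om Pool.Agent.Helper617.RM

namespace CpyL

/-- finite sets are decidable with every oracle -/
theorem dec_fin (A : Set ℕ) (U : List ℕ) : DecIn A fun n : ℕ => n ∈ U := by
  constructor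
  · exact REIn.of_re (mem_list (f := fun n : ℕ => n) (l := fun _ : ℕ => U) Computable.id
      (Computable.const _))
  · exact REIn.of_re (not_mem_list (f := fun n : ℕ => n) (l := fun _ : ℕ => U)
      Computable.id (Computable.const _))

/-- the set of the codes of a computable function -/
theorem dec_graph (A : Set ℕ) {e : ℕ → ℕ} (he : Computable e) :
    DecIn A fun p : ℕ => ∃ x, p = (x + e x) * (x + e x) + x := by
  have hc : Computable fun x : ℕ × ℕ => (x.2 + e x.2) * (x.2 + e x.2) + x.2 := by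
    have h1 : Computable fun x : ℕ × ℕ => x.2 + e x.2 :=
      (Primrec.nat_add.to_comp : Computable₂ fun a b : ℕ => a + b).comp Computable.snd
        (he.comp Computable.snd)
    exact (Primrec.nat_add.to_comp : Computable₂ fun a b : ℕ => a + b).comp
      ((Primrec.nat_mul.to_comp : Computable₂ fun a b : ℕ => a * b).comp h1 h1) Computable.snd
  constructor
  · apply REIn.of_re
    exact RE.ex (p := fun (p x : ℕ) => p = (x + e x) * (x + e x) + x)
      (RE.eq Computable.fst hc)
  · have h1 : REPred fun p : ℕ => ∀ x < p + 1, p ≠ (x + e x) * (x + e x) + x :=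
      RE.all_lt (p := fun (p x : ℕ) => p ≠ (x + e x) * (x + e x) + x)
        (RE.ne Computable.fst hc) (by fun_prop)
    refine (REIn.of_re h1).of_eq fun p => ?_
    constructor
    · rintro h ⟨x, hx⟩
      exact h x (by omega) hx
    · rintro h x - hx
      exact h ⟨x, hx⟩

theorem sort3 (a b c : ℕ) (h1 : a ≠ b) (h2 : a ≠ c) (h3 : b ≠ c) : ∃ x y z : ℕ, x < y ∧ y < z ∧
    ∀ v : ℕ, (v = x ∨ v = y ∨ v = z) ↔ (v = a ∨ v = b ∨ v = c) :=
  ⟨min (min a b) c, a + b + c - min (min a b) c - max (max a b) c, max (max a b) c,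
    by omega, by omega, fun v => by omega⟩

end CpyL

/-- (36) CPY. -/
theorem cpy : S_CPY := by
  intro I hI R H hH
  have hs : ∀ i j : ℕ, H i j → H j i := hH.symm
  have hir : ∀ i : ℕ, ¬ H i i := hH.irrefl
  let G : SimpleGraph (Fin 3) :=
    { Adj := fun i j => H i j
      symm := ⟨fun i j h => hs _ _ h⟩
      loopless := ⟨fun i h => hir _ h⟩ }
  refine ⟨G, fun F => ?_⟩
  constructor
  · rintro ⟨-, -, e, -, h1, h2, h3, h4⟩
    have g1 : ∀ i : ℕ, i < 3 → e i ∈ F := h1
    have g2 : ∀ y ∈ F, ∃ i : ℕ, i < 3 ∧ e i = y := h2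
    have g3 : ∀ i j : ℕ, i < 3 → j < 3 → e i = e j → i = j := h3
    have g4 : ∀ i j : ℕ, i < 3 → j < 3 → (H i j ↔ R.Adj (e i) (e j)) := h4
    have k01 : ((e (0 : ℕ) : ℕ)) ≠ e (1 : ℕ) := fun h => by
      have := g3 0 1 (by norm_num) (by norm_num) h
      omega
    have k02 : ((e (0 : ℕ) : ℕ)) ≠ e (2 : ℕ) := fun h => by
      have := g3 0 2 (by norm_num) (by norm_num) h
      omega
    have k12 : ((e (1 : ℕ) : ℕ)) ≠ e (2 : ℕ) := fun h => by
      have := g3 1 2 (by norm_num) (by norm_num) h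
      omega
    obtain ⟨x, y, z, hxy, hyz, hv⟩ : ∃ x y z : ℕ, x < y ∧ y < z ∧
        ∀ v : ℕ, (v = x ∨ v = y ∨ v = z) ↔ (v = e (0 : ℕ) ∨ v = e (1 : ℕ) ∨ v = e (2 : ℕ)) :=
      CpyL.sort3 _ _ _ k01 k02 k12
    have hF : F = {x, y, z} := by
      ext v
      simp only [Set.mem_insert_iff, Set.mem_singleton_iff]
      refine Iff.trans ?_ (hv v).symm
      constructor
      · intro hvF
        obtain ⟨i, hi, rfl⟩ := g2 v hvF
        have : i = 0 ∨ i = 1 ∨ i = 2 := by omega
        rcases this with rfl | rfl | rfl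
        · exact Or.inl rfl
        · exact Or.inr (Or.inl rfl)
        · exact Or.inr (Or.inr rfl)
      · rintro (rfl | rfl | rfl)
        · exact g1 0 (by norm_num)
        · exact g1 1 (by norm_num)
        · exact g1 2 (by norm_num)
    refine ⟨(x, y, z), ⟨hxy, hyz, ?_⟩, hF⟩
    show Nonempty (G ≃g R.induce ({x, y, z} : Set ℕ))
    rw [← hF]
    let f : Fin 3 → F := fun i => ⟨e (i : ℕ), g1 i i.2⟩
    have hf : Function.Bijective f := by
      constructor
      · intro i j hij
        have : (e (i : ℕ)) = e (j : ℕ) := congrArg Subtype.val hij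
        exact Fin.ext (g3 i j i.2 j.2 this)
      · rintro ⟨v, hvF⟩
        obtain ⟨i, hi, hie⟩ := g2 v hvF
        exact ⟨⟨i, hi⟩, Subtype.ext hie⟩
    refine ⟨⟨Equiv.ofBijective f hf, ?_⟩⟩
    intro i j
    show R.Adj (e (i : ℕ)) (e (j : ℕ)) ↔ H i j
    exact (g4 i j i.2 j.2).symm
  · rintro ⟨⟨x, y, z⟩, ⟨hxy, hyz, ⟨φ⟩⟩, rfl⟩
    simp only at hxy hyz φ ⊢
    obtain ⟨C, hC⟩ := hI.ne
    set a : ℕ := (φ 0).1 with ha
    set b : ℕ := (φ 1).1 with hb
    set c : ℕ := (φ 2).1 with hc
    let e : ℕ → ℕ := fun i => [a, b, c].getD i 0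
    have hecomp : Computable e := computable_getD' (Computable.const _) Computable.id
    have hval : ∀ i : Fin 3, e (i : ℕ) = (φ i).1 := by
      intro i
      fin_cases i <;> rfl
    refine ⟨?_, ⟨(z + 1 : ℕ), ?_⟩, e, ?_, ?_, ?_, ?_, ?_⟩
    · show ({x, y, z} : Set ℕ) ∈ I
      refine hI.down _ C ((CpyL.dec_fin C [x, y, z]).of_eq fun n => ?_) hC
      simp
    · have h : ∀ v : ℕ, v ∈ ({x, y, z} : Set ℕ) → v < z + 1 := by
        intro v hv
        simp only [Set.mem_insert_iff, Set.mem_singleton_iff] at hv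
        omega
      exact h
    · show {p : ℕ | ∃ x y : ℕ, y = e x ∧ p = (x + y) * (x + y) + x} ∈ I
      refine hI.down _ C ((CpyL.dec_graph C hecomp).of_eq fun p => ?_) hC
      constructor
      · rintro ⟨x, hx⟩
        exact ⟨x, _, rfl, hx⟩
      · rintro ⟨x, _, rfl, hx⟩
        exact ⟨x, hx⟩
    · have h : ∀ i : ℕ, i < 3 → e i ∈ ({x, y, z} : Set ℕ) := by
        intro i hi
        have := hval ⟨i, hi⟩
        simp only at this
        rw [this]
        exact (φ ⟨i, hi⟩).2
      exact h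
    · have h : ∀ v ∈ ({x, y, z} : Set ℕ), ∃ i : ℕ, i < 3 ∧ e i = v := by
        intro v hv
        obtain ⟨i, hi⟩ := φ.surjective ⟨v, hv⟩
        refine ⟨i, i.2, ?_⟩
        rw [hval, hi]
      exact h
    · have h : ∀ i j : ℕ, i < 3 → j < 3 → e i = e j → i = j := by
        intro i j hi hj hij
        have h1 := hval ⟨i, hi⟩
        have h2 := hval ⟨j, hj⟩
        simp only at h1 h2
        rw [h1, h2] at hij
        exact congrArg Fin.val (φ.injective (Subtype.ext hij))
      exact h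
    · have h : ∀ i j : ℕ, i < 3 → j < 3 → (H i j ↔ R.Adj (e i) (e j)) := by
        intro i j hi hj
        have h1 := hval ⟨i, hi⟩
        have h2 := hval ⟨j, hj⟩
        simp only at h1 h2
        rw [h1, h2]
        exact (φ.map_rel_iff (a := ⟨i, hi⟩) (b := ⟨j, hj⟩)).symm
      exact h

end Pool.Agent.Helper1K9.LT
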