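import Pool.Agent.Helper1K9.LT.Stm2

/-!
# Relay LT, leaf CUT: the reservoir can be put inside or outside of any column of `N`
-/

set_option autoImplicit false

namespace Pool.Agent.Helper1K9.LT

open Encodable Pool.Agent.Helper446 Pool.Agent.Helper446.Defs Pool.Agent.Helper446.RE
  Pool.Agent.Helper446.Oracle Pool.Agent.R623.Dec

namespace CutL

theorem clean_nil (Γ : Set ℕ) (F : List ℕ) : Clean Γ F [] := by
  constructor
  · intro x hx y hy _ hn
    rw [List.append_nil] at hx hy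
    exact absurd ⟨hx, hy⟩ hn
  · intro x _ y hy x' _ y' hy' _ _ _ hn
    rw [List.append_nil] at hy hy'
    exact absurd ⟨hy, hy'⟩ hn

/-- replacing the reservoir by a smaller one -/
theorem shrink {N q : Set ℕ} {F : List ℕ} {x x' δ d : ℕ} (hv : Vld N q (F, x, δ, d)) (hx' : x' ∈ q)
    (h : ∀ y ∈ col N x', y ∈ col N x) :
    Vld N q (F, x', δ, d) ∧ Ext N (F, x', δ, d) (F, x, δ, d) :=
  ⟨⟨hx', hv.2.1, fun y hy => hv.2.2 y (h y hy)⟩,
    ⟨[], (List.append_nil F).symm, fun _ hy => absurd hy List.not_mem_nil, clean_nil _ _, h,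
      fun _ hy => hy⟩⟩

end CutL

open CutL

theorem cut : S_CUT := by
  rintro B M N p q hE ⟨F, x, δ, d⟩ j hv
  have hX : col N x ∈ UU N q := ⟨x, hv.1, rfl⟩
  rcases hE.ufN.dich (col N j) ⟨j, rfl⟩ with h | h
  · obtain ⟨x', hx', h'⟩ := hE.ufN.inter _ hX _ h
    have h1 : ∀ y ∈ col N x', y ∈ col N x ∧ y ∈ col N j := fun y hy => by
      rw [h'] at hy
      exact hy
    obtain ⟨h2, h3⟩ := shrink hv hx' fun y hy => (h1 y hy).1
    exact ⟨(F, x', δ, d), h2, h3, Or.inl fun y hy => (h1 y hy).2⟩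
  · obtain ⟨x', hx', h'⟩ := hE.ufN.inter _ hX _ h
    have h1 : ∀ y ∈ col N x', y ∈ col N x ∧ y ∉ col N j := fun y hy => by
      rw [h'] at hy
      exact hy
    obtain ⟨h2, h3⟩ := shrink hv hx' fun y hy => (h1 y hy).1
    exact ⟨(F, x', δ, d), h2, h3, Or.inr fun y hy => (h1 y hy).2⟩

end Pool.Agent.Helper1K9.LT
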