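import Pool.Agent.Helper1K9.LT.Stm2

/-!
# Relay LT, leaf DEC: every sentence is decided
-/

set_option autoImplicit false

namespace Pool.Agent.Helper1K9.LT

namespace DecL

theorem P1_union {Γ Γ' : Set ℕ} {x y : ℕ} : P1 (Γ ∪ Γ') x y ↔ P1 Γ x y ∨ P1 Γ' x y := by
  simp only [P1, Set.mem_union]
  tauto

theorem P2_union {Γ Γ' : Set ℕ} {x y : ℕ} : P2 (Γ ∪ Γ') x y ↔ P2 Γ x y ∨ P2 Γ' x y := by
  simp only [P2, Set.mem_union]
  tauto

theorem Clean.left {Γ Γ' : Set ℕ} {F E : List ℕ} (h : Clean (Γ ∪ Γ') F E) : Clean Γ F E :=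
  ⟨fun x hx y hy hxy hF hP => h.1 x hx y hy hxy hF (P1_union.2 (Or.inl hP)),
    fun x hx y hy x' hx' y' hy' h1 h2 h3 h4 hP =>
      h.2 x hx y hy x' hx' y' hy' h1 h2 h3 h4 (P2_union.2 (Or.inl hP))⟩

theorem Clean.right {Γ Γ' : Set ℕ} {F E : List ℕ} (h : Clean (Γ ∪ Γ') F E) : Clean Γ' F E :=
  ⟨fun x hx y hy hxy hF hP => h.1 x hx y hy hxy hF (P1_union.2 (Or.inr hP)),
    fun x hx y hy x' hx' y' hy' h1 h2 h3 h4 hP =>
      h.2 x hx y hy x' hx' y' hy' h1 h2 h3 h4 (P2_union.2 (Or.inr hP))⟩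

theorem HH.union {Γ Γ' : Set ℕ} {F : List ℕ} {y : ℕ} (h : HH Γ F y) (h' : HH Γ' F y) :
    HH (Γ ∪ Γ') F y := by
  intro x hx x' hx' hne hP
  rcases P2_union.1 hP with h1 | h1
  · exact h x hx x' hx' hne h1
  · exact h' x hx x' hx' hne h1

/-- no conflicts for the points of the new reservoir, when `F ++ E` is clean for the pattern -/
theorem HH_of_pattern {Δ Θ : Set ℕ} {F E : List ℕ} {L y : ℕ} (hF : HH Δ F y)
    (hL : ∀ f ∈ F ++ E, f ≤ L)
    (hpat : ∀ a ≤ L, ∀ b ≤ L, a ≠ b → P2 Δ (Nat.pair a y) (Nat.pair b y) → P1 Θ a b)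
    (hcl : Clean Θ F E) : HH Δ (F ++ E) y := by
  intro a ha b hb hab hP
  by_cases hin : a ∈ F ∧ b ∈ F
  · exact hF a hin.1 b hin.2 hab hP
  · exact hcl.1 a ha b hb hab hin (hpat a (hL a ha) b (hL b hb) hab hP)

theorem list_bound (F : List ℕ) : ∃ L, ∀ f ∈ F, f ≤ L := by
  induction F with
  | nil => exact ⟨0, by simp⟩
  | cons a F ih =>
    obtain ⟨L, hL⟩ := ih
    refine ⟨max a L, fun f hf => ?_⟩
    rcases List.mem_cons.1 hf with rfl | hf
    · exact le_max_left _ _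
    · exact (hL f hf).trans (le_max_right _ _)

end DecL

open DecL in
theorem dec (hNGC : S_NGC) (hPSC : S_PSC) (hPAT : S_PAT) (hSEL : S_SEL) (hDGU : S_DGU)
    (hSCT : S_SCT) (hJMP : S_JMP) : S_DEC := by
  intro B M N p q env e w c hv
  obtain ⟨F, x, δ, d⟩ := c
  obtain ⟨hxq, hdeg, hX⟩ := hv
  simp only at hxq hdeg hX
  obtain ⟨hdu, huni, hint, hcompl⟩ := hDGU
  by_cases hneg : ∃ Γ : Set ℕ, Deg Γ d ∧ (∀ y ∈ col N x, HH Γ F y) ∧
      ∀ E : List ℕ, (∀ y ∈ E, y ∈ col N x) → Clean (col N δ ∪ Γ) F E →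
        ∀ v k, ¬ EE B M p e w v k (F ++ E)
  · -- negative case
    obtain ⟨γ, hγd, hγH, hγ⟩ := hNGC B M N p q env e w F x δ d hneg
    obtain ⟨δ', hδ'⟩ := huni N env.scN δ γ
    refine ⟨(F, x, δ', d + d), ⟨hxq, ?_, ?_⟩, ?_, Or.inl ?_⟩
    · show Deg (col N δ') (d + d)
      rw [hδ']
      exact hdu _ _ _ _ hdeg hγd
    · intro y hy
      refine ⟨(hX y hy).1, ?_⟩
      show HH (col N δ') F y
      rw [hδ']
      exact HH.union (hX y hy).2 (hγH y hy)
    · refine ⟨[], by simp, by simp, ⟨?_, ?_⟩, fun y hy => hy, ?_⟩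
      · intro a ha b hb _ h
        simp only [List.append_nil] at ha hb
        exact absurd ⟨ha, hb⟩ h
      · intro a ha b hb a' ha' b' hb' _ _ _ h
        simp only [List.append_nil] at hb hb'
        exact absurd ⟨hb, hb'⟩ h
      · intro y hy
        show y ∈ col N δ'
        rw [hδ']
        exact Or.inl hy
    · intro E hE hcl v k
      refine hγ E hE ?_ v k
      have h1 : Clean (col N δ') F E := hcl
      rwa [hδ'] at h1
  · -- positive case
    have hpos : ∀ Γ : Set ℕ, Deg Γ d → (∀ y ∈ col N x, HH Γ F y) →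
        ∃ E : List ℕ, (∀ y ∈ E, y ∈ col N x) ∧ Clean (col N δ ∪ Γ) F E ∧
          ∃ v k, EE B M p e w v k (F ++ E) := by
      intro Γ h1 h2
      by_contra hcon
      push Not at hcon
      exact hneg ⟨Γ, h1, h2, fun E h3 h4 v k h5 => hcon E h3 h4 v k h5⟩
    obtain ⟨L0, hL0⟩ := hPSC (fun E => ∃ v k, EE B M p e w v k (F ++ E)) F (col N x) (col N δ) d
      hpos
    obtain ⟨L1, hL1⟩ := list_bound F
    obtain ⟨x', hx'q, Θ, hΘd, hΘ2, hΘ1, hx'X, hpat⟩ :=
      hPAT N q env.scN env.ufN x δ d (max L0 L1) hxq hdeg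
    obtain ⟨E, hEX, hcl, v, k, V, hV, hVD⟩ := hL0 Θ hΘd
      (fun y _ a _ b _ _ hP => hΘ2 _ _ hP)
    have hbd : ∀ f ∈ F ++ E, f ≤ max L0 L1 := by
      intro f hf
      rcases List.mem_append.1 hf with h | h
      · exact (hL1 f h).trans (le_max_right _ _)
      · exact (hEX f h).2.trans (le_max_left _ _)
    -- the new reservoir
    have hVq : V ∈ UU N q := env.sub V hV
    have hxU : col N x' ∈ UU N q := ⟨x', hx'q, rfl⟩
    obtain ⟨i, hiq, hi⟩ := env.ufN.inter _ hxU _ hVq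
    -- `B` is a column of `N`
    have hBN : InN N B := by
      obtain ⟨iB, hiB⟩ := env.base
      obtain ⟨_, _, hle, _, _, _, hcol⟩ := hJMP
      have h1 : Pool.Agent.R623.Dec.Le B (Jmp M) := by
        rw [← hiB]
        exact (hcol M iB).trans (hle M)
      exact hSCT.1 N env.scN B (Jmp M) h1 env.jmp
    obtain ⟨γ, hγd, hγH, hγE⟩ := hSEL N env.scN B hBN e w v k (F ++ E) (col N i) ⟨i, rfl⟩ (by
      intro D hD hQ
      refine hVD D (fun y hy => ?_) hQ
      have := hD y hy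
      rw [hi] at this
      exact this.2)
    obtain ⟨δ', hδ'⟩ := huni N env.scN δ γ
    have hyX : ∀ y ∈ col N i, y ∈ col N x' := by
      intro y hy
      rw [hi] at hy
      exact hy.1
    have habove : ∀ y ∈ col N i, ∀ f ∈ F ++ E, f < y := by
      intro y hy f hf
      exact lt_of_le_of_lt (hbd f hf) (hx'X y (hyX y hy)).2
    refine ⟨(F ++ E, i, δ', d + k), ⟨hiq, ?_, ?_⟩, ?_, Or.inr ⟨v, ?_⟩⟩
    · show Deg (col N δ') (d + k)
      rw [hδ']
      exact hdu _ _ _ _ hdeg hγd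
    · intro y hy
      refine ⟨habove y hy, ?_⟩
      show HH (col N δ') (F ++ E) y
      rw [hδ']
      refine HH.union ?_ (hγH y hy (habove y hy))
      have hy' := hyX y hy
      refine HH_of_pattern (hX y (hx'X y hy').1).2 hbd ?_ (Clean.right hcl)
      intro a ha b hb hab hP
      exact hpat y hy' a ha b hb hab hP
    · refine ⟨E, rfl, fun y hy => (hEX y hy).1, Clean.left hcl, ?_, ?_⟩
      · intro y hy
        exact (hx'X y (hyX y hy)).1
      · intro y hy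
        show y ∈ col N δ'
        rw [hδ']
        exact Or.inl hy
    · intro E' hE' hcl'
      refine hγE E' (fun y hy => ⟨hE' y hy, habove y (hE' y hy)⟩) ?_
      have h1 : Clean (col N δ') (F ++ E) E' := hcl'
      rw [hδ'] at h1
      exact Clean.right h1

end Pool.Agent.Helper1K9.LT
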