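import Pool.Agent.Helper1K9.LT.Stm3

/-!
# Relay LT: the graph of the limit conflicts
-/

set_option autoImplicit false

namespace Pool.Agent.Helper1K9.LT.DelL

open Encodable Pool.Agent.Helper446 Pool.Agent.Helper446.Defs Pool.Agent.Helper446.RE
  Pool.Agent.Helper446.Oracle Pool.Agent.R623.Dec Pool.Agent.Helper1K9.LT

/-- the set of the common values, for the pairs coded in `u` -/
def Z (f : ℕ → ℕ → ℕ → ℕ) (u : ℕ) : Set ℕ :=
  {z | f u.unpair.1.unpair.1 u.unpair.1.unpair.2 z = f u.unpair.2.unpair.1 u.unpair.2.unpair.2 z}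

/-- the graph -/
def Δ (M p : Set ℕ) (f : ℕ → ℕ → ℕ → ℕ) : Set ℕ :=
  {n | n % 2 = 1 ∧ (n / 2).unpair.1.unpair.1 < (n / 2).unpair.1.unpair.2 ∧
    (n / 2).unpair.2.unpair.1 < (n / 2).unpair.2.unpair.2 ∧
    (n / 2).unpair.1 ≠ (n / 2).unpair.2 ∧ Z f (n / 2) ∈ UU M p}

theorem dec_Z {B : Set ℕ} {f : ℕ → ℕ → ℕ → ℕ} (hf : Rec B f) :
    DecIn B fun x : ℕ × ℕ => x.2 ∈ Z f x.1 := by
  exact dec_eq_val (A := B) (α := ℕ × ℕ × ℕ) (β := ℕ) (γ := ℕ × ℕ)
    (f := fun t : ℕ × ℕ × ℕ => f t.1 t.2.1 t.2.2) hf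
    (g := fun c => (c.1.unpair.1.unpair.1, c.1.unpair.1.unpair.2, c.2))
    (k := fun c => (c.1.unpair.2.unpair.1, c.1.unpair.2.unpair.2, c.2)) (by fun_prop) (by fun_prop)

theorem not_disjoint {M p V W : Set ℕ} (h : IsUF M p) (hV : V ∈ UU M p) (hW : W ∈ UU M p) :
    ∃ z ∈ V, z ∈ W := by
  obtain ⟨z, hz⟩ := (h.inf _ (h.inter V hV W hW)).nonempty
  exact ⟨z, hz.1, hz.2⟩

theorem mem_iff {M p V : Set ℕ} (h : IsUF M p) (hV : InN M V) :
    V ∈ UU M p ↔ ∃ i ∈ p, ∀ z, z ∈ col M i → z ∈ V := by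
  constructor
  · rintro ⟨i, hi, h1⟩
    exact ⟨i, hi, fun z hz => h1 ▸ hz⟩
  · rintro ⟨i, hi, h1⟩
    rcases h.dich V hV with h2 | h2
    · exact h2
    · obtain ⟨z, hz1, hz2⟩ := not_disjoint h ⟨i, hi, rfl⟩ h2
      exact absurd (h1 z hz1) hz2

theorem not_mem_iff {M p V : Set ℕ} (h : IsUF M p) (hV : InN M V) :
    V ∉ UU M p ↔ ∃ i ∈ p, ∀ z, z ∈ col M i → z ∉ V := by
  constructor
  · intro h1
    rcases h.dich V hV with h2 | h2
    · exact absurd h2 h1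
    · obtain ⟨i, hi, h3⟩ := h2
      refine ⟨i, hi, fun z hz => ?_⟩
      rw [h3] at hz
      exact hz
  · rintro ⟨i, hi, h1⟩ h2
    obtain ⟨z, hz1, hz2⟩ := not_disjoint h ⟨i, hi, rfl⟩ h2
    exact h1 z hz1 hz2

/-- the predicates `∃ i ∈ p, col M i ⊆ Z` -/
theorem re_ex {M p D : Set ℕ} (hjmp : S_JMP) (hp : Le p D) (hM : Le (Jmp M) D) {S : ℕ → ℕ → Prop}
    (hS : DecIn M fun x : ℕ × ℕ => S x.1 x.2) :
    REIn D fun u : ℕ => ∃ i, i ∈ p ∧ ∀ z, z ∈ col M i → S u z := by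
  have h1 : REIn M fun x : ℕ × ℕ => ∃ z, z ∈ col M x.2 ∧ ¬ S x.1 z := by
    refine REIn.ex (S := fun (x : ℕ × ℕ) (z : ℕ) => z ∈ col M x.2 ∧ ¬ S x.1 z) ?_
    refine REIn.and ?_ (hS.2.comp (f := fun x : (ℕ × ℕ) × ℕ => (x.1.1, x.2)) (by fun_prop))
    exact REIn.mem (f := fun x : (ℕ × ℕ) × ℕ => Nat.pair x.1.2 x.2) (by fun_prop)
  have h2 : REIn (Jmp M) fun x : ℕ × ℕ => ∀ z, z ∈ col M x.2 → S x.1 z := by
    refine (hjmp.2.1 M _ _ h1).2.of_eq fun x => ?_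
    push Not
    rfl
  refine REIn.ex (S := fun (u : ℕ) (i : ℕ) => i ∈ p ∧ ∀ z, z ∈ col M i → S u z) ?_
  exact REIn.and (hp.1.comp (f := fun x : ℕ × ℕ => x.2) (by fun_prop)) (REIn.trans hM h2)

theorem Z_swap (f : ℕ → ℕ → ℕ → ℕ) (s t : ℕ) : Z f (Nat.pair s t) = Z f (Nat.pair t s) := by
  ext z
  simp only [Z, Set.mem_ofPred_eq, Nat.unpair_pair]
  exact eq_comm

end Pool.Agent.Helper1K9.LT.DelL

namespace Pool.Agent.Helper1K9.LT

open Encodable Pool.Agent.Helper446 Pool.Agent.Helper446.Defs Pool.Agent.Helper446.RE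
  Pool.Agent.Helper446.Oracle Pool.Agent.R623.Dec DelL

theorem del : S_SCT → S_JMP → S_DEL := by
  intro hsct hjmp B M N p f k hM hN hB hJ hp huf hf hb
  have hBM : Le B M := by
    obtain ⟨i, rfl⟩ := hB
    exact hjmp.2.2.2.2.2.2 M i
  have hZM : ∀ u, InN M (Z f u) := by
    intro u
    refine hsct.1 M hM (Z f u) B ?_ hB
    exact (dec_Z hf).comp (f := fun z : ℕ => (u, z)) (by fun_prop)
  obtain ⟨D, hD, hpD, hJD⟩ := hsct.2 N hN p (Jmp M) hp hJ
  have hdec : DecIn M fun x : ℕ × ℕ => x.2 ∈ Z f x.1 := DecIn.trans hBM (dec_Z hf)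
  have hU : DecIn D fun u : ℕ => Z f u ∈ UU M p := by
    constructor
    · refine (re_ex hjmp hpD hJD (S := fun u z => z ∈ Z f u) hdec).of_eq fun u => ?_
      exact (mem_iff huf (hZM u)).symm
    · refine (re_ex hjmp hpD hJD (S := fun u z => z ∉ Z f u) hdec.not).of_eq fun u => ?_
      exact (not_mem_iff huf (hZM u)).symm
  have hΔ : InN N (Δ M p f) := by
    refine hsct.1 N hN _ D ?_ hD
    have hd : Computable fun n : ℕ => n / 2 :=
      (Primrec.nat_div.comp Primrec.id (Primrec.const 2)).to_comp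
    have hm : Computable fun n : ℕ => n % 2 :=
      (Primrec.nat_mod.comp Primrec.id (Primrec.const 2)).to_comp
    refine DecIn.and (DecIn.eq hm (by fun_prop)) ?_
    have h1 : DecIn D fun u : ℕ => u.unpair.1.unpair.1 < u.unpair.1.unpair.2 ∧
        u.unpair.2.unpair.1 < u.unpair.2.unpair.2 ∧ u.unpair.1 ≠ u.unpair.2 ∧
        Z f u ∈ UU M p :=
      DecIn.and (DecIn.lt (by fun_prop) (by fun_prop)) (DecIn.and
        (DecIn.lt (by fun_prop) (by fun_prop))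
        (DecIn.and (DecIn.eq (by fun_prop) (by fun_prop)).not hU))
    exact h1.comp hd
  have hP2 : ∀ s t, P2 (Δ M p f) s t → s.unpair.1 < s.unpair.2 ∧ t.unpair.1 < t.unpair.2 ∧
      s ≠ t ∧ Z f (Nat.pair s t) ∈ UU M p := by
    intro s t h
    have hdiv : ∀ a b : ℕ, (2 * Nat.pair a b + 1) / 2 = Nat.pair a b := fun a b => by omega
    rcases h with ⟨-, h1, h2, h3, h4⟩ | ⟨-, h1, h2, h3, h4⟩
    · rw [hdiv, Nat.unpair_pair] at h1 h2 h3
      rw [hdiv] at h4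
      exact ⟨h1, h2, h3, h4⟩
    · rw [hdiv, Nat.unpair_pair] at h1 h2 h3
      rw [hdiv, Z_swap] at h4
      exact ⟨h2, h1, h3.symm, h4⟩
  refine ⟨Δ M p f, hΔ, ⟨?_, ?_⟩, ?_⟩
  · intro x S hS
    rcases S.eq_empty_or_nonempty with rfl | ⟨y, hy⟩
    · simp
    · exfalso
      rcases (hS y hy).2 with h | h <;> have := h.1 <;> omega
  · intro s S hS
    rcases S.eq_empty_or_nonempty with rfl | ⟨t₀, ht₀⟩
    · simp
    have hint : ∀ T : Finset ℕ, (∀ t ∈ T, Z f (Nat.pair s t) ∈ UU M p) → T.Nonempty →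
        ∃ V ∈ UU M p, ∀ z ∈ V, ∀ t ∈ T, z ∈ Z f (Nat.pair s t) := by
      intro T
      induction T using Finset.induction_on with
      | empty => intro _ h; exact absurd h (by simp)
      | insert a T ha ih =>
        intro hT _
        rcases T.eq_empty_or_nonempty with rfl | hne
        · refine ⟨_, hT a (by simp), fun z hz t ht => ?_⟩
          simp only [insert_empty_eq, Finset.mem_singleton] at ht
          rw [ht]
          exact hz
        · obtain ⟨V, hV, hV2⟩ := ih (fun t ht => hT t (Finset.mem_insert_of_mem ht)) hne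
          refine ⟨_, huf.inter _ (hT a (Finset.mem_insert_self a T)) V hV, fun z hz t ht => ?_⟩
          rcases Finset.mem_insert.1 ht with rfl | ht
          · exact hz.1
          · exact hV2 z hz.2 t ht
    obtain ⟨V, hV, hV2⟩ := hint S (fun t ht => (hP2 s t (hS t ht).2).2.2.2) ⟨t₀, ht₀⟩
    obtain ⟨z, hz, hzlt⟩ := (huf.inf V hV).exists_gt (S.sup fun t => t.unpair.2)
    have hcol : ∀ t ∈ S, (t.unpair.1, t.unpair.2, z) ∈ {t : ℕ × ℕ × ℕ | t.1 < t.2.1 ∧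
        t.2.1 < t.2.2 ∧ f t.1 t.2.1 t.2.2 = f s.unpair.1 s.unpair.2 z} := by
      intro t ht
      have h1 := hP2 s t (hS t ht).2
      have h2 := hV2 z hz t ht
      simp only [Z, Set.mem_ofPred_eq, Nat.unpair_pair] at h2
      exact ⟨h1.2.1, lt_of_le_of_lt (Finset.le_sup (f := fun t : ℕ => t.unpair.2) ht) hzlt,
        h2.symm⟩
    have h3 : ((S.image fun t : ℕ => (t.unpair.1, t.unpair.2, z) : Finset (ℕ × ℕ × ℕ)) :
        Set (ℕ × ℕ × ℕ)) ⊆ {t : ℕ × ℕ × ℕ | t.1 < t.2.1 ∧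
        t.2.1 < t.2.2 ∧ f t.1 t.2.1 t.2.2 = f s.unpair.1 s.unpair.2 z} := by
      intro a ha
      obtain ⟨t, ht, rfl⟩ := Finset.mem_image.1 (Finset.mem_coe.1 ha)
      exact hcol t ht
    have h4 := (Set.encard_le_encard h3).trans (hb _)
    rw [Set.encard_coe_eq_coe_finsetCard, Finset.card_image_of_injective] at h4
    · exact_mod_cast h4
    · intro a b hab
      simp only [Prod.mk.injEq] at hab
      rw [← Nat.pair_unpair a, ← Nat.pair_unpair b, hab.1, hab.2.1]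
  · intro x y x' y' hxy hxy' hne hnP
    have h1 : Z f (Nat.pair (Nat.pair x y) (Nat.pair x' y')) ∉ UU M p := by
      intro h2
      refine hnP (Or.inl ⟨by omega, ?_⟩)
      have hdiv : (2 * Nat.pair (Nat.pair x y) (Nat.pair x' y') + 1) / 2 =
        Nat.pair (Nat.pair x y) (Nat.pair x' y') := by omega
      rw [hdiv]
      simp only [Nat.unpair_pair]
      refine ⟨hxy, hxy', ?_, h2⟩
      intro h3
      have h4 := congrArg Nat.unpair h3
      simp only [Nat.unpair_pair, Prod.mk.injEq] at h4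
      exact hne h4
    obtain ⟨i, hi, h2⟩ := (not_mem_iff huf (hZM _)).1 h1
    refine ⟨col M i, ⟨i, hi, rfl⟩, fun z hz => ?_⟩
    have h3 := h2 z hz
    simp only [Z, Set.mem_ofPred_eq, Nat.unpair_pair] at h3
    exact h3

end Pool.Agent.Helper1K9.LT
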