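import Pool.Agent.Helper1K9.LT.Dec

/-!
# Relay LT, leaf DEN: density of evidence
-/

set_option autoImplicit false

namespace Pool.Agent.Helper1K9.LT

open DecL in
theorem den (hGAP : S_GAP) (hQRE : S_QRE) (hPAT : S_PAT) (hDGU : S_DGU) : S_DEN := by
  intro B M N p q env e w c hneg c' hv hext v
  obtain ⟨E0, hE0, hE0X, hcl0, -, -⟩ := hext
  have hnE : ∀ v k, ¬ EE B M p e w v k c'.1 := by
    intro v k
    rw [hE0]
    exact hneg E0 hE0X hcl0 v k
  clear hE0 hE0X hcl0 hneg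
  obtain ⟨F, x, δ, d⟩ := c'
  obtain ⟨hxq, hdeg, hX⟩ := hv
  simp only at hxq hdeg hX hnE
  obtain ⟨hdu, huni, hint, hcompl⟩ := hDGU
  obtain ⟨i, hi⟩ := env.base
  have h1 : ∀ V ∈ UU M p, ∃ D : List ℕ, (∀ x ∈ D, x ∈ V) ∧ QQ B e w v (d + d) F D := by
    intro V hV
    by_contra hcon
    push Not at hcon
    exact hnE v (d + d) ⟨V, hV, fun D hD hQ => hcon D hD hQ⟩
  have hre : Pool.Agent.Helper446.Oracle.REIn (col M i) fun D : List ℕ =>
      QQ B e w v (d + d) F D := by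
    rw [hi]
    have h2 := (hQRE B e).comp (f := fun D : List ℕ => (((w, v, d + d), F, D) :
      (ℕ × ℕ × ℕ) × List ℕ × List ℕ)) (by
        exact Computable.pair (Computable.const _)
          (Computable.pair (Computable.const _) Computable.id))
    exact h2
  have hgood : Good M p (col N x) := env.good _ ⟨x, hxq, rfl⟩
  obtain ⟨D, hDX, hQ⟩ := hGAP M p i (fun D => QQ B e w v (d + d) F D) hre h1 (col N x) hgood
  obtain ⟨L0, hL0⟩ := list_bound D
  obtain ⟨L1, hL1⟩ := list_bound F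
  obtain ⟨x', hx'q, Θ, hΘd, hΘ2, hΘ1, hx'X, hpat⟩ :=
    hPAT N q env.scN env.ufN x δ d (max L0 L1) hxq hdeg
  obtain ⟨E, hE, hcl, hev⟩ := hQ (col N δ ∪ Θ) (hdu _ _ _ _ hdeg hΘd) (by
    intro y hy _
    exact HH.union (hX y (hDX y hy)).2 fun a _ b _ _ hP => hΘ2 _ _ hP)
  have hbd : ∀ f ∈ F ++ E, f ≤ max L0 L1 := by
    intro f hf
    rcases List.mem_append.1 hf with h | h
    · exact (hL1 f h).trans (le_max_right _ _)
    · exact (hL0 f (hE f h).1).trans (le_max_left _ _)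
  refine ⟨(F ++ E, x', δ, d), ⟨hx'q, hdeg, ?_⟩, ?_, hev⟩
  · intro y hy
    refine ⟨fun f hf => lt_of_le_of_lt (hbd f hf) (hx'X y hy).2, ?_⟩
    refine HH_of_pattern (hX y (hx'X y hy).1).2 hbd ?_ (Clean.right hcl)
    intro a ha b hb hab hP
    exact hpat y hy a ha b hb hab hP
  · refine ⟨E, rfl, fun y hy => hDX y (hE y hy).1, Clean.left hcl, ?_, fun y hy => hy⟩
    intro y hy
    exact (hx'X y hy).1

end Pool.Agent.Helper1K9.LT
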