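import Pool.Agent.Helper1K9.LT.Stm2

/-!
# Relay LT, leaf DGU: degrees of unions; unions, intersections, complements of columns
-/

set_option autoImplicit false

namespace Pool.Agent.Helper1K9.LT

open Encodable Pool.Agent.Helper446 Pool.Agent.Helper446.Defs Pool.Agent.Helper446.RE
  Pool.Agent.Helper446.Oracle Pool.Agent.R623.Dec

namespace DguL

theorem P1_union {Γ Γ' : Set ℕ} {x y : ℕ} (h : P1 (Γ ∪ Γ') x y) : P1 Γ x y ∨ P1 Γ' x y := by
  rcases h with (h | h) | (h | h)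
  · exact Or.inl (Or.inl h)
  · exact Or.inr (Or.inl h)
  · exact Or.inl (Or.inr h)
  · exact Or.inr (Or.inr h)

theorem P2_union {Γ Γ' : Set ℕ} {x y : ℕ} (h : P2 (Γ ∪ Γ') x y) : P2 Γ x y ∨ P2 Γ' x y := by
  rcases h with (h | h) | (h | h)
  · exact Or.inl (Or.inl h)
  · exact Or.inr (Or.inl h)
  · exact Or.inl (Or.inr h)
  · exact Or.inr (Or.inr h)

theorem deg_union {Γ Γ' : Set ℕ} {d d' : ℕ} (h : Deg Γ d) (h' : Deg Γ' d') :
    Deg (Γ ∪ Γ') (d + d') := by
  classical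
  constructor
  · intro x S hS
    have h1 : S ⊆ S.filter (fun y => P1 Γ x y) ∪ S.filter (fun y => P1 Γ' x y) := by
      intro y hy
      rcases P1_union (hS y hy).2 with h2 | h2
      · exact Finset.mem_union_left _ (Finset.mem_filter.2 ⟨hy, h2⟩)
      · exact Finset.mem_union_right _ (Finset.mem_filter.2 ⟨hy, h2⟩)
    refine (Finset.card_le_card h1).trans ((Finset.card_union_le _ _).trans (Nat.add_le_add ?_ ?_))
    · exact h.1 x _ fun y hy => ⟨(hS y (Finset.mem_filter.1 hy).1).1, (Finset.mem_filter.1 hy).2⟩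
    · exact h'.1 x _ fun y hy => ⟨(hS y (Finset.mem_filter.1 hy).1).1, (Finset.mem_filter.1 hy).2⟩
  · intro x S hS
    have h1 : S ⊆ S.filter (fun y => P2 Γ x y) ∪ S.filter (fun y => P2 Γ' x y) := by
      intro y hy
      rcases P2_union (hS y hy).2 with h2 | h2
      · exact Finset.mem_union_left _ (Finset.mem_filter.2 ⟨hy, h2⟩)
      · exact Finset.mem_union_right _ (Finset.mem_filter.2 ⟨hy, h2⟩)
    refine (Finset.card_le_card h1).trans ((Finset.card_union_le _ _).trans (Nat.add_le_add ?_ ?_))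
    · exact h.2 x _ fun y hy => ⟨(hS y (Finset.mem_filter.1 hy).1).1, (Finset.mem_filter.1 hy).2⟩
    · exact h'.2 x _ fun y hy => ⟨(hS y (Finset.mem_filter.1 hy).1).1, (Finset.mem_filter.1 hy).2⟩

end DguL

open DguL

theorem dgu (hJ : S_JMP) (hS : S_SCT) : S_DGU := by
  obtain ⟨-, -, -, -, hJn, -, -⟩ := hJ
  refine ⟨fun Γ Γ' d d' h h' => deg_union h h', fun N hN i j => ?_, fun N hN i j => ?_,
    fun N hN i => ?_⟩
  · obtain ⟨k, hk⟩ := hN.join i j
    obtain ⟨l, hl⟩ := hS.1 N hN (col N i ∪ col N j) (Jn (col N i) (col N j))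
      (DecIn.or (hJn _ _).1 (hJn _ _).2) ⟨k, hk.symm⟩
    exact ⟨l, hl⟩
  · obtain ⟨k, hk⟩ := hN.join i j
    obtain ⟨l, hl⟩ := hS.1 N hN (col N i ∩ col N j) (Jn (col N i) (col N j))
      (DecIn.and (hJn _ _).1 (hJn _ _).2) ⟨k, hk.symm⟩
    exact ⟨l, hl⟩
  · obtain ⟨l, hl⟩ := hS.1 N hN (col N i)ᶜ (col N i)
      (DecIn.not (Le.refl (col N i))) ⟨i, rfl⟩
    exact ⟨l, hl⟩

end Pool.Agent.Helper1K9.LT
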