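import Pool.Agent.Helper1K9.LT.Stm1

/-!
# Relay LT: statements of block 3 (the forcing)
-/

set_option autoImplicit false

namespace Pool.Agent.Helper1K9.LT

open Encodable Pool.Agent.Helper446 Pool.Agent.Helper446.Defs Pool.Agent.Helper446.RE
  Pool.Agent.Helper446.Oracle Pool.Agent.R623.Dec

/-- the general situation of the forcing -/
structure Env (B M N p q : Set ℕ) : Prop where
  scM : Scott M
  scN : Scott N
  base : InN M B
  jmp : InN N (Jmp M)
  inp : InN N p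
  ufM : IsUF M p
  ufN : IsUF N q
  good : ∀ X ∈ UU N q, Good M p X
  sub : ∀ V ∈ UU M p, V ∈ UU N q

/-- (12) EVL. Evidence and truth. -/
def S_EVL : Prop :=
  (∀ (B : Set ℕ) (e n : ℕ) (F : List ℕ) (G : Set ℕ), (∀ x ∈ F, x ∈ G) →
    (∀ g ∈ G, g ∉ F → ∀ f ∈ F, f < g) → Ev B e n F → U (Jn B G) e n) ∧
  (∀ (B : Set ℕ) (e n : ℕ) (G : Set ℕ), U (Jn B G) e n → ∃ m, ∀ F : List ℕ, (∀ x ∈ F, x ∈ G) →
    (∀ g ∈ G, g ∉ F → ∀ f ∈ F, f < g) → (∃ f ∈ F, m ≤ f) → Ev B e n F) ∧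
  (∀ (B : Set ℕ) (e : ℕ), REIn B fun x : ℕ × List ℕ => Ev B e x.1 x.2) ∧
  (∀ (B : Set ℕ) (e n : ℕ) (F E : List ℕ), (∀ y ∈ E, ∀ f ∈ F, f < y) → Ev B e n F →
    Ev B e n (F ++ E))

/-- (13) QRE. `QQ` is enumerable in `B`. (Only the part of `Γ` below a bound computed from `F` and `D`
matters, and only finitely many `E` (sublists of `D` up to permutation and repetition): `Clean`,
`Ev` depend only on the set of members of `E`.) -/
def S_QRE : Prop :=
  ∀ (B : Set ℕ) (e : ℕ), REIn B fun x : (ℕ × ℕ × ℕ) × List ℕ × List ℕ =>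
    QQ B e x.1.1 x.1.2.1 x.1.2.2 x.2.1 x.2.2

/-- (14) SEL. If `Y` contains no finite set `D` as in `QQ` then there is one graph in `N` which shows
this for all finite subsets of `Y`. (Compactness of the space of graphs gives some graph; the set of
these graphs is a `Π⁰₁` class relative to the join of `B` and `Y`; use `Scott.basis`.) -/
def S_SEL : Prop :=
  ∀ N : Set ℕ, Scott N → ∀ B, InN N B → ∀ (e w v k : ℕ) (F : List ℕ) (Y : Set ℕ), InN N Y →
    (∀ D : List ℕ, (∀ x ∈ D, x ∈ Y) → ¬ QQ B e w v k F D) →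
    ∃ γ, Deg (col N γ) k ∧ (∀ y ∈ Y, (∀ f ∈ F, f < y) → HH (col N γ) F y) ∧
      ∀ E : List ℕ, (∀ x ∈ E, x ∈ Y ∧ ∀ f ∈ F, f < x) → Clean (col N γ) F E →
        ¬ Ev B e (Nat.pair w v) (F ++ E)

/-- (15) ERE. `EE` is enumerable in a column of `N`. (`∃ i ∈ p`, no finite subset `D` of `col M i` has
`QQ`: this is decidable in `Jmp M`.) -/
def S_ERE : Prop :=
  ∀ B M N p q : Set ℕ, Env B M N p q → ∀ e, ∃ C, InN N C ∧
    REIn C fun x : (ℕ × ℕ × ℕ) × List ℕ => EE B M p e x.1.1 x.1.2.1 x.1.2.2 x.2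

/-- (16) PAT. The ultrafilter decides the pattern of the pair edges `(a, y) — (b, y)` for
`a, b ≤ L`. -/
def S_PAT : Prop :=
  ∀ N q : Set ℕ, Scott N → IsUF N q → ∀ x δ d L : ℕ, x ∈ q → Deg (col N δ) d →
    ∃ x' ∈ q, ∃ Θ : Set ℕ, Deg Θ d ∧ (∀ s t, ¬ P2 Θ s t) ∧
      (∀ a b, P1 Θ a b → a ≠ b ∧ a ≤ L ∧ b ≤ L) ∧
      (∀ y ∈ col N x', y ∈ col N x ∧ L < y) ∧
      ∀ y ∈ col N x', ∀ a ≤ L, ∀ b ≤ L, a ≠ b →
        P2 (col N δ) (Nat.pair a y) (Nat.pair b y) → P1 Θ a b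

/-- (17) NGC. The negative case of the decision lemma: the graph can be chosen in `N`. (`Π⁰₁` class
relative to a column of `N`.) -/
def S_NGC : Prop :=
  ∀ B M N p q : Set ℕ, Env B M N p q → ∀ (e w : ℕ) (F : List ℕ) (x δ d : ℕ),
    (∃ Γ : Set ℕ, Deg Γ d ∧ (∀ y ∈ col N x, HH Γ F y) ∧
      ∀ E : List ℕ, (∀ y ∈ E, y ∈ col N x) → Clean (col N δ ∪ Γ) F E →
        ∀ v k, ¬ EE B M p e w v k (F ++ E)) →
    ∃ γ, Deg (col N γ) d ∧ (∀ y ∈ col N x, HH (col N γ) F y) ∧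
      ∀ E : List ℕ, (∀ y ∈ E, y ∈ col N x) → Clean (col N δ ∪ col N γ) F E →
        ∀ v k, ¬ EE B M p e w v k (F ++ E)

/-- (18) PSC. The positive case of the decision lemma: a bound, by compactness (`S` is an arbitrary
set of lists, here `S E := ∃ v k, EE B M p e w v k (F ++ E)`). -/
def S_PSC : Prop :=
  ∀ (S : List ℕ → Prop) (F : List ℕ) (X Δ : Set ℕ) (d : ℕ),
    (∀ Γ : Set ℕ, Deg Γ d → (∀ y ∈ X, HH Γ F y) →
      ∃ E : List ℕ, (∀ y ∈ E, y ∈ X) ∧ Clean (Δ ∪ Γ) F E ∧ S E) →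
    ∃ L, ∀ Γ : Set ℕ, Deg Γ d → (∀ y ∈ X, HH Γ F y) →
      ∃ E : List ℕ, (∀ y ∈ E, y ∈ X ∧ y ≤ L) ∧ Clean (Δ ∪ Γ) F E ∧ S E

/-- (19) DGU. Degrees of unions; unions of columns. -/
def S_DGU : Prop :=
  (∀ (Γ Γ' : Set ℕ) (d d' : ℕ), Deg Γ d → Deg Γ' d' → Deg (Γ ∪ Γ') (d + d')) ∧
  (∀ N : Set ℕ, Scott N → ∀ i j, ∃ k, col N k = col N i ∪ col N j) ∧
  (∀ N : Set ℕ, Scott N → ∀ i j, ∃ k, col N k = col N i ∩ col N j) ∧
  (∀ N : Set ℕ, Scott N → ∀ i, ∃ k, col N k = (col N i)ᶜ)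

/-- (20) TRN. `Ext` is reflexive and transitive, the forcing relations persist. -/
def S_TRN : Prop :=
  ∀ B M N p q : Set ℕ,
    (∀ c, Ext N c c) ∧
    (∀ c c' c'', Vld N q c' → Ext N c' c → Ext N c'' c' → Ext N c'' c) ∧
    (∀ e w c c', Vld N q c' → Ext N c' c → Neg B M N p e w c → Neg B M N p e w c') ∧
    (∀ e w v c c', Vld N q c' → Ext N c' c → Pos B N e w v c → Pos B N e w v c')

/-- (21) DEC. Every sentence is decided. Proof: let `c = (F, x, δ, d)`.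
Question: for all `Γ` with `Deg Γ d`, `HH Γ F y` for `y ∈ col N x`, is there `E ⊆ col N x`,
`Clean (col N δ ∪ Γ) F E` with `EE (F ++ E)` for some `v, k`?
If not, take `γ` from `S_NGC` and the condition `(F, x, index of (col N δ ∪ col N γ), d + d)`, which
forces `Neg`.
If yes, take the bound `L` (enlarged to be `≥` all elements of `F`) from `S_PSC`, `x', Θ` from
`S_PAT`, apply the bounded question to `Γ := Θ`; get `E, v, k` and `V` in the ultrafilter `UU M p`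
(hence in `UU N q`) without `D`; by `S_SEL` get `γ` with `Deg (col N γ) k`; the new condition is
`(F ++ E, index of col N x' ∩ V, index of col N δ ∪ col N γ, d + k)`: it is valid, because `F ++ E` is
clean for `Θ` and `Θ` is the pattern (note that there are no edges of `Θ` inside `F` which matter:
for `a, b ∈ F` validity of `c` gives `HH (col N δ) F y`), and it forces `Pos v`. -/
def S_DEC : Prop :=
  ∀ B M N p q : Set ℕ, Env B M N p q → ∀ (e w : ℕ) (c : Cnd), Vld N q c →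
    ∃ c', Vld N q c' ∧ Ext N c' c ∧ (Neg B M N p e w c' ∨ ∃ v, Pos B N e w v c')

/-- (22) DEN. If `c` forces `Neg` then every valid extension `c' = (F, x, δ, d)` has a valid extension
with evidence for `v`. Proof: `EE` fails for `F`, `v` and `k := d + d`, so every `V ∈ UU M p` contains
a finite `D` with `QQ ... D`; `col N x` is good, so it contains such a `D` (`S_GAP` with `S_QRE`). Take
`L` above `D` and `F`, `x', Θ` from `S_PAT` and apply `QQ` to `Γ := col N δ ∪ Θ`; the new condition is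
`(F ++ E, x', δ, d)`. -/
def S_DEN : Prop :=
  ∀ B M N p q : Set ℕ, Env B M N p q → ∀ (e w : ℕ) (c : Cnd), Neg B M N p e w c →
    ∀ c', Vld N q c' → Ext N c' c → ∀ v, ∃ c'', Vld N q c'' ∧ Ext N c'' c' ∧
      Ev B e (Nat.pair w v) c''.1

/-- (23) GRW. The finite part can grow: for `c = (F, x, δ, d)` there is a bound `K` (depending on the
length of `F` and on `d` only) such that for every graph `Θ` of points as in `S_PAT` at most `K`
points `y` above `F` with `HH (col N δ) F y` are not clean for `col N δ ∪ Θ` over `F`; choose `L` such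
that `col N x` has more than `K` elements `≤ L`. -/
def S_GRW : Prop :=
  ∀ B M N p q : Set ℕ, Env B M N p q → ∀ c : Cnd, Vld N q c →
    ∃ c', Vld N q c' ∧ Ext N c' c ∧ ∃ y ∈ c'.1, y ∉ c.1

/-- (24) CUT. The reservoir can be put inside or outside of any column of `N`. -/
def S_CUT : Prop :=
  ∀ B M N p q : Set ℕ, Env B M N p q → ∀ (c : Cnd) (j : ℕ), Vld N q c →
    ∃ c', Vld N q c' ∧ Ext N c' c ∧ ((∀ y ∈ col N c'.2.1, y ∈ col N j) ∨
      ∀ y ∈ col N c'.2.1, y ∉ col N j)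

/-- (25) CPX. Everything is decidable in the join of `q` and `Jmp N`. (`Vld`, `Ext`, `Pos` and the
last one are `Π⁰₁` relative to `N`, apart from `x ∈ q`; `Neg` is `Π⁰₁` relative to `N` by
`S_ERE`.) -/
def S_CPX : Prop :=
  ∀ B M N p q : Set ℕ, Env B M N p q → ∀ e,
    DecIn (Jn q (Jmp N)) (fun c : Cnd => Vld N q c) ∧
    DecIn (Jn q (Jmp N)) (fun x : Cnd × Cnd => Ext N x.1 x.2) ∧
    DecIn (Jn q (Jmp N)) (fun x : ℕ × Cnd => Neg B M N p e x.1 x.2) ∧
    DecIn (Jn q (Jmp N)) (fun x : (ℕ × ℕ) × Cnd => Pos B N e x.1.1 x.1.2 x.2) ∧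
    DecIn (Jn q (Jmp N)) (fun x : ℕ × Cnd => (∀ y ∈ col N x.2.2.1, y ∈ col N x.1) ∨
      ∀ y ∈ col N x.2.2.1, y ∉ col N x.1)

/-- (26) GEN. The abstract generic construction: a sequence of conditions, computable in `Jmp Q`. Stage
`n`: (i) if some valid extension `c` of the current condition has `Ng (pair n u) c` for some `u`
(this question is decidable in `Jmp Q`), go to the first such `c` and put `n` into `A`; (ii) decide
the sentence `n`; (iii) for all `w, v ≤ n` with `Ng w` for the current condition go to an extension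
with `W w v`; (iv) task `n`. -/
def S_GEN : Prop :=
  ∀ (α : Type) [Primcodable α] (Q : Set ℕ) (V : α → Prop) (X : α → α → Prop)
    (Ng : ℕ → α → Prop) (Ps : ℕ → ℕ → α → Prop) (W : ℕ → ℕ → α → Prop) (T : ℕ → α → Prop) (c0 : α),
    DecIn Q V → DecIn Q (fun x : α × α => X x.1 x.2) → DecIn Q (fun x : ℕ × α => Ng x.1 x.2) →
    DecIn Q (fun x : (ℕ × ℕ) × α => Ps x.1.1 x.1.2 x.2) →
    REIn (Jmp Q) (fun x : (ℕ × ℕ) × α => W x.1.1 x.1.2 x.2) →
    REIn (Jmp Q) (fun x : ℕ × α => T x.1 x.2) →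
    (∀ c, X c c) → (∀ c c' c'', V c' → X c' c → X c'' c' → X c'' c) →
    (∀ w c c', V c' → X c' c → Ng w c → Ng w c') →
    (∀ w v c c', V c' → X c' c → Ps w v c → Ps w v c') →
    (∀ w v c c', V c' → X c' c → W w v c → W w v c') →
    (∀ j c c', V c' → X c' c → T j c → T j c') →
    (∀ w c, V c → ∃ c', V c' ∧ X c' c ∧ (Ng w c' ∨ ∃ v, Ps w v c')) →
    (∀ w v c, V c → Ng w c → ∃ c', V c' ∧ X c' c ∧ W w v c') →
    (∀ j c, V c → ∃ c', V c' ∧ X c' c ∧ T j c') →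
    V c0 →
    ∃ (s : ℕ → α) (A : Set ℕ), Le A (Jmp Q) ∧ s 0 = c0 ∧ (∀ n, V (s n)) ∧
      (∀ n, X (s (n + 1)) (s n)) ∧ (∀ w, ∃ n, Ng w (s n) ∨ ∃ v, Ps w v (s n)) ∧
      (∀ w v m, Ng w (s m) → ∃ n, m ≤ n ∧ W w v (s n)) ∧ (∀ j, ∃ n, T j (s n)) ∧
      ∀ k, (k ∈ A → ∃ n u, Ng (Nat.pair k u) (s n)) ∧
        (k ∉ A → ∃ n, ∀ c, V c → X c (s n) → ∀ u, ¬ Ng (Nat.pair k u) c)

/-- (27) GGG. The generic set. For every base `B`, coded Scott sets `M, N` and `p` as below, and every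
graph `Δ` in `N` of bounded degree there is an infinite set `G` which is almost contained in every
member of `UU M p`, free of pair edges of `Δ`, and low₃ over `B`. (From `S_UF2`, `S_CPX`, `S_GEN`,
`S_J3`, `S_EVL`, `S_DEC`, `S_DEN`, `S_GRW`, `S_CUT`, `S_TRN`: `Q := Jn q (Jmp N)`, the start condition
is `([], index of the set of all numbers, δ, d)`, tasks: `2j`: some element `≥ j` in the finite part;
`2j+1`: `S_CUT` for `col N j`; `G` is the union of the finite parts.) -/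
def S_GGG : Prop :=
  ∀ B M N p : Set ℕ, Scott M → Scott N → InN M B → InN N (Jmp M) → InN N p → IsUF M p →
    Le (Jmp M) (Jmp B) → Le (Jmp N) (Jmp (Jmp M)) →
    ∀ (Δ : Set ℕ) (d : ℕ), InN N Δ → Deg Δ d → ∃ G : Set ℕ, G.Infinite ∧
      (∀ V ∈ UU M p, ∃ n, ∀ x ∈ G, n ≤ x → x ∈ V) ∧
      (∀ x ∈ G, ∀ y ∈ G, ∀ x' ∈ G, ∀ y' ∈ G, x < y → x' < y' → ¬ (x = x' ∧ y = y') →
        ¬ P2 Δ (Nat.pair x y) (Nat.pair x' y')) ∧
      Le (Jmp (Jmp (Jmp (Jn B G)))) (Jmp (Jmp (Jmp B)))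

end Pool.Agent.Helper1K9.LT
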