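import Pool.Agent.Helper1K9.LT.RuG
import Pool.Agent.Helper1K9.LT.Stm2

/-!
# LT (15) ERE
-/

set_option autoImplicit false

namespace Pool.Agent.Helper1K9.LT

open Encodable Pool.Agent.Helper446 Pool.Agent.Helper446.Defs Pool.Agent.Helper446.RE
  Pool.Agent.Helper446.Oracle Pool.Agent.R623.Dec

theorem EreL.iff {B M p : Set ℕ} {e w v k : ℕ} {F : List ℕ} : EE B M p e w v k F ↔
    ∃ i, i ∈ p ∧ ¬ ∃ E : List ℕ, (∀ y ∈ E, Nat.pair i y ∈ M) ∧ QQ B e w v k F E := by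
  unfold EE UU
  constructor
  · rintro ⟨V, ⟨i, hi, rfl⟩, h⟩
    exact ⟨i, hi, fun ⟨E, h1, h2⟩ => h E h1 h2⟩
  · rintro ⟨i, hi, h⟩
    exact ⟨col M i, ⟨i, hi, rfl⟩, fun D h1 h2 => h ⟨D, h1, h2⟩⟩

theorem EreL.qq_re (hQ : S_QRE) {B M : Set ℕ} (hBM : Le B M) (e : ℕ) :
    REIn M fun x : ((ℕ × ℕ × ℕ) × List ℕ) × ℕ => ∃ E : List ℕ, (∀ y ∈ E, Nat.pair x.2 y ∈ M) ∧
      QQ B e x.1.1.1 x.1.1.2.1 x.1.1.2.2 x.1.2 E := by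
  refine REIn.ex (S := fun (x : ((ℕ × ℕ × ℕ) × List ℕ) × ℕ) (E : List ℕ) =>
    (∀ y ∈ E, Nat.pair x.2 y ∈ M) ∧ QQ B e x.1.1.1 x.1.1.2.1 x.1.1.2.2 x.1.2 E) ?_
  refine REIn.and ?_ ?_
  · refine REIn.all_mem (S := fun (x : (((ℕ × ℕ × ℕ) × List ℕ) × ℕ) × List ℕ) (y : ℕ) =>
      Nat.pair x.1.2 y ∈ M) (l := fun x => x.2) ?_ (by fun_prop)
    exact REIn.mem (by fun_prop)
  · exact (REIn.trans hBM (hQ B e)).comp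
      (f := fun x : (((ℕ × ℕ × ℕ) × List ℕ) × ℕ) × List ℕ => (x.1.1.1, x.1.1.2, x.2))
      (by fun_prop)

theorem ere : S_QRE → S_JMP → S_SCT → S_ERE := by
  intro hQ hJ hS B M N p q henv e
  obtain ⟨D, hD, hpD, hMD⟩ := hS.2 N henv.scN p (Jmp M) henv.inp henv.jmp
  obtain ⟨i0, hi0⟩ := henv.base
  have hBM : Le B M := hi0 ▸ hJ.2.2.2.2.2.2 M i0
  have h2 := REIn.trans hMD (hJ.2.1 M _ _ (EreL.qq_re hQ hBM e)).2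
  refine ⟨D, hD, ?_⟩
  have h3 : REIn D fun x : (ℕ × ℕ × ℕ) × List ℕ => ∃ i, i ∈ p ∧
      ¬ ∃ E : List ℕ, (∀ y ∈ E, Nat.pair i y ∈ M) ∧ QQ B e x.1.1 x.1.2.1 x.1.2.2 x.2 E := by
    refine REIn.ex (S := fun (x : (ℕ × ℕ × ℕ) × List ℕ) (i : ℕ) => i ∈ p ∧
      ¬ ∃ E : List ℕ, (∀ y ∈ E, Nat.pair i y ∈ M) ∧ QQ B e x.1.1 x.1.2.1 x.1.2.2 x.2 E) ?_
    refine REIn.and ?_ h2
    exact REIn.comp hpD.1 (f := fun x : ((ℕ × ℕ × ℕ) × List ℕ) × ℕ => x.2) (by fun_prop)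
  exact h3.of_eq fun x => EreL.iff.symm

end Pool.Agent.Helper1K9.LT
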