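import Pool.Agent.Helper1K9.LT.Ur

/-!
# Relay LT: predicates of a set `Γ` which are enumerable in `Γ` and `C`

`RU C P`: the predicate `P Γ a` is enumerable in the join of `Γ` and `C`, uniformly in `Γ`.
`RU.all`: then `∀ Γ, P Γ a` is enumerable in `C` (compactness).
`RU.basis`: if `C` is in the Scott set `N` and `¬ P Γ a` for some `Γ`, then for some `Γ` in `N`.
-/

set_option autoImplicit false

namespace Pool.Agent.Helper1K9.LT

open Encodable Pool.Agent.Helper446 Pool.Agent.Helper446.Defs Pool.Agent.Helper446.RE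
  Pool.Agent.Helper446.Oracle Pool.Agent.R623.Dec

section ru

variable {α β : Type} [Primcodable α] [Primcodable β] {C : Set ℕ}

/-- all the strings of length `n` -/
def strs (n : ℕ) : List (List Bool) :=
  Nat.rec [[]] (fun _ l => l.flatMap fun σ => [σ ++ [true], σ ++ [false]]) n

theorem strs_computable : Computable strs := by
  have h : Primrec strs := by
    refine Primrec.nat_rec₁ _ ?_
    refine Primrec.list_flatMap (f := fun x : ℕ × List (List Bool) => x.2)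
      (g := fun _ σ => [σ ++ [true], σ ++ [false]]) Primrec.snd ?_
    refine Primrec.list_cons.comp₂ ?_ (Primrec.list_cons.comp₂ ?_ (Primrec₂.const []))
    · exact Primrec.list_append.comp₂ Primrec₂.right (Primrec₂.const [true])
    · exact Primrec.list_append.comp₂ Primrec₂.right (Primrec₂.const [false])
  exact h.to_comp

theorem mem_strs {n : ℕ} {σ : List Bool} : σ ∈ strs n ↔ σ.length = n := by
  induction n generalizing σ with
  | zero => simp [strs]
  | succ n ih =>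
    have e : strs (n + 1) = (strs n).flatMap fun σ => [σ ++ [true], σ ++ [false]] := rfl
    rw [e, List.mem_flatMap]
    constructor
    · rintro ⟨τ, hτ, h⟩
      have hl := ih.1 hτ
      simp only [List.mem_cons, List.not_mem_nil, or_false] at h
      rcases h with rfl | rfl <;> simp [hl]
    · intro h
      have hne : σ ≠ [] := by
        rintro rfl
        simp at h
      refine ⟨σ.dropLast, ih.2 (by rw [List.length_dropLast, h]; rfl), ?_⟩
      have h2 := List.dropLast_append_getLast hne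
      cases hb : σ.getLast hne
      · rw [hb] at h2
        simp [h2]
      · rw [hb] at h2
        simp [h2]

/-- compactness: `∀ X, ∃ n, S a (sg X n)` is enumerable -/
theorem REIn.all_sets {S : α → List Bool → Prop} (hS : REIn C fun x : α × List Bool => S x.1 x.2)
    (mono : ∀ a σ τ, σ <+: τ → S a σ → S a τ) : REIn C fun a => ∀ X : Set ℕ, ∃ n, S a (sg X n) := by
  have h1 : REIn C fun a => ∃ n : ℕ, ∀ σ ∈ strs n, S a σ := by
    refine REIn.ex (S := fun a n => ∀ σ ∈ strs n, S a σ) ?_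
    refine REIn.all_mem (S := fun (x : α × ℕ) σ => S x.1 σ) (l := fun x => strs x.2) ?_
      (strs_computable.comp Computable.snd)
    exact hS.comp (f := fun x : (α × ℕ) × List Bool => (x.1.1, x.2)) (by fun_prop)
  refine h1.of_eq fun a => ?_
  constructor
  · rintro ⟨n, hn⟩ X
    exact ⟨n, hn _ (mem_strs.2 (sg_length X n))⟩
  · intro h
    by_contra hcon
    push Not at hcon
    obtain ⟨X, hX⟩ := konig (B := S a) (mono a) (fun n => by
      obtain ⟨σ, hσ, hσ'⟩ := hcon n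
      exact ⟨σ, mem_strs.1 hσ, hσ'⟩)
    obtain ⟨n, hn⟩ := h X
    exact hX n hn

/-- `P Γ a` is enumerable in the join of `Γ` and `C`, uniformly in `Γ` -/
def RU (C : Set ℕ) (P : Set ℕ → α → Prop) : Prop :=
  ∃ S : Set ℕ → α → Prop, UR S ∧ ∀ Γ a, S (Jn Γ C) a ↔ P Γ a

theorem two_mul_mem_jn {Γ C : Set ℕ} {x : ℕ} : 2 * x ∈ Jn Γ C ↔ x ∈ Γ := by
  unfold Jn
  simp only [Set.mem_ofPred_eq]
  have h1 : 2 * x % 2 = 0 := by omega
  have h2 : 2 * x / 2 = x := by omega
  simp [h1, h2]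

theorem two_mul_add_mem_jn {Γ C : Set ℕ} {x : ℕ} : 2 * x + 1 ∈ Jn Γ C ↔ x ∈ C := by
  unfold Jn
  simp only [Set.mem_ofPred_eq]
  have h1 : (2 * x + 1) % 2 = 1 := by omega
  have h2 : (2 * x + 1) / 2 = x := by omega
  simp [h1, h2]

theorem RU.of_eq {P P' : Set ℕ → α → Prop} (h : RU C P) (hP : ∀ Γ a, P Γ a ↔ P' Γ a) :
    RU C P' := by
  obtain ⟨S, hS, h1⟩ := h
  exact ⟨S, hS, fun Γ a => (h1 Γ a).trans (hP Γ a)⟩

theorem RU.and {P P' : Set ℕ → α → Prop} (h : RU C P) (h' : RU C P') :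
    RU C fun Γ a => P Γ a ∧ P' Γ a := by
  obtain ⟨S, hS, h1⟩ := h
  obtain ⟨S', hS', h1'⟩ := h'
  exact ⟨_, hS.and hS', fun Γ a => and_congr (h1 Γ a) (h1' Γ a)⟩

theorem RU.or {P P' : Set ℕ → α → Prop} (h : RU C P) (h' : RU C P') :
    RU C fun Γ a => P Γ a ∨ P' Γ a := by
  obtain ⟨S, hS, h1⟩ := h
  obtain ⟨S', hS', h1'⟩ := h'
  exact ⟨_, hS.or hS', fun Γ a => or_congr (h1 Γ a) (h1' Γ a)⟩

theorem RU.comp {P : Set ℕ → β → Prop} (h : RU C P) {f : α → β} (hf : Computable f) :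
    RU C fun Γ a => P Γ (f a) := by
  obtain ⟨S, hS, h1⟩ := h
  exact ⟨_, hS.comp hf, fun Γ a => h1 Γ (f a)⟩

theorem RU.ex {P : Set ℕ → α → β → Prop} (h : RU C fun Γ (x : α × β) => P Γ x.1 x.2) :
    RU C fun Γ a => ∃ b, P Γ a b := by
  obtain ⟨S, hS, h1⟩ := h
  refine ⟨fun A a => ∃ b, S A (a, b), UR.ex (S := fun A a b => S A (a, b)) ?_,
    fun Γ a => exists_congr fun b => h1 Γ (a, b)⟩
  exact hS

theorem RU.all_mem {P : Set ℕ → α → β → Prop} (h : RU C fun Γ (x : α × β) => P Γ x.1 x.2)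
    {l : α → List β} (hl : Computable l) : RU C fun Γ a => ∀ b ∈ l a, P Γ a b := by
  obtain ⟨S, hS, h1⟩ := h
  refine ⟨fun A a => ∀ b ∈ l a, S A (a, b), UR.all_mem (S := fun A a b => S A (a, b)) hS hl,
    fun Γ a => forall_congr' fun b => forall_congr' fun _ => h1 Γ (a, b)⟩

theorem RU.ex_mem {P : Set ℕ → α → β → Prop} (h : RU C fun Γ (x : α × β) => P Γ x.1 x.2)
    {l : α → List β} (hl : Computable l) : RU C fun Γ a => ∃ b ∈ l a, P Γ a b := by
  obtain ⟨S, hS, h1⟩ := h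
  refine ⟨fun A a => ∃ b ∈ l a, S A (a, b), UR.ex_mem (S := fun A a b => S A (a, b)) hS hl,
    fun Γ a => exists_congr fun b => and_congr Iff.rfl (h1 Γ (a, b))⟩

theorem RU.all_lt {P : Set ℕ → α → ℕ → Prop} (h : RU C fun Γ (x : α × ℕ) => P Γ x.1 x.2)
    {f : α → ℕ} (hf : Computable f) : RU C fun Γ a => ∀ i < f a, P Γ a i := by
  obtain ⟨S, hS, h1⟩ := h
  refine ⟨fun A a => ∀ i < f a, S A (a, i), UR.all_lt (S := fun A a b => S A (a, b)) hS hf,
    fun Γ a => forall_congr' fun b => forall_congr' fun _ => h1 Γ (a, b)⟩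

theorem RU.mem {f : α → ℕ} (hf : Computable f) : RU C fun Γ a => f a ∈ Γ :=
  ⟨_, UR.mem (f := fun a => 2 * f a) (by fun_prop), fun _ _ => two_mul_mem_jn⟩

theorem RU.not_mem {f : α → ℕ} (hf : Computable f) : RU C fun Γ a => f a ∉ Γ :=
  ⟨_, UR.not_mem (f := fun a => 2 * f a) (by fun_prop), fun _ _ => not_congr two_mul_mem_jn⟩

/-- enumerable in `C`, no `Γ` -/
theorem RU.of_reIn {T : α → Prop} (h : REIn C T) : RU C fun _ a => T a := by
  obtain ⟨R, hR, h1⟩ := h
  have h2 : UR fun (A : Set ℕ) (a : α) => ∃ c : List ℕ × List ℕ, R a c ∧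
      ((∀ x ∈ c.1, 2 * x + 1 ∈ A) ∧ ∀ x ∈ c.2, 2 * x + 1 ∉ A) := by
    refine UR.ex (S := fun (A : Set ℕ) (a : α) (c : List ℕ × List ℕ) => R a c ∧
      ((∀ x ∈ c.1, 2 * x + 1 ∈ A) ∧ ∀ x ∈ c.2, 2 * x + 1 ∉ A)) ?_
    refine UR.and (UR.of_re hR) (UR.and ?_ ?_)
    · exact UR.all_mem (S := fun (A : Set ℕ) (y : α × (List ℕ × List ℕ)) (x : ℕ) => 2 * x + 1 ∈ A)
        (l := fun y => y.2.1) (UR.mem (by fun_prop)) (by fun_prop)
    · exact UR.all_mem (S := fun (A : Set ℕ) (y : α × (List ℕ × List ℕ)) (x : ℕ) => 2 * x + 1 ∉ A)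
        (l := fun y => y.2.2) (UR.not_mem (by fun_prop)) (by fun_prop)
  refine ⟨_, h2, fun Γ a => ?_⟩
  show _ ↔ T a
  rw [h1]
  refine exists_congr fun c => and_congr Iff.rfl (and_congr ?_ ?_)
  · exact forall_congr' fun x => forall_congr' fun _ => two_mul_add_mem_jn
  · exact forall_congr' fun x => forall_congr' fun _ => not_congr two_mul_add_mem_jn

theorem RU.of_re {T : α → Prop} (h : REPred T) : RU C fun _ a => T a := RU.of_reIn (REIn.of_re h)

/-- compactness -/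
theorem RU.all {P : Set ℕ → α → Prop} (h : RU C P) : REIn C fun a => ∀ Γ : Set ℕ, P Γ a := by
  obtain ⟨S, hS, h1⟩ := h
  obtain ⟨F, hF, hmono, hF1⟩ := hS.forced C
  refine (REIn.all_sets hF hmono).of_eq fun a => ?_
  refine forall_congr' fun Γ => ?_
  rw [← hF1, h1]

/-- the basis property -/
theorem RU.basis {P : Set ℕ → α → Prop} (h : RU C P) {N : Set ℕ} (hN : Scott N) (hC : InN N C)
    (a : α) (hex : ∃ Γ : Set ℕ, ¬ P Γ a) : ∃ j, ¬ P (col N j) a := by
  obtain ⟨S, hS, h1⟩ := h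
  obtain ⟨F, hF, hmono, hF1⟩ := hS.forced C
  obtain ⟨i, hi⟩ := hC
  obtain ⟨Γ, hΓ⟩ := hex
  have hF' : REIn (col N i) (F a) := by
    rw [hi]
    exact hF.comp (f := fun σ : List Bool => (a, σ)) (by fun_prop)
  obtain ⟨j, hj⟩ := hN.basis i (F a) hF' ⟨Γ, fun n hn => hΓ (by
    rw [← h1, hF1]
    exact ⟨n, hn⟩)⟩
  refine ⟨j, fun hP => ?_⟩
  rw [← h1, hF1] at hP
  obtain ⟨n, hn⟩ := hP
  exact hj n hn

end ru

end Pool.Agent.Helper1K9.LT
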