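import Pool.Agent.Helper1K9.LT.Stm2
import Pool.Agent.Helper1K9.LT.Ru

/-!
# LT (12) EVL
-/

set_option autoImplicit false

namespace Pool.Agent.Helper1K9.LT

open Encodable Pool.Agent.Helper446 Pool.Agent.Helper446.Defs Pool.Agent.Helper446.RE
  Pool.Agent.Helper446.Oracle Pool.Agent.R623.Dec

theorem EvlL.jn_mem {B G : Set ℕ} {x : ℕ} : x ∈ Jn B G ↔
    (x % 2 = 0 ∧ x / 2 ∈ B) ∨ (x % 2 = 1 ∧ x / 2 ∈ G) := Iff.rfl

/-- `Ok (Jn B F) c` for a finite `F` -/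
theorem EvlL.ok_re (B : Set ℕ) :
    REIn B fun x : List ℕ × (List ℕ × List ℕ) => Ok (Jn B {y | y ∈ x.1}) x.2 := by
  refine REIn.and ?_ ?_
  · refine (REIn.all_mem (S := fun (y : List ℕ × (List ℕ × List ℕ)) (x : ℕ) =>
      (x % 2 = 0 ∧ x / 2 ∈ B) ∨ (x % 2 = 1 ∧ x / 2 ∈ y.1)) (l := fun y => y.2.1) ?_
      (by fun_prop)).of_eq fun y => ?_
    · refine REIn.or (REIn.and (REIn.of_re (RE.eq (cmod2 (by fun_prop)) (by fun_prop)))
        (REIn.mem (cdiv2 (by fun_prop)))) (REIn.of_re (RE.and (RE.eq (cmod2 (by fun_prop))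
        (by fun_prop)) (RE.mem_list (cdiv2 (by fun_prop)) (by fun_prop))))
    · exact Iff.rfl
  · refine (REIn.all_mem (S := fun (y : List ℕ × (List ℕ × List ℕ)) (x : ℕ) =>
      (x % 2 = 0 ∧ x / 2 ∉ B) ∨ (x % 2 = 1 ∧ ¬ x / 2 ∈ y.1)) (l := fun y => y.2.2) ?_
      (by fun_prop)).of_eq fun y => ?_
    · refine REIn.or (REIn.and (REIn.of_re (RE.eq (cmod2 (by fun_prop)) (by fun_prop)))
        (REIn.not_mem (cdiv2 (by fun_prop)))) (REIn.of_re (RE.and (RE.eq (cmod2 (by fun_prop))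
        (by fun_prop)) (RE.not_mem_list (cdiv2 (by fun_prop)) (by fun_prop))))
    · refine forall_congr' fun x => forall_congr' fun _ => ?_
      rw [jn_not]
      exact Iff.rfl

theorem EvlL.imp_iff {p q : Prop} : (p → q) ↔ (¬ p ∨ q) := by
  constructor
  · intro h
    by_cases hp : p
    · exact Or.inr (h hp)
    · exact Or.inl hp
  · rintro (h | h) hp
    · exact absurd hp h
    · exact h

theorem EvlL.ev_re (B : Set ℕ) (e : ℕ) : REIn B fun x : ℕ × List ℕ => Ev B e x.1 x.2 := by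
  unfold Ev
  refine REIn.ex (S := fun (x : ℕ × List ℕ) (c : List ℕ × List ℕ) => Hlt e x.1 c ∧
    Ok (Jn B {y | y ∈ x.2}) c ∧ ∀ y ∈ c.1 ++ c.2, y % 2 = 1 → ∃ f ∈ x.2, y / 2 ≤ f) ?_
  refine REIn.and (REIn.of_re ?_) (REIn.and ?_ (REIn.of_re ?_))
  · exact RE.comp hlt_re (f := fun y : (ℕ × List ℕ) × (List ℕ × List ℕ) => ((e, y.1.1), y.2))
      (by fun_prop)
  · exact (EvlL.ok_re B).comp (f := fun y : (ℕ × List ℕ) × (List ℕ × List ℕ) => (y.1.2, y.2))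
      (by fun_prop)
  · refine RE.all_mem (p := fun (y : (ℕ × List ℕ) × (List ℕ × List ℕ)) (x : ℕ) =>
      x % 2 = 1 → ∃ f ∈ y.1.2, x / 2 ≤ f) (l := fun y => y.2.1 ++ y.2.2) ?_ ?_
    · have h1 : REPred fun z : ((ℕ × List ℕ) × (List ℕ × List ℕ)) × ℕ => z.2 % 2 ≠ 1 ∨
          ∃ f ∈ z.1.1.2, z.2 / 2 ≤ f := by
        refine RE.or (RE.ne (cmod2 (by fun_prop)) (by fun_prop)) ?_
        refine RE.ex_mem (p := fun (z : ((ℕ × List ℕ) × (List ℕ × List ℕ)) × ℕ) (f : ℕ) =>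
          z.2 / 2 ≤ f) (l := fun z => z.1.1.2) ?_ (by fun_prop)
        exact RE.le (cdiv2 (by fun_prop)) (by fun_prop)
      have h2 : (fun z : ((ℕ × List ℕ) × (List ℕ × List ℕ)) × ℕ =>
          (z.2 % 2 = 1 → ∃ f ∈ z.1.1.2, z.2 / 2 ≤ f)) =
          fun z => z.2 % 2 ≠ 1 ∨ ∃ f ∈ z.1.1.2, z.2 / 2 ≤ f :=
        funext fun z => propext EvlL.imp_iff
      rw [h2]
      exact h1
    · exact Primrec.list_append.to_comp.comp (by fun_prop) (by fun_prop)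

theorem evl : S_EVL := by
  refine ⟨?_, ?_, fun B e => EvlL.ev_re B e, ?_⟩
  · rintro B e n F G hFG hGF ⟨c, hc, hok, hb⟩
    refine ⟨c, hc, fun x hx => ?_, fun x hx => ?_⟩
    · rcases hok.1 x hx with ⟨h1, h2⟩ | ⟨h1, h2⟩
      · exact Or.inl ⟨h1, h2⟩
      · exact Or.inr ⟨h1, hFG _ h2⟩
    · rw [jn_not]
      rcases jn_not.1 (hok.2 x hx) with ⟨h1, h2⟩ | ⟨h1, h2⟩
      · exact Or.inl ⟨h1, h2⟩
      · refine Or.inr ⟨h1, fun hG => ?_⟩
        obtain ⟨f, hf, hle⟩ := hb x (List.mem_append_right _ hx) h1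
        exact absurd (hGF _ hG h2 f hf) (not_lt.2 hle)
  · rintro B e n G ⟨c, hc, hok⟩
    refine ⟨(c.1 ++ c.2).sum, fun F hFG hGF ⟨f, hf, hfm⟩ => ⟨c, hc, ⟨fun x hx => ?_,
      fun x hx => ?_⟩, fun x hx _ => ⟨f, hf, ?_⟩⟩⟩
    · have h1 : x ≤ (c.1 ++ c.2).sum := List.le_sum_of_mem (List.mem_append_left _ hx)
      rcases hok.1 x hx with ⟨h2, h3⟩ | ⟨h2, h3⟩
      · exact Or.inl ⟨h2, h3⟩
      · refine Or.inr ⟨h2, ?_⟩
        show x / 2 ∈ F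
        by_contra hn
        have h4 := hGF _ h3 hn f hf
        omega
    · rw [jn_not]
      rcases jn_not.1 (hok.2 x hx) with ⟨h2, h3⟩ | ⟨h2, h3⟩
      · exact Or.inl ⟨h2, h3⟩
      · exact Or.inr ⟨h2, fun h => h3 (hFG _ h)⟩
    · have h1 : x ≤ (c.1 ++ c.2).sum := List.le_sum_of_mem hx
      omega
  · rintro B e n F E hEF ⟨c, hc, hok, hb⟩
    refine ⟨c, hc, ⟨fun x hx => ?_, fun x hx => ?_⟩, fun x hx h => ?_⟩
    · rcases hok.1 x hx with ⟨h1, h2⟩ | ⟨h1, h2⟩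
      · exact Or.inl ⟨h1, h2⟩
      · exact Or.inr ⟨h1, List.mem_append_left _ h2⟩
    · rw [jn_not]
      rcases jn_not.1 (hok.2 x hx) with ⟨h1, h2⟩ | ⟨h1, h2⟩
      · exact Or.inl ⟨h1, h2⟩
      · refine Or.inr ⟨h1, fun hm => ?_⟩
        rcases List.mem_append.1 hm with hm | hm
        · exact h2 hm
        · obtain ⟨f, hf, hle⟩ := hb x (List.mem_append_right _ hx) h1
          exact absurd (hEF _ hm f hf) (not_lt.2 hle)
    · obtain ⟨f, hf, hle⟩ := hb x hx h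
      exact ⟨f, List.mem_append_left _ hf, hle⟩

end Pool.Agent.Helper1K9.LT
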