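import Pool.Agent.Helper1K9.LT.Stm3

/-!
# Relay LT, last step
-/

set_option autoImplicit false

namespace Pool.Agent.Helper1K9.LT

open Pool.Agent.R623.Dec Pool.Agent.R623.Om Pool.Agent.Helper617.RM

/-- the final statement -/
def S_FIN : Prop :=
  ∃ I : Set (Set ℕ), Ideal I ∧ IsModelRCA0 (omegaModel I) ∧ (∀ k, RRT3 (omegaModel I) k) ∧
    (∃ R : SimpleGraph ℕ, ComputablePred (fun p : ℕ × ℕ => R.Adj p.1 p.2) ∧
      IsRadoOn (omegaModel I) Set.univ (fun x y => R.Adj x y)) ∧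
    ∀ R : SimpleGraph ℕ, ComputablePred (fun p : ℕ × ℕ => R.Adj p.1 p.2) →
      ∀ H : ℕ → ℕ → Prop, IsGraphOn (omegaModel I) {i | (omegaModel I).lt i (3 : ℕ)} H →
        ∀ k, 2 ≤ k → ¬ RRPFor (omegaModel I) (fun x y => R.Adj x y) (3 : ℕ) H k

theorem isRadoOn {I : Set (Set ℕ)} {R : SimpleGraph ℕ}
    (h : Pool.Agent.Helper52K9.RR.IsRado R Set.univ) :
    IsRadoOn (omegaModel I) Set.univ (fun x y => R.Adj x y) := by
  intro U _ V _ _ _ hUf hVf hd
  have hfin : ∀ W : Set ℕ, IsFin (omegaModel I) W → W.Finite := by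
    rintro W ⟨b, hb⟩
    exact (Set.finite_lt_nat b).subset fun y hy => hb y hy
  obtain ⟨z, hz, h1, h2, h3, h4⟩ := h (hfin U hUf).toFinset (hfin V hVf).toFinset
    (fun _ _ => Set.mem_univ _) (fun _ _ => Set.mem_univ _) (by
      rw [Finset.disjoint_left]
      intro a ha hb
      exact Set.disjoint_left.1 hd ((hfin U hUf).mem_toFinset.1 ha)
        ((hfin V hVf).mem_toFinset.1 hb))
  refine ⟨z, hz, fun h => h1 ((hfin U hUf).mem_toFinset.2 h),
    fun h => h2 ((hfin V hVf).mem_toFinset.2 h), fun u hu => ?_, fun v hv => ?_⟩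
  · exact h3 u ((hfin U hUf).mem_toFinset.2 hu)
  · exact h4 v ((hfin V hVf).mem_toFinset.2 hv)

theorem fin (hIDL : S_IDL) (hRRO : S_RRO) (hLWR : S_LWR) (hBIT : S_BIT) : S_FIN := by
  obtain ⟨I, hI, hlow, hcl⟩ := hIDL
  obtain ⟨R, hR, hRado⟩ := hBIT
  refine ⟨I, hI, isModel hI, hRRO I hI hcl, ⟨R, hR, isRadoOn hRado⟩, ?_⟩
  intro R hR H hH k hk
  exact hLWR I hI hlow R hR H hH k hk

end Pool.Agent.Helper1K9.LT
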