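import Pool.Agent.Helper1K9.LT.Ur

/-!
# Relay LT: good sets belong to the enumerable classes which contain the ultrafilter
-/

set_option autoImplicit false

namespace Pool.Agent.Helper1K9.LT

open Encodable Pool.Agent.Helper446 Pool.Agent.Helper446.Defs Pool.Agent.Helper446.RE
  Pool.Agent.Helper446.Oracle Pool.Agent.R623.Dec

theorem gap (huni : S_UNI) : S_GAP := by
  intro M p i Q hQ hV Y hY
  have h1 : REIn (col M i) fun x : ℕ × List ℕ => Q x.2 := hQ.comp Computable.snd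
  obtain ⟨e, he⟩ := huni.2.2 (col M i) _ _ h1
  have h2 : ∀ D : List ℕ, Q D ↔ U (col M i) e (Nat.pair 0 (encode D)) := fun D => he (0, D)
  obtain ⟨D, hD1, hD2⟩ := hY i e 0 fun V hVV => by
    obtain ⟨D, hD1, hD2⟩ := hV V hVV
    exact ⟨D, hD1, (h2 D).1 hD2⟩
  exact ⟨D, hD1, (h2 D).2 hD2⟩

end Pool.Agent.Helper1K9.LT
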