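import Pool.Agent.Helper1K9.LT.Stm2

/-!
# Relay LT, leaf (26) GEN: the abstract generic construction
-/

set_option autoImplicit false

namespace Pool.Agent.Helper1K9.LT

open Encodable Pool.Agent.Helper446 Pool.Agent.Helper446.Defs Pool.Agent.Helper446.RE
  Pool.Agent.Helper446.Oracle Pool.Agent.R623.Dec

namespace GenL

variable {α β : Type} [Primcodable α] [Primcodable β]

theorem dec_ok {γ : Type} [Primcodable γ] (O : Set ℕ) {f : γ → List ℕ × List ℕ}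
    (hf : Computable f) : DecIn O fun x => Ok O (f x) := by
  refine DecIn.and ?_ ?_
  · exact DecIn.all_mem (S := fun (_ : γ) (x : ℕ) => x ∈ O) (l := fun x => (f x).1)
      (DecIn.mem (by fun_prop)) (by fun_prop)
  · exact DecIn.all_mem (S := fun (_ : γ) (x : ℕ) => x ∉ O) (l := fun x => (f x).2)
      (DecIn.mem (by fun_prop)).not (by fun_prop)

/-- uniformisation of relations which are enumerable in an oracle -/
theorem unif {O : Set ℕ} {R : α → β → Prop} (hR : REIn O fun x : α × β => R x.1 x.2) :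
    ∃ P : α → β → Prop, (REIn O fun x : α × β => P x.1 x.2) ∧ (∀ a b, P a b → R a b) ∧
      (∀ a b b', P a b → P a b' → b = b') ∧ ∀ a, (∃ b, R a b) → ∃ b, P a b := by
  obtain ⟨R0, hR0, h⟩ := hR
  obtain ⟨q, hq, hRq⟩ := RE.re_iff.1 hR0
  have hDre : REIn O fun x : (α × ℕ) × ((β × (List ℕ × List ℕ)) × ℕ) =>
      decode x.1.2 = some x.2 ∧ q ((x.1.1, x.2.1.1), x.2.1.2) x.2.2 = true ∧ Ok O x.2.1.2 := by
    refine REIn.and (REIn.of_re (RE.eq (by fun_prop) (by fun_prop)))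
      (REIn.and (REIn.of_re (RE.of_bool ?_)) (dec_ok O (by fun_prop)).1)
    exact hq.comp (g := fun x : (α × ℕ) × ((β × (List ℕ × List ℕ)) × ℕ) =>
      ((x.1.1, x.2.1.1), x.2.1.2)) (h := fun x => x.2.2) (by fun_prop) (by fun_prop)
  have hDneg : REIn O fun x : α × ℕ => ¬ ∃ y : (β × (List ℕ × List ℕ)) × ℕ,
      decode x.2 = some y ∧ q ((x.1, y.1.1), y.1.2) y.2 = true ∧ Ok O y.1.2 := by
    have h1 : REIn O fun x : α × ℕ =>
        (decode x.2 : Option ((β × (List ℕ × List ℕ)) × ℕ)) = none ∨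
        ∃ y : (β × (List ℕ × List ℕ)) × ℕ, decode x.2 = some y ∧
          (q ((x.1, y.1.1), y.1.2) y.2 = false ∨ ¬ Ok O y.1.2) := by
      refine REIn.or (REIn.of_re (RE.eq (by fun_prop) (by fun_prop))) ?_
      refine REIn.ex (S := fun (x : α × ℕ) (y : (β × (List ℕ × List ℕ)) × ℕ) =>
        decode x.2 = some y ∧ (q ((x.1, y.1.1), y.1.2) y.2 = false ∨ ¬ Ok O y.1.2)) ?_
      refine REIn.and (REIn.of_re (RE.eq (by fun_prop) (by fun_prop)))
        (REIn.or (REIn.of_re (RE.eq ?_ (by fun_prop))) (dec_ok O (by fun_prop)).2)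
      exact hq.comp (g := fun x : (α × ℕ) × ((β × (List ℕ × List ℕ)) × ℕ) =>
        ((x.1.1, x.2.1.1), x.2.1.2)) (h := fun x => x.2.2) (by fun_prop) (by fun_prop)
    refine h1.of_eq fun x => ?_
    constructor
    · rintro (h2 | ⟨y, h2, h3⟩) ⟨y', h4, h5, h6⟩
      · rw [h2] at h4
        cases h4
      · rw [h2] at h4
        cases h4
        rcases h3 with h3 | h3
        · rw [h3] at h5
          cases h5
        · exact h3 h6
    · intro h2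
      rcases h3 : (decode x.2 : Option ((β × (List ℕ × List ℕ)) × ℕ)) with _ | y
      · exact Or.inl rfl
      · right
        refine ⟨y, rfl, ?_⟩
        by_contra h4
        rw [not_or, Bool.not_eq_false, not_not] at h4
        exact h2 ⟨y, h3, h4.1, h4.2⟩
  set D : α → ℕ → Prop := fun a k => ∃ y : (β × (List ℕ × List ℕ)) × ℕ,
      decode k = some y ∧ q ((a, y.1.1), y.1.2) y.2 = true ∧ Ok O y.1.2 with hD
  refine ⟨fun a b => ∃ k : ℕ, (∃ y : (β × (List ℕ × List ℕ)) × ℕ, (decode k = some y ∧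
      q ((a, y.1.1), y.1.2) y.2 = true ∧ Ok O y.1.2) ∧ y.1.1 = b) ∧ ∀ j < k, ¬ D a j,
    ?_, ?_, ?_, ?_⟩
  · refine REIn.ex (S := fun (x : α × β) (k : ℕ) => (∃ y : (β × (List ℕ × List ℕ)) × ℕ,
      (decode k = some y ∧ q ((x.1, y.1.1), y.1.2) y.2 = true ∧ Ok O y.1.2) ∧ y.1.1 = x.2) ∧
      ∀ j < k, ¬ D x.1 j) ?_
    refine REIn.and ?_ ?_
    · refine REIn.ex (S := fun (x : (α × β) × ℕ) (y : (β × (List ℕ × List ℕ)) × ℕ) =>
        (decode x.2 = some y ∧ q ((x.1.1, y.1.1), y.1.2) y.2 = true ∧ Ok O y.1.2) ∧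
          y.1.1 = x.1.2) ?_
      refine REIn.and ?_ (REIn.of_re (RE.eq (by fun_prop) (by fun_prop)))
      exact hDre.comp (f := fun x : ((α × β) × ℕ) × ((β × (List ℕ × List ℕ)) × ℕ) =>
        ((x.1.1.1, x.1.2), x.2)) (by fun_prop)
    · refine REIn.all_lt (S := fun (x : (α × β) × ℕ) (j : ℕ) => ¬ D x.1.1 j) ?_ (by fun_prop)
      exact hDneg.comp (f := fun x : ((α × β) × ℕ) × ℕ => (x.1.1.1, x.2)) (by fun_prop)
  · rintro a b ⟨k, ⟨y, ⟨h1, h2, h3⟩, rfl⟩, -⟩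
    exact (h (a, y.1.1)).2 ⟨y.1.2, (hRq _).2 ⟨_, h2⟩, h3⟩
  · rintro a b b' ⟨k, ⟨y, h1, rfl⟩, h2⟩ ⟨k', ⟨y', h1', rfl⟩, h2'⟩
    rcases lt_trichotomy k k' with hk | hk | hk
    · exact absurd ⟨y, h1⟩ (h2' k hk)
    · subst hk
      have h3 : some y = some y' := h1.1.symm.trans h1'.1
      cases h3
      rfl
    · exact absurd ⟨y', h1'⟩ (h2 k' hk)
  · rintro a ⟨b, hb⟩
    obtain ⟨c, hc, hok⟩ := (h (a, b)).1 hb
    obtain ⟨t, ht⟩ := (hRq ((a, b), c)).1 hc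
    have hex : ∃ k, D a k := ⟨encode ((b, c), t), ((b, c), t), encodek _, ht, hok⟩
    classical
    obtain ⟨y, hy⟩ := Nat.find_spec hex
    exact ⟨y.1.1, Nat.find hex, ⟨y, hy, rfl⟩, fun j hj => Nat.find_min hex hj⟩

/-- iteration of a uniformised step relation -/
theorem iter {O : Set ℕ} (P : ℕ × α → β × α → Prop)
    (hP : REIn O fun x : (ℕ × α) × (β × α) => P x.1 x.2)
    (hfun : ∀ a b b', P a b → P a b' → b = b') (s : ℕ → α) (t : ℕ → β)
    (hs : ∀ n, P (n, s n) (t n, s (n + 1))) :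
    REIn O fun x : ℕ × α => s x.1 = x.2 := by
  have h1 : REIn O fun x : ℕ × α => ∃ L : List α, L[0]? = some (s 0) ∧ (∀ i < x.1,
      ∃ y : (α × α) × β, L[i]? = some y.1.1 ∧ L[i + 1]? = some y.1.2 ∧
        P (i, y.1.1) (y.2, y.1.2)) ∧ L[x.1]? = some x.2 := by
    refine REIn.ex (S := fun (x : ℕ × α) (L : List α) => L[0]? = some (s 0) ∧ (∀ i < x.1,
      ∃ y : (α × α) × β, L[i]? = some y.1.1 ∧ L[i + 1]? = some y.1.2 ∧
        P (i, y.1.1) (y.2, y.1.2)) ∧ L[x.1]? = some x.2) ?_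
    refine REIn.and (REIn.of_re (RE.eq (by fun_prop) (by fun_prop))) (REIn.and ?_
      (REIn.of_re (RE.eq (by fun_prop) (by fun_prop))))
    refine REIn.all_lt (S := fun (x : (ℕ × α) × List α) (i : ℕ) =>
      ∃ y : (α × α) × β, x.2[i]? = some y.1.1 ∧ x.2[i + 1]? = some y.1.2 ∧
        P (i, y.1.1) (y.2, y.1.2)) ?_ (by fun_prop)
    refine REIn.ex (S := fun (x : ((ℕ × α) × List α) × ℕ) (y : (α × α) × β) =>
      x.1.2[x.2]? = some y.1.1 ∧ x.1.2[x.2 + 1]? = some y.1.2 ∧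
        P (x.2, y.1.1) (y.2, y.1.2)) ?_
    refine REIn.and (REIn.of_re (RE.eq (by fun_prop) (by fun_prop))) (REIn.and
      (REIn.of_re (RE.eq (by fun_prop) (by fun_prop))) ?_)
    exact hP.comp (f := fun x : (((ℕ × α) × List α) × ℕ) × ((α × α) × β) =>
      ((x.1.2, x.2.1.1), (x.2.2, x.2.1.2))) (by fun_prop)
  refine h1.of_eq fun x => ?_
  obtain ⟨n, a⟩ := x
  constructor
  · rintro ⟨L, h0, hstep, hn⟩
    have key : ∀ i ≤ n, L[i]? = some (s i) := by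
      intro i
      induction i with
      | zero => exact fun _ => h0
      | succ i ih =>
        intro hi
        obtain ⟨y, hy1, hy2, hy3⟩ := hstep i (by show i < n; omega)
        have h2 := ih (by omega)
        rw [h2] at hy1
        have h3 : s i = y.1.1 := Option.some.inj hy1
        rw [← h3] at hy3
        have h4 := hfun _ _ _ hy3 (hs i)
        rw [hy2]
        exact congrArg some (congrArg Prod.snd h4)
    have h2 := key n le_rfl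
    exact Option.some.inj (h2.symm.trans hn)
  · rintro h2
    have h2 : s n = a := h2
    subst h2
    refine ⟨(List.range (n + 1)).map s, ?_, ?_, ?_⟩
    · simp
    · intro i hi
      have hi : i < n := hi
      refine ⟨((s i, s (i + 1)), t i), ?_, ?_, hs i⟩
      · rw [List.getElem?_map, List.getElem?_range (by omega)]
        rfl
      · rw [List.getElem?_map, List.getElem?_range (by omega)]
        rfl
    · show ((List.range (n + 1)).map s)[n]? = some (s n)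
      rw [List.getElem?_map, List.getElem?_range (by omega)]
      rfl

end GenL

open GenL in
theorem gen (hJ : S_JMP) : S_GEN := by
  intro α _ Q V X Ng Ps W T c0 hV hX hNg hPs hW hT hXr hXt hNgX hPsX hWX hTX hdec hWd hTd hc0
  obtain ⟨-, hdecJ, hleJ, -, -, -, -⟩ := hJ
  set O := Jmp Q with hO
  have hVO : DecIn O V := DecIn.trans (hleJ Q) hV
  have hXO : DecIn O fun x : α × α => X x.1 x.2 := DecIn.trans (hleJ Q) hX
  have hNgO : DecIn O fun x : ℕ × α => Ng x.1 x.2 := DecIn.trans (hleJ Q) hNg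
  have hPsO : DecIn O fun x : (ℕ × ℕ) × α => Ps x.1.1 x.1.2 x.2 := DecIn.trans (hleJ Q) hPs
  -- the question of step (i)
  have hq : DecIn O fun x : ℕ × α => ∃ y : α × ℕ, V y.1 ∧ X y.1 x.2 ∧
      Ng (Nat.pair x.1 y.2) y.1 := by
    apply hdecJ
    refine REIn.ex (S := fun (x : ℕ × α) (y : α × ℕ) => V y.1 ∧ X y.1 x.2 ∧
      Ng (Nat.pair x.1 y.2) y.1) ?_
    refine REIn.and (hV.1.comp (by fun_prop)) (REIn.and ?_ ?_)
    · exact hX.1.comp (f := fun x : (ℕ × α) × (α × ℕ) => (x.2.1, x.1.2)) (by fun_prop)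
    · exact hNg.1.comp (f := fun x : (ℕ × α) × (α × ℕ) => (Nat.pair x.1.1 x.2.2, x.2.1))
        (by fun_prop)
  -- the step relation
  set R : ℕ × α → ℕ × α → Prop := fun x y => ∃ z : α × (α × α),
    (V z.1 ∧ X z.1 x.2 ∧ ((y.1 = 1 ∧ ∃ u, Ng (Nat.pair x.1 u) z.1) ∨
      (y.1 = 0 ∧ ¬ ∃ y : α × ℕ, V y.1 ∧ X y.1 x.2 ∧ Ng (Nat.pair x.1 y.2) y.1))) ∧
    (V z.2.1 ∧ X z.2.1 z.1 ∧ (Ng x.1 z.2.1 ∨ ∃ v, Ps x.1 v z.2.1)) ∧
    (V z.2.2 ∧ X z.2.2 z.2.1 ∧ ((¬ Ng x.1.unpair.1.unpair.1 z.2.1) ∨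
      W x.1.unpair.1.unpair.1 x.1.unpair.1.unpair.2 z.2.2)) ∧
    (V y.2 ∧ X y.2 z.2.2 ∧ T x.1 y.2) with hR
  have hRre : REIn O fun x : (ℕ × α) × (ℕ × α) => R x.1 x.2 := by
    refine REIn.ex (S := fun (x : (ℕ × α) × (ℕ × α)) (z : α × (α × α)) =>
      (V z.1 ∧ X z.1 x.1.2 ∧ ((x.2.1 = 1 ∧ ∃ u, Ng (Nat.pair x.1.1 u) z.1) ∨
        (x.2.1 = 0 ∧ ¬ ∃ y : α × ℕ, V y.1 ∧ X y.1 x.1.2 ∧ Ng (Nat.pair x.1.1 y.2) y.1))) ∧
      (V z.2.1 ∧ X z.2.1 z.1 ∧ (Ng x.1.1 z.2.1 ∨ ∃ v, Ps x.1.1 v z.2.1)) ∧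
      (V z.2.2 ∧ X z.2.2 z.2.1 ∧ ((¬ Ng x.1.1.unpair.1.unpair.1 z.2.1) ∨
        W x.1.1.unpair.1.unpair.1 x.1.1.unpair.1.unpair.2 z.2.2)) ∧
      (V x.2.2 ∧ X x.2.2 z.2.2 ∧ T x.1.1 x.2.2)) ?_
    refine REIn.and (REIn.and (hVO.1.comp (by fun_prop)) (REIn.and ?_ (REIn.or
      (REIn.and (REIn.of_re (RE.eq (by fun_prop) (by fun_prop))) ?_)
      (REIn.and (REIn.of_re (RE.eq (by fun_prop) (by fun_prop))) ?_)))) (REIn.and
      (REIn.and (hVO.1.comp (by fun_prop)) (REIn.and ?_ (REIn.or ?_ ?_))) (REIn.and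
      (REIn.and (hVO.1.comp (by fun_prop)) (REIn.and ?_ (REIn.or ?_ ?_)))
      (REIn.and (hVO.1.comp (by fun_prop)) (REIn.and ?_ ?_))))
    · exact hXO.1.comp (f := fun x : ((ℕ × α) × (ℕ × α)) × (α × (α × α)) =>
        (x.2.1, x.1.1.2)) (by fun_prop)
    · refine REIn.ex (S := fun (x : ((ℕ × α) × (ℕ × α)) × (α × (α × α))) (u : ℕ) =>
        Ng (Nat.pair x.1.1.1 u) x.2.1) ?_
      exact hNgO.1.comp (f := fun x : (((ℕ × α) × (ℕ × α)) × (α × (α × α))) × ℕ =>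
        (Nat.pair x.1.1.1.1 x.2, x.1.2.1)) (by fun_prop)
    · exact hq.2.comp (f := fun x : ((ℕ × α) × (ℕ × α)) × (α × (α × α)) =>
        (x.1.1.1, x.1.1.2)) (by fun_prop)
    · exact hXO.1.comp (f := fun x : ((ℕ × α) × (ℕ × α)) × (α × (α × α)) =>
        (x.2.2.1, x.2.1)) (by fun_prop)
    · exact hNgO.1.comp (f := fun x : ((ℕ × α) × (ℕ × α)) × (α × (α × α)) =>
        (x.1.1.1, x.2.2.1)) (by fun_prop)
    · refine REIn.ex (S := fun (x : ((ℕ × α) × (ℕ × α)) × (α × (α × α))) (v : ℕ) =>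
        Ps x.1.1.1 v x.2.2.1) ?_
      exact hPsO.1.comp (f := fun x : (((ℕ × α) × (ℕ × α)) × (α × (α × α))) × ℕ =>
        ((x.1.1.1.1, x.2), x.1.2.2.1)) (by fun_prop)
    · exact hXO.1.comp (f := fun x : ((ℕ × α) × (ℕ × α)) × (α × (α × α)) =>
        (x.2.2.2, x.2.2.1)) (by fun_prop)
    · exact hNgO.2.comp (f := fun x : ((ℕ × α) × (ℕ × α)) × (α × (α × α)) =>
        (x.1.1.1.unpair.1.unpair.1, x.2.2.1)) (by fun_prop)
    · exact hW.comp (f := fun x : ((ℕ × α) × (ℕ × α)) × (α × (α × α)) =>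
        ((x.1.1.1.unpair.1.unpair.1, x.1.1.1.unpair.1.unpair.2), x.2.2.2)) (by fun_prop)
    · exact hXO.1.comp (f := fun x : ((ℕ × α) × (ℕ × α)) × (α × (α × α)) =>
        (x.1.2.2, x.2.2.2)) (by fun_prop)
    · exact hT.comp (f := fun x : ((ℕ × α) × (ℕ × α)) × (α × (α × α)) =>
        (x.1.1.1, x.1.2.2)) (by fun_prop)
  have hRtot : ∀ n c, V c → ∃ y, R (n, c) y := by
    intro n c hc
    -- (i)
    obtain ⟨b, c1, hVc1, hXc1, hb⟩ : ∃ (b : ℕ) (c1 : α), V c1 ∧ X c1 c ∧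
        ((b = 1 ∧ ∃ u, Ng (Nat.pair n u) c1) ∨
        (b = 0 ∧ ¬ ∃ y : α × ℕ, V y.1 ∧ X y.1 c ∧ Ng (Nat.pair n y.2) y.1)) := by
      by_cases h : ∃ y : α × ℕ, V y.1 ∧ X y.1 c ∧ Ng (Nat.pair n y.2) y.1
      · obtain ⟨y, h1, h2, h3⟩ := h
        exact ⟨1, y.1, h1, h2, Or.inl ⟨rfl, y.2, h3⟩⟩
      · exact ⟨0, c, hc, hXr c, Or.inr ⟨rfl, h⟩⟩
    -- (ii)
    obtain ⟨c2, hVc2, hXc2, h2⟩ := hdec n c1 hVc1
    -- (iii)
    obtain ⟨c3, hVc3, hXc3, h3⟩ : ∃ c3, V c3 ∧ X c3 c2 ∧ ((¬ Ng n.unpair.1.unpair.1 c2) ∨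
        W n.unpair.1.unpair.1 n.unpair.1.unpair.2 c3) := by
      by_cases h : Ng n.unpair.1.unpair.1 c2
      · obtain ⟨c3, h4, h5, h6⟩ := hWd _ n.unpair.1.unpair.2 c2 hVc2 h
        exact ⟨c3, h4, h5, Or.inr h6⟩
      · exact ⟨c2, hVc2, hXr c2, Or.inl h⟩
    -- (iv)
    obtain ⟨c4, hVc4, hXc4, h4⟩ := hTd n c3 hVc3
    exact ⟨(b, c4), (c1, (c2, c3)), ⟨hVc1, hXc1, hb⟩, ⟨hVc2, hXc2, h2⟩, ⟨hVc3, hXc3, h3⟩,
      hVc4, hXc4, h4⟩
  obtain ⟨P, hPre, hPR, hPfun, hPtot⟩ := unif hRre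
  have hstep : ∀ (n : ℕ) (c : α), ∃ y : ℕ × α, V c → (P (n, c) y ∧ V y.2) := by
    intro n c
    by_cases hc : V c
    · obtain ⟨y, hy⟩ := hPtot (n, c) (hRtot n c hc)
      obtain ⟨z, -, -, -, h1, -, -⟩ := hPR _ _ hy
      exact ⟨y, fun _ => ⟨hy, h1⟩⟩
    · exact ⟨(0, c), fun h => absurd h hc⟩
  choose f hf using hstep
  let s : ℕ → α := fun n => Nat.rec c0 (fun n c => (f n c).2) n
  have hs0 : s 0 = c0 := rfl
  have hsV : ∀ n, V (s n) := by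
    intro n
    induction n with
    | zero => exact hc0
    | succ n ih => exact (hf n (s n) ih).2
  have hsP : ∀ n, P (n, s n) ((f n (s n)).1, s (n + 1)) := fun n => (hf n (s n) (hsV n)).1
  have hgraph := iter P hPre hPfun s (fun n => (f n (s n)).1) hsP
  have hsR : ∀ n, R (n, s n) ((f n (s n)).1, s (n + 1)) := fun n => hPR _ _ (hsP n)
  have hsX1 : ∀ n, X (s (n + 1)) (s n) := by
    intro n
    obtain ⟨z, ⟨h1, h2, -⟩, ⟨h3, h4, -⟩, ⟨h5, h6, -⟩, h7, h8, -⟩ := hsR n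
    exact hXt _ _ _ h1 h2 (hXt _ _ _ h3 h4 (hXt _ _ _ h5 h6 h8))
  have hsX : ∀ n k, X (s (n + k)) (s n) := by
    intro n k
    induction k with
    | zero => exact hXr _
    | succ k ih => exact hXt _ _ _ (hsV (n + k)) ih (hsX1 (n + k))
  have hb : ∀ n, (f n (s n)).1 = 1 ∨ (f n (s n)).1 = 0 := by
    intro n
    obtain ⟨z, ⟨-, -, h1⟩, -⟩ := hsR n
    rcases h1 with h1 | h1
    · exact Or.inl h1.1
    · exact Or.inr h1.1
  refine ⟨s, {n | (f n (s n)).1 = 1}, ⟨?_, ?_⟩, hs0, hsV, hsX1, ?_, ?_, ?_, ?_⟩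
  · have h1 : REIn O fun n : ℕ => ∃ y : α × α, s n = y.1 ∧ P (n, y.1) (1, y.2) := by
      refine REIn.ex (S := fun (n : ℕ) (y : α × α) => s n = y.1 ∧ P (n, y.1) (1, y.2)) ?_
      refine REIn.and ?_ ?_
      · exact hgraph.comp (f := fun x : ℕ × (α × α) => (x.1, x.2.1)) (by fun_prop)
      · exact hPre.comp (f := fun x : ℕ × (α × α) => ((x.1, x.2.1), ((1 : ℕ), x.2.2)))
          (by fun_prop)
    refine h1.of_eq fun n => ?_
    constructor
    · rintro ⟨⟨y1, y2⟩, hy1, hy2⟩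
      have hy1 : s n = y1 := hy1
      subst hy1
      have h2 := hPfun _ _ _ hy2 (hsP n)
      show (f n (s n)).1 = 1
      exact (congrArg Prod.fst h2).symm
    · intro h2
      have h2 : (f n (s n)).1 = 1 := h2
      refine ⟨(s n, s (n + 1)), rfl, ?_⟩
      have h3 := hsP n
      rw [h2] at h3
      exact h3
  · have h1 : REIn O fun n : ℕ => ∃ y : α × α, s n = y.1 ∧ P (n, y.1) (0, y.2) := by
      refine REIn.ex (S := fun (n : ℕ) (y : α × α) => s n = y.1 ∧ P (n, y.1) (0, y.2)) ?_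
      refine REIn.and ?_ ?_
      · exact hgraph.comp (f := fun x : ℕ × (α × α) => (x.1, x.2.1)) (by fun_prop)
      · exact hPre.comp (f := fun x : ℕ × (α × α) => ((x.1, x.2.1), ((0 : ℕ), x.2.2)))
          (by fun_prop)
    refine h1.of_eq fun n => ?_
    constructor
    · rintro ⟨⟨y1, y2⟩, hy1, hy2⟩
      have hy1 : s n = y1 := hy1
      subst hy1
      have h2 := hPfun _ _ _ hy2 (hsP n)
      show ¬ (f n (s n)).1 = 1
      have h3 : 0 = (f n (s n)).1 := congrArg Prod.fst h2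
      omega
    · intro h2
      have h2 : ¬ (f n (s n)).1 = 1 := h2
      refine ⟨(s n, s (n + 1)), rfl, ?_⟩
      have h3 := hsP n
      rw [(hb n).resolve_left h2] at h3
      exact h3
  · intro w
    obtain ⟨z, -, ⟨h3, h4, h5⟩, ⟨h6, h7, -⟩, h8, h9, -⟩ := hsR w
    refine ⟨w + 1, ?_⟩
    have h10 : X (s (w + 1)) z.2.1 := hXt _ _ _ h6 h7 h9
    rcases h5 with h5 | ⟨v, h5⟩
    · exact Or.inl (hNgX _ _ _ (hsV (w + 1)) h10 h5)
    · exact Or.inr ⟨v, hPsX _ _ _ _ (hsV (w + 1)) h10 h5⟩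
  · intro w v m hm
    set n := Nat.pair (Nat.pair w v) m with hn
    have hmn : m ≤ n := Nat.right_le_pair _ _
    have h1 : Ng w (s n) := by
      have h2 := hsX m (n - m)
      rw [Nat.add_sub_cancel' hmn] at h2
      exact hNgX _ _ _ (hsV _) h2 hm
    obtain ⟨z, ⟨h2, h3, -⟩, ⟨h4, h5, -⟩, ⟨h6, h7, h8⟩, h9, h10, -⟩ := hsR n
    simp only [hn, Nat.unpair_pair] at h8
    refine ⟨n + 1, by omega, ?_⟩
    rcases h8 with h8 | h8
    · exact absurd (hNgX _ _ _ h4 h5 (hNgX _ _ _ h2 h3 h1)) h8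
    · exact hWX _ _ _ _ (hsV (n + 1)) h10 h8
  · intro j
    obtain ⟨z, -, -, -, -, -, h1⟩ := hsR j
    exact ⟨j + 1, h1⟩
  · intro k
    obtain ⟨z, ⟨h2, h3, h1⟩, ⟨h4, h5, -⟩, ⟨h6, h7, -⟩, h9, h10, -⟩ := hsR k
    constructor
    · intro hk
      have hk : (f k (s k)).1 = 1 := hk
      rcases h1 with ⟨-, u, h1⟩ | ⟨h1, -⟩
      · refine ⟨k + 1, u, ?_⟩
        exact hNgX _ _ _ (hsV (k + 1)) (hXt _ _ _ h4 h5 (hXt _ _ _ h6 h7 h10)) h1
      · exfalso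
        have h1 : (f k (s k)).1 = 0 := h1
        omega
    · intro hk
      have hk : ¬ (f k (s k)).1 = 1 := hk
      rcases h1 with ⟨h1, -⟩ | ⟨-, h1⟩
      · exact absurd h1 hk
      · exact ⟨k, fun c hc hXc u hu => h1 ⟨(c, u), hc, hXc, hu⟩⟩

end Pool.Agent.Helper1K9.LT
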