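import Pool.Agent.Helper1K9.LT.Stm2

/-!
# Relay LT, leaf TRN: `Ext` is a preorder on valid conditions and the forcing relations persist
-/

set_option autoImplicit false

namespace Pool.Agent.Helper1K9.LT

namespace TrnL

theorem ext_refl (N : Set ℕ) (c : Cnd) : Ext N c c := by
  refine ⟨[], by simp, by simp, ⟨?_, ?_⟩, fun y hy => hy, fun y hy => hy⟩
  · intro x hx y hy _ h
    simp only [List.append_nil] at hx hy
    exact absurd ⟨hx, hy⟩ h
  · intro x hx y hy x' hx' y' hy' _ _ _ h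
    simp only [List.append_nil] at hy hy'
    exact absurd ⟨hy, hy'⟩ h

theorem P1.mono {Γ Γ' : Set ℕ} (h : ∀ y ∈ Γ, y ∈ Γ') {x y : ℕ} (hxy : P1 Γ x y) : P1 Γ' x y :=
  hxy.imp (h _) (h _)

theorem P2.mono {Γ Γ' : Set ℕ} (h : ∀ y ∈ Γ, y ∈ Γ') {x y : ℕ} (hxy : P2 Γ x y) : P2 Γ' x y :=
  hxy.imp (h _) (h _)

/-- composition of clean extensions -/
theorem clean_comp {Γ Γ' : Set ℕ} {F E E' : List ℕ} (h : ∀ y ∈ Γ, y ∈ Γ')
    (h1 : Clean Γ F E) (h2 : Clean Γ' (F ++ E) E') (hE' : ∀ y ∈ E', ∀ f ∈ F ++ E, f < y) :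
    Clean Γ F (E ++ E') := by
  refine ⟨?_, ?_⟩
  · intro x hx y hy hxy hF hP
    rw [← List.append_assoc] at hx hy
    by_cases hin : x ∈ F ++ E ∧ y ∈ F ++ E
    · exact h1.1 x hin.1 y hin.2 hxy hF hP
    · exact h2.1 x hx y hy hxy hin (P1.mono h hP)
  · intro x hx y hy x' hx' y' hy' hxy hxy' hne hF hP
    rw [← List.append_assoc] at hx hy hx' hy'
    by_cases hin : y ∈ F ++ E ∧ y' ∈ F ++ E
    · have h3 : x ∈ F ++ E := by
        rcases List.mem_append.1 hx with h | h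
        · exact h
        · exact absurd (hE' x h y hin.1) (by omega)
      have h4 : x' ∈ F ++ E := by
        rcases List.mem_append.1 hx' with h | h
        · exact h
        · exact absurd (hE' x' h y' hin.2) (by omega)
      exact h1.2 x h3 y hin.1 x' h4 y' hin.2 hxy hxy' hne hF hP
    · exact h2.2 x hx y hy x' hx' y' hy' hxy hxy' hne hin (P2.mono h hP)

theorem ext_trans {N q : Set ℕ} {c c' c'' : Cnd} (hv : Vld N q c') (h1 : Ext N c' c)
    (h2 : Ext N c'' c') : Ext N c'' c := by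
  obtain ⟨E, hE, hEX, hcl, hX, hD⟩ := h1
  obtain ⟨E', hE', hEX', hcl', hX', hD'⟩ := h2
  refine ⟨E ++ E', ?_, ?_, ?_, fun y hy => hX y (hX' y hy), fun y hy => hD' y (hD y hy)⟩
  · rw [hE', hE, List.append_assoc]
  · intro y hy
    rcases List.mem_append.1 hy with h | h
    · exact hEX y h
    · exact hX y (hEX' y h)
  · rw [hE] at hcl'
    refine clean_comp hD hcl hcl' fun y hy f hf => ?_
    have := (hv.2.2 y (hEX' y hy)).1 f
    rw [hE] at this
    exact this hf

/-- an extension of the extended condition is an extension of the first condition -/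
theorem lift {N q : Set ℕ} {c c' : Cnd} (hv : Vld N q c') (h1 : Ext N c' c) {E' : List ℕ}
    (hX' : ∀ y ∈ E', y ∈ col N c'.2.1) (hcl' : Clean (col N c'.2.2.1) c'.1 E') :
    ∃ E : List ℕ, c'.1 ++ E' = c.1 ++ E ∧ (∀ y ∈ E, y ∈ col N c.2.1) ∧
      Clean (col N c.2.2.1) c.1 E := by
  obtain ⟨E, hE, hEX, hcl, hX, hD⟩ := h1
  refine ⟨E ++ E', by rw [hE, List.append_assoc], ?_, ?_⟩
  · intro y hy
    rcases List.mem_append.1 hy with h | h
    · exact hEX y h
    · exact hX y (hX' y h)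
  · rw [hE] at hcl'
    refine clean_comp hD hcl hcl' fun y hy f hf => ?_
    have := (hv.2.2 y (hX' y hy)).1 f
    rw [hE] at this
    exact this hf

end TrnL

open TrnL in
theorem trn : S_TRN := by
  intro B M N p q
  refine ⟨ext_refl N, fun c c' c'' => ext_trans, ?_, ?_⟩
  · intro e w c c' hv h1 hN E' hX' hcl' v k
    obtain ⟨E, hE, hEX, hcl⟩ := lift hv h1 hX' hcl'
    rw [hE]
    exact hN E hEX hcl v k
  · intro e w v c c' hv h1 hP E' hX' hcl'
    obtain ⟨E, hE, hEX, hcl⟩ := lift hv h1 hX' hcl'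
    rw [hE]
    exact hP E hEX hcl

end Pool.Agent.Helper1K9.LT
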