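import Pool.Agent.Helper1K9.LT.Dec
import Pool.Agent.Helper1K9.LT.Trn

/-!
# Relay LT, leaf GGG: the generic set
-/

set_option autoImplicit false

namespace Pool.Agent.Helper1K9.LT

open Encodable Pool.Agent.Helper446 Pool.Agent.Helper446.Defs Pool.Agent.Helper446.RE
  Pool.Agent.Helper446.Oracle Pool.Agent.R623.Dec

namespace GggL

/-- the sequence of conditions: extensions between any two stages -/
theorem ext_le {N q : Set ℕ} {s : ℕ → Cnd} (hV : ∀ n, Vld N q (s n))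
    (hX : ∀ n, Ext N (s (n + 1)) (s n)) {m n : ℕ} (h : m ≤ n) : Ext N (s n) (s m) := by
  induction n, h using Nat.le_induction with
  | base => exact TrnL.ext_refl N _
  | succ n hmn ih => exact TrnL.ext_trans (hV n) ih (hX n)

/-- the union of the finite parts -/
def Gn (s : ℕ → Cnd) : Set ℕ := {x | ∃ n, x ∈ (s n).1}

section

variable {N q : Set ℕ} {s : ℕ → Cnd} (hV : ∀ n, Vld N q (s n))
  (hX : ∀ n, Ext N (s (n + 1)) (s n))

include hV hX

theorem fin_mono {m n : ℕ} (h : m ≤ n) : ∀ x ∈ (s m).1, x ∈ (s n).1 := by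
  obtain ⟨E, hE, -⟩ := ext_le hV hX h
  intro x hx
  rw [hE]
  exact List.mem_append_left _ hx

/-- every element of `G` which is not in the finite part is in the reservoir -/
theorem mem_res {m : ℕ} {x : ℕ} (hx : x ∈ Gn s) (hn : x ∉ (s m).1) : x ∈ col N (s m).2.1 := by
  obtain ⟨n, hn'⟩ := hx
  rcases le_total n m with h | h
  · exact absurd (fin_mono hV hX h x hn') hn
  · obtain ⟨E, hE, hEX, -⟩ := ext_le hV hX h
    rw [hE] at hn'
    rcases List.mem_append.1 hn' with h1 | h1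
    · exact absurd h1 hn
    · exact hEX x h1

theorem init {m : ℕ} : (∀ x ∈ (s m).1, x ∈ Gn s) ∧
    ∀ g ∈ Gn s, g ∉ (s m).1 → ∀ f ∈ (s m).1, f < g :=
  ⟨fun x hx => ⟨m, hx⟩, fun g hg hn f hf => ((hV m).2.2 g (mem_res hV hX hg hn)).1 f hf⟩

theorem clean_pairs {x y x' y' : ℕ} (hx : x ∈ Gn s) (hy : y ∈ Gn s) (hx' : x' ∈ Gn s)
    (hy' : y' ∈ Gn s) (h1 : x < y) (h2 : x' < y') (h3 : ¬ (x = x' ∧ y = y'))
    (h0 : (s 0).1 = []) : ¬ P2 (col N (s 0).2.2.1) (Nat.pair x y) (Nat.pair x' y') := by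
  obtain ⟨n1, e1⟩ := hx
  obtain ⟨n2, e2⟩ := hy
  obtain ⟨n3, e3⟩ := hx'
  obtain ⟨n4, e4⟩ := hy'
  set n := max (max n1 n2) (max n3 n4) with hn
  have m1 := fin_mono hV hX (show n1 ≤ n by omega) x e1
  have m2 := fin_mono hV hX (show n2 ≤ n by omega) y e2
  have m3 := fin_mono hV hX (show n3 ≤ n by omega) x' e3
  have m4 := fin_mono hV hX (show n4 ≤ n by omega) y' e4
  obtain ⟨E, hE, -, hcl, -⟩ := ext_le hV hX (Nat.zero_le n)
  rw [hE, h0] at m1 m2 m3 m4
  refine hcl.2 x ?_ y ?_ x' ?_ y' ?_ h1 h2 h3 ?_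
  · rw [h0]; exact m1
  · rw [h0]; exact m2
  · rw [h0]; exact m3
  · rw [h0]; exact m4
  · rw [h0]; simp

end

end GggL

open GggL in
theorem ggg (hUF2 : S_UF2) (hCPX : S_CPX) (hGEN : S_GEN) (hJ3 : S_J3) (hEVL : S_EVL)
    (hDEC : S_DEC) (hDEN : S_DEN) (hGRW : S_GRW) (hCUT : S_CUT)
    (hSCT : S_SCT) (hJMP : S_JMP) : S_GGG := by
  intro B M N p hM hN hBM hJN hpN hp hMlow hNlow Δ d hΔN hΔd
  obtain ⟨q, hq, hgood, hsub, hqlow⟩ := hUF2 M N p hM hN hJN hpN hp
  have env : Env B M N p q := ⟨hM, hN, hBM, hJN, hpN, hp, hq, hgood, hsub⟩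
  obtain ⟨e0, he0⟩ := hJ3
  obtain ⟨cV, cX, cN, cP, cC⟩ := hCPX B M N p q env e0
  obtain ⟨ev1, ev2, ev3, ev4⟩ := hEVL
  obtain ⟨hJre, hJdec, hJle, hJmono, hJn1, hJn2, hcol⟩ := hJMP
  have htrn := trn B M N p q
  set Q : Set ℕ := Jn q (Jmp N) with hQ
  -- `B ≤ Jmp Q`
  obtain ⟨iB, hiB⟩ := hBM
  have hBJM : Le B (Jmp M) := by
    rw [← hiB]
    exact (hcol M iB).trans (hJle M)
  obtain ⟨jM, hjM⟩ := hJN
  have hJMN : Le (Jmp M) N := by
    rw [← hjM]
    exact hcol N jM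
  have hBJQ : Le B (Jmp Q) :=
    (hBJM.trans hJMN).trans ((hJle N).trans ((hJn1 q (Jmp N)).2.trans (hJle Q)))
  -- the whole set is in the ultrafilter
  obtain ⟨δ, hδ⟩ := hΔN
  have huniv : ∃ x0 ∈ q, col N x0 = Set.univ := by
    have h1 : InN N Set.univ := by
      refine hSCT.1 N hN Set.univ (col N 0) ?_ ⟨0, rfl⟩
      have h2 : DecIn (col N 0) fun _ : ℕ => True := by
        refine ⟨REIn.of_re ?_, REIn.of_re ?_⟩
        · exact (ComputablePred.to_re (by
            exact ⟨fun _ => isTrue trivial, Computable.const true⟩))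
        · refine (ComputablePred.to_re (p := fun _ : ℕ => ¬ True) ?_)
          exact ⟨fun _ => isFalse (fun h => h trivial), Computable.const false⟩
      exact h2.of_eq fun n => by simp
    rcases hq.dich Set.univ h1 with h | h
    · obtain ⟨x0, h2, h3⟩ := h
      exact ⟨x0, h2, h3⟩
    · exact absurd (hq.inf _ h) (by simp)
  obtain ⟨x0, hx0q, hx0⟩ := huniv
  have hstart : Vld N q (([], x0, δ, d) : Cnd) := by
    refine ⟨hx0q, ?_, ?_⟩
    · show Deg (col N δ) d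
      rw [hδ]
      exact hΔd
    · intro y _
      exact ⟨fun f hf => absurd hf (by simp), fun a ha => absurd ha (by simp)⟩
  -- the tasks
  let T : ℕ → Cnd → Prop := fun j c =>
    (j % 2 = 0 → ∃ y ∈ c.1, j / 2 ≤ y) ∧
    (j % 2 = 1 → ((∀ y ∈ col N c.2.1, y ∈ col N (j / 2)) ∨
      ∀ y ∈ col N c.2.1, y ∉ col N (j / 2)))
  have hQJQ : Le Q (Jmp Q) := hJle Q
  have hTre : REIn (Jmp Q) (fun x : ℕ × Cnd => T x.1 x.2) := by
    have hmod : Computable fun n : ℕ => n % 2 :=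
      (Primrec.nat_mod.comp Primrec.id (Primrec.const 2)).to_comp
    have hdiv : Computable fun n : ℕ => n / 2 :=
      (Primrec.nat_div.comp Primrec.id (Primrec.const 2)).to_comp
    have h1 : DecIn (Jmp Q) fun x : ℕ × Cnd => x.1 % 2 = 0 :=
      DecIn.eq (hmod.comp Computable.fst) (Computable.const 0)
    have h2 : DecIn (Jmp Q) fun x : ℕ × Cnd => x.1 % 2 = 1 :=
      DecIn.eq (hmod.comp Computable.fst) (Computable.const 1)
    have h3 : REIn (Jmp Q) fun x : ℕ × Cnd => ∃ y, y ∈ x.2.1 ∧ ¬ (y < x.1 / 2) := by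
      refine REIn.ex (S := fun (x : ℕ × Cnd) (y : ℕ) => y ∈ x.2.1 ∧ ¬ (y < x.1 / 2)) ?_
      refine REIn.and (REIn.of_re (RE.mem_list ?_ ?_)) ?_
      · exact Computable.snd
      · exact Computable.fst.comp (Computable.snd.comp Computable.fst)
      · exact (DecIn.lt (A := Jmp Q) Computable.snd
          (hdiv.comp (Computable.fst.comp Computable.fst))).not.1
    have h4 : DecIn (Jmp Q) fun x : ℕ × Cnd => (∀ y ∈ col N x.2.2.1, y ∈ col N (x.1 / 2)) ∨
        ∀ y ∈ col N x.2.2.1, y ∉ col N (x.1 / 2) := by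
      exact (cC.trans hQJQ).comp (f := fun x : ℕ × Cnd => (x.1 / 2, x.2))
        ((hdiv.comp Computable.fst).pair Computable.snd)
    have h5 : REIn (Jmp Q) fun x : ℕ × Cnd => (¬ (x.1 % 2 = 0) ∨
        ∃ y, y ∈ x.2.1 ∧ ¬ (y < x.1 / 2)) ∧ (¬ (x.1 % 2 = 1) ∨
        ((∀ y ∈ col N x.2.2.1, y ∈ col N (x.1 / 2)) ∨
          ∀ y ∈ col N x.2.2.1, y ∉ col N (x.1 / 2))) :=
      REIn.and (REIn.or h1.2 h3) (REIn.or h2.2 h4.1)
    refine h5.of_eq fun x => ?_
    simp only [T, not_lt]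
    tauto
  have hTmono : ∀ (j : ℕ) (c c' : Cnd), Vld N q c' → Ext N c' c → T j c → T j c' := by
    intro j c c' _ hext hT
    obtain ⟨E, hE, hEX, hcl, hXX, hDD⟩ := hext
    refine ⟨fun hj => ?_, fun hj => ?_⟩
    · obtain ⟨y, hy, hjy⟩ := hT.1 hj
      exact ⟨y, by rw [hE]; exact List.mem_append_left _ hy, hjy⟩
    · rcases hT.2 hj with h | h
      · exact Or.inl fun y hy => h y (hXX y hy)
      · exact Or.inr fun y hy => h y (hXX y hy)
  have hTdense : ∀ (j : ℕ) (c : Cnd), Vld N q c → ∃ c', Vld N q c' ∧ Ext N c' c ∧ T j c' := by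
    intro j c hc
    rcases Nat.even_or_odd j with hj | hj
    · have hj0 : j % 2 = 0 := Nat.even_iff.1 hj
      -- grow until an element `≥ j / 2` appears
      have key : ∀ m : ℕ, ∃ c', Vld N q c' ∧ Ext N c' c ∧ ∃ y ∈ c'.1, m ≤ y := by
        intro m
        induction m with
        | zero =>
          obtain ⟨c', h1, h2, y, hy, -⟩ := hGRW B M N p q env c hc
          exact ⟨c', h1, h2, y, hy, Nat.zero_le _⟩
        | succ m ih =>
          obtain ⟨c', h1, h2, y, hy, hmy⟩ := ih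
          obtain ⟨c'', h3, h4, z, hz, hzn⟩ := hGRW B M N p q env c' h1
          refine ⟨c'', h3, TrnL.ext_trans h1 h2 h4, z, hz, ?_⟩
          obtain ⟨E, hE, hEX, -⟩ := h4
          rw [hE] at hz
          rcases List.mem_append.1 hz with h5 | h5
          · exact absurd h5 hzn
          · have := (h1.2.2 z (hEX z h5)).1 y hy
            omega
      obtain ⟨c', h1, h2, h3⟩ := key (j / 2)
      exact ⟨c', h1, h2, fun _ => h3, fun h => by omega⟩
    · have hj1 : j % 2 = 1 := Nat.odd_iff.1 hj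
      obtain ⟨c', h1, h2, h3⟩ := hCUT B M N p q env c (j / 2) hc
      exact ⟨c', h1, h2, fun h => by omega, fun _ => h3⟩
  -- evidence
  have hWre : REIn (Jmp Q) (fun x : (ℕ × ℕ) × Cnd =>
      Vld N q x.2 ∧ Ev B e0 (Nat.pair x.1.1 x.1.2) x.2.1) := by
    have h1 := REIn.trans hBJQ (ev3 B e0)
    refine REIn.and ?_ ?_
    · exact ((cV.trans hQJQ).comp (f := fun x : (ℕ × ℕ) × Cnd => x.2) Computable.snd).1
    · exact h1.comp (f := fun x : (ℕ × ℕ) × Cnd => (Nat.pair x.1.1 x.1.2, x.2.1))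
        ((Primrec₂.natPair.to_comp.comp (Computable.fst.comp Computable.fst)
          (Computable.snd.comp Computable.fst)).pair (Computable.fst.comp Computable.snd))
  obtain ⟨s, A, hAle, hs0, hsV, hsX, hsDec, hsW, hsT, hsA⟩ :=
    hGEN Cnd Q (fun c => Vld N q c) (fun c' c => Ext N c' c) (fun w c => Neg B M N p e0 w c)
      (fun w v c => Pos B N e0 w v c)
      (fun w v c => Vld N q c ∧ Ev B e0 (Nat.pair w v) c.1) T
      ([], x0, δ, d) cV cX cN cP hWre hTre htrn.1 htrn.2.1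
      (fun w c c' h1 h2 h3 => htrn.2.2.1 e0 w c c' h1 h2 h3)
      (fun w v c c' h1 h2 h3 => htrn.2.2.2 e0 w v c c' h1 h2 h3)
      (by
        rintro w v c c' h1 h2 ⟨hvc, h3⟩
        refine ⟨h1, ?_⟩
        obtain ⟨E, hE, hEX, -⟩ := h2
        rw [hE]
        exact ev4 B e0 _ _ _ (fun y hy f hf => (hvc.2.2 y (hEX y hy)).1 f hf) h3)
      hTmono
      (fun w c hc => hDEC B M N p q env e0 w c hc)
      (fun w v c hc hn => by
        obtain ⟨c'', h1, h2, h3⟩ := hDEN B M N p q env e0 w c hn c hc (TrnL.ext_refl N c) v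
        exact ⟨c'', h1, h2, h1, h3⟩)
      hTdense hstart
  have hs01 : (s 0).1 = [] := by rw [hs0]
  have hs0δ : col N (s 0).2.2.1 = Δ := by rw [hs0]; exact hδ
  -- `G` is infinite
  have hbig : ∀ j m : ℕ, ∃ n, m ≤ n ∧ ∃ y ∈ (s n).1, j ≤ y := by
    intro j m
    obtain ⟨n, hn⟩ := hsT (2 * j)
    obtain ⟨y, hy, hjy⟩ := hn.1 (by omega)
    refine ⟨max m n, le_max_left _ _, y, fin_mono hsV hsX (le_max_right _ _) y hy, ?_⟩
    omega
  refine ⟨Gn s, ?_, ?_, ?_, ?_⟩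
  · rw [Set.infinite_iff_exists_gt]
    intro a
    obtain ⟨n, -, y, hy, hay⟩ := hbig (a + 1) 0
    exact ⟨y, ⟨n, hy⟩, by omega⟩
  · intro V hV
    obtain ⟨j, hjq, hj⟩ := hsub V hV
    obtain ⟨n, hn⟩ := hsT (2 * j + 1)
    have hj2 : (2 * j + 1) / 2 = j := by omega
    have h1 := hn.2 (by omega)
    rw [hj2] at h1
    obtain ⟨L, hL⟩ := DecL.list_bound (s n).1
    have hres : ∀ y ∈ col N (s n).2.1, y ∈ col N j := by
      rcases h1 with h | h
      · exact h
      · exfalso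
        have h2 := hq.inter _ ⟨(s n).2.1, (hsV n).1, rfl⟩ _ ⟨j, hjq, rfl⟩
        obtain ⟨y, hy1, hy2⟩ := (hq.inf _ h2).nonempty
        exact h y hy1 hy2
    refine ⟨L + 1, fun x hx hLx => ?_⟩
    rw [← hj]
    refine hres x (mem_res hsV hsX hx fun hmem => ?_)
    have := hL x hmem
    omega
  · intro x hx y hy x' hx' y' hy' h1 h2 h3
    rw [← hs0δ]
    exact clean_pairs hsV hsX hx hy hx' hy' h1 h2 h3 hs01
  · have hAeq : Jmp (Jmp (Jmp (Jn B (Gn s)))) = A := by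
      ext k
      rw [he0]
      constructor
      · rintro ⟨u, hu⟩
        by_contra hkA
        obtain ⟨n, hn⟩ := (hsA k).2 hkA
        obtain ⟨m, hm⟩ := hsDec (Nat.pair k u)
        rcases hm with hm | ⟨v, hm⟩
        · have h1 : Neg B M N p e0 (Nat.pair k u) (s (max m n)) :=
            htrn.2.2.1 e0 _ _ _ (hsV _) (ext_le hsV hsX (le_max_left m n)) hm
          exact hn _ (hsV _) (ext_le hsV hsX (le_max_right m n)) u h1
        · obtain ⟨m0, hm0⟩ := ev2 B e0 _ (Gn s) (hu v)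
          obtain ⟨l, hml, y, hy, hy0⟩ := hbig m0 m
          have hini := init hsV hsX (m := l)
          have h2 := hm0 (s l).1 hini.1 hini.2 ⟨y, hy, hy0⟩
          obtain ⟨E, hE, hEX, hcl, -⟩ := ext_le hsV hsX hml
          rw [hE] at h2
          exact hm E hEX hcl h2
      · intro hkA
        obtain ⟨n, u, hn⟩ := (hsA k).1 hkA
        refine ⟨u, fun v => ?_⟩
        obtain ⟨m, -, -, hev⟩ := hsW _ v n hn
        have hini := init hsV hsX (m := m)
        exact ev1 B e0 _ _ _ hini.1 hini.2 hev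
    rw [hAeq]
    exact (hAle.trans hqlow).trans ((hJmono _ _ hNlow).trans
      (hJmono _ _ (hJmono _ _ hMlow)))

end Pool.Agent.Helper1K9.LT
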