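import Pool.Agent.Helper1K9.LT.Cpt

/-!
# Relay LT: goodness is partition regular
-/

set_option autoImplicit false

namespace Pool.Agent.Helper1K9.LT

open Encodable Pool.Agent.Helper446 Pool.Agent.Helper446.Defs Pool.Agent.Helper446.RE
  Pool.Agent.Helper446.Oracle Pool.Agent.R623.Dec

namespace GprL

open CptL

/-- the class of all sets such that in every partition the first part has a `W0` set or the
second part has a `W1` set -/
def QP (W0 W1 : List ℕ → Prop) (D : List ℕ) : Prop :=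
  ∀ X : Set ℕ, (∃ D' : List ℕ, (∀ x ∈ D', x ∈ D ∧ x ∈ X) ∧ W0 D') ∨
    ∃ D' : List ℕ, (∀ x ∈ D', x ∈ D ∧ x ∉ X) ∧ W1 D'

theorem exists_bound (D : List ℕ) : ∃ n, ∀ x ∈ D, x < n := by
  induction D with
  | nil => exact ⟨0, fun x hx => by simp at hx⟩
  | cons a D ih =>
    obtain ⟨n, hn⟩ := ih
    refine ⟨max n (a + 1), fun x hx => ?_⟩
    rcases List.mem_cons.1 hx with rfl | hx
    · exact lt_max_of_lt_right (Nat.lt_succ_self _)
    · exact lt_max_of_lt_left (hn x hx)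

theorem qp_re {A : Set ℕ} {W0 W1 : List ℕ → Prop} (h0 : REIn A W0) (h1 : REIn A W1) :
    REIn A (QP W0 W1) := by
  have key : REIn A fun D : List ℕ => ∃ n : ℕ, (∀ x ∈ D, x < n) ∧ ∀ X : Set ℕ,
      ((∃ D' : List ℕ, (∀ x ∈ D', x ∈ D ∧ (sg X n)[x]? = some true) ∧ W0 D') ∨
      ∃ D' : List ℕ, (∀ x ∈ D', x ∈ D ∧ (sg X n)[x]? = some false) ∧ W1 D') := by
    refine REIn.ex (S := fun (D : List ℕ) (n : ℕ) => (∀ x ∈ D, x < n) ∧ ∀ X : Set ℕ,
      ((∃ D' : List ℕ, (∀ x ∈ D', x ∈ D ∧ (sg X n)[x]? = some true) ∧ W0 D') ∨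
      ∃ D' : List ℕ, (∀ x ∈ D', x ∈ D ∧ (sg X n)[x]? = some false) ∧ W1 D')) ?_
    refine REIn.and ?_ ?_
    · refine REIn.all_mem (S := fun (y : List ℕ × ℕ) (x : ℕ) => x < y.2) ?_ (by fun_prop)
      exact REIn.of_re (RE.lt (by fun_prop) (by fun_prop))
    · refine re_all_sg (S := fun (y : List ℕ × ℕ) (σ : List Bool) =>
        (∃ D' : List ℕ, (∀ x ∈ D', x ∈ y.1 ∧ σ[x]? = some true) ∧ W0 D') ∨
        ∃ D' : List ℕ, (∀ x ∈ D', x ∈ y.1 ∧ σ[x]? = some false) ∧ W1 D') ?_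
        (f := fun y : List ℕ × ℕ => y.2) (by fun_prop)
      have part : ∀ (b : Bool) (W : List ℕ → Prop), REIn A W →
          REIn A fun z : (List ℕ × ℕ) × List Bool =>
            ∃ D' : List ℕ, (∀ x ∈ D', x ∈ z.1.1 ∧ z.2[x]? = some b) ∧ W D' := by
        intro b W hW
        refine REIn.ex (S := fun (z : (List ℕ × ℕ) × List Bool) (D' : List ℕ) =>
          (∀ x ∈ D', x ∈ z.1.1 ∧ z.2[x]? = some b) ∧ W D') ?_
        refine REIn.and ?_ (hW.comp (f := fun w : ((List ℕ × ℕ) × List Bool) × List ℕ => w.2)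
          (by fun_prop))
        refine REIn.all_mem (S := fun (w : ((List ℕ × ℕ) × List Bool) × List ℕ) (x : ℕ) =>
          x ∈ w.1.1.1 ∧ w.1.2[x]? = some b) ?_ (by fun_prop)
        refine REIn.and (REIn.of_re (RE.mem_list (by fun_prop) (by fun_prop)))
          (REIn.of_re (RE.eq (by fun_prop) (by fun_prop)))
      exact REIn.or (part true W0 h0) (part false W1 h1)
  refine key.of_eq fun D => ?_
  constructor
  · rintro ⟨n, hn, h⟩ X
    rcases h X with ⟨D', h2, h3⟩ | ⟨D', h2, h3⟩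
    · exact Or.inl ⟨D', fun x hx => ⟨(h2 x hx).1, (sg_true X).1 (h2 x hx).2 |>.2⟩, h3⟩
    · exact Or.inr ⟨D', fun x hx => ⟨(h2 x hx).1, (sg_false X).1 (h2 x hx).2 |>.2⟩, h3⟩
  · intro h
    obtain ⟨n, hn⟩ := exists_bound D
    refine ⟨n, hn, fun X => ?_⟩
    rcases h X with ⟨D', h2, h3⟩ | ⟨D', h2, h3⟩
    · exact Or.inl ⟨D', fun x hx => ⟨(h2 x hx).1, (sg_true X).2 ⟨hn x (h2 x hx).1,
        (h2 x hx).2⟩⟩, h3⟩
    · exact Or.inr ⟨D', fun x hx => ⟨(h2 x hx).1, (sg_false X).2 ⟨hn x (h2 x hx).1,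
        (h2 x hx).2⟩⟩, h3⟩

/-- the bad strings: the string shows a `W0` set inside, or a `W1` set (in `V`) outside, or an
element outside of `V` -/
def Bd (V : Set ℕ) (W0 W1 : List ℕ → Prop) (σ : List Bool) : Prop :=
  (∃ x : ℕ, σ[x]? = some true ∧ x ∉ V) ∨
  (∃ D' : List ℕ, (∀ x ∈ D', σ[x]? = some true) ∧ W0 D') ∨
  ∃ D' : List ℕ, (∀ x ∈ D', σ[x]? = some false ∧ x ∈ V) ∧ W1 D'

theorem bd_re {A V : Set ℕ} {W0 W1 : List ℕ → Prop} (hV : Le V A) (h0 : REIn A W0)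
    (h1 : REIn A W1) : REIn A (Bd V W0 W1) := by
  refine REIn.or ?_ (REIn.or ?_ ?_)
  · refine REIn.ex (S := fun (σ : List Bool) (x : ℕ) => σ[x]? = some true ∧ x ∉ V) ?_
    exact REIn.and (REIn.of_re (RE.eq (by fun_prop) (by fun_prop)))
      (hV.2.comp (f := fun z : List Bool × ℕ => z.2) (by fun_prop))
  · refine REIn.ex (S := fun (σ : List Bool) (D' : List ℕ) =>
      (∀ x ∈ D', σ[x]? = some true) ∧ W0 D') ?_
    refine REIn.and ?_ (h0.comp (f := fun z : List Bool × List ℕ => z.2) (by fun_prop))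
    refine REIn.all_mem (S := fun (z : List Bool × List ℕ) (x : ℕ) => z.1[x]? = some true) ?_
      (by fun_prop)
    exact REIn.of_re (RE.eq (by fun_prop) (by fun_prop))
  · refine REIn.ex (S := fun (σ : List Bool) (D' : List ℕ) =>
      (∀ x ∈ D', σ[x]? = some false ∧ x ∈ V) ∧ W1 D') ?_
    refine REIn.and ?_ (h1.comp (f := fun z : List Bool × List ℕ => z.2) (by fun_prop))
    refine REIn.all_mem (S := fun (z : List Bool × List ℕ) (x : ℕ) =>
      z.1[x]? = some false ∧ x ∈ V) ?_ (by fun_prop)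
    exact REIn.and (REIn.of_re (RE.eq (by fun_prop) (by fun_prop)))
      (hV.1.comp (f := fun z : (List Bool × List ℕ) × ℕ => z.2) (by fun_prop))

theorem bd_mono {V : Set ℕ} {W0 W1 : List ℕ → Prop} (X : Set ℕ) (m n : ℕ) (hmn : m ≤ n)
    (h : Bd V W0 W1 (sg X m)) : Bd V W0 W1 (sg X n) := by
  rcases h with ⟨x, h1, h2⟩ | ⟨D', h1, h2⟩ | ⟨D', h1, h2⟩
  · exact Or.inl ⟨x, (sg_true X).2 ⟨((sg_true X).1 h1).1.trans_le hmn, ((sg_true X).1 h1).2⟩, h2⟩
  · exact Or.inr (Or.inl ⟨D', fun x hx => (sg_true X).2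
      ⟨((sg_true X).1 (h1 x hx)).1.trans_le hmn, ((sg_true X).1 (h1 x hx)).2⟩, h2⟩)
  · exact Or.inr (Or.inr ⟨D', fun x hx => ⟨(sg_false X).2
      ⟨((sg_false X).1 (h1 x hx).1).1.trans_le hmn, ((sg_false X).1 (h1 x hx).1).2⟩,
      (h1 x hx).2⟩, h2⟩)

end GprL

open CptL GprL

theorem gpr : S_GAP → S_JMP → S_GPR := by
  intro hgap hj M p hM hp X Y hXY
  obtain ⟨hre, hdec, hleJ, hmon, hjn, hjn2, hcol⟩ := hj
  by_contra hcon
  push Not at hcon
  obtain ⟨hnX, hnY⟩ := hcon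
  unfold Good at hnX hnY
  push Not at hnX hnY
  obtain ⟨i0, e0, m0, hall0, hX⟩ := hnX
  obtain ⟨i1, e1, m1, hall1, hY⟩ := hnY
  -- the two enumerable families of finite sets
  have hW : ∀ (A : Set ℕ) (e m : ℕ), REIn A fun D : List ℕ => U A e (Nat.pair m (encode D)) := by
    intro A e m
    refine ((hre A).comp (f := fun D : List ℕ => Nat.pair e (Nat.pair m (encode D)))
      (by fun_prop)).of_eq fun D => ?_
    show U A (Nat.unpair (Nat.pair e (Nat.pair m (encode D)))).1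
      (Nat.unpair (Nat.pair e (Nat.pair m (encode D)))).2 ↔ _
    rw [Nat.unpair_pair]
  obtain ⟨k, hk⟩ := hM.join i0 i1
  let W0 : List ℕ → Prop := fun D => U (col M i0) e0 (Nat.pair m0 (encode D))
  let W1 : List ℕ → Prop := fun D => U (col M i1) e1 (Nat.pair m1 (encode D))
  have h0 : REIn (col M k) W0 := by
    rw [← hk]
    exact REIn.trans (hjn _ _).1 (hW _ _ _)
  have h1 : REIn (col M k) W1 := by
    rw [← hk]
    exact REIn.trans (hjn _ _).2 (hW _ _ _)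
  have hQ : REIn (col M k) (QP W0 W1) := qp_re h0 h1
  have hall : ∀ V ∈ UU M p, ∃ D : List ℕ, (∀ x ∈ D, x ∈ V) ∧ QP W0 W1 D := by
    intro V hV
    have hV' := hV
    obtain ⟨j, hjp, rfl⟩ := hV'
    -- no set avoids the bad strings
    have hno : ¬ ∃ Z : Set ℕ, ∀ n, ¬ Bd (col M j) W0 W1 (sg Z n) := by
      intro hex
      obtain ⟨l, hl⟩ := hM.join k j
      have hleV : Le (col M j) (col M l) := by rw [← hl]; exact (hjn _ _).2
      have hlek : Le (col M k) (col M l) := by rw [← hl]; exact (hjn _ _).1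
      have hBre : REIn (col M l) (Bd (col M j) W0 W1) :=
        bd_re hleV (REIn.trans hlek h0) (REIn.trans hlek h1)
      obtain ⟨t, ht⟩ := hM.basis l _ hBre hex
      rcases hp.dich (col M t) ⟨t, rfl⟩ with hd | hd
      · obtain ⟨D', hD1, hD2⟩ := hall0 _ hd
        obtain ⟨n, hn⟩ := exists_bound D'
        exact ht n (Or.inr (Or.inl ⟨D', fun x hx => (sg_true _).2 ⟨hn x hx, hD1 x hx⟩, hD2⟩))
      · obtain ⟨D', hD1, hD2⟩ := hall1 _ (hp.inter _ hV _ hd)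
        obtain ⟨n, hn⟩ := exists_bound D'
        exact ht n (Or.inr (Or.inr ⟨D', fun x hx => ⟨(sg_false _).2 ⟨hn x hx, (hD1 x hx).2⟩,
          (hD1 x hx).1⟩, hD2⟩))
    push Not at hno
    obtain ⟨n, hn⟩ := compact hno (fun X m n h => bd_mono X m n h)
    classical
    refine ⟨(List.range n).filter (fun x => decide (x ∈ col M j)), fun x hx => ?_, fun Z => ?_⟩
    · exact of_decide_eq_true (List.mem_filter.1 hx).2
    · rcases hn (Z ∩ col M j) with ⟨x, h2, h3⟩ | ⟨D', h2, h3⟩ | ⟨D', h2, h3⟩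
      · exact absurd ((sg_true _).1 h2).2.2 h3
      · refine Or.inl ⟨D', fun x hx => ?_, h3⟩
        have h4 := (sg_true _).1 (h2 x hx)
        exact ⟨List.mem_filter.2 ⟨List.mem_range.2 h4.1, decide_eq_true h4.2.2⟩, h4.2.1⟩
      · refine Or.inr ⟨D', fun x hx => ?_, h3⟩
        have h4 := (sg_false _).1 (h2 x hx).1
        exact ⟨List.mem_filter.2 ⟨List.mem_range.2 h4.1, decide_eq_true (h2 x hx).2⟩,
          fun h5 => h4.2 ⟨h5, (h2 x hx).2⟩⟩
  obtain ⟨D, hD1, hD2⟩ := hgap M p k _ hQ hall _ hXY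
  rcases hD2 X with ⟨D', h2, h3⟩ | ⟨D', h2, h3⟩
  · exact hX ⟨D', fun x hx => (h2 x hx).2, h3⟩
  · refine hY ⟨D', fun x hx => ?_, h3⟩
    rcases hD1 x (h2 x hx).1 with h4 | h4
    · exact absurd h4 (h2 x hx).2
    · exact h4

end Pool.Agent.Helper1K9.LT
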