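import Pool.Agent.Helper1K9.LT.Stm2

/-!
# Relay LT, leaf GRW: the finite part can grow
-/

set_option autoImplicit false

namespace Pool.Agent.Helper1K9.LT

open Encodable Pool.Agent.Helper446 Pool.Agent.Helper446.Defs Pool.Agent.Helper446.RE
  Pool.Agent.Helper446.Oracle Pool.Agent.R623.Dec

theorem grw (hP : S_PAT) : S_GRW := by
  rintro B M N p q hE ⟨F, x, δ, d⟩ ⟨hx, hd, hv⟩
  classical
  simp only at hx hd hv
  have hX : (col N x).Infinite := hE.ufN.inf _ ⟨x, hx, rfl⟩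
  obtain ⟨T, hT, hTc⟩ := hX.exists_subset_card_eq
    (F.toFinset.card * d + F.toFinset.card * d + (F.toFinset ×ˢ F.toFinset).card * d + 1)
  obtain ⟨x', hx', Θ, hΘd, hΘ2, hΘ1, hx'x, hpat⟩ := hP N q hE.scN hE.ufN x δ d
    (T.sup id ⊔ F.toFinset.sup id) hx hd
  have hTL : ∀ y ∈ T, y ≤ T.sup id ⊔ F.toFinset.sup id := fun y hy =>
    le_sup_of_le_left (Finset.le_sup (f := id) hy)
  have hFL : ∀ y ∈ F, y ≤ T.sup id ⊔ F.toFinset.sup id := fun y hy =>
    le_sup_of_le_right (Finset.le_sup (f := id) (List.mem_toFinset.2 hy))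
  set A : ℕ → Finset ℕ := fun u => T.filter fun y => y ≠ u ∧ P1 Θ u y with hA
  set B' : ℕ → Finset ℕ := fun u => T.filter fun y => y ≠ u ∧ P1 (col N δ) u y with hB
  set C : ℕ × ℕ → Finset ℕ := fun s => T.filter fun y => y ≠ s.2 ∧
    ∃ u ∈ F, P2 (col N δ) (Nat.pair s.1 s.2) (Nat.pair u y) with hC
  have cA : ∀ u ∈ F.toFinset, (A u).card ≤ d := fun u _ => hΘd.1 u _ fun y hy =>
    (Finset.mem_filter.1 hy).2
  have cB : ∀ u ∈ F.toFinset, (B' u).card ≤ d := fun u _ => hd.1 u _ fun y hy =>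
    (Finset.mem_filter.1 hy).2
  have cC : ∀ s ∈ F.toFinset ×ˢ F.toFinset, (C s).card ≤ d := by
    intro s _
    have h1 : ∀ y, ∃ u, y ∈ C s → P2 (col N δ) (Nat.pair s.1 s.2) (Nat.pair u y) := by
      intro y
      by_cases h : y ∈ C s
      · obtain ⟨u, -, hu⟩ := (Finset.mem_filter.1 h).2.2
        exact ⟨u, fun _ => hu⟩
      · exact ⟨0, fun h' => absurd h' h⟩
    choose g hg using h1
    have hinj : Function.Injective fun y : ℕ => Nat.pair (g y) y := by
      intro y z h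
      exact (Nat.pair_eq_pair.1 h).2
    rw [← Finset.card_image_of_injective (C s) hinj]
    refine hd.2 (Nat.pair s.1 s.2) _ fun t ht => ?_
    obtain ⟨y, hy, rfl⟩ := Finset.mem_image.1 ht
    exact ⟨fun h => (Finset.mem_filter.1 hy).2.1 (Nat.pair_eq_pair.1 h).2, hg y hy⟩
  have hbad : (F.toFinset.biUnion A ∪ F.toFinset.biUnion B' ∪
      (F.toFinset ×ˢ F.toFinset).biUnion C).card < T.card := by
    rw [hTc, Nat.lt_succ_iff]
    refine (Finset.card_union_le _ _).trans (Nat.add_le_add ((Finset.card_union_le _ _).trans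
      (Nat.add_le_add ?_ ?_)) ?_)
    · exact Finset.card_biUnion_le_card_mul _ _ _ cA
    · exact Finset.card_biUnion_le_card_mul _ _ _ cB
    · exact Finset.card_biUnion_le_card_mul _ _ _ cC
  obtain ⟨y0, hy0, hyn⟩ := Finset.exists_mem_notMem_of_card_lt_card hbad
  have hy0x : y0 ∈ col N x := hT hy0
  obtain ⟨hF0, hH0⟩ := hv y0 hy0x
  have nF : y0 ∉ F := fun h => lt_irrefl _ (hF0 _ h)
  rw [Finset.mem_union, Finset.mem_union, not_or, not_or] at hyn
  obtain ⟨⟨n1, n2⟩, n3⟩ := hyn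
  have m1 : ∀ u ∈ F, ¬ P1 Θ u y0 := by
    intro u hu h
    exact n1 (Finset.mem_biUnion.2 ⟨u, List.mem_toFinset.2 hu, Finset.mem_filter.2
      ⟨hy0, (ne_of_gt (hF0 u hu)), h⟩⟩)
  have m2 : ∀ u ∈ F, ¬ P1 (col N δ) u y0 := by
    intro u hu h
    exact n2 (Finset.mem_biUnion.2 ⟨u, List.mem_toFinset.2 hu, Finset.mem_filter.2
      ⟨hy0, (ne_of_gt (hF0 u hu)), h⟩⟩)
  have m3 : ∀ u ∈ F, ∀ v ∈ F, ∀ w ∈ F, ¬ P2 (col N δ) (Nat.pair u v) (Nat.pair w y0) := by
    intro u hu v hv' w hw h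
    exact n3 (Finset.mem_biUnion.2 ⟨(u, v), Finset.mem_product.2 ⟨List.mem_toFinset.2 hu,
      List.mem_toFinset.2 hv'⟩, Finset.mem_filter.2 ⟨hy0, (ne_of_gt (hF0 v hv')), w, hw, h⟩⟩)
  have hmem : ∀ u, u ∈ F ++ [y0] → u ∈ F ∨ u = y0 := by
    intro u hu
    rcases List.mem_append.1 hu with h | h
    · exact Or.inl h
    · exact Or.inr (List.mem_singleton.1 h)
  refine ⟨(F ++ [y0], x', δ, d), ⟨hx', hd, ?_⟩, ⟨[y0], rfl, ?_, ⟨?_, ?_⟩, ?_, ?_⟩, y0, ?_, nF⟩
  · intro z hz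
    obtain ⟨hzx, hzL⟩ := hx'x z hz
    refine ⟨?_, ?_⟩
    · intro f hf
      rcases hmem f hf with h | rfl
      · exact (hv z hzx).1 f h
      · exact lt_of_le_of_lt (hTL _ hy0) hzL
    · intro u hu u' hu' hne h
      rcases hmem u hu with h1 | rfl
      · rcases hmem u' hu' with h2 | rfl
        · exact (hv z hzx).2 u h1 u' h2 hne h
        · exact m1 u h1 (hpat z hz u (hFL u h1) _ (hTL _ hy0) hne h)
      · rcases hmem u' hu' with h2 | rfl
        · exact m1 u' h2 (hpat z hz u' (hFL u' h2) _ (hTL _ hy0) hne.symm (Or.symm h))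
        · exact hne rfl
  · intro y hy
    rw [List.mem_singleton.1 hy]
    exact hy0x
  · intro u hu v hv' hne hn h
    rcases hmem u hu with h1 | rfl
    · rcases hmem v hv' with h2 | rfl
      · exact hn ⟨h1, h2⟩
      · exact m2 u h1 h
    · rcases hmem v hv' with h2 | rfl
      · exact m2 v h2 (Or.symm h)
      · exact hne rfl
  · intro u hu v hv' u' hu' v'' hv'' huv huv' hne hn h
    have hlt : ∀ a b, a ∈ F ++ [y0] → b ∈ F ++ [y0] → a < b → a ∈ F := by
      intro a b ha hb hab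
      rcases hmem a ha with h1 | rfl
      · exact h1
      · rcases hmem b hb with h2 | rfl
        · exact absurd (hF0 b h2) (not_lt.2 hab.le)
        · exact absurd hab (lt_irrefl _)
    have uF := hlt _ _ hu hv' huv
    have uF' := hlt _ _ hu' hv'' huv'
    rcases hmem v hv' with h1 | rfl
    · rcases hmem v'' hv'' with h2 | rfl
      · exact hn ⟨h1, h2⟩
      · exact m3 u uF v h1 u' uF' h
    · rcases hmem v'' hv'' with h2 | rfl
      · exact m3 u' uF' v'' h2 u uF (Or.symm h)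
      · refine hH0 u uF u' uF' (fun h3 => hne ⟨h3, rfl⟩) h
  · intro y hy
    exact (hx'x y hy).1
  · intro y hy
    exact hy
  · exact List.mem_append_right _ (List.mem_singleton.2 rfl)

end Pool.Agent.Helper1K9.LT
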