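import Pool.Agent.Helper1K9.LT.Stm3

/-!
# Relay LT: the ideal
-/

set_option autoImplicit false

namespace Pool.Agent.Helper1K9.LT.IdlL

open Encodable Pool.Agent.Helper446 Pool.Agent.Helper446.Defs Pool.Agent.Helper446.RE
  Pool.Agent.Helper446.Oracle Pool.Agent.R623.Dec Pool.Agent.R623.Om Pool.Agent.Helper1K9.LT

/-- the even part -/
def E (C : Set ℕ) : Set ℕ := {x | 2 * x ∈ C}

theorem E_Jn (C K : Set ℕ) : E (Jn C K) = C := by
  ext x
  have h1 : 2 * x % 2 = 0 := by omega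
  have h2 : 2 * x / 2 = x := by omega
  simp only [E, Jn, Set.mem_ofPred_eq, h1, h2]
  simp

/-- the set `K` solves the problem number `n`, with the low₃ property -/
def Slv (n : ℕ) (C K : Set ℕ) : Prop :=
  ∃ f : ℕ → ℕ → ℕ → ℕ, (∀ a : (ℕ × ℕ × ℕ) × ℕ, f a.1.1 a.1.2.1 a.1.2.2 = a.2 ↔
    U (E^[n - n.unpair.1] C) n.unpair.2 (encode a)) ∧ K.Infinite ∧ Rnb f K ∧
    Le (Jmp (Jmp (Jmp (Jn C K)))) (Jmp (Jmp (Jmp C)))

open Classical in
/-- the next set of the chain -/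
noncomputable def step (n : ℕ) (C : Set ℕ) : Set ℕ :=
  if h : ∃ K, Slv n C K then Jn C h.choose else Jn C ∅

/-- the chain -/
noncomputable def ch : ℕ → Set ℕ
  | 0 => ∅
  | n + 1 => step n (ch n)

theorem step_eq (n : ℕ) (C : Set ℕ) : ∃ K, step n C = Jn C K ∧ (Slv n C K ∨ K = ∅) ∧
    ((∃ K, Slv n C K) → Slv n C K) := by
  unfold step
  split_ifs with h
  · exact ⟨_, rfl, Or.inl h.choose_spec, fun _ => h.choose_spec⟩
  · exact ⟨∅, rfl, Or.inr rfl, fun h1 => absurd h1 h⟩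

theorem E_ch (i m : ℕ) : E^[m] (ch (i + m)) = ch i := by
  induction m with
  | zero => rfl
  | succ m ih =>
    rw [Function.iterate_succ_apply, ← add_assoc]
    obtain ⟨K, h, -⟩ := step_eq (i + m) (ch (i + m))
    have h1 : E (ch (i + m + 1)) = ch (i + m) := by
      rw [show ch (i + m + 1) = step (i + m) (ch (i + m)) from rfl, h, E_Jn]
    rw [h1, ih]

theorem le_empty (C : Set ℕ) : Le ∅ C := by
  have h : DecIn C fun n : ℕ => n < 0 := DecIn.lt (by fun_prop) (by fun_prop)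
  exact h.of_eq fun n => by simp

variable (hjmp : S_JMP)
include hjmp

theorem ch_succ (n : ℕ) : Le (ch n) (ch (n + 1)) ∧
    Le (Jmp (Jmp (Jmp (ch (n + 1))))) (Jmp (Jmp (Jmp (ch n)))) := by
  obtain ⟨-, -, -, hmono, hj1, hj2, -⟩ := hjmp
  obtain ⟨K, h, h1, -⟩ := step_eq n (ch n)
  rw [show ch (n + 1) = step n (ch n) from rfl, h]
  refine ⟨(hj1 _ _).1, ?_⟩
  rcases h1 with h1 | rfl
  · obtain ⟨f, -, -, -, h2⟩ := h1
    exact h2
  · exact hmono _ _ (hmono _ _ (hmono _ _ (hj2 _ _ _ (Le.refl _) (le_empty _))))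

theorem ch_mono {n m : ℕ} (h : n ≤ m) : Le (ch n) (ch m) := by
  induction h with
  | refl => exact Le.refl _
  | step _ ih => exact ih.trans (ch_succ hjmp _).1

theorem ch_low (n : ℕ) : Le (Jmp (Jmp (Jmp (ch n)))) (Jmp (Jmp (Jmp ∅))) := by
  induction n with
  | zero => exact Le.refl _
  | succ n ih => exact (ch_succ hjmp n).2.trans ih

end Pool.Agent.Helper1K9.LT.IdlL

namespace Pool.Agent.Helper1K9.LT

open Encodable Pool.Agent.Helper446 Pool.Agent.Helper446.Defs Pool.Agent.Helper446.RE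
  Pool.Agent.Helper446.Oracle Pool.Agent.R623.Dec Pool.Agent.R623.Om IdlL

theorem idl : S_RT3 → S_UNI → S_JMP → S_IDL := by
  intro hrt3 huni hjmp
  refine ⟨{A | ∃ n, Le A (ch n)}, ⟨?_, ?_, ⟨ch 0, 0, Le.refl _⟩⟩, ?_, ?_⟩
  · rintro A B hAB ⟨n, hn⟩
    exact ⟨n, hAB.trans hn⟩
  · rintro A ⟨n, hn⟩ B ⟨m, hm⟩
    exact ⟨ch (max n m), ⟨_, Le.refl _⟩, hn.trans (ch_mono hjmp (le_max_left _ _)),
      hm.trans (ch_mono hjmp (le_max_right _ _))⟩
  · rintro A ⟨n, hn⟩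
    have hmono := hjmp.2.2.2.1
    exact (hmono _ _ (hmono _ _ (hmono _ _ hn))).trans (ch_low hjmp n)
  · rintro B ⟨i, hi⟩ f k hf hb
    have h1 : Rec (ch i) f := REIn.trans hi hf
    obtain ⟨e, he⟩ := huni.2.2 (ch i) _ _ h1
    have hin : i ≤ Nat.pair i e := Nat.left_le_pair i e
    have h2 : Rec (ch (Nat.pair i e)) f := REIn.trans (ch_mono hjmp hin) h1
    have h3 : ∀ a : (ℕ × ℕ × ℕ) × ℕ, f a.1.1 a.1.2.1 a.1.2.2 = a.2 ↔
        U (E^[Nat.pair i e - (Nat.pair i e).unpair.1] (ch (Nat.pair i e)))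
          (Nat.pair i e).unpair.2 (encode a) := by
      intro a
      rw [Nat.unpair_pair]
      have h4 : ch (Nat.pair i e) = ch (i + (Nat.pair i e - i)) := by
        rw [Nat.add_sub_cancel' hin]
      rw [h4, E_ch]
      exact he a
    obtain ⟨K, hK, h4, h5⟩ := step_eq (Nat.pair i e) (ch (Nat.pair i e))
    obtain ⟨K', hK1, hK2, hK3⟩ := hrt3 (ch (Nat.pair i e)) f k h2 hb
    obtain ⟨f', g1, g2, g3, g4⟩ := h5 ⟨K', f, h3, hK1, hK2, hK3⟩
    have hff : f' = f := by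
      funext x y z
      exact (g1 ((x, y, z), f x y z)).2 ((h3 ((x, y, z), f x y z)).1 rfl)
    refine ⟨K, ⟨Nat.pair i e + 1, ?_⟩, g2, hff ▸ g3⟩
    rw [show ch (Nat.pair i e + 1) = step (Nat.pair i e) (ch (Nat.pair i e)) from rfl, hK]
    exact (hjmp.2.2.2.2.1 _ _).2

end Pool.Agent.Helper1K9.LT
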