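import Pool.Agent.Helper1K9.LT.Ud

/-!
# Relay LT: normal form of the third jump
-/

set_option autoImplicit false

namespace Pool.Agent.Helper1K9.LT

open Encodable Pool.Agent.Helper446 Pool.Agent.Helper446.Defs Pool.Agent.Helper446.RE
  Pool.Agent.Helper446.Oracle Pool.Agent.R623.Dec

/-- finite pieces of information with a bound for the time -/
abbrev J3L.P : Type := (List ℕ × List ℕ) × ℕ

open J3L

variable {α : Type} [Primcodable α]

/-- Predicates enumerable in the jump, in normal form. -/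
theorem J3L.two {S : Set ℕ → α → Prop} (hS : UR S) :
    ∃ Z : Set ℕ → (α × ((List ℕ × List ℕ) × P)) × P → Prop, UD Z ∧
      ∀ A a, S (Jmp A) a ↔ ∃ u, ∀ y, Z A ((a, u), y) := by
  obtain ⟨R, hR, h1⟩ := hS
  -- the positive and the negative part of the information
  have h2 : UR fun A (x : α × (List ℕ × List ℕ)) => R x.1 x.2 ∧
      ∀ n ∈ x.2.1, U A n.unpair.1 n.unpair.2 := by
    refine UR.and (UR.of_re hR) ?_
    refine UR.all_mem (S := fun A (_ : α × (List ℕ × List ℕ)) (n : ℕ) =>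
      U A n.unpair.1 n.unpair.2) (l := fun x : α × (List ℕ × List ℕ) => x.2.1) ?_
      (by fun_prop)
    exact U_ur.comp (f := fun z : (α × (List ℕ × List ℕ)) × ℕ => (z.2.unpair.1, z.2.unpair.2))
      (by fun_prop)
  have h3 : UR fun A (x : α × (List ℕ × List ℕ)) => ∃ n ∈ x.2.2, U A n.unpair.1 n.unpair.2 := by
    refine UR.ex_mem (S := fun A (_ : α × (List ℕ × List ℕ)) (n : ℕ) =>
      U A n.unpair.1 n.unpair.2) (l := fun x : α × (List ℕ × List ℕ) => x.2.2) ?_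
      (by fun_prop)
    exact U_ur.comp (f := fun z : (α × (List ℕ × List ℕ)) × ℕ => (z.2.unpair.1, z.2.unpair.2))
      (by fun_prop)
  obtain ⟨W1, hW1, h4⟩ := h2.proj
  obtain ⟨W2, hW2, h5⟩ := h3.proj
  refine ⟨fun A z => W1 A ((z.1.1, z.1.2.1), z.1.2.2) ∧ ¬ W2 A ((z.1.1, z.1.2.1), z.2), ?_,
    fun A a => ?_⟩
  · refine UD.and (hW1.comp (f := fun z : (α × ((List ℕ × List ℕ) × P)) × P =>
      ((z.1.1, z.1.2.1), z.1.2.2)) (by fun_prop)) (hW2.comp (f := fun z :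
      (α × ((List ℕ × List ℕ) × P)) × P => ((z.1.1, z.1.2.1), z.2)) (by fun_prop)).not
  · rw [h1]
    have h6 : ∀ c : List ℕ × List ℕ, (R a c ∧ Ok (Jmp A) c) ↔
        ((∃ x, W1 A ((a, c), x)) ∧ ∀ y, ¬ W2 A ((a, c), y)) := by
      intro c
      have h7 := h4 A (a, c)
      have h8 := h5 A (a, c)
      rw [← h7, ← not_exists, ← h8]
      unfold Ok Jmp
      simp only [Set.mem_setOf_eq]
      constructor
      · rintro ⟨h9, h10, h11⟩
        refine ⟨⟨h9, h10⟩, ?_⟩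
        rintro ⟨n, hn, hn2⟩
        exact h11 n hn hn2
      · rintro ⟨⟨h9, h10⟩, h11⟩
        exact ⟨h9, h10, fun n hn hn2 => h11 ⟨n, hn, hn2⟩⟩
    constructor
    · rintro ⟨c, hc⟩
      obtain ⟨⟨x, hx⟩, h9⟩ := (h6 c).1 hc
      exact ⟨(c, x), fun y => ⟨hx, h9 y⟩⟩
    · rintro ⟨⟨c, x⟩, h9⟩
      exact ⟨c, (h6 c).2 ⟨⟨x, (h9 (([], []), 0)).1⟩, fun y => (h9 y).2⟩⟩

theorem J3L.three {S : Set ℕ → α → Prop} (hS : UR S) :
    ∃ Z : Set ℕ → (α × ((List ℕ × List ℕ) × P)) × (P × ((List ℕ × List ℕ) × P)) → Prop, UR Z ∧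
      ∀ A a, S (Jmp (Jmp A)) a ↔ ∃ u, ∀ y, Z A ((a, u), y) := by
  obtain ⟨Z, hZ, h1⟩ := J3L.two hS
  obtain ⟨Z', hZ', h2⟩ := J3L.two hZ.2
  refine ⟨fun A x => ∃ y', ¬ Z' A (((x.1, x.2.1), x.2.2), y'), ?_, fun A a => ?_⟩
  · refine UR.ex (S := fun A (x : (α × ((List ℕ × List ℕ) × P)) × (P × ((List ℕ × List ℕ) × P)))
      (y' : P) => ¬ Z' A (((x.1, x.2.1), x.2.2), y')) ?_
    exact hZ'.2.comp (f := fun z : ((α × ((List ℕ × List ℕ) × P)) ×
      (P × ((List ℕ × List ℕ) × P))) × P => (((z.1.1, z.1.2.1), z.1.2.2), z.2)) (by fun_prop)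
  · rw [h1]
    refine exists_congr fun u => ?_
    have h3 : ∀ y, Z (Jmp A) ((a, u), y) ↔ ∀ u', ∃ y', ¬ Z' A ((((a, u), y), u'), y') := by
      intro y
      have h4 := h2 A ((a, u), y)
      rw [← not_iff_not, h4]
      push Not
      rfl
    constructor
    · intro h4 y
      exact (h3 y.1).1 (h4 y.1) y.2
    · intro h4 y
      exact (h3 y).2 fun u' => h4 (y, u')

theorem j3 (huni : S_UNI) : S_J3 := by
  have h0 : UR fun A (n : ℕ) => U A n.unpair.1 n.unpair.2 :=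
    U_ur.comp (f := fun n : ℕ => (n.unpair.1, n.unpair.2)) (by fun_prop)
  obtain ⟨Z, hZ, h1⟩ := J3L.three h0
  have h2 : UR fun A (x : (ℕ × ℕ) × ℕ) => Z A ((x.1.1, Denumerable.ofNat _ x.1.2),
      Denumerable.ofNat _ x.2) := by
    refine hZ.comp (f := fun x : (ℕ × ℕ) × ℕ => ((x.1.1,
      Denumerable.ofNat ((List ℕ × List ℕ) × P) x.1.2),
      Denumerable.ofNat (P × ((List ℕ × List ℕ) × P)) x.2)) ?_
    refine Computable.pair (Computable.pair (by fun_prop) ?_) ?_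
    · exact (Computable.ofNat ((List ℕ × List ℕ) × P)).comp (by fun_prop)
    · exact (Computable.ofNat (P × ((List ℕ × List ℕ) × P))).comp (by fun_prop)
  obtain ⟨e0, he⟩ := huni.2.1 _ _ h2
  refine ⟨e0, fun A n => ?_⟩
  have h3 : n ∈ Jmp (Jmp (Jmp A)) ↔ U (Jmp (Jmp A)) n.unpair.1 n.unpair.2 := Iff.rfl
  rw [h3, h1 A n]
  have h4 : ∀ u v : ℕ, U A e0 (Nat.pair (Nat.pair n u) v) ↔
      Z A ((n, Denumerable.ofNat _ u), Denumerable.ofNat _ v) := by
    intro u v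
    exact (he A ((n, u), v)).symm
  constructor
  · rintro ⟨u, hu⟩
    refine ⟨encode u, fun v => ?_⟩
    rw [h4, Denumerable.ofNat_encode]
    exact hu _
  · rintro ⟨u, hu⟩
    refine ⟨Denumerable.ofNat _ u, fun y => ?_⟩
    have h5 := hu (encode y)
    rw [h4, Denumerable.ofNat_encode] at h5
    exact h5

end Pool.Agent.Helper1K9.LT
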