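import Pool.Agent.Helper1K9.LT.Stm1

/-!
# Relay LT: basic properties of jump, join and columns
-/

set_option autoImplicit false

namespace Pool.Agent.Helper1K9.LT

open Encodable Pool.Agent.Helper446 Pool.Agent.Helper446.Defs Pool.Agent.Helper446.RE
  Pool.Agent.Helper446.Oracle Pool.Agent.R623.Dec

namespace JmpL

/-- a uniformly enumerable predicate is enumerable for each parameter -/
theorem reIn_of_ur {α : Type} [Primcodable α] {S : Set ℕ → α → Prop} (h : UR S) (A : Set ℕ) :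
    REIn A (S A) := by
  obtain ⟨R, hR, h1⟩ := h
  exact ⟨R, hR, fun a => h1 A a⟩

theorem re_jmp (hu : S_UNI) (A : Set ℕ) : REIn A (· ∈ Jmp A) :=
  ((reIn_of_ur hu.1 A).comp (f := fun n : ℕ => n.unpair) (by fun_prop)).of_eq fun _ => Iff.rfl

theorem dec_jmp (hu : S_UNI) (A : Set ℕ) (α : Type) [Primcodable α] (S : α → Prop)
    (h : REIn A S) : DecIn (Jmp A) S := by
  obtain ⟨e, he⟩ := hu.2.2 A α S h
  refine (DecIn.mem (A := Jmp A) (f := fun a : α => Nat.pair e (encode a))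
    (by fun_prop)).of_eq fun a => ?_
  rw [he a]
  show U A (Nat.unpair (Nat.pair e (encode a))).1 (Nat.unpair (Nat.pair e (encode a))).2 ↔ _
  rw [Nat.unpair_pair]

theorem cmod {α : Type} [Primcodable α] {f g : α → ℕ} (hf : Computable f) (hg : Computable g) :
    Computable fun a => f a % g a := Primrec.nat_mod.to_comp.comp hf hg

theorem cdiv {α : Type} [Primcodable α] {f g : α → ℕ} (hf : Computable f) (hg : Computable g) :
    Computable fun a => f a / g a := Primrec.nat_div.to_comp.comp hf hg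

theorem le_jn_left (A B : Set ℕ) : Le A (Jn A B) := by
  refine (DecIn.mem (A := Jn A B) (f := fun a : ℕ => 2 * a) (by fun_prop)).of_eq fun a => ?_
  unfold Jn
  rw [Set.mem_ofPred_eq]
  have h1 : 2 * a % 2 = 0 := by omega
  have h2 : 2 * a / 2 = a := by omega
  rw [h1, h2]
  constructor
  · rintro (⟨-, h⟩ | ⟨h, -⟩)
    · exact h
    · omega
  · intro h
    exact Or.inl ⟨rfl, h⟩

theorem le_jn_right (A B : Set ℕ) : Le B (Jn A B) := by
  refine (DecIn.mem (A := Jn A B) (f := fun a : ℕ => 2 * a + 1) (by fun_prop)).of_eq fun a => ?_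
  unfold Jn
  rw [Set.mem_ofPred_eq]
  have h1 : (2 * a + 1) % 2 = 1 := by omega
  have h2 : (2 * a + 1) / 2 = a := by omega
  rw [h1, h2]
  constructor
  · rintro (⟨h, -⟩ | ⟨-, h⟩)
    · omega
    · exact h
  · intro h
    exact Or.inr ⟨rfl, h⟩

theorem jn_le (A B C : Set ℕ) (hA : Le A C) (hB : Le B C) : Le (Jn A B) C := by
  have hm : Computable fun n : ℕ => n % 2 := cmod (by fun_prop) (by fun_prop)
  have hd : Computable fun n : ℕ => n / 2 := cdiv (by fun_prop) (by fun_prop)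
  have h1 : DecIn C fun n : ℕ => n % 2 = 0 ∧ n / 2 ∈ A :=
    (DecIn.eq hm (by fun_prop)).and (DecIn.comp (f := fun n : ℕ => n / 2) hA hd)
  have h2 : DecIn C fun n : ℕ => n % 2 = 1 ∧ n / 2 ∈ B :=
    (DecIn.eq hm (by fun_prop)).and (DecIn.comp (f := fun n : ℕ => n / 2) hB hd)
  exact (h1.or h2).of_eq fun n => Iff.rfl

theorem col_le (N : Set ℕ) (i : ℕ) : Le (col N i) N :=
  (DecIn.mem (A := N) (f := fun n : ℕ => Nat.pair i n) (by fun_prop)).of_eq fun _ => Iff.rfl

end JmpL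

theorem jmp : S_UNI → S_JMP := by
  intro hu
  refine ⟨JmpL.re_jmp hu, JmpL.dec_jmp hu, fun A => ?_, fun A B h => ?_,
    fun A B => ⟨JmpL.le_jn_left A B, JmpL.le_jn_right A B⟩, JmpL.jn_le, JmpL.col_le⟩
  · exact JmpL.dec_jmp hu A ℕ _ (REIn.mem Computable.id)
  · exact JmpL.dec_jmp hu B ℕ _ (REIn.trans h (JmpL.re_jmp hu A))

end Pool.Agent.Helper1K9.LT
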