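import Pool.Agent.Helper1K9.LT.Ur

/-!
# Relay LT, leaf LB: the relative low basis theorem
-/

set_option autoImplicit false

namespace Pool.Agent.Helper1K9.LT

open Encodable Pool.Agent.Helper446 Pool.Agent.Helper446.Defs Pool.Agent.Helper446.RE
  Pool.Agent.Helper446.Oracle Pool.Agent.R623.Dec

namespace LbL

/-- all strings of length `n` -/
def allS (n : ℕ) : List (List Bool) :=
  Nat.rec (motive := fun _ => List (List Bool)) [[]]
    (fun _ L => L.map (fun σ => σ ++ [false]) ++ L.map (fun σ => σ ++ [true])) n

theorem prim_allS : Primrec allS := by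
  refine Primrec.nat_rec₁ [[]] ?_
  refine Primrec.list_append.comp ?_ ?_
  · exact Primrec.list_map Primrec.snd (Primrec.list_append.comp Primrec.snd (Primrec.const [false]))
  · exact Primrec.list_map Primrec.snd (Primrec.list_append.comp Primrec.snd (Primrec.const [true]))

theorem mem_allS (n : ℕ) : ∀ σ : List Bool, σ ∈ allS n ↔ σ.length = n := by
  induction n with
  | zero =>
    intro σ
    show σ ∈ [[]] ↔ _
    rw [List.mem_singleton, List.length_eq_zero_iff]
  | succ n ih =>
    intro σ
    have e : allS (n + 1) = (allS n).map (fun σ => σ ++ [false]) ++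
      (allS n).map (fun σ => σ ++ [true]) := rfl
    rw [e, List.mem_append, List.mem_map, List.mem_map]
    constructor
    · rintro (⟨τ, h, rfl⟩ | ⟨τ, h, rfl⟩)
      · rw [List.length_append, (ih τ).1 h]; rfl
      · rw [List.length_append, (ih τ).1 h]; rfl
    · intro h
      rcases List.eq_nil_or_concat' σ with rfl | ⟨τ, b, rfl⟩
      · simp at h
      · have h2 : τ.length = n := by
          rw [List.length_append] at h
          simpa using h
        cases b
        · exact Or.inl ⟨τ, (ih τ).2 h2, rfl⟩
        · exact Or.inr ⟨τ, (ih τ).2 h2, rfl⟩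

variable {α : Type} [Primcodable α] {A : Set ℕ}

/-- emptiness of a class is enumerable -/
theorem emp_re {B : α → List Bool → Prop} (hB : REIn A fun x : α × List Bool => B x.1 x.2) :
    REIn A fun a => ∃ n, ∀ σ ∈ allS n, B a σ := by
  refine REIn.ex (S := fun a n => ∀ σ ∈ allS n, B a σ) ?_
  refine REIn.all_mem (S := fun (x : α × ℕ) σ => B x.1 σ) (l := fun x => allS x.2) ?_ ?_
  · exact hB.comp (f := fun x : (α × ℕ) × List Bool => (x.1.1, x.2)) (by fun_prop)
  · exact prim_allS.to_comp.comp (by fun_prop)

/-- a class is empty or has a member -/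
theorem not_emp {B : List Bool → Prop} (mono : ∀ σ τ, σ <+: τ → B σ → B τ) :
    (¬ ∃ n, ∀ σ ∈ allS n, B σ) ↔ ∃ X : Set ℕ, ∀ n, ¬ B (sg X n) := by
  constructor
  · intro h
    refine konig mono fun n => ?_
    by_contra hc
    push Not at hc
    exact h ⟨n, fun σ hσ => hc σ ((mem_allS n σ).1 hσ)⟩
  · rintro ⟨X, hX⟩ ⟨n, hn⟩
    exact hX n (hn _ ((mem_allS n _).2 (sg_length X n)))

/-- closing a set of bad strings under extensions -/
def Up (Bad : List Bool → Prop) (σ : List Bool) : Prop :=
  ∃ x : List Bool × List Bool, x.1 ++ x.2 = σ ∧ Bad x.1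

theorem up_re {Bad : List Bool → Prop} (h : REIn A Bad) : REIn A (Up Bad) := by
  refine REIn.ex (S := fun (σ : List Bool) (x : List Bool × List Bool) => x.1 ++ x.2 = σ ∧ Bad x.1)
    (REIn.and (REIn.of_re (RE.eq (by fun_prop) (by fun_prop))) ?_)
  exact h.comp (f := fun x : List Bool × (List Bool × List Bool) => x.2.1) (by fun_prop)

theorem up_mono {Bad : List Bool → Prop} (σ τ : List Bool) (h : σ <+: τ) (h1 : Up Bad σ) :
    Up Bad τ := by
  obtain ⟨x, rfl, h2⟩ := h1
  obtain ⟨ρ, rfl⟩ := h
  exact ⟨(x.1, x.2 ++ ρ), by rw [List.append_assoc], h2⟩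

theorem up_iff {Bad : List Bool → Prop} (X : Set ℕ) :
    (∀ n, ¬ Up Bad (sg X n)) ↔ ∀ n, ¬ Bad (sg X n) := by
  constructor
  · intro h n hn
    exact h n ⟨(sg X n, []), by simp, hn⟩
  · rintro h n ⟨x, h1, h2⟩
    have h3 : x.1.length ≤ n := by
      have := congrArg List.length h1
      rw [List.length_append, sg_length] at this
      omega
    have h4 : x.1 = sg X x.1.length := by
      rw [← sg_take X h3, ← h1, List.take_left]
    rw [h4] at h2
    exact h _ h2

theorem unif {P : ℕ → List Bool → Prop} (mono : ∀ s t σ, s ≤ t → P s σ → P t σ)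
    (L : List (List Bool)) (h : ∀ σ ∈ L, ∃ s, P s σ) : ∃ s, ∀ σ ∈ L, P s σ := by
  induction L with
  | nil => exact ⟨0, fun σ hσ => by simp at hσ⟩
  | cons a L ih =>
    obtain ⟨s, hs⟩ := ih fun σ hσ => h σ (List.mem_cons_of_mem _ hσ)
    obtain ⟨t, ht⟩ := h a List.mem_cons_self
    refine ⟨max s t, fun σ hσ => ?_⟩
    rcases List.mem_cons.1 hσ with rfl | hσ
    · exact mono _ _ _ (le_max_right _ _) ht
    · exact mono _ _ _ (le_max_left _ _) (hs σ hσ)

/-- the decisions, if `E` says which classes are empty -/
noncomputable def D (E : List Bool → Prop) : ℕ → List Bool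
  | 0 => []
  | s + 1 => D E s ++ [@decide (E (D E s ++ [false])) (Classical.dec _)]

theorem D_zero (E : List Bool → Prop) : D E 0 = [] := rfl

theorem D_succ (E : List Bool → Prop) (s : ℕ) :
    ∃ b : Bool, (b = true ↔ E (D E s ++ [false])) ∧ D E (s + 1) = D E s ++ [b] := by
  exact ⟨@decide (E (D E s ++ [false])) (Classical.dec _), by simp, rfl⟩

theorem D_length (E : List Bool → Prop) (s : ℕ) : (D E s).length = s := by
  induction s with
  | zero => rfl
  | succ s ih =>
    obtain ⟨b, -, h⟩ := D_succ E s
    rw [h, List.length_append, ih]; rfl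

theorem D_prefix (E : List Bool → Prop) {s t : ℕ} (h : s ≤ t) : D E s <+: D E t := by
  induction t, h using Nat.le_induction with
  | base => exact List.prefix_rfl
  | succ t _ ih =>
    obtain ⟨b, -, h⟩ := D_succ E t
    rw [h]
    exact ih.trans (List.prefix_append _ _)

theorem D_take (E : List Bool → Prop) {s t : ℕ} (h : s ≤ t) : (D E t).take s = D E s := by
  obtain ⟨ρ, h1⟩ := D_prefix E h
  conv_lhs => rw [← h1]
  have := List.take_left' (l₁ := D E s) (l₂ := ρ) (D_length E s)
  exact this

theorem D_get (E : List Bool → Prop) {s t : ℕ} (h : s < t) :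
    (D E t)[s]? = some true ↔ E (D E s ++ [false]) := by
  obtain ⟨b, h1, h2⟩ := D_succ E s
  have h3 : (D E t)[s]? = some b := by
    refine getElem?_prefix (D_prefix E (Nat.succ_le_of_lt h)) ?_
    show (D E (s + 1))[s]? = some b
    rw [h2, List.getElem?_append_right (by rw [D_length])]
    rw [D_length, Nat.sub_self]
    rfl
  rw [h3, ← h1, Option.some.injEq]

/-- a decidable description of the graph of `D` -/
def G (E : List Bool → Prop) (d : List Bool) : Prop :=
  ∀ i < d.length, ∃ x : List Bool × List Bool, x.1 ++ x.2 = d ∧ x.1.length = i ∧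
    ((d[i]? = some true ∧ E (x.1 ++ [false])) ∨ (d[i]? = some false ∧ ¬ E (x.1 ++ [false])))

theorem G_iff (E : List Bool → Prop) (d : List Bool) : G E d ↔ d = D E d.length := by
  constructor
  · intro h
    have key : ∀ n ≤ d.length, d.take n = D E n := by
      intro n
      induction n with
      | zero => intro _; simp [D_zero]
      | succ n ih =>
        intro hn
        obtain ⟨x, h1, h2, h3⟩ := h n (by omega)
        have h4 : x.1 = D E n := by
          rw [← ih (by omega), ← h1, ← h2, List.take_left]
        obtain ⟨b, h5, h6⟩ := D_succ E n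
        rw [List.take_add_one, ih (by omega), h6]
        rw [h4] at h3
        rcases h3 with ⟨h7, h8⟩ | ⟨h7, h8⟩
        · rw [h7, h5.2 h8]; rfl
        · have : b = false := by
            cases b
            · rfl
            · exact absurd (h5.1 rfl) h8
          rw [h7, this]; rfl
    have := key d.length le_rfl
    rw [List.take_length] at this
    exact this
  · intro h i hi
    refine ⟨(d.take i, d.drop i), List.take_append_drop i d, ?_, ?_⟩
    · rw [List.length_take]
      omega
    · have h1 : d.take i = D E i := by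
        conv_lhs => rw [h]
        exact D_take E (by omega)
      have h2 : d[i]? = some true ↔ E (D E i ++ [false]) := by
        conv_lhs => rw [h]
        exact D_get E hi
      show (_ ∧ E (d.take i ++ [false])) ∨ (_ ∧ ¬ E (d.take i ++ [false]))
      rw [h1, ← h2]
      rw [List.getElem?_eq_getElem hi]
      cases d[i] <;> simp

end LbL

open LbL

theorem lb (_ : S_UNI) (hJ : S_JMP) : S_LB := by
  intro A Bad hBad hne
  have hdec := hJ.2.1
  -- the forcing relation for the jump
  obtain ⟨F, hF, hFm, hFi⟩ := UR.forced (S := fun A (i : ℕ) => U A i.unpair.1 i.unpair.2)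
    (U_ur.comp (f := fun i : ℕ => i.unpair) (by fun_prop)) A
  let B : List Bool → List Bool → Prop := fun d σ => Up Bad σ ∨ ∃ i, d[i]? = some false ∧ F i σ
  have hB : REIn A fun x : List Bool × List Bool => B x.1 x.2 := by
    refine REIn.or ((up_re hBad).comp (f := fun x : List Bool × List Bool => x.2) (by fun_prop)) ?_
    refine REIn.ex (S := fun (x : List Bool × List Bool) i => x.1[i]? = some false ∧ F i x.2)
      (REIn.and (REIn.of_re (RE.eq (by fun_prop) (by fun_prop))) ?_)
    exact hF.comp (f := fun x : (List Bool × List Bool) × ℕ => (x.2, x.1.2)) (by fun_prop)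
  have hBm : ∀ d σ τ, σ <+: τ → B d σ → B d τ := by
    rintro d σ τ h (h1 | ⟨i, h1, h2⟩)
    · exact Or.inl (up_mono σ τ h h1)
    · exact Or.inr ⟨i, h1, hFm i σ τ h h2⟩
  have hBd : ∀ d d' σ, d <+: d' → B d σ → B d' σ := by
    rintro d d' σ h (h1 | ⟨i, h1, h2⟩)
    · exact Or.inl h1
    · exact Or.inr ⟨i, getElem?_prefix h h1, h2⟩
  let E : List Bool → Prop := fun d => ∃ n, ∀ σ ∈ allS n, B d σ
  have hE : DecIn (Jmp A) E := hdec A _ E (emp_re hB)
  -- the classes are not empty
  have hinv : ∀ s, ¬ E (D E s) := by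
    intro s
    induction s with
    | zero =>
      rw [D_zero]
      obtain ⟨X, hX⟩ := hne
      refine (not_emp (hBm [])).2 ⟨X, fun n => ?_⟩
      rintro (h | ⟨i, h, -⟩)
      · exact (up_iff X).2 hX n h
      · simp at h
    | succ s ih =>
      obtain ⟨b, h1, h2⟩ := D_succ E s
      rw [h2]
      cases b
      · intro h
        exact absurd (h1.2 h) (by simp)
      · rintro ⟨n, hn⟩
        refine ih ⟨n, fun σ hσ => ?_⟩
        rcases hn σ hσ with h | ⟨i, h3, h4⟩
        · exact Or.inl h
        · refine Or.inr ⟨i, ?_, h4⟩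
          by_cases hi : i < (D E s).length
          · rwa [List.getElem?_append_left hi] at h3
          · rw [List.getElem?_append_right (not_lt.1 hi)] at h3
            rcases Nat.eq_zero_or_pos (i - (D E s).length) with h5 | h5
            · rw [h5] at h3
              simp at h3
            · rw [List.getElem?_eq_none (by simp only [List.length_singleton]; omega)] at h3
              cases h3
  have hmem : ∀ n, ∃ σ : List Bool, σ.length = n ∧ ¬ ∃ s, B (D E s) σ := by
    intro n
    by_contra hc
    push Not at hc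
    obtain ⟨s, hs⟩ := unif (P := fun s σ => B (D E s) σ)
      (fun s t σ h h1 => hBd _ _ σ (D_prefix E h) h1) (allS n)
      (fun σ hσ => hc σ ((mem_allS n σ).1 hσ))
    exact hinv s ⟨n, hs⟩
  obtain ⟨X, hX⟩ := konig (B := fun σ => ∃ s, B (D E s) σ)
    (fun σ τ h h1 => by
      obtain ⟨s, hs⟩ := h1
      exact ⟨s, hBm _ σ τ h hs⟩) hmem
  have hXB : ∀ n s, ¬ B (D E s) (sg X n) := fun n s h => hX n ⟨s, h⟩
  -- the jump is decided
  have hjt : ∀ i, i ∈ Jmp (Jn X A) ↔ E (D E i ++ [false]) := by
    intro i
    have h0 : i ∈ Jmp (Jn X A) ↔ ∃ n, F i (sg X n) := hFi X i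
    rw [h0]
    constructor
    · rintro ⟨n, hn⟩
      by_contra hc
      obtain ⟨b, h1, h2⟩ := D_succ E i
      have hb : b = false := by
        cases b
        · rfl
        · exact absurd (h1.1 rfl) hc
      refine hXB n (i + 1) (Or.inr ⟨i, ?_, hn⟩)
      rw [h2, hb, List.getElem?_append_right (by rw [D_length]), D_length, Nat.sub_self]
      rfl
    · rintro ⟨n, hn⟩
      rcases hn (sg X n) ((mem_allS n _).2 (sg_length X n)) with h | ⟨j, h3, h4⟩
      · exact absurd (Or.inl h) (hXB n 0)
      · by_cases hj : j < (D E i).length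
        · rw [List.getElem?_append_left hj] at h3
          exact absurd (Or.inr ⟨j, h3, h4⟩) (hXB n i)
        · rw [List.getElem?_append_right (not_lt.1 hj)] at h3
          have h5 : j = i := by
            rw [D_length] at hj h3
            by_contra hne'
            rw [List.getElem?_eq_none (by simp; omega)] at h3
            cases h3
          rw [h5] at h4
          exact ⟨n, h4⟩
  refine ⟨X, fun n h => hXB n 0 (Or.inl ⟨(sg X n, []), by simp, h⟩), ?_⟩
  -- complexity
  have hGre : REIn (Jmp A) (G E) := by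
    refine REIn.all_lt (S := fun (d : List Bool) i => ∃ x : List Bool × List Bool,
      x.1 ++ x.2 = d ∧ x.1.length = i ∧
      ((d[i]? = some true ∧ E (x.1 ++ [false])) ∨ (d[i]? = some false ∧ ¬ E (x.1 ++ [false]))))
      ?_ (by fun_prop)
    refine REIn.ex (S := fun (y : List Bool × ℕ) (x : List Bool × List Bool) =>
      x.1 ++ x.2 = y.1 ∧ x.1.length = y.2 ∧
      ((y.1[y.2]? = some true ∧ E (x.1 ++ [false])) ∨
        (y.1[y.2]? = some false ∧ ¬ E (x.1 ++ [false])))) ?_
    refine REIn.and (REIn.of_re (RE.eq (by fun_prop) (by fun_prop)))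
      (REIn.and (REIn.of_re (RE.eq (by fun_prop) (by fun_prop))) (REIn.or ?_ ?_))
    · exact REIn.and (REIn.of_re (RE.eq (by fun_prop) (by fun_prop)))
        (hE.1.comp (f := fun x : (List Bool × ℕ) × (List Bool × List Bool) => x.2.1 ++ [false])
          (by fun_prop))
    · exact REIn.and (REIn.of_re (RE.eq (by fun_prop) (by fun_prop)))
        (hE.2.comp (f := fun x : (List Bool × ℕ) × (List Bool × List Bool) => x.2.1 ++ [false])
          (by fun_prop))
  have hfin : ∀ b : Bool, REIn (Jmp A) fun i : ℕ => ∃ d : List Bool, d.length = i + 1 ∧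
      d[i]? = some b ∧ G E d := by
    intro b
    refine REIn.ex (S := fun (i : ℕ) (d : List Bool) => d.length = i + 1 ∧ d[i]? = some b ∧ G E d)
      (REIn.and (REIn.of_re (RE.eq (by fun_prop) (by fun_prop)))
      (REIn.and (REIn.of_re (RE.eq (by fun_prop) (by fun_prop))) ?_))
    exact hGre.comp (f := fun x : ℕ × List Bool => x.2) (by fun_prop)
  have hval : ∀ (b : Bool) (i : ℕ), (∃ d : List Bool, d.length = i + 1 ∧ d[i]? = some b ∧ G E d) ↔
      (D E (i + 1))[i]? = some b := by
    intro b i
    constructor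
    · rintro ⟨d, h1, h2, h3⟩
      rw [G_iff, h1] at h3
      rwa [← h3]
    · intro h
      refine ⟨D E (i + 1), D_length E _, h, ?_⟩
      rw [G_iff, D_length]
  constructor
  · refine (hfin true).of_eq fun i => ?_
    rw [hval, D_get E (Nat.lt_succ_self i)]
    exact (hjt i).symm
  · refine (hfin false).of_eq fun i => ?_
    rw [hval]
    have h1 : i ∉ Jmp (Jn X A) ↔ ¬ (D E (i + 1))[i]? = some true := by
      rw [D_get E (Nat.lt_succ_self i), ← hjt i]
    rw [h1, List.getElem?_eq_getElem (by rw [D_length]; omega)]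
    cases (D E (i + 1))[i]'(by rw [D_length]; omega) <;> simp

end Pool.Agent.Helper1K9.LT
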