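import Pool.Agent.Helper1K9.LT.Stm3
import Pool.Agent.Results.MP_af8b59_lc.NoSigmaFourRainbow

/-!
# Relay LT, leaf (37) LWR: the lower bound in the omega-model
-/

set_option autoImplicit false

namespace Pool.Agent.Helper1K9.LT

open Encodable Pool.Agent.Helper446 Pool.Agent.Helper446.Defs Pool.Agent.Helper446.RE
  Pool.Agent.Helper446.Oracle Pool.Agent.R623.Dec Pool.Agent.R623.Om Pool.Agent.Helper617.RM

namespace LwrL

/-- finite sets are decidable with every oracle -/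
theorem dec_fin (A : Set ℕ) (U : Finset ℕ) : DecIn A fun n : ℕ => n ∈ (U : Set ℕ) := by
  constructor
  · refine (REIn.of_re (mem_list (f := fun n : ℕ => n) (l := fun _ : ℕ => U.toList) Computable.id
      (Computable.const _))).of_eq fun n => ?_
    simp
  · refine (REIn.of_re (not_mem_list (f := fun n : ℕ => n) (l := fun _ : ℕ => U.toList)
      Computable.id (Computable.const _))).of_eq fun n => ?_
    simp

theorem fin_mem {I : Set (Set ℕ)} (hI : Ideal I) (U : Finset ℕ) : (U : Set ℕ) ∈ I := by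
  obtain ⟨C, hC⟩ := hI.ne
  exact hI.down _ C (dec_fin C U) hC

theorem isFin {I : Set (Set ℕ)} (U : Finset ℕ) : IsFin (omegaModel I) (U : Set ℕ) := by
  refine ⟨(U.sup id + 1 : ℕ), fun y hy => ?_⟩
  have h : ∀ y : ℕ, y ∈ (U : Set ℕ) → y < U.sup id + 1 := fun y hy =>
    Nat.lt_succ_of_le (Finset.le_sup (f := id) hy)
  exact h y hy

theorem rado {I : Set (Set ℕ)} (hI : Ideal I) {R : SimpleGraph ℕ} {X : Set ℕ}
    (h : IsRadoOn (omegaModel I) X (fun x y => R.Adj x y)) :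
    Pool.Agent.Helper52K9.RR.IsRado R X := by
  intro U V hU hV hUV
  obtain ⟨x, hx, h1, h2, h3, h4⟩ := h (U : Set ℕ) (fin_mem hI U) (V : Set ℕ) (fin_mem hI V) hU hV
    (isFin U) (isFin V) (Finset.disjoint_coe.2 hUV)
  exact ⟨x, hx, fun hh => h1 (Finset.mem_coe.2 hh), fun hh => h2 (Finset.mem_coe.2 hh),
    fun u hu => h3 u (Finset.mem_coe.2 hu), fun v hv => h4 v (Finset.mem_coe.2 hv)⟩

end LwrL

open LwrL in
theorem lwr (hSG : S_SG4) (hCOD : S_COD) (hCPY : S_CPY) : S_LWR := by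
  intro I hI hlow R hR H hH k hk hRRP
  obtain ⟨G, hG⟩ := hCPY I hI R H hH
  obtain ⟨f, hf, hb, hX⟩ := Pool.Agent.Results.MP_af8b59_lc.NoSigmaFourRainbow.result R hR G
  obtain ⟨c, hcf, hcol⟩ := hCOD I hI R hR f hf H
  have hval : ∀ t : ℕ × ℕ × ℕ, Pool.Agent.Helper52K9.RR.IsCopy R G t →
      c {t.1, t.2.1, t.2.2} = f t := fun t ht => hcf _ _ _ ht.1 ht.2.1
  have hbd : IsBoundedCol (omegaModel I) (fun x y => R.Adj x y) (3 : ℕ) H c k := by
    intro a
    have hsub : {F : Set ℕ | IsCopy (omegaModel I) (fun x y => R.Adj x y) (3 : ℕ) H F ∧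
        c F = a} ⊆ (fun t : ℕ × ℕ × ℕ => ({t.1, t.2.1, t.2.2} : Set ℕ)) ''
          {t | Pool.Agent.Helper52K9.RR.IsCopy R G t ∧ f t = a} := by
      rintro F ⟨hF, hFa⟩
      obtain ⟨t, ht, rfl⟩ := (hG F).1 hF
      exact ⟨t, ⟨ht, (hval t ht).symm.trans hFa⟩, rfl⟩
    refine (Set.encard_le_encard hsub).trans ((Set.encard_image_le _ _).trans ((hb a).trans ?_))
    exact_mod_cast hk
  obtain ⟨X, hXI, -, hrado, hinj⟩ := hRRP c hcol hbd
  refine hX X (rado hI hrado) (hSG X (hlow X hXI)) ?_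
  rintro t ⟨ht, h1, h2, h3⟩ t' ⟨ht', h1', h2', h3'⟩ htt
  have hF : IsCopy (omegaModel I) (fun x y => R.Adj x y) (3 : ℕ) H {t.1, t.2.1, t.2.2} :=
    (hG _).2 ⟨t, ht, rfl⟩
  have hF' : IsCopy (omegaModel I) (fun x y => R.Adj x y) (3 : ℕ) H {t'.1, t'.2.1, t'.2.2} :=
    (hG _).2 ⟨t', ht', rfl⟩
  have hs : ({t.1, t.2.1, t.2.2} : Set ℕ) ⊆ X := by
    intro x hx
    simp only [Set.mem_insert_iff, Set.mem_singleton_iff] at hx
    rcases hx with rfl | rfl | rfl <;> assumption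
  have hs' : ({t'.1, t'.2.1, t'.2.2} : Set ℕ) ⊆ X := by
    intro x hx
    simp only [Set.mem_insert_iff, Set.mem_singleton_iff] at hx
    rcases hx with rfl | rfl | rfl <;> assumption
  have he : ({t.1, t.2.1, t.2.2} : Set ℕ) = {t'.1, t'.2.1, t'.2.2} :=
    hinj _ _ hF hF' hs hs' (by rw [hval t ht, hval t' ht', htt])
  obtain ⟨x, y, z⟩ := t
  obtain ⟨x', y', z'⟩ := t'
  obtain ⟨hxy, hyz, -⟩ := ht
  obtain ⟨hxy', hyz', -⟩ := ht'
  simp only at hxy hyz hxy' hyz' he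
  have e1 : x ∈ ({x', y', z'} : Set ℕ) := he ▸ (by simp)
  have e2 : y ∈ ({x', y', z'} : Set ℕ) := he ▸ (by simp)
  have e3 : z ∈ ({x', y', z'} : Set ℕ) := he ▸ (by simp)
  simp only [Set.mem_insert_iff, Set.mem_singleton_iff] at e1 e2 e3
  have : x = x' ∧ y = y' ∧ z = z' := by omega
  obtain ⟨rfl, rfl, rfl⟩ := this
  rfl

end Pool.Agent.Helper1K9.LT
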