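import Pool.Agent.Helper1K9.LT.RuG
import Pool.Agent.Helper1K9.LT.Stm2

/-!
# LT (17) NGC
-/

set_option autoImplicit false

namespace Pool.Agent.Helper1K9.LT

open Encodable Pool.Agent.Helper446 Pool.Agent.Helper446.Defs Pool.Agent.Helper446.RE
  Pool.Agent.Helper446.Oracle Pool.Agent.R623.Dec

/-- the predicate of the graph which must fail -/
def NgcL.P (B M N p : Set ℕ) (e w : ℕ) (F : List ℕ) (x δ d : ℕ) (Γ : Set ℕ) (_ : ℕ) : Prop :=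
  ¬ Deg Γ d ∨ (∃ y : ℕ, y ∈ col N x ∧ ¬ HH Γ F y) ∨
    ∃ z : List ℕ × (ℕ × ℕ), (∀ y ∈ z.1, y ∈ col N x) ∧ (Clean (col N δ ∪ Γ) F z.1 ∧
      EE B M p e w z.2.1 z.2.2 (F ++ z.1))

theorem NgcL.ru {B M N p C : Set ℕ} {e : ℕ} (hE : REIn C fun x : (ℕ × ℕ × ℕ) × List ℕ =>
    EE B M p e x.1.1 x.1.2.1 x.1.2.2 x.2) (w : ℕ) (F : List ℕ) {x δ : ℕ} (hx : Le (col N x) C)
    (hδ : Le (col N δ) C) (d : ℕ) : RU C (NgcL.P B M N p e w F x δ d) := by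
  refine RU.or (RU.ndeg (by fun_prop)) (RU.or ?_ ?_)
  · refine RU.ex (P := fun Γ (_ : ℕ) (y : ℕ) => y ∈ col N x ∧ ¬ HH Γ F y) ?_
    refine RU.and (RU.of_reIn ?_) (RU.nhh (f := fun _ => F) (by fun_prop) (by fun_prop))
    exact REIn.comp hx.1 (f := fun y : ℕ × ℕ => y.2) (by fun_prop)
  · refine RU.ex (P := fun Γ (_ : ℕ) (z : List ℕ × (ℕ × ℕ)) => (∀ y ∈ z.1, y ∈ col N x) ∧
      (Clean (col N δ ∪ Γ) F z.1 ∧ EE B M p e w z.2.1 z.2.2 (F ++ z.1))) ?_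
    refine RU.and (RU.of_reIn ?_) (RU.and ?_ (RU.of_reIn ?_))
    · refine REIn.all_mem (S := fun (_ : ℕ × (List ℕ × (ℕ × ℕ))) (y : ℕ) => y ∈ col N x)
        (l := fun z => z.2.1) ?_ (by fun_prop)
      exact REIn.comp hx.1 (f := fun y : (ℕ × (List ℕ × (ℕ × ℕ))) × ℕ => y.2) (by fun_prop)
    · exact RU.clean hδ (f := fun _ => F) (g := fun z : ℕ × (List ℕ × (ℕ × ℕ)) => z.2.1)
        (by fun_prop) (by fun_prop)
    · refine hE.comp (f := fun y : ℕ × (List ℕ × (ℕ × ℕ)) =>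
        ((w, y.2.2.1, y.2.2.2), F ++ y.2.1)) ?_
      have h1 : Computable fun y : ℕ × (List ℕ × (ℕ × ℕ)) => F ++ y.2.1 :=
        append_comp (f := fun _ => F) (by fun_prop) (by fun_prop)
      have h2 : Computable fun y : ℕ × (List ℕ × (ℕ × ℕ)) => (w, y.2.2.1, y.2.2.2) := by fun_prop
      exact h2.pair h1

theorem ngc : S_ERE → S_SCT → S_JMP → S_NGC := by
  rintro hE hS - B M N p q henv e w F x δ d ⟨Γ, h1, h2, h3⟩
  obtain ⟨C0, hC0, hre⟩ := hE B M N p q henv e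
  obtain ⟨C1, hC1, h01, hx1⟩ := hS.2 N henv.scN C0 (col N x) hC0 ⟨x, rfl⟩
  obtain ⟨C, hC, h1C, hδC⟩ := hS.2 N henv.scN C1 (col N δ) hC1 ⟨δ, rfl⟩
  have hru := NgcL.ru (REIn.trans h1C (REIn.trans h01 hre)) w F (Le.trans hx1 h1C) hδC d
  have hne : ∃ Γ : Set ℕ, ¬ NgcL.P B M N p e w F x δ d Γ 0 := by
    refine ⟨Γ, ?_⟩
    rintro (h | ⟨y, hy, h⟩ | ⟨⟨E, v, k⟩, h4, h5, h6⟩)
    · exact h h1
    · exact h (h2 y hy)
    · exact h3 E h4 h5 v k h6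
  obtain ⟨γ, hγ⟩ := hru.basis henv.scN hC 0 hne
  refine ⟨γ, ?_, fun y hy => ?_, fun E h4 h5 v k h6 => ?_⟩
  · by_contra h
    exact hγ (Or.inl h)
  · by_contra h
    exact hγ (Or.inr (Or.inl ⟨y, hy, h⟩))
  · exact hγ (Or.inr (Or.inr ⟨(E, v, k), h4, h5, h6⟩))

end Pool.Agent.Helper1K9.LT
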