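import Pool.Agent.Helper1K9.LT.Stm2

/-!
# Relay LT, leaf PAT: the pattern of the pair edges along the ultrafilter
-/

set_option autoImplicit false

namespace Pool.Agent.Helper1K9.LT

open Encodable Pool.Agent.Helper446 Pool.Agent.Helper446.Defs Pool.Agent.Helper446.RE
  Pool.Agent.Helper446.Oracle Pool.Agent.R623.Dec

namespace PatL

/-- the set of the `y` with an edge `(a, y) — (b, y)` -/
def Vab (Δ : Set ℕ) (a b : ℕ) : Set ℕ := {y | P2 Δ (Nat.pair a y) (Nat.pair b y)}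

theorem le_Vab (Δ : Set ℕ) (a b : ℕ) : Le (Vab Δ a b) Δ := by
  unfold Le
  have h1 : DecIn Δ fun y : ℕ => 2 * Nat.pair (Nat.pair a y) (Nat.pair b y) + 1 ∈ Δ :=
    DecIn.mem (by fun_prop)
  have h2 : DecIn Δ fun y : ℕ => 2 * Nat.pair (Nat.pair b y) (Nat.pair a y) + 1 ∈ Δ :=
    DecIn.mem (by fun_prop)
  exact (h1.or h2).of_eq fun y => Iff.rfl

theorem P2_symm {Γ : Set ℕ} {s t : ℕ} (h : P2 Γ s t) : P2 Γ t s := Or.symm h

theorem P1_symm {Γ : Set ℕ} {s t : ℕ} (h : P1 Γ s t) : P1 Γ t s := Or.symm h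

theorem decide_fin {N q : Set ℕ} (hq : IsUF N q) {ι : Type} (W : ι → Set ℕ)
    (hW : ∀ i, InN N (W i)) (s : Finset ι) (X : Set ℕ) (hX : X ∈ UU N q) :
    ∃ Y ∈ UU N q, Y ⊆ X ∧ ∀ i ∈ s, Y ⊆ W i ∨ Y ⊆ (W i)ᶜ := by
  classical
  induction s using Finset.induction_on with
  | empty => exact ⟨X, hX, subset_rfl, by simp⟩
  | insert i s hi ih =>
    obtain ⟨Y, hY, hYX, h⟩ := ih
    rcases hq.dich (W i) (hW i) with h1 | h1
    · refine ⟨Y ∩ W i, hq.inter _ hY _ h1, Set.inter_subset_left.trans hYX, ?_⟩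
      intro j hj
      rcases Finset.mem_insert.1 hj with rfl | hj
      · exact Or.inl Set.inter_subset_right
      · rcases h j hj with h2 | h2
        · exact Or.inl (Set.inter_subset_left.trans h2)
        · exact Or.inr (Set.inter_subset_left.trans h2)
    · refine ⟨Y ∩ (W i)ᶜ, hq.inter _ hY _ h1, Set.inter_subset_left.trans hYX, ?_⟩
      intro j hj
      rcases Finset.mem_insert.1 hj with rfl | hj
      · exact Or.inr Set.inter_subset_right
      · rcases h j hj with h2 | h2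
        · exact Or.inl (Set.inter_subset_left.trans h2)
        · exact Or.inr (Set.inter_subset_left.trans h2)

/-- the sets `{y | L < y}` belong to the ultrafilter -/
theorem tail_mem (hS : S_SCT) {N q : Set ℕ} (hN : Scott N) (hq : IsUF N q) (L : ℕ) :
    {y | L < y} ∈ UU N q := by
  have h0 : InN N {y | L < y} := by
    refine hS.1 N hN _ (col N 0) ?_ ⟨0, rfl⟩
    exact DecIn.lt (A := col N 0) (f := fun _ : ℕ => L) (g := fun y : ℕ => y) (by fun_prop)
      (by fun_prop)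
  rcases hq.dich _ h0 with h | h
  · exact h
  · exfalso
    refine hq.inf _ h ((Set.finite_Iic L).subset ?_)
    intro y hy
    exact Set.mem_Iic.2 (not_lt.1 (show ¬ L < y from hy))

end PatL

open PatL

theorem pat (hS : S_SCT) : S_PAT := by
  intro N q hN hq x δ d L hx hd
  classical
  have hVin : ∀ a b, InN N (Vab (col N δ) a b) := fun a b =>
    hS.1 N hN _ _ (le_Vab _ a b) ⟨δ, rfl⟩
  have hX : col N x ∈ UU N q := ⟨x, hx, rfl⟩
  obtain ⟨Y, hY, hYX, hYW⟩ := decide_fin hq (fun ab : ℕ × ℕ => Vab (col N δ) ab.1 ab.2)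
    (fun ab => hVin _ _) (Finset.range (L + 1) ×ˢ Finset.range (L + 1)) _
    (hq.inter _ hX _ (tail_mem hS hN hq L))
  have hinf := hq.inf _ hY
  obtain ⟨x', hx', rfl⟩ := hY
  set Θ : Set ℕ := {n | ∃ a b, n = 2 * Nat.pair a b ∧ a ≠ b ∧ a ≤ L ∧ b ≤ L ∧
    ∀ y ∈ col N x', P2 (col N δ) (Nat.pair a y) (Nat.pair b y)} with hΘ
  have hP1 : ∀ a b, P1 Θ a b → a ≠ b ∧ a ≤ L ∧ b ≤ L ∧
      ∀ y ∈ col N x', P2 (col N δ) (Nat.pair a y) (Nat.pair b y) := by
    intro a b h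
    rcases h with ⟨a', b', h1, h2, h3, h4, h5⟩ | ⟨a', b', h1, h2, h3, h4, h5⟩
    · have h6 : Nat.pair a b = Nat.pair a' b' := by omega
      obtain ⟨rfl, rfl⟩ := Nat.pair_eq_pair.1 h6
      exact ⟨h2, h3, h4, h5⟩
    · have h6 : Nat.pair b a = Nat.pair a' b' := by omega
      obtain ⟨rfl, rfl⟩ := Nat.pair_eq_pair.1 h6
      exact ⟨h2.symm, h4, h3, fun y hy => P2_symm (h5 y hy)⟩
  have hP2 : ∀ s t, ¬ P2 Θ s t := by
    rintro s t (⟨a', b', h1, -⟩ | ⟨a', b', h1, -⟩)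
    · omega
    · omega
  refine ⟨x', hx', Θ, ⟨?_, ?_⟩, hP2, fun a b h => ⟨(hP1 a b h).1, (hP1 a b h).2.1, (hP1 a b h).2.2.1⟩,
    fun y hy => ⟨(hYX hy).1, (hYX hy).2⟩, ?_⟩
  · intro x0 S hS0
    obtain ⟨y0, hy0⟩ := hinf.nonempty
    have hinj : Function.Injective fun y : ℕ => Nat.pair y y0 := by
      intro y z h
      exact (Nat.pair_eq_pair.1 h).1
    rw [← Finset.card_image_of_injective S hinj]
    refine hd.2 (Nat.pair x0 y0) _ fun t ht => ?_
    obtain ⟨y, hy, rfl⟩ := Finset.mem_image.1 ht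
    obtain ⟨h1, h2⟩ := hS0 y hy
    refine ⟨fun h => h1 (Nat.pair_eq_pair.1 h).1, (hP1 _ _ h2).2.2.2 y0 hy0⟩
  · intro s S hS0
    rcases S.eq_empty_or_nonempty with rfl | ⟨t, ht⟩
    · simp
    · exact absurd (hS0 t ht).2 (hP2 _ _)
  · intro y hy a ha b hb hab h
    rcases hYW (a, b) (Finset.mem_product.2 ⟨Finset.mem_range.2 (by omega),
      Finset.mem_range.2 (by omega)⟩) with h1 | h1
    · exact Or.inl ⟨a, b, rfl, hab, ha, hb, fun z hz => h1 hz⟩
    · exact absurd h (h1 hy)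

end Pool.Agent.Helper1K9.LT
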