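import Pool.Agent.Helper1K9.LT.Stm2

/-!
# Relay LT, leaf PSC: the positive case of the decision lemma, compactness
-/

set_option autoImplicit false

namespace Pool.Agent.Helper1K9.LT

open Filter

namespace PscL

/-- the limit of a sequence of sets along an ultrafilter -/
def lim (U : Ultrafilter ℕ) (Γ : ℕ → Set ℕ) : Set ℕ := {n | ∀ᶠ L in (U : Filter ℕ), n ∈ Γ L}

variable {U : Ultrafilter ℕ} {Γ : ℕ → Set ℕ}

theorem ev_not {n : ℕ} (h : n ∉ lim U Γ) : ∀ᶠ L in (U : Filter ℕ), n ∉ Γ L :=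
  Ultrafilter.eventually_not.2 h

theorem ev_P1 {x y : ℕ} (h : P1 (lim U Γ) x y) : ∀ᶠ L in (U : Filter ℕ), P1 (Γ L) x y := by
  rcases h with h | h
  · exact Filter.Eventually.mono h fun L hL => Or.inl hL
  · exact Filter.Eventually.mono h fun L hL => Or.inr hL

theorem ev_P2 {x y : ℕ} (h : P2 (lim U Γ) x y) : ∀ᶠ L in (U : Filter ℕ), P2 (Γ L) x y := by
  rcases h with h | h
  · exact Filter.Eventually.mono h fun L hL => Or.inl hL
  · exact Filter.Eventually.mono h fun L hL => Or.inr hL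

theorem ev_nP1 {Δ : Set ℕ} {x y : ℕ} (h : ¬ P1 (Δ ∪ lim U Γ) x y) :
    ∀ᶠ L in (U : Filter ℕ), ¬ P1 (Δ ∪ Γ L) x y := by
  have h1 : 2 * Nat.pair x y ∉ Δ := fun h' => h (Or.inl (Or.inl h'))
  have h2 : 2 * Nat.pair x y ∉ lim U Γ := fun h' => h (Or.inl (Or.inr h'))
  have h3 : 2 * Nat.pair y x ∉ Δ := fun h' => h (Or.inr (Or.inl h'))
  have h4 : 2 * Nat.pair y x ∉ lim U Γ := fun h' => h (Or.inr (Or.inr h'))
  filter_upwards [ev_not h2, ev_not h4] with L a b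
  rintro ((h | h) | (h | h))
  exacts [h1 h, a h, h3 h, b h]

theorem ev_nP2 {Δ : Set ℕ} {x y : ℕ} (h : ¬ P2 (Δ ∪ lim U Γ) x y) :
    ∀ᶠ L in (U : Filter ℕ), ¬ P2 (Δ ∪ Γ L) x y := by
  have h1 : 2 * Nat.pair x y + 1 ∉ Δ := fun h' => h (Or.inl (Or.inl h'))
  have h2 : 2 * Nat.pair x y + 1 ∉ lim U Γ := fun h' => h (Or.inl (Or.inr h'))
  have h3 : 2 * Nat.pair y x + 1 ∉ Δ := fun h' => h (Or.inr (Or.inl h'))
  have h4 : 2 * Nat.pair y x + 1 ∉ lim U Γ := fun h' => h (Or.inr (Or.inr h'))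
  filter_upwards [ev_not h2, ev_not h4] with L a b
  rintro ((h | h) | (h | h))
  exacts [h1 h, a h, h3 h, b h]

theorem deg_lim {d : ℕ} (h : ∀ L, Deg (Γ L) d) : Deg (lim U Γ) d := by
  constructor
  · intro x S hS
    have h1 : ∀ᶠ L in (U : Filter ℕ), ∀ y ∈ S, P1 (Γ L) x y :=
      (Filter.eventually_all_finset S).2 fun y hy => ev_P1 (hS y hy).2
    obtain ⟨L, hL⟩ := h1.exists
    exact (h L).1 x S fun y hy => ⟨(hS y hy).1, hL y hy⟩
  · intro x S hS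
    have h1 : ∀ᶠ L in (U : Filter ℕ), ∀ y ∈ S, P2 (Γ L) x y :=
      (Filter.eventually_all_finset S).2 fun y hy => ev_P2 (hS y hy).2
    obtain ⟨L, hL⟩ := h1.exists
    exact (h L).2 x S fun y hy => ⟨(hS y hy).1, hL y hy⟩

theorem ev_list {α : Type} (l : List α) {P : α → ℕ → Prop}
    (h : ∀ x ∈ l, ∀ᶠ L in (U : Filter ℕ), P x L) : ∀ᶠ L in (U : Filter ℕ), ∀ x ∈ l, P x L :=
  (Filter.eventually_all_finite (List.finite_toSet l)).2 h

theorem ev_clean {Δ : Set ℕ} {F E : List ℕ} (h : Clean (Δ ∪ lim U Γ) F E) :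
    ∀ᶠ L in (U : Filter ℕ), Clean (Δ ∪ Γ L) F E := by
  have h1 : ∀ᶠ L in (U : Filter ℕ), ∀ x ∈ F ++ E, ∀ y ∈ F ++ E, x ≠ y → ¬ (x ∈ F ∧ y ∈ F) →
      ¬ P1 (Δ ∪ Γ L) x y := by
    refine ev_list _ fun x hx => ev_list _ fun y hy => ?_
    rw [Filter.eventually_imp_distrib_left]
    intro h1
    rw [Filter.eventually_imp_distrib_left]
    intro h2
    exact ev_nP1 (h.1 x hx y hy h1 h2)
  have h2 : ∀ᶠ L in (U : Filter ℕ), ∀ x ∈ F ++ E, ∀ y ∈ F ++ E, ∀ x' ∈ F ++ E, ∀ y' ∈ F ++ E,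
      x < y → x' < y' → ¬ (x = x' ∧ y = y') → ¬ (y ∈ F ∧ y' ∈ F) →
      ¬ P2 (Δ ∪ Γ L) (Nat.pair x y) (Nat.pair x' y') := by
    refine ev_list _ fun x hx => ev_list _ fun y hy => ev_list _ fun x' hx' =>
      ev_list _ fun y' hy' => ?_
    rw [Filter.eventually_imp_distrib_left]
    intro h1
    rw [Filter.eventually_imp_distrib_left]
    intro h2
    rw [Filter.eventually_imp_distrib_left]
    intro h3
    rw [Filter.eventually_imp_distrib_left]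
    intro h4
    exact ev_nP2 (h.2 x hx y hy x' hx' y' hy' h1 h2 h3 h4)
  filter_upwards [h1, h2] with L a b
  exact ⟨a, b⟩

end PscL

open PscL

theorem psc : S_PSC := by
  intro S F X Δ d h
  by_contra hcon
  push Not at hcon
  choose Γ hΓd hΓH hΓ using hcon
  have hU : ((Filter.hyperfilter ℕ : Ultrafilter ℕ) : Filter ℕ) ≤ Filter.atTop := by
    rw [← Nat.cofinite_eq_atTop]
    exact Filter.hyperfilter_le_cofinite
  obtain ⟨E, hE, hC, hS⟩ := h (lim (Filter.hyperfilter ℕ) Γ) (deg_lim hΓd) (by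
    intro y hy x hx x' hx' hne h'
    obtain ⟨L, hL⟩ := (ev_P2 h').exists
    exact hΓH L y hy x hx x' hx' hne hL)
  have h2 : ∀ᶠ L in ((Filter.hyperfilter ℕ : Ultrafilter ℕ) : Filter ℕ), ∀ y ∈ E, y ≤ L :=
    ev_list E fun y _ => hU (Filter.eventually_ge_atTop y)
  obtain ⟨L, hL1, hL2⟩ := ((ev_clean hC).and h2).exists
  exact hΓ L E (fun y hy => ⟨hE y hy, hL2 y hy⟩) hL1 hS

end Pool.Agent.Helper1K9.LT
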