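import Pool.Agent.Helper1K9.LT.RuG
import Pool.Agent.Helper1K9.LT.Evl

/-!
# LT (13) QRE
-/

set_option autoImplicit false

namespace Pool.Agent.Helper1K9.LT

open Encodable Pool.Agent.Helper446 Pool.Agent.Helper446.Defs Pool.Agent.Helper446.RE
  Pool.Agent.Helper446.Oracle Pool.Agent.R623.Dec

/-- the predicate under the quantifier over the graphs -/
def QreL.P (B : Set ℕ) (e : ℕ) (Γ : Set ℕ) (x : (ℕ × ℕ × ℕ) × List ℕ × List ℕ) : Prop :=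
  ¬ Deg Γ x.1.2.2 ∨ (∃ y ∈ x.2.2, (∀ f ∈ x.2.1, f < y) ∧ ¬ HH Γ x.2.1 y) ∨
    ∃ E : List ℕ, (∀ z ∈ E, z ∈ x.2.2 ∧ ∀ f ∈ x.2.1, f < z) ∧ (Clean Γ x.2.1 E ∧
      Ev B e (Nat.pair x.1.1 x.1.2.1) (x.2.1 ++ E))

theorem QreL.ru (B : Set ℕ) (e : ℕ) : RU B (QreL.P B e) := by
  refine RU.or (RU.ndeg (by fun_prop)) (RU.or ?_ ?_)
  · refine RU.ex_mem (P := fun Γ (x : (ℕ × ℕ × ℕ) × List ℕ × List ℕ) y =>
      (∀ f ∈ x.2.1, f < y) ∧ ¬ HH Γ x.2.1 y) (l := fun x => x.2.2) ?_ (by fun_prop)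
    refine RU.and (RU.of_re ?_) (RU.nhh (by fun_prop) (by fun_prop))
    refine RE.all_mem (p := fun (z : ((ℕ × ℕ × ℕ) × List ℕ × List ℕ) × ℕ) (f : ℕ) => f < z.2)
      (l := fun z => z.1.2.1) ?_ (by fun_prop)
    exact RE.lt (by fun_prop) (by fun_prop)
  · refine RU.ex (P := fun Γ (x : (ℕ × ℕ × ℕ) × List ℕ × List ℕ) (E : List ℕ) =>
      (∀ z ∈ E, z ∈ x.2.2 ∧ ∀ f ∈ x.2.1, f < z) ∧ (Clean Γ x.2.1 E ∧
      Ev B e (Nat.pair x.1.1 x.1.2.1) (x.2.1 ++ E))) ?_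
    refine RU.and (RU.of_re ?_) (RU.and (RU.clean' (by fun_prop) (by fun_prop)) (RU.of_reIn ?_))
    · refine RE.all_mem (p := fun (y : ((ℕ × ℕ × ℕ) × List ℕ × List ℕ) × List ℕ) (z : ℕ) =>
        z ∈ y.1.2.2 ∧ ∀ f ∈ y.1.2.1, f < z) (l := fun y => y.2) ?_ (by fun_prop)
      refine RE.and (RE.mem_list (by fun_prop) (by fun_prop)) ?_
      refine RE.all_mem (p := fun (z : (((ℕ × ℕ × ℕ) × List ℕ × List ℕ) × List ℕ) × ℕ) (f : ℕ) =>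
        f < z.2) (l := fun z => z.1.1.2.1) ?_ (by fun_prop)
      exact RE.lt (by fun_prop) (by fun_prop)
    · refine (EvlL.ev_re B e).comp (f := fun y : ((ℕ × ℕ × ℕ) × List ℕ × List ℕ) × List ℕ =>
        (Nat.pair y.1.1.1 y.1.1.2.1, y.1.2.1 ++ y.2)) ?_
      have h1 : Computable fun y : ((ℕ × ℕ × ℕ) × List ℕ × List ℕ) × List ℕ => y.1.2.1 ++ y.2 :=
        append_comp (by fun_prop) (by fun_prop)
      have h2 : Computable fun y : ((ℕ × ℕ × ℕ) × List ℕ × List ℕ) × List ℕ =>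
        Nat.pair y.1.1.1 y.1.1.2.1 := by fun_prop
      exact h2.pair h1

theorem QreL.iff (B : Set ℕ) (e : ℕ) (x : (ℕ × ℕ × ℕ) × List ℕ × List ℕ) :
    QQ B e x.1.1 x.1.2.1 x.1.2.2 x.2.1 x.2.2 ↔ ∀ Γ, QreL.P B e Γ x := by
  unfold QQ QreL.P
  refine forall_congr' fun Γ => ?_
  constructor
  · intro h
    by_cases h1 : Deg Γ x.1.2.2
    · by_cases h2 : ∀ y ∈ x.2.2, (∀ f ∈ x.2.1, f < y) → HH Γ x.2.1 y
      · exact Or.inr (Or.inr (h h1 h2))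
      · push Not at h2
        exact Or.inr (Or.inl h2)
    · exact Or.inl h1
  · rintro (h | ⟨y, hy, h1, h2⟩ | h) h3 h4
    · exact absurd h3 h
    · exact absurd (h4 y hy h1) h2
    · exact h

theorem qre : S_QRE := fun B e => (QreL.ru B e).all.of_eq fun x => (QreL.iff B e x).symm

end Pool.Agent.Helper1K9.LT
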