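import Pool.Agent.Helper1K9.LT.Stm3

/-!
# Relay LT, leaf RT3: the low₃ theorem for the rainbow Ramsey theorem for triples
-/

set_option autoImplicit false

namespace Pool.Agent.Helper1K9.LT

open Pool.Agent.R623.Dec

theorem rt3 (hSS : S_SS) (hUF : S_UF1) (hD : S_DEL) (hG : S_GGG) (hT : S_THN) (hJ : S_JMP) :
    S_RT3 := by
  intro B f k hf hk
  obtain ⟨M, hM, hBM, hMlow⟩ := hSS B
  obtain ⟨N, hN, hJN, hNlow⟩ := hSS (Jmp M)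
  obtain ⟨p, hpN, hp⟩ := hUF M N hM hN hJN
  obtain ⟨Δ, hΔN, hΔd, hΔ⟩ := hD B M N p f k hM hN hBM hJN hpN hp hf hk
  obtain ⟨G, hGinf, hGV, hGc, hGlow⟩ := hG B M N p hM hN hBM hJN hpN hp hMlow hNlow Δ k hΔN hΔd
  obtain ⟨K, hKG, hKinf, hKr, hKle⟩ := hT B f k G hf hk hGinf (by
    intro x hx y hy x' hx' y' hy' hxy hxy' hne
    obtain ⟨V, hV, hVf⟩ := hΔ x y x' y' hxy hxy' hne (hGc x hx y hy x' hx' y' hy' hxy hxy' hne)
    obtain ⟨n, hn⟩ := hGV V hV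
    exact ⟨n, fun z hz hnz => hVf z (hn z hz hnz)⟩)
  refine ⟨K, hKinf, hKr, ?_⟩
  obtain ⟨_, _, _, hmono, hjn, hjn2, _⟩ := hJ
  have h1 : Le (Jn B K) (Jn B G) := hjn2 B K _ (hjn B G).1 hKle
  exact Le.trans (hmono _ _ (hmono _ _ (hmono _ _ h1))) hGlow

end Pool.Agent.Helper1K9.LT
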