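import Pool.Agent.Helper1K9.LT.Ss

/-!
# Relay LT, leaf SCT
-/

set_option autoImplicit false

namespace Pool.Agent.Helper1K9.LT

open Encodable Pool.Agent.Helper446 Pool.Agent.Helper446.Defs Pool.Agent.Helper446.RE
  Pool.Agent.Helper446.Oracle Pool.Agent.R623.Dec

open SsL LbL

namespace SctL

theorem not_isSg {X : Set ℕ} {τ : List Bool} : ¬ IsSg X τ ↔
    ∃ i < τ.length, (τ[i]? = some true ∧ i ∉ X) ∨ (τ[i]? = some false ∧ i ∈ X) := by
  unfold IsSg
  push Not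
  refine exists_congr fun i => and_congr_right fun hi => ?_
  rw [List.getElem?_eq_getElem hi]
  cases τ[i] <;> simp

theorem not_isSg_re {A C : Set ℕ} (h : Le A C) : REIn C fun τ : List Bool => ¬ IsSg A τ := by
  have h1 : REIn C fun τ : List Bool => ∃ i, i < τ.length ∧
      ((τ[i]? = some true ∧ i ∉ A) ∨ (τ[i]? = some false ∧ i ∈ A)) := by
    refine REIn.ex (S := fun (τ : List Bool) i => i < τ.length ∧
      ((τ[i]? = some true ∧ i ∉ A) ∨ (τ[i]? = some false ∧ i ∈ A))) ?_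
    refine REIn.and (REIn.of_re (RE.lt (by fun_prop) (by fun_prop))) (REIn.or ?_ ?_)
    · exact REIn.and (REIn.of_re (RE.eq (by fun_prop) (by fun_prop)))
        (h.2.comp (f := fun x : List Bool × ℕ => x.2) (by fun_prop))
    · exact REIn.and (REIn.of_re (RE.eq (by fun_prop) (by fun_prop)))
        (h.1.comp (f := fun x : List Bool × ℕ => x.2) (by fun_prop))
  refine h1.of_eq fun τ => ?_
  rw [not_isSg]

theorem eq_of_isSg {A X : Set ℕ} (h : ∀ n, IsSg A (sg X n)) : X = A := by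
  ext i
  have h1 := h (i + 1) i (by rw [sg_length]; omega)
  rw [sg_true, sg_false] at h1
  rcases h1 with h1 | h1
  · exact ⟨fun _ => h1.2, fun _ => h1.1.2⟩
  · exact ⟨fun h2 => absurd h2 h1.1.2, fun h2 => absurd h2 h1.2⟩

end SctL

open SctL

theorem sct (hJ : S_JMP) : S_SCT := by
  refine ⟨?_, ?_⟩
  · rintro N hN A C h ⟨i, rfl⟩
    obtain ⟨j, hj⟩ := hN.basis i (fun τ => ¬ IsSg A τ) (not_isSg_re h)
      ⟨A, fun n => not_not.2 (by rw [isSg_iff, sg_length])⟩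
    exact ⟨j, eq_of_isSg fun n => not_not.1 (hj n)⟩
  · rintro N hN A C ⟨i, rfl⟩ ⟨j, rfl⟩
    obtain ⟨k, hk⟩ := hN.join i j
    exact ⟨_, ⟨k, hk.symm⟩, hJ.2.2.2.2.1 _ _⟩

end Pool.Agent.Helper1K9.LT
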