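import Pool.Agent.Helper1K9.LT.Ur
import Pool.Agent.Helper1K9.LT.Stm2

/-!
# Relay LT: one graph for all the finite subsets of a reservoir
-/

set_option autoImplicit false

namespace Pool.Agent.Helper1K9.LT

open Encodable Pool.Agent.Helper446 Pool.Agent.Helper446.Defs Pool.Agent.Helper446.RE
  Pool.Agent.Helper446.Oracle Pool.Agent.R623.Dec

namespace SelL

/-- `σ` guarantees a point edge -/
def P1s (σ : List Bool) (x y : ℕ) : Prop :=
  σ[2 * Nat.pair x y]? = some true ∨ σ[2 * Nat.pair y x]? = some true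

/-- `σ` guarantees a pair edge -/
def P2s (σ : List Bool) (s t : ℕ) : Prop :=
  σ[2 * Nat.pair s t + 1]? = some true ∨ σ[2 * Nat.pair t s + 1]? = some true

/-- `σ` excludes a point edge -/
def N1s (σ : List Bool) (x y : ℕ) : Prop :=
  σ[2 * Nat.pair x y]? = some false ∧ σ[2 * Nat.pair y x]? = some false

/-- `σ` excludes a pair edge -/
def N2s (σ : List Bool) (s t : ℕ) : Prop :=
  σ[2 * Nat.pair s t + 1]? = some false ∧ σ[2 * Nat.pair t s + 1]? = some false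

theorem P1s.mono {σ τ : List Bool} (h : σ <+: τ) {x y : ℕ} (h1 : P1s σ x y) : P1s τ x y :=
  h1.imp (getElem?_prefix h) (getElem?_prefix h)

theorem P2s.mono {σ τ : List Bool} (h : σ <+: τ) {x y : ℕ} (h1 : P2s σ x y) : P2s τ x y :=
  h1.imp (getElem?_prefix h) (getElem?_prefix h)

theorem N1s.mono {σ τ : List Bool} (h : σ <+: τ) {x y : ℕ} (h1 : N1s σ x y) : N1s τ x y :=
  ⟨getElem?_prefix h h1.1, getElem?_prefix h h1.2⟩

theorem N2s.mono {σ τ : List Bool} (h : σ <+: τ) {x y : ℕ} (h1 : N2s σ x y) : N2s τ x y :=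
  ⟨getElem?_prefix h h1.1, getElem?_prefix h h1.2⟩

theorem P1s.to {Γ : Set ℕ} {n x y : ℕ} (h : P1s (sg Γ n) x y) : P1 Γ x y :=
  h.imp (fun h => (sg_true.1 h).2) (fun h => (sg_true.1 h).2)

theorem P2s.to {Γ : Set ℕ} {n x y : ℕ} (h : P2s (sg Γ n) x y) : P2 Γ x y :=
  h.imp (fun h => (sg_true.1 h).2) (fun h => (sg_true.1 h).2)

theorem N1s.to {Γ : Set ℕ} {n x y : ℕ} (h : N1s (sg Γ n) x y) : ¬ P1 Γ x y := by
  rintro (h1 | h1)
  · exact (sg_false.1 h.1).2 h1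
  · exact (sg_false.1 h.2).2 h1

theorem N2s.to {Γ : Set ℕ} {n x y : ℕ} (h : N2s (sg Γ n) x y) : ¬ P2 Γ x y := by
  rintro (h1 | h1)
  · exact (sg_false.1 h.1).2 h1
  · exact (sg_false.1 h.2).2 h1

theorem ev_true {Γ : Set ℕ} {i : ℕ} (h : i ∈ Γ) :
    ∀ᶠ n in Filter.atTop, (sg Γ n)[i]? = some true := by
  filter_upwards [Filter.eventually_gt_atTop i] with n hn
  exact sg_true.2 ⟨hn, h⟩

theorem ev_false {Γ : Set ℕ} {i : ℕ} (h : i ∉ Γ) :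
    ∀ᶠ n in Filter.atTop, (sg Γ n)[i]? = some false := by
  filter_upwards [Filter.eventually_gt_atTop i] with n hn
  exact sg_false.2 ⟨hn, h⟩

theorem ev_P1 {Γ : Set ℕ} {x y : ℕ} (h : P1 Γ x y) :
    ∀ᶠ n in Filter.atTop, P1s (sg Γ n) x y := by
  rcases h with h | h
  · exact (ev_true h).mono fun n hn => Or.inl hn
  · exact (ev_true h).mono fun n hn => Or.inr hn

theorem ev_P2 {Γ : Set ℕ} {x y : ℕ} (h : P2 Γ x y) :
    ∀ᶠ n in Filter.atTop, P2s (sg Γ n) x y := by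
  rcases h with h | h
  · exact (ev_true h).mono fun n hn => Or.inl hn
  · exact (ev_true h).mono fun n hn => Or.inr hn

theorem ev_N1 {Γ : Set ℕ} {x y : ℕ} (h : ¬ P1 Γ x y) :
    ∀ᶠ n in Filter.atTop, N1s (sg Γ n) x y := by
  unfold P1 at h
  push Not at h
  exact (ev_false h.1).and (ev_false h.2)

theorem ev_N2 {Γ : Set ℕ} {x y : ℕ} (h : ¬ P2 Γ x y) :
    ∀ᶠ n in Filter.atTop, N2s (sg Γ n) x y := by
  unfold P2 at h
  push Not at h
  exact (ev_false h.1).and (ev_false h.2)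

section re

variable {α : Type} [Primcodable α] {σ : α → List Bool} {f g : α → ℕ}

theorem P1s_re (hσ : Computable σ) (hf : Computable f) (hg : Computable g) :
    REPred fun a => P1s (σ a) (f a) (g a) :=
  RE.or (RE.eq (by fun_prop) (by fun_prop)) (RE.eq (by fun_prop) (by fun_prop))

theorem P2s_re (hσ : Computable σ) (hf : Computable f) (hg : Computable g) :
    REPred fun a => P2s (σ a) (f a) (g a) :=
  RE.or (RE.eq (by fun_prop) (by fun_prop)) (RE.eq (by fun_prop) (by fun_prop))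

theorem N1s_re (hσ : Computable σ) (hf : Computable f) (hg : Computable g) :
    REPred fun a => N1s (σ a) (f a) (g a) :=
  RE.and (RE.eq (by fun_prop) (by fun_prop)) (RE.eq (by fun_prop) (by fun_prop))

theorem N2s_re (hσ : Computable σ) (hf : Computable f) (hg : Computable g) :
    REPred fun a => N2s (σ a) (f a) (g a) :=
  RE.and (RE.eq (by fun_prop) (by fun_prop)) (RE.eq (by fun_prop) (by fun_prop))

end re

/-- `σ` guarantees that the extension is clean -/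
def Cs (σ : List Bool) (F E : List ℕ) : Prop :=
  (∀ x ∈ F ++ E, ∀ y ∈ F ++ E, x = y ∨ (x ∈ F ∧ y ∈ F) ∨ N1s σ x y) ∧
  (∀ x ∈ F ++ E, ∀ y ∈ F ++ E, ∀ x' ∈ F ++ E, ∀ y' ∈ F ++ E, y ≤ x ∨ y' ≤ x' ∨
    (x = x' ∧ y = y') ∨ (y ∈ F ∧ y' ∈ F) ∨ N2s σ (Nat.pair x y) (Nat.pair x' y'))

theorem Cs.mono {σ τ : List Bool} (h : σ <+: τ) {F E : List ℕ} (h1 : Cs σ F E) : Cs τ F E := by
  refine ⟨fun x hx y hy => ?_, fun x hx y hy x' hx' y' hy' => ?_⟩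
  · rcases h1.1 x hx y hy with h2 | h2 | h2
    exacts [Or.inl h2, Or.inr (Or.inl h2), Or.inr (Or.inr (h2.mono h))]
  · rcases h1.2 x hx y hy x' hx' y' hy' with h2 | h2 | h2 | h2 | h2
    exacts [Or.inl h2, Or.inr (Or.inl h2), Or.inr (Or.inr (Or.inl h2)),
      Or.inr (Or.inr (Or.inr (Or.inl h2))), Or.inr (Or.inr (Or.inr (Or.inr (h2.mono h))))]

theorem Cs.to {Γ : Set ℕ} {n : ℕ} {F E : List ℕ} (h : Cs (sg Γ n) F E) : Clean Γ F E := by
  refine ⟨fun x hx y hy hxy hF => ?_, fun x hx y hy x' hx' y' hy' hxy hxy' hne hF => ?_⟩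
  · rcases h.1 x hx y hy with h2 | h2 | h2
    exacts [absurd h2 hxy, absurd h2 hF, h2.to]
  · rcases h.2 x hx y hy x' hx' y' hy' with h2 | h2 | h2 | h2 | h2
    exacts [absurd h2 (by omega), absurd h2 (by omega), absurd h2 hne, absurd h2 hF, h2.to]

theorem ev_Cs {Γ : Set ℕ} {F E : List ℕ} (h : Clean Γ F E) :
    ∀ᶠ n in Filter.atTop, Cs (sg Γ n) F E := by
  have key : ∀ (S : ℕ → ℕ → Prop) (l : List ℕ),
      (∀ x ∈ l, ∀ᶠ n in Filter.atTop, S n x) → ∀ᶠ n in Filter.atTop, ∀ x ∈ l, S n x := by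
    intro S l hl
    have h1 : ∀ᶠ n in Filter.atTop, ∀ x ∈ l.toFinset, S n x :=
      (Filter.eventually_all_finset _).2 fun x hx => hl x (List.mem_toFinset.1 hx)
    exact h1.mono fun n hn x hx => hn x (List.mem_toFinset.2 hx)
  refine Filter.Eventually.and ?_ ?_
  · refine key (fun n x => ∀ y ∈ F ++ E, x = y ∨ (x ∈ F ∧ y ∈ F) ∨ N1s (sg Γ n) x y) _
      fun x hx => ?_
    refine key (fun n y => x = y ∨ (x ∈ F ∧ y ∈ F) ∨ N1s (sg Γ n) x y) _ fun y hy => ?_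
    by_cases h1 : x = y
    · exact Filter.Eventually.of_forall fun n => Or.inl h1
    by_cases h2 : x ∈ F ∧ y ∈ F
    · exact Filter.Eventually.of_forall fun n => Or.inr (Or.inl h2)
    exact (ev_N1 (h.1 x hx y hy h1 h2)).mono fun n hn => Or.inr (Or.inr hn)
  · refine key (fun n x => ∀ y ∈ F ++ E, ∀ x' ∈ F ++ E, ∀ y' ∈ F ++ E, y ≤ x ∨ y' ≤ x' ∨
      (x = x' ∧ y = y') ∨ (y ∈ F ∧ y' ∈ F) ∨ N2s (sg Γ n) (Nat.pair x y) (Nat.pair x' y')) _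
      fun x hx => ?_
    refine key (fun n y => ∀ x' ∈ F ++ E, ∀ y' ∈ F ++ E, y ≤ x ∨ y' ≤ x' ∨
      (x = x' ∧ y = y') ∨ (y ∈ F ∧ y' ∈ F) ∨ N2s (sg Γ n) (Nat.pair x y) (Nat.pair x' y')) _
      fun y hy => ?_
    refine key (fun n x' => ∀ y' ∈ F ++ E, y ≤ x ∨ y' ≤ x' ∨
      (x = x' ∧ y = y') ∨ (y ∈ F ∧ y' ∈ F) ∨ N2s (sg Γ n) (Nat.pair x y) (Nat.pair x' y')) _
      fun x' hx' => ?_
    refine key (fun n y' => y ≤ x ∨ y' ≤ x' ∨
      (x = x' ∧ y = y') ∨ (y ∈ F ∧ y' ∈ F) ∨ N2s (sg Γ n) (Nat.pair x y) (Nat.pair x' y')) _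
      fun y' hy' => ?_
    by_cases h1 : y ≤ x
    · exact Filter.Eventually.of_forall fun n => Or.inl h1
    by_cases h2 : y' ≤ x'
    · exact Filter.Eventually.of_forall fun n => Or.inr (Or.inl h2)
    by_cases h3 : x = x' ∧ y = y'
    · exact Filter.Eventually.of_forall fun n => Or.inr (Or.inr (Or.inl h3))
    by_cases h4 : y ∈ F ∧ y' ∈ F
    · exact Filter.Eventually.of_forall fun n => Or.inr (Or.inr (Or.inr (Or.inl h4)))
    exact (ev_N2 (h.2 x hx y hy x' hx' y' hy' (by omega) (by omega) h3 h4)).mono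
      fun n hn => Or.inr (Or.inr (Or.inr (Or.inr hn)))

theorem Cs_re : REPred fun x : List Bool × List ℕ × List ℕ => Cs x.1 x.2.1 x.2.2 := by
  refine RE.and ?_ ?_
  · refine RE.all_mem (p := fun (a : List Bool × List ℕ × List ℕ) (x : ℕ) =>
      ∀ y ∈ a.2.1 ++ a.2.2, x = y ∨ (x ∈ a.2.1 ∧ y ∈ a.2.1) ∨ N1s a.1 x y)
      (l := fun a => a.2.1 ++ a.2.2) ?_ (by fun_prop)
    refine RE.all_mem (p := fun (a : (List Bool × List ℕ × List ℕ) × ℕ) (y : ℕ) =>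
      a.2 = y ∨ (a.2 ∈ a.1.2.1 ∧ y ∈ a.1.2.1) ∨ N1s a.1.1 a.2 y)
      (l := fun a => a.1.2.1 ++ a.1.2.2) ?_ (by fun_prop)
    exact RE.or (RE.eq (by fun_prop) (by fun_prop)) (RE.or (RE.and
      (RE.mem_list (by fun_prop) (by fun_prop)) (RE.mem_list (by fun_prop) (by fun_prop)))
      (N1s_re (by fun_prop) (by fun_prop) (by fun_prop)))
  · refine RE.all_mem (p := fun (a : List Bool × List ℕ × List ℕ) (x : ℕ) =>
      ∀ y ∈ a.2.1 ++ a.2.2, ∀ x' ∈ a.2.1 ++ a.2.2, ∀ y' ∈ a.2.1 ++ a.2.2, y ≤ x ∨ y' ≤ x' ∨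
        (x = x' ∧ y = y') ∨ (y ∈ a.2.1 ∧ y' ∈ a.2.1) ∨
          N2s a.1 (Nat.pair x y) (Nat.pair x' y'))
      (l := fun a => a.2.1 ++ a.2.2) ?_ (by fun_prop)
    refine RE.all_mem (p := fun (a : (List Bool × List ℕ × List ℕ) × ℕ) (y : ℕ) =>
      ∀ x' ∈ a.1.2.1 ++ a.1.2.2, ∀ y' ∈ a.1.2.1 ++ a.1.2.2, y ≤ a.2 ∨ y' ≤ x' ∨
        (a.2 = x' ∧ y = y') ∨ (y ∈ a.1.2.1 ∧ y' ∈ a.1.2.1) ∨
          N2s a.1.1 (Nat.pair a.2 y) (Nat.pair x' y'))
      (l := fun a => a.1.2.1 ++ a.1.2.2) ?_ (by fun_prop)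
    refine RE.all_mem (p := fun (a : ((List Bool × List ℕ × List ℕ) × ℕ) × ℕ) (x' : ℕ) =>
      ∀ y' ∈ a.1.1.2.1 ++ a.1.1.2.2, a.2 ≤ a.1.2 ∨ y' ≤ x' ∨
        (a.1.2 = x' ∧ a.2 = y') ∨ (a.2 ∈ a.1.1.2.1 ∧ y' ∈ a.1.1.2.1) ∨
          N2s a.1.1.1 (Nat.pair a.1.2 a.2) (Nat.pair x' y'))
      (l := fun a => a.1.1.2.1 ++ a.1.1.2.2) ?_ (by fun_prop)
    refine RE.all_mem (p := fun (a : (((List Bool × List ℕ × List ℕ) × ℕ) × ℕ) × ℕ) (y' : ℕ) =>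
      a.1.2 ≤ a.1.1.2 ∨ y' ≤ a.2 ∨
        (a.1.1.2 = a.2 ∧ a.1.2 = y') ∨ (a.1.2 ∈ a.1.1.1.2.1 ∧ y' ∈ a.1.1.1.2.1) ∨
          N2s a.1.1.1.1 (Nat.pair a.1.1.2 a.1.2) (Nat.pair a.2 y'))
      (l := fun a => a.1.1.1.2.1 ++ a.1.1.1.2.2) ?_ (by fun_prop)
    exact RE.or (RE.le (by fun_prop) (by fun_prop)) (RE.or (RE.le (by fun_prop) (by fun_prop))
      (RE.or (RE.and (RE.eq (by fun_prop) (by fun_prop)) (RE.eq (by fun_prop) (by fun_prop)))
      (RE.or (RE.and (RE.mem_list (by fun_prop) (by fun_prop))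
      (RE.mem_list (by fun_prop) (by fun_prop)))
      (N2s_re (by fun_prop) (by fun_prop) (by fun_prop)))))

/-- the string `σ` excludes the graph -/
def Bad (Y : Set ℕ) (T : List ℕ → Prop) (k : ℕ) (F : List ℕ) (σ : List Bool) : Prop :=
  (∃ z : ℕ × List ℕ, z.2.Nodup ∧ k < z.2.length ∧ ∀ y ∈ z.2, y ≠ z.1 ∧ P1s σ z.1 y) ∨
  (∃ z : ℕ × List ℕ, z.2.Nodup ∧ k < z.2.length ∧ ∀ y ∈ z.2, y ≠ z.1 ∧ P2s σ z.1 y) ∨
  (∃ y, y ∈ Y ∧ (∀ f ∈ F, f < y) ∧ ∃ x ∈ F, ∃ x' ∈ F, x ≠ x' ∧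
    P2s σ (Nat.pair x y) (Nat.pair x' y)) ∨
  (∃ E : List ℕ, (∀ x ∈ E, x ∈ Y ∧ x < σ.length ∧ ∀ f ∈ F, f < x) ∧ Cs σ F E ∧ T E)

theorem Bad.mono {Y : Set ℕ} {T : List ℕ → Prop} {k : ℕ} {F : List ℕ} {σ τ : List Bool}
    (h : σ <+: τ) (hB : Bad Y T k F σ) : Bad Y T k F τ := by
  rcases hB with ⟨z, h1, h2, h3⟩ | ⟨z, h1, h2, h3⟩ | ⟨y, h1, h2, x, hx, x', hx', h3, h4⟩ |
    ⟨E, h1, h2, h3⟩
  · exact Or.inl ⟨z, h1, h2, fun y hy => ⟨(h3 y hy).1, (h3 y hy).2.mono h⟩⟩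
  · exact Or.inr (Or.inl ⟨z, h1, h2, fun y hy => ⟨(h3 y hy).1, (h3 y hy).2.mono h⟩⟩)
  · exact Or.inr (Or.inr (Or.inl ⟨y, h1, h2, x, hx, x', hx', h3, h4.mono h⟩))
  · refine Or.inr (Or.inr (Or.inr ⟨E, fun x hx => ⟨(h1 x hx).1, ?_, (h1 x hx).2.2⟩,
      h2.mono h, h3⟩))
    exact lt_of_lt_of_le (h1 x hx).2.1 h.length_le

theorem Bad_re {C Y : Set ℕ} {T : List ℕ → Prop} (k : ℕ) (F : List ℕ) (hY : Le Y C)
    (hT : REIn C T) : REIn C (Bad Y T k F) := by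
  refine REIn.or (REIn.of_re ?_) (REIn.or (REIn.of_re ?_) (REIn.or ?_ ?_))
  · refine RE.ex (p := fun (σ : List Bool) (z : ℕ × List ℕ) => z.2.Nodup ∧ k < z.2.length ∧
      ∀ y ∈ z.2, y ≠ z.1 ∧ P1s σ z.1 y) ?_
    refine RE.and (RE.cp_nodup (by fun_prop)) (RE.and (RE.lt (by fun_prop) (by fun_prop)) ?_)
    refine RE.all_mem (p := fun (a : List Bool × (ℕ × List ℕ)) (y : ℕ) =>
      y ≠ a.2.1 ∧ P1s a.1 a.2.1 y) (l := fun a => a.2.2) ?_ (by fun_prop)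
    exact RE.and (RE.ne (by fun_prop) (by fun_prop))
      (P1s_re (by fun_prop) (by fun_prop) (by fun_prop))
  · refine RE.ex (p := fun (σ : List Bool) (z : ℕ × List ℕ) => z.2.Nodup ∧ k < z.2.length ∧
      ∀ y ∈ z.2, y ≠ z.1 ∧ P2s σ z.1 y) ?_
    refine RE.and (RE.cp_nodup (by fun_prop)) (RE.and (RE.lt (by fun_prop) (by fun_prop)) ?_)
    refine RE.all_mem (p := fun (a : List Bool × (ℕ × List ℕ)) (y : ℕ) =>
      y ≠ a.2.1 ∧ P2s a.1 a.2.1 y) (l := fun a => a.2.2) ?_ (by fun_prop)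
    exact RE.and (RE.ne (by fun_prop) (by fun_prop))
      (P2s_re (by fun_prop) (by fun_prop) (by fun_prop))
  · refine REIn.ex (S := fun (σ : List Bool) (y : ℕ) => y ∈ Y ∧ (∀ f ∈ F, f < y) ∧
      ∃ x ∈ F, ∃ x' ∈ F, x ≠ x' ∧ P2s σ (Nat.pair x y) (Nat.pair x' y)) ?_
    refine REIn.and (hY.1.comp (by fun_prop)) (REIn.of_re (RE.and ?_ ?_))
    · exact RE.all_mem (p := fun (a : List Bool × ℕ) (f : ℕ) => f < a.2) (l := fun _ => F)
        (RE.lt (by fun_prop) (by fun_prop)) (by fun_prop)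
    · refine RE.ex_mem (p := fun (a : List Bool × ℕ) (x : ℕ) => ∃ x' ∈ F, x ≠ x' ∧
        P2s a.1 (Nat.pair x a.2) (Nat.pair x' a.2)) (l := fun _ => F) ?_ (by fun_prop)
      refine RE.ex_mem (p := fun (a : (List Bool × ℕ) × ℕ) (x' : ℕ) => a.2 ≠ x' ∧
        P2s a.1.1 (Nat.pair a.2 a.1.2) (Nat.pair x' a.1.2)) (l := fun _ => F) ?_ (by fun_prop)
      exact RE.and (RE.ne (by fun_prop) (by fun_prop))
        (P2s_re (by fun_prop) (by fun_prop) (by fun_prop))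
  · refine REIn.ex (S := fun (σ : List Bool) (E : List ℕ) =>
      (∀ x ∈ E, x ∈ Y ∧ x < σ.length ∧ ∀ f ∈ F, f < x) ∧ Cs σ F E ∧ T E) ?_
    refine REIn.and ?_ (REIn.and (REIn.of_re ?_) (hT.comp (by fun_prop)))
    · refine REIn.all_mem (S := fun (a : List Bool × List ℕ) (x : ℕ) =>
        x ∈ Y ∧ x < a.1.length ∧ ∀ f ∈ F, f < x) (l := fun a => a.2) ?_ (by fun_prop)
      refine REIn.and (hY.1.comp (by fun_prop)) (REIn.of_re (RE.and
        (RE.lt (by fun_prop) (by fun_prop)) ?_))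
      exact RE.all_mem (p := fun (a : (List Bool × List ℕ) × ℕ) (f : ℕ) => f < a.2)
        (l := fun _ => F) (RE.lt (by fun_prop) (by fun_prop)) (by fun_prop)
    · exact RE.comp Cs_re (f := fun a : List Bool × List ℕ => (a.1, F, a.2)) (by fun_prop)

/-- what a graph which is not excluded satisfies -/
theorem of_not_bad {Γ Y : Set ℕ} {T : List ℕ → Prop} {k : ℕ} {F : List ℕ}
    (h : ∀ n, ¬ Bad Y T k F (sg Γ n)) :
    Deg Γ k ∧ (∀ y ∈ Y, (∀ f ∈ F, f < y) → HH Γ F y) ∧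
      ∀ E : List ℕ, (∀ x ∈ E, x ∈ Y ∧ ∀ f ∈ F, f < x) → Clean Γ F E → ¬ T E := by
  refine ⟨⟨fun x S hS => ?_, fun x S hS => ?_⟩, fun y hy hFy x hx x' hx' hne h2 => ?_,
    fun E hE hC hT => ?_⟩
  · by_contra hcon
    obtain ⟨n, hn⟩ := ((Filter.eventually_all_finset S).2 fun y hy =>
      ev_P1 (hS y hy).2).exists
    exact h n (Or.inl ⟨(x, S.toList), S.nodup_toList, by rw [Finset.length_toList]; omega,
      fun y hy => ⟨(hS y (Finset.mem_toList.1 hy)).1, hn y (Finset.mem_toList.1 hy)⟩⟩)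
  · by_contra hcon
    obtain ⟨n, hn⟩ := ((Filter.eventually_all_finset S).2 fun y hy =>
      ev_P2 (hS y hy).2).exists
    exact h n (Or.inr (Or.inl ⟨(x, S.toList), S.nodup_toList,
      by rw [Finset.length_toList]; omega,
      fun y hy => ⟨(hS y (Finset.mem_toList.1 hy)).1, hn y (Finset.mem_toList.1 hy)⟩⟩))
  · obtain ⟨n, hn⟩ := (ev_P2 h2).exists
    exact h n (Or.inr (Or.inr (Or.inl ⟨y, hy, hFy, x, hx, x', hx', hne, hn⟩)))
  · have h1 : ∀ᶠ n in Filter.atTop, ∀ x ∈ E, x < n := by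
      filter_upwards [Filter.eventually_gt_atTop E.sum] with n hn x hx
      exact lt_of_le_of_lt (List.le_sum_of_mem hx) hn
    obtain ⟨n, hn1, hn2⟩ := (h1.and (ev_Cs hC)).exists
    exact h n (Or.inr (Or.inr (Or.inr ⟨E, fun x hx => ⟨(hE x hx).1,
      by rw [sg_length]; exact hn1 x hx, (hE x hx).2⟩, hn2, hT⟩)))

/-- a graph which is good for a finite part of the reservoir is not excluded by its initial
segment -/
theorem not_bad {Γ Y : Set ℕ} {T : List ℕ → Prop} {k n : ℕ} {F : List ℕ} (h1 : Deg Γ k)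
    (h2 : ∀ y ∈ Y, y < n → (∀ f ∈ F, f < y) → HH Γ F y)
    (h3 : ∀ E : List ℕ, (∀ x ∈ E, x ∈ Y ∧ x < n ∧ ∀ f ∈ F, f < x) → Clean Γ F E → ¬ T E) :
    ¬ Bad Y T k F (sg Γ n) := by
  rintro (⟨z, h4, h5, h6⟩ | ⟨z, h4, h5, h6⟩ | ⟨y, h4, h5, x, hx, x', hx', h6, h7⟩ |
    ⟨E, h4, h5, h6⟩)
  · have h7 := h1.1 z.1 z.2.toFinset fun y hy => ⟨(h6 y (List.mem_toFinset.1 hy)).1,
      (h6 y (List.mem_toFinset.1 hy)).2.to⟩
    rw [List.toFinset_card_of_nodup h4] at h7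
    omega
  · have h7 := h1.2 z.1 z.2.toFinset fun y hy => ⟨(h6 y (List.mem_toFinset.1 hy)).1,
      (h6 y (List.mem_toFinset.1 hy)).2.to⟩
    rw [List.toFinset_card_of_nodup h4] at h7
    omega
  · refine h2 y h4 ?_ h5 x hx x' hx' h6 h7.to
    have h8 : ∀ a b c d : ℕ, b ≤ Nat.pair (Nat.pair a b) (Nat.pair c d) :=
      fun a b c d => (Nat.right_le_pair a b).trans (Nat.left_le_pair _ _)
    rcases h7 with h7 | h7
    · have h9 := (sg_true.1 h7).1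
      have := h8 x y x' y
      omega
    · have h9 := (sg_true.1 h7).1
      have := h8 x' y x y
      omega
  · refine h3 E (fun x hx => ⟨(h4 x hx).1, ?_, (h4 x hx).2.2⟩) h5.to h6
    have := (h4 x hx).2.1
    rwa [sg_length] at this

end SelL

open SelL

theorem sel (hjmp : S_JMP) (hsct : S_SCT) (hevl : S_EVL) : S_SEL := by
  classical
  intro N hN B hB e w v k F Y hY hD
  obtain ⟨C, ⟨i, rfl⟩, hBC, hYC⟩ := hsct.2 N hN B Y hB hY
  have hT : REIn (col N i) fun E : List ℕ => Ev B e (Nat.pair w v) (F ++ E) :=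
    (REIn.trans hBC (hevl.2.2.1 B e)).comp (f := fun E : List ℕ => (Nat.pair w v, F ++ E))
      (by fun_prop)
  have hbad := Bad_re (C := col N i) k F hYC hT
  obtain ⟨j, hj⟩ := hN.basis i _ hbad (by
    refine konig (fun σ τ h => Bad.mono h) fun n => ?_
    have h1 := hD ((List.range n).filter fun x => x ∈ Y) fun x hx => by
      have := List.of_mem_filter hx
      simpa using this
    unfold QQ at h1
    push Not at h1
    obtain ⟨Γ, hΓ1, hΓ2, hΓ3⟩ := h1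
    refine ⟨sg Γ n, sg_length Γ n, not_bad hΓ1 (fun y hy hyn hF => ?_) fun E hE hC => ?_⟩
    · refine hΓ2 y ?_ hF
      rw [List.mem_filter]
      exact ⟨List.mem_range.2 hyn, by simpa using hy⟩
    · refine hΓ3 E (fun x hx => ⟨?_, (hE x hx).2.2⟩) hC
      rw [List.mem_filter]
      exact ⟨List.mem_range.2 (hE x hx).2.1, by simpa using (hE x hx).1⟩)
  obtain ⟨h1, h2, h3⟩ := of_not_bad hj
  exact ⟨j, h1, h2, h3⟩

end Pool.Agent.Helper1K9.LT
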