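import Pool.Agent.Helper1K9.LT.Stm2
import Pool.Agent.R623.C.Om
import Pool.Agent.Helper617.RM.RadoDefs
import Pool.Agent.Helper52K9.RR.Colour

/-!
# Relay LT: statements of block 4 (colourings, the ideal, the omega-model)
-/

set_option autoImplicit false

namespace Pool.Agent.Helper1K9.LT

open Encodable Pool.Agent.Helper446 Pool.Agent.Helper446.Defs Pool.Agent.Helper446.RE
  Pool.Agent.Helper446.Oracle Pool.Agent.R623.Dec Pool.Agent.R623.Om Pool.Agent.Helper617.RM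

/-- the colouring `f` of triples is recursive in `B` -/
def Rec (B : Set ℕ) (f : ℕ → ℕ → ℕ → ℕ) : Prop :=
  REIn B fun x : (ℕ × ℕ × ℕ) × ℕ => f x.1.1 x.1.2.1 x.1.2.2 = x.2

/-- every colour is used at most `k` times on increasing triples -/
def Bdd (f : ℕ → ℕ → ℕ → ℕ) (k : ℕ) : Prop :=
  ∀ c, {t : ℕ × ℕ × ℕ | t.1 < t.2.1 ∧ t.2.1 < t.2.2 ∧ f t.1 t.2.1 t.2.2 = c}.encard ≤ k

/-- `K` is a rainbow -/
def Rnb (f : ℕ → ℕ → ℕ → ℕ) (K : Set ℕ) : Prop :=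
  ∀ x ∈ K, ∀ y ∈ K, ∀ z ∈ K, ∀ x' ∈ K, ∀ y' ∈ K, ∀ z' ∈ K, x < y → y < z → x' < y' → y' < z' →
    f x y z = f x' y' z' → x = x' ∧ y = y' ∧ z = z'

/-- (28) DEL. The graph of the limit conflicts: `Δ` is the set of all `2 * pair s t + 1` with
`s = pair x y`, `x < y`, `t = pair x' y'`, `x' < y'`, `s ≠ t`, such that the set
`{z | f x y z = f x' y' z}` belongs to the ultrafilter. (It is decidable in the join of `p` and
`Jmp M`: it is in the ultrafilter iff some `col M i`, `i ∈ p`, is contained in it, and not in the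
ultrafilter iff some `col M i`, `i ∈ p`, is disjoint from it. The bound for the degrees: take a
large `z` in the intersection of the sets of all the neighbours.) -/
def S_DEL : Prop :=
  ∀ (B M N p : Set ℕ) (f : ℕ → ℕ → ℕ → ℕ) (k : ℕ), Scott M → Scott N → InN M B →
    InN N (Jmp M) → InN N p → IsUF M p → Rec B f → Bdd f k →
    ∃ Δ, InN N Δ ∧ Deg Δ k ∧ ∀ x y x' y', x < y → x' < y' → ¬ (x = x' ∧ y = y') →
      ¬ P2 Δ (Nat.pair x y) (Nat.pair x' y') → ∃ V ∈ UU M p, ∀ z ∈ V, f x y z ≠ f x' y' z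

/-- (29) THN. Thinning out: the greedy algorithm (`z ∈ G` is accepted if it is larger than all the
accepted numbers and together with them is a rainbow). -/
def S_THN : Prop :=
  ∀ (B : Set ℕ) (f : ℕ → ℕ → ℕ → ℕ) (k : ℕ) (G : Set ℕ), Rec B f → Bdd f k → G.Infinite →
    (∀ x ∈ G, ∀ y ∈ G, ∀ x' ∈ G, ∀ y' ∈ G, x < y → x' < y' → ¬ (x = x' ∧ y = y') →
      ∃ n, ∀ z ∈ G, n ≤ z → f x y z ≠ f x' y' z) →
    ∃ K ⊆ G, K.Infinite ∧ Rnb f K ∧ Le K (Jn B G)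

/-- (30) RT3. The low₃ theorem. (`M` from `S_SS` for `B`, `N` from `S_SS` for `Jmp M`, `p` from
`S_UF1`, `Δ` from `S_DEL`, `G` from `S_GGG`, `K` from `S_THN`.) -/
def S_RT3 : Prop :=
  ∀ (B : Set ℕ) (f : ℕ → ℕ → ℕ → ℕ) (k : ℕ), Rec B f → Bdd f k →
    ∃ K : Set ℕ, K.Infinite ∧ Rnb f K ∧ Le (Jmp (Jmp (Jmp (Jn B K)))) (Jmp (Jmp (Jmp B)))

/-- (31) IDL. A countable ideal of low₃ sets closed under `RRT³_k` for all `k`. -/
def S_IDL : Prop :=
  ∃ I : Set (Set ℕ), Ideal I ∧ (∀ A ∈ I, Le (Jmp (Jmp (Jmp A))) (Jmp (Jmp (Jmp ∅)))) ∧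
    ∀ B ∈ I, ∀ (f : ℕ → ℕ → ℕ → ℕ) (k : ℕ), Rec B f → Bdd f k →
      ∃ K ∈ I, K.Infinite ∧ Rnb f K

/-- (32) SG4. Low₃ sets are `Σ⁰₄` (they are computable in the third jump of the empty set). -/
def S_SG4 : Prop :=
  ∀ A : Set ℕ, Le (Jmp (Jmp (Jmp A))) (Jmp (Jmp (Jmp ∅))) →
    Pool.Agent.Helper52K9.RR.IsSigmaFour A

/-- (33) BIT. There is a computable Rado graph (`x < y` adjacent iff bit `x` of `y` is one). -/
def S_BIT : Prop :=
  ∃ R : SimpleGraph ℕ, ComputablePred (fun p : ℕ × ℕ => R.Adj p.1 p.2) ∧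
    Pool.Agent.Helper52K9.RR.IsRado R Set.univ

/-- The rainbow Ramsey theorem for triples, `RRT³_k`, in the structure `N`: for every `k`-bounded
colouring `c` of the increasing triples, which exists in the structure, there is an unbounded set of
the structure on which `c` is injective. -/
def RRT3 (N : L2Structure.{0}) (k : ℕ) : Prop :=
  ∀ c : N.M → N.M → N.M → N.M,
    {r | ∃ x y z, N.lt x y ∧ N.lt y z ∧ r = N.pair x (N.pair y (N.pair z (c x y z)))} ∈ N.Sets →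
    (∀ a, {t : N.M × N.M × N.M | N.lt t.1 t.2.1 ∧ N.lt t.2.1 t.2.2 ∧
      c t.1 t.2.1 t.2.2 = a}.encard ≤ k) →
    ∃ X ∈ N.Sets, ¬ IsFin N X ∧ ∀ x ∈ X, ∀ y ∈ X, ∀ z ∈ X, ∀ x' ∈ X, ∀ y' ∈ X, ∀ z' ∈ X,
      N.lt x y → N.lt y z → N.lt x' y' → N.lt y' z' → c x y z = c x' y' z' →
      x = x' ∧ y = y' ∧ z = z'

/-- (34) RRO. An ideal as in `S_IDL` is an omega-model of `RRT³_k`. -/
def S_RRO : Prop :=
  ∀ I : Set (Set ℕ), Ideal I →
    (∀ B ∈ I, ∀ (f : ℕ → ℕ → ℕ → ℕ) (k : ℕ), Rec B f → Bdd f k →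
      ∃ K ∈ I, K.Infinite ∧ Rnb f K) → ∀ k, RRT3 (omegaModel I) k

/-- (35) COD. A computable function of increasing triples gives a colouring of the copies of a graph
with three vertices which exists in every omega-model: the set of all `pair p (c F)`, where `p` is
the (least) code of the copy `F = {x, y, z}`, `x < y < z`, and `c F = f (x, y, z)`, is
computable. -/
def S_COD : Prop :=
  ∀ I : Set (Set ℕ), Ideal I → ∀ R : SimpleGraph ℕ,
    ComputablePred (fun p : ℕ × ℕ => R.Adj p.1 p.2) → ∀ f : ℕ × ℕ × ℕ → ℕ, Computable f →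
    ∀ H : ℕ → ℕ → Prop, ∃ c : Set ℕ → ℕ,
      (∀ x y z, x < y → y < z → c {x, y, z} = f (x, y, z)) ∧
      IsColouring (omegaModel I) (fun x y => R.Adj x y) (3 : ℕ) H c

/-- (36) CPY. Copies in an omega-model are copies in the sense of the lower bound. -/
def S_CPY : Prop :=
  ∀ I : Set (Set ℕ), Ideal I → ∀ (R : SimpleGraph ℕ) (H : ℕ → ℕ → Prop),
    IsGraphOn (omegaModel I) {i | (omegaModel I).lt i (3 : ℕ)} H →
    ∃ G : SimpleGraph (Fin 3), ∀ F : Set ℕ,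
      IsCopy (omegaModel I) (fun x y => R.Adj x y) (3 : ℕ) H F ↔
        ∃ t, Pool.Agent.Helper52K9.RR.IsCopy R G t ∧ F = {t.1, t.2.1, t.2.2}

/-- (37) LWR. The lower bound in the omega-model. (From `S_SG4`, `S_COD`, `S_CPY` and
`Pool.Agent.Results.MP_af8b59_lc.NoSigmaFourRainbow.result`.) -/
def S_LWR : Prop :=
  ∀ I : Set (Set ℕ), Ideal I → (∀ A ∈ I, Le (Jmp (Jmp (Jmp A))) (Jmp (Jmp (Jmp ∅)))) →
    ∀ R : SimpleGraph ℕ, ComputablePred (fun p : ℕ × ℕ => R.Adj p.1 p.2) →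
    ∀ H : ℕ → ℕ → Prop, IsGraphOn (omegaModel I) {i | (omegaModel I).lt i (3 : ℕ)} H →
    ∀ k, 2 ≤ k → ¬ RRPFor (omegaModel I) (fun x y => R.Adj x y) (3 : ℕ) H k

end Pool.Agent.Helper1K9.LT
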