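import Pool.Agent.Helper1K9.LT.J3
import Pool.Agent.Helper1K9.LT.Jmp
import Pool.Agent.Helper1K9.LT.Stm3

/-!
# Relay LT: sets computable in the third jump of the empty set
-/

set_option autoImplicit false

namespace Pool.Agent.Helper1K9.LT

open Encodable Pool.Agent.Helper446 Pool.Agent.Helper446.Defs Pool.Agent.Helper446.RE
  Pool.Agent.Helper446.Oracle Pool.Agent.R623.Dec

open J3L

theorem Sg4L.re_empty {α : Type} [Primcodable α] {S : α → Prop} (h : REIn ∅ S) : REPred S := by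
  obtain ⟨R, hR, h1⟩ := h
  have h2 : REPred fun a => ∃ c : List ℕ × List ℕ, R a c ∧ c.1 = [] := by
    refine RE.ex (p := fun a (c : List ℕ × List ℕ) => R a c ∧ c.1 = []) ?_
    exact RE.and hR (RE.eq (by fun_prop) (by fun_prop))
  refine h2.of_eq fun a => ?_
  rw [h1]
  refine exists_congr fun c => and_congr_right fun _ => ?_
  unfold Ok
  constructor
  · intro h3
    rw [h3]
    exact ⟨fun x hx => by simp at hx, fun x _ hx => hx⟩
  · rintro ⟨h3, -⟩
    exact List.eq_nil_iff_forall_not_mem.2 h3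

theorem Sg4L.cp_empty {α : Type} [Primcodable α] {S : Set ℕ → α → Prop} (h : UD S) :
    ComputablePred (S ∅) :=
  ComputablePred.computable_iff_re_compl_re'.2
    ⟨Sg4L.re_empty (h.1.reIn ∅), Sg4L.re_empty (h.2.reIn ∅)⟩

/-- finite pieces of information and witnesses -/
abbrev Sg4L.Q : Type := (List ℕ × List ℕ) × P

open Sg4L

theorem Sg4L.four {α : Type} [Primcodable α] {S : Set ℕ → α → Prop} (hS : UR S) :
    ∃ Z : (((α × Q) × (P × Q)) × (P × Q)) × P → Prop, ComputablePred Z ∧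
      ∀ a, S (Jmp (Jmp (Jmp ∅))) a ↔ ∃ u, ∀ v, ∃ w, ∀ y, Z ((((a, u), v), w), y) := by
  obtain ⟨Z, hZ, h1⟩ := J3L.two hS
  obtain ⟨Z', hZ', h2⟩ := J3L.three hZ.2
  obtain ⟨W, hW, h3⟩ := hZ'.proj
  refine ⟨fun t => ¬ W ∅ (((((t.1.1.1.1, t.1.1.1.2), t.1.1.2.1), t.1.1.2.2), t.1.2), t.2), ?_,
    fun a => ?_⟩
  · have h4 : UD fun A (t : (((α × Q) × (P × Q)) × (P × Q)) × P) =>
        ¬ W A (((((t.1.1.1.1, t.1.1.1.2), t.1.1.2.1), t.1.1.2.2), t.1.2), t.2) :=
      (hW.comp (f := fun t : (((α × Q) × (P × Q)) × (P × Q)) × P =>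
        (((((t.1.1.1.1, t.1.1.1.2), t.1.1.2.1), t.1.1.2.2), t.1.2), t.2)) (by fun_prop)).not
    exact Sg4L.cp_empty h4
  · rw [h1]
    refine exists_congr fun u => ?_
    have h5 : ∀ y, Z (Jmp (Jmp ∅)) ((a, u), y) ↔
        ∀ u', ∃ y', ∀ x, ¬ W ∅ (((((a, u), y), u'), y'), x) := by
      intro y
      have h6 := h2 ∅ ((a, u), y)
      rw [← not_iff_not, h6]
      simp only [h3]
      push Not
      rfl
    constructor
    · intro h6 v
      exact (h5 v.1).1 (h6 v.1) v.2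
    · intro h6 y
      exact (h5 y).2 fun u' => h6 (y, u')

theorem sg4 (huni : S_UNI) : S_SG4 := by
  obtain ⟨-, -, j1, -, -, -, -⟩ := jmp huni
  intro A hA
  have h1 : Le A (Jmp (Jmp (Jmp ∅))) :=
    (j1 A).trans ((j1 _).trans ((j1 _).trans hA))
  obtain ⟨R, hR, h2⟩ := h1.1
  have h3 : UR fun (B : Set ℕ) (x : ℕ) => ∃ c, R x c ∧ Ok B c :=
    ⟨R, hR, fun _ _ => Iff.rfl⟩
  obtain ⟨Z, hZ, h4⟩ := Sg4L.four h3
  refine ⟨fun t => Z ((((t.1, Denumerable.ofNat Q t.2.1), Denumerable.ofNat (P × Q) t.2.2.1),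
    Denumerable.ofNat (P × Q) t.2.2.2.1), Denumerable.ofNat P t.2.2.2.2), ?_, fun x => ?_⟩
  · refine RE.cp_comp hZ (f := fun t : ℕ × ℕ × ℕ × ℕ × ℕ => ((((t.1, Denumerable.ofNat Q t.2.1),
      Denumerable.ofNat (P × Q) t.2.2.1), Denumerable.ofNat (P × Q) t.2.2.2.1),
      Denumerable.ofNat P t.2.2.2.2)) ?_
    refine Computable.pair (Computable.pair (Computable.pair (Computable.pair (by fun_prop) ?_)
      ?_) ?_) ?_
    · exact (Computable.ofNat Q).comp (by fun_prop)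
    · exact (Computable.ofNat (P × Q)).comp (by fun_prop)
    · exact (Computable.ofNat (P × Q)).comp (by fun_prop)
    · exact (Computable.ofNat P).comp (by fun_prop)
  · have h6 : x ∈ A ↔ ∃ u, ∀ v, ∃ w, ∀ y, Z ((((x, u), v), w), y) := (h2 x).trans (h4 x)
    rw [h6]
    constructor
    · rintro ⟨u, hu⟩
      refine ⟨encode u, fun b => ?_⟩
      obtain ⟨w, hw⟩ := hu (Denumerable.ofNat (P × Q) b)
      refine ⟨encode w, fun d => ?_⟩
      simp only [Denumerable.ofNat_encode]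
      exact hw _
    · rintro ⟨a, ha⟩
      refine ⟨Denumerable.ofNat Q a, fun v => ?_⟩
      obtain ⟨c, hc⟩ := ha (encode v)
      refine ⟨Denumerable.ofNat (P × Q) c, fun y => ?_⟩
      have h5 := hc (encode y)
      simp only [Denumerable.ofNat_encode] at h5
      exact h5

end Pool.Agent.Helper1K9.LT
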