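import Pool.Agent.Helper1K9.LT.Lb

/-!
# Relay LT, leaf SS: a coded Scott set which is low relative to `A`
-/

set_option autoImplicit false

namespace Pool.Agent.Helper1K9.LT

open Encodable Pool.Agent.Helper446 Pool.Agent.Helper446.Defs Pool.Agent.Helper446.RE
  Pool.Agent.Helper446.Oracle Pool.Agent.R623.Dec

namespace SsL

open LbL

variable {α ι : Type} [Primcodable α] [Primcodable ι]

/-- correct information is uniformly enumerable -/
theorem ok_ur : UR fun A (c : List ℕ × List ℕ) => Ok A c := by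
  refine UR.and ?_ ?_
  · exact UR.all_mem (S := fun A (_ : List ℕ × List ℕ) (x : ℕ) => x ∈ A) (l := fun c => c.1)
      (UR.mem (by fun_prop)) (by fun_prop)
  · exact UR.all_mem (S := fun A (_ : List ℕ × List ℕ) (x : ℕ) => x ∉ A) (l := fun c => c.2)
      (UR.not_mem (by fun_prop)) (by fun_prop)

/-- preimages of the parameter under computable functions -/
theorem UR.pre {S : Set ℕ → α → Prop} (h : UR S) {f : ι × ℕ → ℕ} (hf : Computable f) :
    UR fun Z (x : ι × α) => S {n | f (x.1, n) ∈ Z} x.2 := by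
  obtain ⟨R, hR, h1⟩ := h
  have h2 : UR fun Z (x : ι × α) => ∃ c : List ℕ × List ℕ, R x.2 c ∧
      (∀ y ∈ c.1, f (x.1, y) ∈ Z) ∧ ∀ y ∈ c.2, f (x.1, y) ∉ Z := by
    refine UR.ex (S := fun Z (x : ι × α) (c : List ℕ × List ℕ) => R x.2 c ∧
      (∀ y ∈ c.1, f (x.1, y) ∈ Z) ∧ ∀ y ∈ c.2, f (x.1, y) ∉ Z) ?_
    refine UR.and (UR.of_re ?_) (UR.and ?_ ?_)
    · exact RE.comp hR (f := fun x : (ι × α) × (List ℕ × List ℕ) => (x.1.2, x.2)) (by fun_prop)
    · refine UR.all_mem (S := fun Z (x : (ι × α) × (List ℕ × List ℕ)) (y : ℕ) =>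
        f (x.1.1, y) ∈ Z) (l := fun x => x.2.1) (UR.mem ?_) (by fun_prop)
      exact hf.comp (g := fun x : ((ι × α) × (List ℕ × List ℕ)) × ℕ => (x.1.1.1, x.2))
        (by fun_prop)
    · refine UR.all_mem (S := fun Z (x : (ι × α) × (List ℕ × List ℕ)) (y : ℕ) =>
        f (x.1.1, y) ∉ Z) (l := fun x => x.2.2) (UR.not_mem ?_) (by fun_prop)
      exact hf.comp (g := fun x : ((ι × α) × (List ℕ × List ℕ)) × ℕ => (x.1.1.1, x.2))
        (by fun_prop)
  refine h2.of_eq fun Z x => ?_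
  rw [h1]
  rfl

theorem UR.col {S : Set ℕ → α → Prop} (h : UR S) :
    UR fun N (x : ℕ × α) => S (col N x.1) x.2 :=
  UR.pre h (f := fun x : ℕ × ℕ => Nat.pair x.1 x.2) (by fun_prop)

/-- the type of the witnesses -/
abbrev W : Type := (List ℕ × List ℕ) × ℕ

/-- the membership shows by the stage `s` -/
def St (q : (ℕ × ℕ) × (List ℕ × List ℕ) → ℕ → Bool) (C : Set ℕ) (e n s : ℕ) : Prop :=
  ∃ m < s, ∃ w : W, decode (α := W) m = some w ∧ q ((e, n), w.1) w.2 = true ∧ Ok C w.1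

theorem st_mono {q : (ℕ × ℕ) × (List ℕ × List ℕ) → ℕ → Bool} {C : Set ℕ} {e n s t : ℕ}
    (h : s ≤ t) (h1 : St q C e n s) : St q C e n t := by
  obtain ⟨m, hm, h2⟩ := h1
  exact ⟨m, by omega, h2⟩

theorem st_U {q : (ℕ × ℕ) × (List ℕ × List ℕ) → ℕ → Bool}
    (hq : ∀ a, Hlt a.1.1 a.1.2 a.2 ↔ ∃ n, q a n = true) {C : Set ℕ} {e n : ℕ} :
    U C e n ↔ ∃ s, St q C e n s := by
  constructor
  · rintro ⟨c, h1, h2⟩
    obtain ⟨t, ht⟩ := (hq ((e, n), c)).1 h1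
    exact ⟨encode (c, t) + 1, encode (c, t), Nat.lt_succ_self _, (c, t), encodek _, ht, h2⟩
  · rintro ⟨s, m, -, w, -, h1, h2⟩
    exact ⟨w.1, (hq ((e, n), w.1)).2 ⟨_, h1⟩, h2⟩

section

variable {q : (ℕ × ℕ) × (List ℕ × List ℕ) → ℕ → Bool} (hq : Computable₂ q)
include hq

theorem st_ur : UR fun C (x : (ℕ × ℕ) × ℕ) => St q C x.1.1 x.1.2 x.2 := by
  refine UR.ex_lt (S := fun C (x : (ℕ × ℕ) × ℕ) m => ∃ w : W, decode (α := W) m = some w ∧
    q ((x.1.1, x.1.2), w.1) w.2 = true ∧ Ok C w.1) (f := fun x => x.2) ?_ (by fun_prop)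
  refine UR.ex (S := fun C (x : ((ℕ × ℕ) × ℕ) × ℕ) (w : W) => decode (α := W) x.2 = some w ∧
    q ((x.1.1.1, x.1.1.2), w.1) w.2 = true ∧ Ok C w.1) ?_
  refine UR.and (UR.of_re (RE.eq (by fun_prop) (by fun_prop))) (UR.and (UR.of_re ?_) ?_)
  · refine RE.eq (Computable.comp (f := fun z : ((ℕ × ℕ) × (List ℕ × List ℕ)) × ℕ => q z.1 z.2)
      (g := fun x : (((ℕ × ℕ) × ℕ) × ℕ) × W => (((x.1.1.1.1, x.1.1.1.2), x.2.1), x.2.2))
      hq (by fun_prop)) (by fun_prop)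
  · exact ok_ur.comp (f := fun x : (((ℕ × ℕ) × ℕ) × ℕ) × W => x.2.1) (by fun_prop)

theorem not_st_ur : UR fun C (x : (ℕ × ℕ) × ℕ) => ¬ St q C x.1.1 x.1.2 x.2 := by
  have h : UR fun C (x : (ℕ × ℕ) × ℕ) => ∀ m < x.2, decode (α := W) m = none ∨
      ∃ w : W, decode (α := W) m = some w ∧ (q ((x.1.1, x.1.2), w.1) w.2 = false ∨
        ((∃ y ∈ w.1.1, y ∉ C) ∨ ∃ y ∈ w.1.2, y ∈ C)) := by
    refine UR.all_lt (S := fun C (x : (ℕ × ℕ) × ℕ) m => decode (α := W) m = none ∨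
      ∃ w : W, decode (α := W) m = some w ∧ (q ((x.1.1, x.1.2), w.1) w.2 = false ∨
        ((∃ y ∈ w.1.1, y ∉ C) ∨ ∃ y ∈ w.1.2, y ∈ C))) ?_ (by fun_prop)
    refine UR.or (UR.of_re (RE.eq (by fun_prop) (by fun_prop))) ?_
    refine UR.ex (S := fun C (x : ((ℕ × ℕ) × ℕ) × ℕ) (w : W) => decode (α := W) x.2 = some w ∧
      (q ((x.1.1.1, x.1.1.2), w.1) w.2 = false ∨
        ((∃ y ∈ w.1.1, y ∉ C) ∨ ∃ y ∈ w.1.2, y ∈ C))) ?_
    refine UR.and (UR.of_re (RE.eq (by fun_prop) (by fun_prop)))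
      (UR.or (UR.of_re ?_) (UR.or ?_ ?_))
    · refine RE.eq (Computable.comp (f := fun z : ((ℕ × ℕ) × (List ℕ × List ℕ)) × ℕ => q z.1 z.2)
        (g := fun x : (((ℕ × ℕ) × ℕ) × ℕ) × W => (((x.1.1.1.1, x.1.1.1.2), x.2.1), x.2.2))
        hq (by fun_prop)) (by fun_prop)
    · exact UR.ex_mem (S := fun C (_ : (((ℕ × ℕ) × ℕ) × ℕ) × W) (y : ℕ) => y ∉ C)
        (l := fun x => x.2.1.1) (UR.not_mem (by fun_prop)) (by fun_prop)
    · exact UR.ex_mem (S := fun C (_ : (((ℕ × ℕ) × ℕ) × ℕ) × W) (y : ℕ) => y ∈ C)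
        (l := fun x => x.2.1.2) (UR.mem (by fun_prop)) (by fun_prop)
  refine h.of_eq fun C x => ?_
  constructor
  · rintro h1 ⟨m, hm, w, hw, h2, h3⟩
    rcases h1 m hm with h4 | ⟨w', h4, h5⟩
    · rw [hw] at h4
      cases h4
    · rw [hw] at h4
      cases h4
      rcases h5 with h5 | ⟨y, hy, h5⟩ | ⟨y, hy, h5⟩
      · rw [h2] at h5
        cases h5
      · exact h5 (h3.1 y hy)
      · exact h3.2 y hy h5
  · intro h1 m hm
    rcases hd : decode (α := W) m with _ | w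
    · exact Or.inl rfl
    · refine Or.inr ⟨w, rfl, ?_⟩
      by_contra hc
      push Not at hc
      refine h1 ⟨m, hm, w, hd, ?_, ?_⟩
      · have := hc.1
        revert this
        cases q ((x.1.1, x.1.2), w.1) w.2 <;> simp
      · exact ⟨hc.2.1, hc.2.2⟩

end

/-- the tree of the class number `e` relative to `C` -/
def Tn (q : (ℕ × ℕ) × (List ℕ × List ℕ) → ℕ → Bool) (C : Set ℕ) (e : ℕ) (σ : List Bool) : Prop :=
  ∀ x : List Bool × List Bool, x.1 ++ x.2 = σ → ¬ St q C e (encode x.1) σ.length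

theorem tn_mono {q : (ℕ × ℕ) × (List ℕ × List ℕ) → ℕ → Bool} {C : Set ℕ} {e : ℕ}
    {σ τ : List Bool} (h : σ <+: τ) (h1 : Tn q C e τ) : Tn q C e σ := by
  intro x hx hs
  obtain ⟨ρ, rfl⟩ := h
  refine h1 (x.1, x.2 ++ ρ) (by rw [← hx, List.append_assoc]) (st_mono ?_ hs)
  rw [List.length_append]
  omega

theorem tn_iff {q : (ℕ × ℕ) × (List ℕ × List ℕ) → ℕ → Bool}
    (hq : ∀ a, Hlt a.1.1 a.1.2 a.2 ↔ ∃ n, q a n = true) {C : Set ℕ} {e : ℕ} {X : Set ℕ} :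
    (∀ n, Tn q C e (sg X n)) ↔ ∀ n, ¬ U C e (encode (sg X n)) := by
  constructor
  · intro h n hn
    obtain ⟨s, hs⟩ := (st_U hq).1 hn
    obtain ⟨ρ, hρ⟩ := sg_prefix X (le_max_left n s)
    refine h (max n s) (sg X n, ρ) hρ ?_
    rw [sg_length]
    exact st_mono (le_max_right _ _) hs
  · intro h n x hx hs
    have h3 : x.1.length ≤ n := by
      have := congrArg List.length hx
      rw [List.length_append, sg_length] at this
      omega
    have h4 : x.1 = sg X x.1.length := by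
      rw [← sg_take X h3, ← hx, List.take_left]
    rw [h4] at hs
    exact h _ ((st_U hq).2 ⟨_, hs⟩)

section

variable {q : (ℕ × ℕ) × (List ℕ × List ℕ) → ℕ → Bool} (hq : Computable₂ q)
include hq

theorem tn_ur : UR fun C (x : ℕ × List Bool) => Tn q C x.1 x.2 := by
  have h : UR fun C (x : ℕ × List Bool) => ∀ j < x.2.length + 1, ∃ y : List Bool × List Bool,
      y.1 ++ y.2 = x.2 ∧ y.1.length = j ∧ ¬ St q C x.1 (encode y.1) x.2.length := by
    refine UR.all_lt (S := fun C (x : ℕ × List Bool) j => ∃ y : List Bool × List Bool,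
      y.1 ++ y.2 = x.2 ∧ y.1.length = j ∧ ¬ St q C x.1 (encode y.1) x.2.length) ?_ (by fun_prop)
    refine UR.ex (S := fun C (z : (ℕ × List Bool) × ℕ) (y : List Bool × List Bool) =>
      y.1 ++ y.2 = z.1.2 ∧ y.1.length = z.2 ∧ ¬ St q C z.1.1 (encode y.1) z.1.2.length) ?_
    refine UR.and (UR.of_re (RE.eq (by fun_prop) (by fun_prop)))
      (UR.and (UR.of_re (RE.eq (by fun_prop) (by fun_prop))) ?_)
    exact (not_st_ur hq).comp (f := fun z : ((ℕ × List Bool) × ℕ) × (List Bool × List Bool) =>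
      ((z.1.1.1, encode z.2.1), z.1.1.2.length)) (by fun_prop)
  refine h.of_eq fun C x => ?_
  constructor
  · intro h1 y hy
    obtain ⟨z, h2, h3, h4⟩ := h1 y.1.length (by
      rw [← hy, List.length_append]
      omega)
    have h5 : z.1 = y.1 := by
      have h6 := congrArg (List.take y.1.length) (h2.trans hy.symm)
      rw [List.take_left, ← h3, List.take_left] at h6
      exact h6
    rw [h5] at h4
    exact h4
  · intro h1 j hj
    refine ⟨(x.2.take j, x.2.drop j), List.take_append_drop _ _, ?_, ?_⟩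
    · rw [List.length_take]
      omega
    · exact h1 (x.2.take j, x.2.drop j) (List.take_append_drop _ _)

theorem not_tn_ur : UR fun C (x : ℕ × List Bool) => ¬ Tn q C x.1 x.2 := by
  have h : UR fun C (x : ℕ × List Bool) => ∃ y : List Bool × List Bool,
      y.1 ++ y.2 = x.2 ∧ St q C x.1 (encode y.1) x.2.length := by
    refine UR.ex (S := fun C (z : ℕ × List Bool) (y : List Bool × List Bool) =>
      y.1 ++ y.2 = z.2 ∧ St q C z.1 (encode y.1) z.2.length) ?_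
    refine UR.and (UR.of_re (RE.eq (by fun_prop) (by fun_prop))) ?_
    exact (st_ur hq).comp (f := fun z : (ℕ × List Bool) × (List Bool × List Bool) =>
      ((z.1.1, encode z.2.1), z.1.2.length)) (by fun_prop)
  refine h.of_eq fun C x => ?_
  unfold Tn
  push Not
  rfl

end

/-- `τ` is an initial segment of `X` -/
def IsSg (X : Set ℕ) (τ : List Bool) : Prop :=
  ∀ i < τ.length, (τ[i]? = some true ∧ i ∈ X) ∨ (τ[i]? = some false ∧ i ∉ X)

theorem isSg_iff {X : Set ℕ} {τ : List Bool} : IsSg X τ ↔ τ = sg X τ.length := by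
  constructor
  · intro h
    refine List.ext_getElem? fun i => ?_
    by_cases hi : i < τ.length
    · rcases h i hi with ⟨h1, h2⟩ | ⟨h1, h2⟩
      · rw [h1, sg_true.2 ⟨hi, h2⟩]
      · rw [h1, sg_false.2 ⟨hi, h2⟩]
    · rw [List.getElem?_eq_none (not_lt.1 hi), sg_get_none (not_lt.1 hi)]
  · intro h i hi
    by_cases hX : i ∈ X
    · refine Or.inl ⟨?_, hX⟩
      rw [h]
      exact sg_true.2 ⟨hi, hX⟩
    · refine Or.inr ⟨?_, hX⟩
      rw [h]
      exact sg_false.2 ⟨hi, hX⟩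

theorem isSg_ur : UR fun X (τ : List Bool) => IsSg X τ := by
  refine UR.all_lt (S := fun X (τ : List Bool) i =>
    (τ[i]? = some true ∧ i ∈ X) ∨ (τ[i]? = some false ∧ i ∉ X)) ?_ (by fun_prop)
  refine UR.or (UR.and (UR.of_re (RE.eq (by fun_prop) (by fun_prop))) (UR.mem (by fun_prop)))
    (UR.and (UR.of_re (RE.eq (by fun_prop) (by fun_prop))) (UR.not_mem (by fun_prop)))

/-- a member of the class, or as far as possible -/
theorem choose_mem {T : List Bool → Prop} (hT : ∀ σ τ, σ <+: τ → T τ → T σ) :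
    ∃ X : Set ℕ, ∀ n, (∃ σ : List Bool, σ.length = n ∧ T σ) → T (sg X n) := by
  classical
  by_cases h : ∀ n, ∃ σ : List Bool, σ.length = n ∧ T σ
  · obtain ⟨X, hX⟩ := konig (B := fun σ => ¬ T σ) (fun σ τ h1 h2 h3 => h2 (hT σ τ h1 h3))
      (fun n => by
        obtain ⟨σ, h1, h2⟩ := h n
        exact ⟨σ, h1, not_not.2 h2⟩)
    exact ⟨X, fun n _ => not_not.1 (hX n)⟩
  · push Not at h
    have hlt : ∀ n, (∃ σ : List Bool, σ.length = n ∧ T σ) → n < Nat.find h := by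
      rintro n ⟨σ, h1, h2⟩
      by_contra hc
      refine Nat.find_spec h (σ.take (Nat.find h)) ?_ (hT _ _ (List.take_prefix _ _) h2)
      rw [List.length_take]
      omega
    rcases Nat.eq_zero_or_pos (Nat.find h) with h0 | h0
    · refine ⟨∅, fun n hn => ?_⟩
      have := hlt n hn
      omega
    · have h1 := Nat.find_min h (m := Nat.find h - 1) (by omega)
      push Not at h1
      obtain ⟨σ, h2, h3⟩ := h1
      have h4 : σ = sg {i | σ[i]? = some true} σ.length := by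
        rw [← isSg_iff]
        intro i hi
        rw [List.getElem?_eq_getElem hi]
        cases hb : σ[i]
        · refine Or.inr ⟨rfl, ?_⟩
          show ¬ σ[i]? = some true
          rw [List.getElem?_eq_getElem hi, hb]
          simp
        · refine Or.inl ⟨rfl, ?_⟩
          show σ[i]? = some true
          rw [List.getElem?_eq_getElem hi, hb]
      refine ⟨{i | σ[i]? = some true}, fun n hn => ?_⟩
      have h5 := hlt n hn
      refine hT _ σ ?_ h3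
      conv_rhs => rw [h4]
      exact sg_prefix _ (by omega)

/-- the columns -/
noncomputable def cs (g : Set ℕ → ℕ → Set ℕ) (A : Set ℕ) : ℕ → Set ℕ
  | 0 => A
  | m + 1 =>
    have : (m / 2).unpair.1 < m + 1 :=
      lt_of_le_of_lt (Nat.unpair_left_le _) (by omega)
    have : (m / 2).unpair.2 < m + 1 :=
      lt_of_le_of_lt (Nat.unpair_right_le _) (by omega)
    if m % 2 = 0 then Jn (cs g A (m / 2).unpair.1) (cs g A (m / 2).unpair.2)
    else g (cs g A (m / 2).unpair.1) (m / 2).unpair.2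

theorem cs_zero (g : Set ℕ → ℕ → Set ℕ) (A : Set ℕ) : cs g A 0 = A := by
  rw [cs]

theorem cs_odd (g : Set ℕ → ℕ → Set ℕ) (A : Set ℕ) (k : ℕ) :
    cs g A (2 * k + 1) = Jn (cs g A k.unpair.1) (cs g A k.unpair.2) := by
  rw [cs, if_pos (by omega), show 2 * k / 2 = k by omega]

theorem cs_even (g : Set ℕ → ℕ → Set ℕ) (A : Set ℕ) (k : ℕ) :
    cs g A (2 * k + 2) = g (cs g A k.unpair.1) k.unpair.2 := by
  rw [cs, if_neg (by omega), show (2 * k + 1) / 2 = k by omega]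

/-- the violations of the conditions for `N` -/
def V (q : (ℕ × ℕ) × (List ℕ × List ℕ) → ℕ → Bool) (N A : Set ℕ) : Prop :=
  (∃ x : ℕ, (Nat.pair 0 x ∈ N ∧ x ∉ A) ∨ (Nat.pair 0 x ∉ N ∧ x ∈ A)) ∨
  (∃ k x : ℕ,
    (Nat.pair (2 * k + 1) x ∈ N ∧ ((x % 2 = 0 ∧ Nat.pair k.unpair.1 (x / 2) ∉ N) ∨
      (x % 2 = 1 ∧ Nat.pair k.unpair.2 (x / 2) ∉ N))) ∨
    (Nat.pair (2 * k + 1) x ∉ N ∧ ((x % 2 = 0 ∧ Nat.pair k.unpair.1 (x / 2) ∈ N) ∨
      (x % 2 = 1 ∧ Nat.pair k.unpair.2 (x / 2) ∈ N)))) ∨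
  (∃ (k : ℕ) (σ τ : List Bool), σ.length = τ.length ∧ Tn q (col N k.unpair.1) k.unpair.2 σ ∧
    IsSg (col N (2 * k + 2)) τ ∧ ¬ Tn q (col N k.unpair.1) k.unpair.2 τ)

theorem v_ur {q : (ℕ × ℕ) × (List ℕ × List ℕ) → ℕ → Bool} (hq : Computable₂ q) :
    UR fun Z (_ : Unit) => V q {n | 2 * n ∈ Z} {n | 2 * n + 1 ∈ Z} := by
  have hc2 : ∀ {γ : Type} [Primcodable γ] {f : γ → ℕ}, Computable f →
      Computable fun a => 2 * f a := by
    intro γ _ f hf
    fun_prop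
  refine UR.or ?_ (UR.or ?_ ?_)
  · refine UR.ex (S := fun Z (_ : Unit) (x : ℕ) =>
      (2 * Nat.pair 0 x ∈ Z ∧ 2 * x + 1 ∉ Z) ∨ (2 * Nat.pair 0 x ∉ Z ∧ 2 * x + 1 ∈ Z)) ?_
    exact UR.or (UR.and (UR.mem (by fun_prop)) (UR.not_mem (by fun_prop)))
      (UR.and (UR.not_mem (by fun_prop)) (UR.mem (by fun_prop)))
  · refine UR.ex (S := fun Z (_ : Unit) (k : ℕ) => ∃ x : ℕ,
      (2 * Nat.pair (2 * k + 1) x ∈ Z ∧ ((x % 2 = 0 ∧ 2 * Nat.pair k.unpair.1 (x / 2) ∉ Z) ∨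
        (x % 2 = 1 ∧ 2 * Nat.pair k.unpair.2 (x / 2) ∉ Z))) ∨
      (2 * Nat.pair (2 * k + 1) x ∉ Z ∧ ((x % 2 = 0 ∧ 2 * Nat.pair k.unpair.1 (x / 2) ∈ Z) ∨
        (x % 2 = 1 ∧ 2 * Nat.pair k.unpair.2 (x / 2) ∈ Z)))) ?_
    refine UR.ex (S := fun Z (y : Unit × ℕ) (x : ℕ) =>
      (2 * Nat.pair (2 * y.2 + 1) x ∈ Z ∧ ((x % 2 = 0 ∧ 2 * Nat.pair y.2.unpair.1 (x / 2) ∉ Z) ∨
        (x % 2 = 1 ∧ 2 * Nat.pair y.2.unpair.2 (x / 2) ∉ Z))) ∨
      (2 * Nat.pair (2 * y.2 + 1) x ∉ Z ∧ ((x % 2 = 0 ∧ 2 * Nat.pair y.2.unpair.1 (x / 2) ∈ Z) ∨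
        (x % 2 = 1 ∧ 2 * Nat.pair y.2.unpair.2 (x / 2) ∈ Z)))) ?_
    have h0 : ∀ r : ℕ, UR fun (_ : Set ℕ) (y : (Unit × ℕ) × ℕ) => y.2 % 2 = r := fun r =>
      UR.of_re (RE.eq (cmod2 (by fun_prop)) (by fun_prop))
    have h1 : Computable fun y : (Unit × ℕ) × ℕ => 2 * Nat.pair y.1.2.unpair.1 (y.2 / 2) :=
      hc2 (cnatpair (by fun_prop) (cdiv2 (by fun_prop)))
    have h2 : Computable fun y : (Unit × ℕ) × ℕ => 2 * Nat.pair y.1.2.unpair.2 (y.2 / 2) :=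
      hc2 (cnatpair (by fun_prop) (cdiv2 (by fun_prop)))
    exact UR.or
      (UR.and (UR.mem (by fun_prop)) (UR.or (UR.and (h0 0) (UR.not_mem h1))
        (UR.and (h0 1) (UR.not_mem h2))))
      (UR.and (UR.not_mem (by fun_prop)) (UR.or (UR.and (h0 0) (UR.mem h1))
        (UR.and (h0 1) (UR.mem h2))))
  · have h3 : UR fun N (_ : Unit) => ∃ (k : ℕ) (σ τ : List Bool), σ.length = τ.length ∧
        Tn q (col N k.unpair.1) k.unpair.2 σ ∧ IsSg (col N (2 * k + 2)) τ ∧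
        ¬ Tn q (col N k.unpair.1) k.unpair.2 τ := by
      refine UR.ex (S := fun N (_ : Unit) (k : ℕ) => ∃ (σ τ : List Bool), σ.length = τ.length ∧
        Tn q (col N k.unpair.1) k.unpair.2 σ ∧ IsSg (col N (2 * k + 2)) τ ∧
        ¬ Tn q (col N k.unpair.1) k.unpair.2 τ) ?_
      refine UR.ex (S := fun N (y : Unit × ℕ) (σ : List Bool) => ∃ (τ : List Bool),
        σ.length = τ.length ∧
        Tn q (col N y.2.unpair.1) y.2.unpair.2 σ ∧ IsSg (col N (2 * y.2 + 2)) τ ∧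
        ¬ Tn q (col N y.2.unpair.1) y.2.unpair.2 τ) ?_
      refine UR.ex (S := fun N (y : (Unit × ℕ) × List Bool) (τ : List Bool) =>
        y.2.length = τ.length ∧
        Tn q (col N y.1.2.unpair.1) y.1.2.unpair.2 y.2 ∧ IsSg (col N (2 * y.1.2 + 2)) τ ∧
        ¬ Tn q (col N y.1.2.unpair.1) y.1.2.unpair.2 τ) ?_
      refine UR.and (UR.of_re (RE.eq (by fun_prop) (by fun_prop)))
        (UR.and ?_ (UR.and ?_ ?_))
      · exact (UR.col (tn_ur hq)).comp (f := fun y : ((Unit × ℕ) × List Bool) × List Bool =>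
          (y.1.1.2.unpair.1, (y.1.1.2.unpair.2, y.1.2))) (by fun_prop)
      · exact (UR.col isSg_ur).comp (f := fun y : ((Unit × ℕ) × List Bool) × List Bool =>
          (2 * y.1.1.2 + 2, y.2)) (by fun_prop)
      · exact (UR.col (not_tn_ur hq)).comp (f := fun y : ((Unit × ℕ) × List Bool) × List Bool =>
          (y.1.1.2.unpair.1, (y.1.1.2.unpair.2, y.2))) (by fun_prop)
    exact (UR.pre (ι := Unit) h3 (f := fun x : Unit × ℕ => 2 * x.2) (by fun_prop)).comp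
      (f := fun u : Unit => (u, u)) (by fun_prop)

theorem jn_left (X A : Set ℕ) : {n | 2 * n ∈ Jn X A} = X := by
  ext n
  show (2 * n % 2 = 0 ∧ 2 * n / 2 ∈ X) ∨ (2 * n % 2 = 1 ∧ 2 * n / 2 ∈ A) ↔ n ∈ X
  rw [show 2 * n / 2 = n by omega, show 2 * n % 2 = 0 by omega]
  simp

theorem jn_right (X A : Set ℕ) : {n | 2 * n + 1 ∈ Jn X A} = A := by
  ext n
  show ((2 * n + 1) % 2 = 0 ∧ (2 * n + 1) / 2 ∈ X) ∨ ((2 * n + 1) % 2 = 1 ∧ (2 * n + 1) / 2 ∈ A) ↔
    n ∈ A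
  rw [show (2 * n + 1) / 2 = n by omega, show (2 * n + 1) % 2 = 1 by omega]
  simp

end SsL

open LbL SsL

theorem ss (hU : S_UNI) (hJ : S_JMP) (hL : S_LB) : S_SS := by
  intro A
  obtain ⟨q, hq, hqe⟩ := RE.re_iff.1 hlt_re
  have hqe' : ∀ a : (ℕ × ℕ) × (List ℕ × List ℕ), Hlt a.1.1 a.1.2 a.2 ↔ ∃ n, q a n = true := hqe
  obtain ⟨F, hF, hFm, hFi⟩ := UR.forced (v_ur hq) A
  have hFi' : ∀ X, V q X A ↔ ∃ n, F () (sg X n) := by
    intro X
    have := hFi X ()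
    rw [jn_left, jn_right] at this
    exact this
  -- the class is not empty
  have hch : ∀ (C : Set ℕ) (e : ℕ), ∃ X : Set ℕ, ∀ n,
      (∃ σ : List Bool, σ.length = n ∧ Tn q C e σ) → Tn q C e (sg X n) := fun C e =>
    choose_mem fun σ τ h h1 => tn_mono h h1
  choose g hg using hch
  have hne : ∃ N : Set ℕ, ∀ n, ¬ F () (sg N n) := by
    refine ⟨{x | x.unpair.2 ∈ cs g A x.unpair.1}, ?_⟩
    by_contra hc
    push Not at hc
    have hV := (hFi' _).2 hc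
    have hcol : ∀ i, col {x | x.unpair.2 ∈ cs g A x.unpair.1} i = cs g A i := by
      intro i
      ext n
      show (Nat.pair i n).unpair.2 ∈ cs g A (Nat.pair i n).unpair.1 ↔ _
      rw [Nat.unpair_pair]
    have hm : ∀ i x, Nat.pair i x ∈ {x : ℕ | x.unpair.2 ∈ cs g A x.unpair.1} ↔ x ∈ cs g A i := by
      intro i x
      rw [← hcol i]
      rfl
    unfold V at hV
    simp only [hm, hcol, cs_zero, cs_odd, cs_even] at hV
    rcases hV with ⟨x, h | h⟩ | ⟨k, x, h | h⟩ | ⟨k, σ, τ, h1, h2, h3, h4⟩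
    · exact h.2 h.1
    · exact h.1 h.2
    · exact (jn_not.2 h.2) h.1
    · exact h.1 h.2
    · rw [isSg_iff.1 h3] at h4
      exact h4 (hg _ _ _ ⟨σ, h1, h2⟩)
  obtain ⟨N, hN, hlow⟩ := hL A (F ()) (hF.comp (f := fun σ : List Bool => ((), σ)) (by fun_prop))
    hne
  have hV : ¬ V q N A := by
    intro h
    obtain ⟨n, hn⟩ := (hFi' N).1 h
    exact hN n hn
  unfold V at hV
  push Not at hV
  obtain ⟨hV1, hV2, hV3⟩ := hV
  refine ⟨N, ⟨?_, ?_⟩, ⟨0, ?_⟩, ?_⟩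
  · intro i j
    refine ⟨2 * Nat.pair i j + 1, ?_⟩
    ext x
    have h := hV2 (Nat.pair i j) x
    rw [Nat.unpair_pair] at h
    simp only at h
    show (x % 2 = 0 ∧ Nat.pair i (x / 2) ∈ N) ∨ (x % 2 = 1 ∧ Nat.pair j (x / 2) ∈ N) ↔
      Nat.pair (2 * Nat.pair i j + 1) x ∈ N
    obtain ⟨h1, h2⟩ := h
    constructor
    · intro h3
      by_contra h4
      have h5 := h2 h4
      rcases h3 with h3 | h3
      · exact h5.1 h3.1 h3.2
      · exact h5.2 h3.1 h3.2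
    · intro h3
      have h5 := h1 h3
      rcases Nat.mod_two_eq_zero_or_one x with h6 | h6
      · exact Or.inl ⟨h6, h5.1 h6⟩
      · exact Or.inr ⟨h6, h5.2 h6⟩
  · intro i Bad hBad hex
    obtain ⟨e, he⟩ := hU.2.2 (col N i) (List Bool) Bad hBad
    refine ⟨2 * Nat.pair i e + 2, ?_⟩
    obtain ⟨X, hX⟩ := hex
    have h1 : ∀ n, Tn q (col N i) e (sg X n) := by
      rw [tn_iff hqe']
      intro n hn
      exact hX n ((he _).2 hn)
    have h2 : ∀ n, Tn q (col N i) e (sg (col N (2 * Nat.pair i e + 2)) n) := by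
      intro n
      have h3 := hV3 (Nat.pair i e) (sg X n) (sg (col N (2 * Nat.pair i e + 2)) n)
        (by rw [sg_length, sg_length])
      rw [Nat.unpair_pair] at h3
      refine h3 (h1 n) ?_
      rw [isSg_iff, sg_length]
    rw [tn_iff hqe'] at h2
    intro n hn
    exact h2 n ((he _).1 hn)
  · ext x
    show Nat.pair 0 x ∈ N ↔ x ∈ A
    have h := hV1 x
    constructor
    · exact h.1
    · intro h1
      by_contra h2
      exact h.2 h2 h1
  · exact Le.trans (hJ.2.2.2.1 _ _ (hJ.2.2.2.2.1 N A).1) hlow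

end Pool.Agent.Helper1K9.LT
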