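import Pool.Agent.Helper1K9.LT.Stm3

/-!
# Relay LT: (29) THN, the greedy thinning
-/

set_option autoImplicit false

namespace Pool.Agent.Helper1K9.LT

open Encodable Pool.Agent.Helper446 Pool.Agent.Helper446.Defs Pool.Agent.Helper446.RE
  Pool.Agent.Helper446.Oracle Pool.Agent.R623.Dec Pool.Agent.R623.Om Pool.Agent.Helper617.RM

namespace ThnL

/-- Iteration: the graph of the iterates is enumerable when the graph of the step is. -/
theorem iter_graph {β : Type} [Primcodable β] {A : Set ℕ} (g : ℕ → β → β) (b0 : β)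
    (hg : REIn A fun p : (ℕ × β) × β => g p.1.1 p.1.2 = p.2) :
    REIn A fun p : ℕ × β => (Nat.rec (motive := fun _ => β) b0 g p.1 : β) = p.2 := by
  have h1 : REIn A fun p : ℕ × β => ∃ l : List β, l[0]? = some b0 ∧
      (∀ y < p.1, ∃ u : β × β, l[y]? = some u.1 ∧ l[y + 1]? = some u.2 ∧ g y u.1 = u.2) ∧
      l[p.1]? = some p.2 := by
    refine REIn.ex (S := fun (p : ℕ × β) (l : List β) => l[0]? = some b0 ∧
      (∀ y < p.1, ∃ u : β × β, l[y]? = some u.1 ∧ l[y + 1]? = some u.2 ∧ g y u.1 = u.2) ∧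
      l[p.1]? = some p.2) ?_
    refine REIn.and (REIn.of_re (RE.eq (by fun_prop) (by fun_prop)))
      (REIn.and ?_ (REIn.of_re (RE.eq (by fun_prop) (by fun_prop))))
    refine REIn.all_lt (S := fun (z : (ℕ × β) × List β) (y : ℕ) =>
      ∃ u : β × β, z.2[y]? = some u.1 ∧ z.2[y + 1]? = some u.2 ∧ g y u.1 = u.2) ?_ (by fun_prop)
    refine REIn.ex (S := fun (z : ((ℕ × β) × List β) × ℕ) (u : β × β) =>
      z.1.2[z.2]? = some u.1 ∧ z.1.2[z.2 + 1]? = some u.2 ∧ g z.2 u.1 = u.2) ?_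
    refine REIn.and (REIn.of_re (RE.eq (by fun_prop) (by fun_prop)))
      (REIn.and (REIn.of_re (RE.eq (by fun_prop) (by fun_prop))) ?_)
    exact hg.comp (f := fun z : (((ℕ × β) × List β) × ℕ) × (β × β) => ((z.1.2, z.2.1), z.2.2))
      (by fun_prop)
  refine h1.of_eq fun p => ?_
  obtain ⟨n, b⟩ := p
  simp only
  constructor
  · rintro ⟨l, h0, hs, hn⟩
    have key : ∀ m, m ≤ n → l[m]? = some (Nat.rec (motive := fun _ => β) b0 g m : β) := by
      intro m
      induction m with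
      | zero => intro _; exact h0
      | succ m ih =>
        intro hm
        obtain ⟨u, hu1, hu2, hu3⟩ := hs m (by omega)
        have h2 := ih (by omega)
        rw [h2] at hu1
        rw [hu2, ← hu3]
        have : u.1 = (Nat.rec (motive := fun _ => β) b0 g m : β) := (Option.some.inj hu1).symm
        rw [this]
    have := key n le_rfl
    rw [this] at hn
    exact Option.some.inj hn
  · intro hb
    refine ⟨(List.range (n + 1)).map fun m => (Nat.rec (motive := fun _ => β) b0 g m : β),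
      ?_, ?_, ?_⟩
    · simp
    · intro y hy
      refine ⟨(Nat.rec (motive := fun _ => β) b0 g y, Nat.rec (motive := fun _ => β) b0 g (y + 1)),
        ?_, ?_, rfl⟩
      · rw [List.getElem?_map, List.getElem?_range (by omega)]
        rfl
      · rw [List.getElem?_map, List.getElem?_range (by omega)]
        rfl
    · rw [List.getElem?_map, List.getElem?_range (by omega), ← hb]
      rfl

/-- a finite set given by a list is a rainbow -/
def RL (f : ℕ → ℕ → ℕ → ℕ) (l : List ℕ) : Prop := Rnb f {x | x ∈ l}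

theorem RL_dec {A : Set ℕ} {f : ℕ → ℕ → ℕ → ℕ}
    (h : REIn A fun x : (ℕ × ℕ × ℕ) × ℕ => f x.1.1 x.1.2.1 x.1.2.2 = x.2) :
    DecIn A fun l : List ℕ => RL f l := by
  unfold RL Rnb
  refine DecIn.all_mem (S := fun (l : List ℕ) (x : ℕ) => ∀ y ∈ l, ∀ z ∈ l, ∀ x' ∈ l, ∀ y' ∈ l,
    ∀ z' ∈ l, x < y → y < z → x' < y' → y' < z' → f x y z = f x' y' z' →
    x = x' ∧ y = y' ∧ z = z') ?_ (by fun_prop)
  refine DecIn.all_mem (S := fun (a : List ℕ × ℕ) (y : ℕ) => ∀ z ∈ a.1, ∀ x' ∈ a.1, ∀ y' ∈ a.1,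
    ∀ z' ∈ a.1, a.2 < y → y < z → x' < y' → y' < z' → f a.2 y z = f x' y' z' →
    a.2 = x' ∧ y = y' ∧ z = z') ?_ (by fun_prop)
  refine DecIn.all_mem (S := fun (a : (List ℕ × ℕ) × ℕ) (z : ℕ) => ∀ x' ∈ a.1.1, ∀ y' ∈ a.1.1,
    ∀ z' ∈ a.1.1, a.1.2 < a.2 → a.2 < z → x' < y' → y' < z' → f a.1.2 a.2 z = f x' y' z' →
    a.1.2 = x' ∧ a.2 = y' ∧ z = z') ?_ (by fun_prop)
  refine DecIn.all_mem (S := fun (a : ((List ℕ × ℕ) × ℕ) × ℕ) (x' : ℕ) => ∀ y' ∈ a.1.1.1,
    ∀ z' ∈ a.1.1.1, a.1.1.2 < a.1.2 → a.1.2 < a.2 → x' < y' → y' < z' →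
    f a.1.1.2 a.1.2 a.2 = f x' y' z' → a.1.1.2 = x' ∧ a.1.2 = y' ∧ a.2 = z') ?_ (by fun_prop)
  refine DecIn.all_mem (S := fun (a : (((List ℕ × ℕ) × ℕ) × ℕ) × ℕ) (y' : ℕ) =>
    ∀ z' ∈ a.1.1.1.1, a.1.1.1.2 < a.1.1.2 → a.1.1.2 < a.1.2 → a.2 < y' → y' < z' →
    f a.1.1.1.2 a.1.1.2 a.1.2 = f a.2 y' z' →
    a.1.1.1.2 = a.2 ∧ a.1.1.2 = y' ∧ a.1.2 = z') ?_ (by fun_prop)
  refine DecIn.all_mem (S := fun (a : ((((List ℕ × ℕ) × ℕ) × ℕ) × ℕ) × ℕ) (z' : ℕ) =>
    a.1.1.1.1.2 < a.1.1.1.2 → a.1.1.1.2 < a.1.1.2 → a.1.2 < a.2 → a.2 < z' →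
    f a.1.1.1.1.2 a.1.1.1.2 a.1.1.2 = f a.1.2 a.2 z' →
    a.1.1.1.1.2 = a.1.2 ∧ a.1.1.1.2 = a.2 ∧ a.1.1.2 = z') ?_ (by fun_prop)
  refine DecIn.imp (DecIn.lt (by fun_prop) (by fun_prop)) ?_
  refine DecIn.imp (DecIn.lt (by fun_prop) (by fun_prop)) ?_
  refine DecIn.imp (DecIn.lt (by fun_prop) (by fun_prop)) ?_
  refine DecIn.imp (DecIn.lt (by fun_prop) (by fun_prop)) ?_
  refine DecIn.imp ?_ (DecIn.and (DecIn.eq (by fun_prop) (by fun_prop))
    (DecIn.and (DecIn.eq (by fun_prop) (by fun_prop)) (DecIn.eq (by fun_prop) (by fun_prop))))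
  exact dec_eq_val (A := A) (f := fun t : ℕ × ℕ × ℕ => f t.1 t.2.1 t.2.2) h
    (g := fun a : (((((List ℕ × ℕ) × ℕ) × ℕ) × ℕ) × ℕ) × ℕ =>
      (a.1.1.1.1.1.2, a.1.1.1.1.2, a.1.1.1.2))
    (k := fun a : (((((List ℕ × ℕ) × ℕ) × ℕ) × ℕ) × ℕ) × ℕ => (a.1.1.2, a.1.2, a.2))
    (by fun_prop) (by fun_prop)

open Classical in
/-- one step of the greedy algorithm -/
noncomputable def step (f : ℕ → ℕ → ℕ → ℕ) (G : Set ℕ) (n : ℕ) (l : List ℕ) : List ℕ :=
  if n ∈ G ∧ RL f (l ++ [n]) then l ++ [n] else l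

/-- the accepted numbers below `n` -/
noncomputable def acc (f : ℕ → ℕ → ℕ → ℕ) (G : Set ℕ) (n : ℕ) : List ℕ :=
  Nat.rec (motive := fun _ => List ℕ) [] (step f G) n

variable {f : ℕ → ℕ → ℕ → ℕ} {G : Set ℕ}

theorem acc_zero : acc f G 0 = [] := rfl

theorem acc_succ (n : ℕ) : acc f G (n + 1) = step f G n (acc f G n) := rfl

theorem acc_sub (n : ℕ) : ∀ x ∈ acc f G n, x ∈ acc f G (n + 1) := by
  intro x hx
  rw [acc_succ, step]
  split_ifs
  · exact List.mem_append_left _ hx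
  · exact hx

theorem acc_mono {m n : ℕ} (h : m ≤ n) : ∀ x ∈ acc f G m, x ∈ acc f G n := by
  induction h with
  | refl => exact fun x hx => hx
  | step _ ih => exact fun x hx => acc_sub _ x (ih x hx)

theorem acc_lt (n : ℕ) : ∀ x ∈ acc f G n, x < n ∧ x ∈ G := by
  induction n with
  | zero => intro x hx; rw [acc_zero] at hx; simp at hx
  | succ n ih =>
    intro x hx
    rw [acc_succ, step] at hx
    split_ifs at hx with h
    · rw [List.mem_append, List.mem_singleton] at hx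
      rcases hx with hx | rfl
      · exact ⟨(ih x hx).1.trans (Nat.lt_succ_self n), (ih x hx).2⟩
      · exact ⟨Nat.lt_succ_self _, h.1⟩
    · exact ⟨(ih x hx).1.trans (Nat.lt_succ_self n), (ih x hx).2⟩

theorem acc_back {m n : ℕ} (h : m ≤ n) : ∀ x ∈ acc f G n, x < m → x ∈ acc f G m := by
  induction h with
  | refl => exact fun x hx _ => hx
  | @step n hmn ih =>
    intro x hx hxm
    apply ih x _ hxm
    rw [acc_succ, step] at hx
    split_ifs at hx with h
    · rw [List.mem_append, List.mem_singleton] at hx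
      rcases hx with hx | rfl
      · exact hx
      · exact absurd hxm (not_lt.2 hmn)
    · exact hx

theorem acc_rl (n : ℕ) : RL f (acc f G n) := by
  induction n with
  | zero =>
    intro x hx
    rw [acc_zero] at hx
    simp at hx
  | succ n ih =>
    rw [acc_succ, step]
    split_ifs with h
    · exact h.2
    · exact ih

/-- the set of the accepted numbers -/
def KK (f : ℕ → ℕ → ℕ → ℕ) (G : Set ℕ) : Set ℕ := {x | ∃ n, x ∈ acc f G n}

theorem mem_KK (x : ℕ) : x ∈ KK f G ↔ x ∈ acc f G (x + 1) := by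
  constructor
  · rintro ⟨n, hn⟩
    rcases le_total n (x + 1) with h | h
    · exact acc_mono h x hn
    · exact acc_back h x hn (Nat.lt_succ_self x)
  · exact fun h => ⟨_, h⟩

theorem KK_rnb : Rnb f (KK f G) := by
  intro x hx y hy z hz x' hx' y' hy' z' hz'
  rw [mem_KK] at hx hy hz hx' hy' hz'
  have h : ∀ w, w ∈ acc f G (w + 1) → w ≤ x + y + z + x' + y' + z' →
      w ∈ acc f G (x + y + z + x' + y' + z' + 1) := fun w hw h2 =>
    acc_mono (by omega) w hw
  exact acc_rl (x + y + z + x' + y' + z' + 1) x (h x hx (by omega)) y (h y hy (by omega))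
    z (h z hz (by omega)) x' (h x' hx' (by omega)) y' (h y' hy' (by omega)) z' (h z' hz' (by omega))

theorem KK_infinite (k : ℕ) (hb : Bdd f k) (hG : G.Infinite)
    (hl : ∀ x ∈ G, ∀ y ∈ G, ∀ x' ∈ G, ∀ y' ∈ G, x < y → x' < y' → ¬ (x = x' ∧ y = y') →
      ∃ n, ∀ z ∈ G, n ≤ z → f x y z ≠ f x' y' z) : (KK f G).Infinite := by
  classical
  intro hfin
  obtain ⟨M, hM⟩ := hfin.bddAbove
  set l := acc f G (M + 1) with hldef
  set L : Finset ℕ := l.toFinset with hL
  have hLG : ∀ x ∈ L, x ∈ G := by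
    intro x hx
    rw [hL, List.mem_toFinset] at hx
    exact (acc_lt _ x hx).2
  have hstab : ∀ n, ∀ x ∈ acc f G n, x ∈ L := by
    intro n x hx
    have h1 : x ∈ KK f G := ⟨n, hx⟩
    have h2 : x ≤ M := hM h1
    rw [mem_KK] at h1
    rw [hL, List.mem_toFinset]
    exact acc_mono (by omega) x h1
  set F1 : Set ℕ := ⋃ q ∈ (L ×ˢ L) ×ˢ (L ×ˢ L), {z | z ∈ G ∧ q.1.1 < q.1.2 ∧ q.2.1 < q.2.2 ∧
    ¬ (q.1.1 = q.2.1 ∧ q.1.2 = q.2.2) ∧ f q.1.1 q.1.2 z = f q.2.1 q.2.2 z} with hF1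
  have hF1fin : F1.Finite := by
    apply Set.Finite.biUnion (Finset.finite_toSet _)
    intro q hq
    rw [Finset.mem_coe, Finset.mem_product, Finset.mem_product, Finset.mem_product] at hq
    by_cases hc : q.1.1 < q.1.2 ∧ q.2.1 < q.2.2 ∧ ¬ (q.1.1 = q.2.1 ∧ q.1.2 = q.2.2)
    · obtain ⟨n, hn⟩ := hl _ (hLG _ hq.1.1) _ (hLG _ hq.1.2) _ (hLG _ hq.2.1) _ (hLG _ hq.2.2)
        hc.1 hc.2.1 hc.2.2
      refine (Set.finite_Iio n).subset ?_
      rintro z ⟨hz, -, -, -, hz2⟩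
      rw [Set.mem_Iio]
      by_contra hcon
      exact hn z hz (not_lt.1 hcon) hz2
    · refine Set.Finite.subset Set.finite_empty ?_
      rintro z ⟨-, h1, h2, h3, -⟩
      exact hc ⟨h1, h2, h3⟩
  set F2 : Set ℕ := ⋃ t ∈ L ×ˢ (L ×ˢ L), {z | ∃ x y, x < y ∧ y < z ∧
    f x y z = f t.1 t.2.1 t.2.2} with hF2
  have hF2fin : F2.Finite := by
    apply Set.Finite.biUnion (Finset.finite_toSet _)
    intro t _
    have h1 := hb (f t.1 t.2.1 t.2.2)
    have h2 : {s : ℕ × ℕ × ℕ | s.1 < s.2.1 ∧ s.2.1 < s.2.2 ∧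
        f s.1 s.2.1 s.2.2 = f t.1 t.2.1 t.2.2}.Finite :=
      Set.finite_of_encard_le_coe h1
    refine (h2.image fun s => s.2.2).subset ?_
    rintro z ⟨x, y, h3, h4, h5⟩
    exact ⟨(x, y, z), ⟨h3, h4, h5⟩, rfl⟩
  have hsub : G ⊆ (F1 ∪ F2) ∪ Set.Iio (M + 1) := by
    intro z hz
    by_cases hzM : z < M + 1
    · exact Or.inr hzM
    left
    have hzK : z ∉ KK f G := fun h => hzM (Nat.lt_succ_of_le (hM h))
    have hnr : ¬ RL f (acc f G z ++ [z]) := by
      intro h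
      apply hzK
      rw [mem_KK, acc_succ, step, if_pos ⟨hz, h⟩]
      exact List.mem_append_right _ (List.mem_singleton.2 rfl)
    unfold RL Rnb at hnr
    push Not at hnr
    obtain ⟨x, hx, y, hy, w, hw, x', hx', y', hy', w', hw', h1, h2, h3, h4, h5, h6⟩ := hnr
    simp only [Set.mem_ofPred_eq, List.mem_append, List.mem_singleton] at hx hy hw hx' hy' hw'
    have hlt : ∀ v ∈ acc f G z, v < z := fun v hv => (acc_lt z v hv).1
    have hlo : ∀ v, (v ∈ acc f G z ∨ v = z) → v ≤ z := by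
      rintro v (hv | rfl)
      · exact (hlt v hv).le
      · exact le_rfl
    have hin : ∀ v, (v ∈ acc f G z ∨ v = z) → v < z → v ∈ acc f G z := by
      rintro v (hv | rfl) hvz
      · exact hv
      · exact absurd hvz (lt_irrefl _)
    have hyz : y < z := lt_of_lt_of_le h2 (hlo w hw)
    have hxz : x < z := h1.trans hyz
    have hy'z : y' < z := lt_of_lt_of_le h4 (hlo w' hw')
    have hx'z : x' < z := h3.trans hy'z
    have hx1 := hin x hx hxz
    have hy1 := hin y hy hyz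
    have hx1' := hin x' hx' hx'z
    have hy1' := hin y' hy' hy'z
    rcases hw with hw | rfl
    · rcases hw' with hw' | rfl
      · exfalso
        obtain ⟨e1, e2, e3⟩ := acc_rl (f := f) (G := G) z x hx1 y hy1 w hw x' hx1' y' hy1' w' hw'
          h1 h2 h3 h4 h5
        exact h6 e1 e2 e3
      · right
        rw [hF2]
        refine Set.mem_biUnion (x := (x, y, w)) ?_ ⟨x', y', h3, h4, h5.symm⟩
        rw [Finset.mem_coe, Finset.mem_product, Finset.mem_product]
        exact ⟨hstab _ x hx1, hstab _ y hy1, hstab _ w hw⟩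
    · rcases hw' with hw' | rfl
      · right
        rw [hF2]
        refine Set.mem_biUnion (x := (x', y', w')) ?_ ⟨x, y, h1, h2, h5⟩
        rw [Finset.mem_coe, Finset.mem_product, Finset.mem_product]
        exact ⟨hstab _ x' hx1', hstab _ y' hy1', hstab _ w' hw'⟩
      · left
        rw [hF1]
        refine Set.mem_biUnion (x := ((x, y), (x', y'))) ?_
          ⟨hz, h1, h3, fun h => h6 h.1 h.2 rfl, h5⟩
        rw [Finset.mem_coe, Finset.mem_product, Finset.mem_product, Finset.mem_product]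
        exact ⟨⟨hstab _ x hx1, hstab _ y hy1⟩, hstab _ x' hx1', hstab _ y' hy1'⟩
  exact hG (((hF1fin.union hF2fin).union (Set.finite_Iio _)).subset hsub)

theorem le_left (B G : Set ℕ) : Le B (Jn B G) := by
  have h : DecIn (Jn B G) fun n : ℕ => 2 * n ∈ Jn B G := DecIn.mem (by fun_prop)
  refine h.of_eq fun n => ?_
  simp only [Jn, Set.mem_ofPred_eq]
  constructor
  · rintro (⟨-, h2⟩ | ⟨h1, -⟩)
    · rwa [Nat.mul_div_cancel_left n (by norm_num)] at h2
    · omega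
  · intro h1
    left
    exact ⟨by omega, by rwa [Nat.mul_div_cancel_left n (by norm_num)]⟩

theorem le_right (B G : Set ℕ) : Le G (Jn B G) := by
  have h : DecIn (Jn B G) fun n : ℕ => 2 * n + 1 ∈ Jn B G := DecIn.mem (by fun_prop)
  refine h.of_eq fun n => ?_
  have e : (2 * n + 1) / 2 = n := by omega
  simp only [Jn, Set.mem_ofPred_eq, e]
  constructor
  · rintro (⟨h1, -⟩ | ⟨-, h2⟩)
    · omega
    · exact h2
  · intro h1
    right
    exact ⟨by omega, h1⟩

theorem KK_le (B : Set ℕ) (hf : Rec B f) : Le (KK f G) (Jn B G) := by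
  have hA : REIn (Jn B G) fun x : (ℕ × ℕ × ℕ) × ℕ => f x.1.1 x.1.2.1 x.1.2.2 = x.2 :=
    REIn.trans (le_left B G) hf
  have hR := RL_dec hA
  have hcond : DecIn (Jn B G) fun p : (ℕ × List ℕ) × List ℕ =>
      p.1.1 ∈ G ∧ RL f (p.1.2 ++ [p.1.1]) := by
    refine DecIn.and ?_ ?_
    · exact (le_right B G).comp (f := fun p : (ℕ × List ℕ) × List ℕ => p.1.1) (by fun_prop)
    · refine hR.comp (f := fun p : (ℕ × List ℕ) × List ℕ => p.1.2 ++ [p.1.1]) ?_
      refine Computable.list_append.comp (by fun_prop) ?_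
      exact Computable.list_cons.comp (by fun_prop) (Computable.const [])
  have hstep : REIn (Jn B G) fun p : (ℕ × List ℕ) × List ℕ => step f G p.1.1 p.1.2 = p.2 := by
    have h1 : REIn (Jn B G) fun p : (ℕ × List ℕ) × List ℕ =>
        ((p.1.1 ∈ G ∧ RL f (p.1.2 ++ [p.1.1])) ∧ p.1.2 ++ [p.1.1] = p.2) ∨
        (¬ (p.1.1 ∈ G ∧ RL f (p.1.2 ++ [p.1.1])) ∧ p.1.2 = p.2) := by
      refine REIn.or (REIn.and hcond.1 (REIn.of_re (RE.eq ?_ (by fun_prop))))
        (REIn.and hcond.2 (REIn.of_re (RE.eq (by fun_prop) (by fun_prop))))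
      refine Computable.list_append.comp (by fun_prop) ?_
      exact Computable.list_cons.comp (by fun_prop) (Computable.const [])
    refine h1.of_eq fun p => ?_
    unfold step
    split_ifs with h
    · constructor
      · rintro (h2 | h2)
        · exact h2.2
        · exact absurd h h2.1
      · exact fun h2 => Or.inl ⟨h, h2⟩
    · constructor
      · rintro (h2 | h2)
        · exact absurd h2.1 h
        · exact h2.2
      · exact fun h2 => Or.inr ⟨h, h2⟩
  have hacc : REIn (Jn B G) fun p : ℕ × List ℕ => acc f G p.1 = p.2 :=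
    iter_graph (step f G) [] hstep
  constructor
  · have h1 : REIn (Jn B G) fun x : ℕ => ∃ l : List ℕ, acc f G (x + 1) = l ∧ x ∈ l := by
      refine REIn.ex (S := fun (x : ℕ) (l : List ℕ) => acc f G (x + 1) = l ∧ x ∈ l) ?_
      refine REIn.and ?_ (REIn.of_re (RE.mem_list (by fun_prop) (by fun_prop)))
      exact hacc.comp (f := fun x : ℕ × List ℕ => (x.1 + 1, x.2)) (by fun_prop)
    refine h1.of_eq fun x => ?_
    rw [mem_KK]
    constructor
    · rintro ⟨l, rfl, h⟩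
      exact h
    · exact fun h => ⟨_, rfl, h⟩
  · have h1 : REIn (Jn B G) fun x : ℕ => ∃ l : List ℕ, acc f G (x + 1) = l ∧ x ∉ l := by
      refine REIn.ex (S := fun (x : ℕ) (l : List ℕ) => acc f G (x + 1) = l ∧ x ∉ l) ?_
      refine REIn.and ?_ (REIn.of_re (RE.not_mem_list (by fun_prop) (by fun_prop)))
      exact hacc.comp (f := fun x : ℕ × List ℕ => (x.1 + 1, x.2)) (by fun_prop)
    refine h1.of_eq fun x => ?_
    show _ ↔ ¬ x ∈ KK f G
    rw [mem_KK]
    constructor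
    · rintro ⟨l, rfl, h⟩
      exact h
    · exact fun h => ⟨_, rfl, h⟩

end ThnL

/-- (29) THN. -/
theorem thn : S_THN := by
  intro B f k G hf hb hG hl
  refine ⟨ThnL.KK f G, ?_, ThnL.KK_infinite k hb hG hl, ThnL.KK_rnb, ThnL.KK_le B hf⟩
  rintro x ⟨n, hn⟩
  exact (ThnL.acc_lt n x hn).2

end Pool.Agent.Helper1K9.LT
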