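import Pool.Agent.Helper1K9.LT.Sct

/-!
# Relay LT, leaf UF1: a nonprincipal ultrafilter on the columns of `M`, inside `N`
-/

set_option autoImplicit false

namespace Pool.Agent.Helper1K9.LT

open Encodable Pool.Agent.Helper446 Pool.Agent.Helper446.Defs Pool.Agent.Helper446.RE
  Pool.Agent.Helper446.Oracle Pool.Agent.R623.Dec

namespace Uf1L

/-- the intersection of the columns of `M` and of their complements, according to `σ` -/
def I (M : Set ℕ) (σ : List Bool) : Set ℕ :=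
  {x | ∀ i < σ.length, (σ[i]? = some true ∧ x ∈ col M i) ∨ (σ[i]? = some false ∧ x ∉ col M i)}

theorem mem_I_sg {M X : Set ℕ} {n x : ℕ} : x ∈ I M (sg X n) ↔ ∀ i < n, (i ∈ X ↔ x ∈ col M i) := by
  show (∀ i < (sg X n).length, _) ↔ _
  rw [sg_length]
  refine forall_congr' fun i => forall_congr' fun hi => ?_
  rw [sg_true, sg_false]
  tauto

theorem I_dec (M : Set ℕ) : DecIn M fun y : List Bool × ℕ => y.2 ∈ I M y.1 := by
  refine DecIn.all_lt (S := fun (y : List Bool × ℕ) i =>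
    (y.1[i]? = some true ∧ y.2 ∈ col M i) ∨ (y.1[i]? = some false ∧ y.2 ∉ col M i)) ?_
    (by fun_prop)
  refine DecIn.or (DecIn.and (DecIn.eq (by fun_prop) (by fun_prop)) ?_)
    (DecIn.and (DecIn.eq (by fun_prop) (by fun_prop)) ?_)
  · exact DecIn.mem (f := fun x : (List Bool × ℕ) × ℕ => Nat.pair x.2 x.1.2) (by fun_prop)
  · exact (DecIn.mem (f := fun x : (List Bool × ℕ) × ℕ => Nat.pair x.2 x.1.2) (by fun_prop)).not

theorem fin_re (hJ : S_JMP) (M : Set ℕ) :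
    REIn (Jmp M) fun σ : List Bool => ¬ (I M σ).Infinite := by
  have h1 : REIn M fun y : List Bool × ℕ => ∃ x, y.2 ≤ x ∧ x ∈ I M y.1 := by
    refine REIn.ex (S := fun (y : List Bool × ℕ) x => y.2 ≤ x ∧ x ∈ I M y.1) ?_
    refine REIn.and (REIn.of_re (RE.le (by fun_prop) (by fun_prop))) ?_
    exact (I_dec M).1.comp (f := fun z : (List Bool × ℕ) × ℕ => (z.1.1, z.2)) (by fun_prop)
  have h2 := (hJ.2.1 M _ _ h1).2
  have h3 : REIn (Jmp M) fun σ : List Bool => ∃ b : ℕ, ¬ ∃ x, b ≤ x ∧ x ∈ I M σ :=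
    REIn.ex (S := fun (σ : List Bool) (b : ℕ) => ¬ ∃ x, b ≤ x ∧ x ∈ I M σ) h2
  refine h3.of_eq fun σ => ?_
  rw [Set.not_infinite]
  constructor
  · rintro ⟨b, hb⟩
    refine (Set.finite_lt_nat b).subset fun x hx => ?_
    by_contra hc
    exact hb ⟨x, not_lt.1 hc, hx⟩
  · intro h
    obtain ⟨b, hb⟩ := h.bddAbove
    refine ⟨b + 1, ?_⟩
    rintro ⟨x, h4, h5⟩
    have := hb h5
    omega

end Uf1L

open Uf1L

theorem uf1 (hJ : S_JMP) (hS : S_SCT) : S_UF1 := by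
  rintro M N hM hN ⟨k, hk⟩
  have hne : ∃ X : Set ℕ, ∀ n, ¬ ¬ (I M (sg X n)).Infinite := by
    let F := Filter.hyperfilter ℕ
    refine ⟨{i | col M i ∈ F}, fun n => not_not.2 ?_⟩
    have h1 : ∀ᶠ x in (F : Filter ℕ), ∀ i ∈ Finset.range n, (i ∈ {i | col M i ∈ F} ↔
        x ∈ col M i) := by
      rw [Filter.eventually_all_finset]
      intro i _
      by_cases hi : col M i ∈ F
      · filter_upwards [hi] with x hx
        exact ⟨fun _ => hx, fun _ => hi⟩
      · have h2 : (col M i)ᶜ ∈ F := Ultrafilter.compl_mem_iff_notMem.2 hi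
        filter_upwards [h2] with x hx
        exact ⟨fun h => absurd h hi, fun h => absurd h hx⟩
    have h3 : I M (sg {i | col M i ∈ F} n) ∈ F := by
      refine Filter.mem_of_superset h1 fun x hx => ?_
      rw [mem_I_sg]
      exact fun i hi => hx i (Finset.mem_range.2 hi)
    exact fun hfin => Filter.notMem_hyperfilter_of_finite hfin h3
  obtain ⟨j, hj⟩ := hN.basis k (fun σ => ¬ (I M σ).Infinite) (by rw [hk]; exact fin_re hJ M) hne
  have hinf : ∀ n, (I M (sg (col N j) n)).Infinite := fun n => not_not.1 (hj n)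
  have hpt : ∀ n, ∃ x, ∀ i < n, (i ∈ col N j ↔ x ∈ col M i) := by
    intro n
    obtain ⟨x, hx⟩ := (hinf n).nonempty
    exact ⟨x, mem_I_sg.1 hx⟩
  have hcomp : ∀ V, InN M V → InN M Vᶜ := fun V hV =>
    hS.1 M hM Vᶜ V (DecIn.not (DecIn.mem (f := fun x : ℕ => x) Computable.id)) hV
  have hcap : ∀ V W, InN M V → InN M W → InN M (V ∩ W) := by
    intro V W hV hW
    obtain ⟨D, hD, h1, h2⟩ := hS.2 M hM V W hV hW
    exact hS.1 M hM _ D (DecIn.and h1 h2) hD
  refine ⟨col N j, ⟨j, rfl⟩, ?_, ?_, ?_, ?_⟩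
  · intro i
    constructor
    · exact fun h => ⟨i, h, rfl⟩
    · rintro ⟨i', h1, h2⟩
      obtain ⟨x, hx⟩ := hpt (max i i' + 1)
      rw [hx i (by omega), ← h2]
      exact (hx i' (by omega)).1 h1
  · rintro V ⟨i, rfl⟩
    by_cases hi : i ∈ col N j
    · exact Or.inl ⟨i, hi, rfl⟩
    · obtain ⟨i', hi'⟩ := hcomp _ ⟨i, rfl⟩
      refine Or.inr ⟨i', ?_, hi'⟩
      obtain ⟨x, hx⟩ := hpt (max i i' + 1)
      rw [hx i' (by omega), hi']
      exact fun h => hi ((hx i (by omega)).2 h)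
  · rintro V ⟨i, hi, rfl⟩ W ⟨i', hi', rfl⟩
    obtain ⟨l, hl⟩ := hcap _ _ ⟨i, rfl⟩ ⟨i', rfl⟩
    refine ⟨l, ?_, hl⟩
    obtain ⟨x, hx⟩ := hpt (max i (max i' l) + 1)
    rw [hx l (by omega), hl]
    exact ⟨(hx i (by omega)).1 hi, (hx i' (by omega)).1 hi'⟩
  · rintro V ⟨i, hi, rfl⟩
    refine (hinf (i + 1)).mono fun x hx => ?_
    exact (mem_I_sg.1 hx i (Nat.lt_succ_self i)).1 hi

end Pool.Agent.Helper1K9.LT
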