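import Pool.Agent.Helper1K9.LT.Cpt

/-!
# Relay LT: an ultrafilter of good sets on the columns of `N`, low over `Jmp N`
-/

set_option autoImplicit false

namespace Pool.Agent.Helper1K9.LT

open Encodable Pool.Agent.Helper446 Pool.Agent.Helper446.Defs Pool.Agent.Helper446.RE
  Pool.Agent.Helper446.Oracle Pool.Agent.R623.Dec

namespace Uf2L

open CptL

/-- the intersection of columns and complements given by a string -/
def II (N : Set ℕ) (σ : List Bool) : Set ℕ :=
  {y | ∀ i < σ.length, (σ[i]? = some true → y ∈ col N i) ∧ (σ[i]? = some false → y ∉ col N i)}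

theorem mem_II_sg {N q : Set ℕ} {n y : ℕ} :
    y ∈ II N (sg q n) ↔ ∀ i < n, (i ∈ q ↔ y ∈ col N i) := by
  unfold II
  rw [Set.mem_ofPred_eq, length_sg]
  refine forall₂_congr fun i hi => ?_
  rw [sg_true, sg_false]
  by_cases h : i ∈ q <;> simp [h, hi]

/-- enumerability of `U (col M i) e n`, uniformly in everything -/
theorem u_re (hu : S_UNI) {M C : Set ℕ} (hM : Le M C) :
    REIn C fun x : (ℕ × ℕ) × ℕ => U (col M x.1.1) x.1.2 x.2 := by
  obtain ⟨R, hR, h⟩ := hu.1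
  have h1 : REIn C fun x : (ℕ × ℕ) × ℕ => ∃ c : List ℕ × List ℕ, R (x.1.2, x.2) c ∧
      (∀ y ∈ c.1, Nat.pair x.1.1 y ∈ M) ∧ ∀ y ∈ c.2, Nat.pair x.1.1 y ∉ M := by
    refine REIn.ex (S := fun (x : (ℕ × ℕ) × ℕ) (c : List ℕ × List ℕ) => R (x.1.2, x.2) c ∧
      (∀ y ∈ c.1, Nat.pair x.1.1 y ∈ M) ∧ ∀ y ∈ c.2, Nat.pair x.1.1 y ∉ M) ?_
    refine REIn.and (REIn.of_re (RE.comp hR (f := fun z : ((ℕ × ℕ) × ℕ) × (List ℕ × List ℕ) =>
      ((z.1.1.2, z.1.2), z.2)) (by fun_prop))) (REIn.and ?_ ?_)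
    · refine REIn.all_mem (S := fun (z : ((ℕ × ℕ) × ℕ) × (List ℕ × List ℕ)) (y : ℕ) =>
        Nat.pair z.1.1.1 y ∈ M) ?_ (by fun_prop)
      exact hM.1.comp (f := fun w : (((ℕ × ℕ) × ℕ) × (List ℕ × List ℕ)) × ℕ =>
        Nat.pair w.1.1.1.1 w.2) (by fun_prop)
    · refine REIn.all_mem (S := fun (z : ((ℕ × ℕ) × ℕ) × (List ℕ × List ℕ)) (y : ℕ) =>
        Nat.pair z.1.1.1 y ∉ M) ?_ (by fun_prop)
      exact hM.2.comp (f := fun w : (((ℕ × ℕ) × ℕ) × (List ℕ × List ℕ)) × ℕ =>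
        Nat.pair w.1.1.1.1 w.2) (by fun_prop)
  refine h1.of_eq fun x => ?_
  rw [show U (col M x.1.1) x.1.2 x.2 ↔ _ from h (col M x.1.1) (x.1.2, x.2)]
  rfl

/-- enumerability of `Cls (col M i) e m (col M j)` -/
theorem cls_re (hu : S_UNI) {M C : Set ℕ} (hM : Le M C) :
    REIn C fun x : (ℕ × ℕ × ℕ) × ℕ => Cls (col M x.1.1) x.1.2.1 x.1.2.2 (col M x.2) := by
  refine REIn.ex (S := fun (x : (ℕ × ℕ × ℕ) × ℕ) (D : List ℕ) => (∀ y ∈ D, y ∈ col M x.2) ∧
    U (col M x.1.1) x.1.2.1 (Nat.pair x.1.2.2 (encode D))) ?_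
  refine REIn.and ?_ ?_
  · refine REIn.all_mem (S := fun (z : ((ℕ × ℕ × ℕ) × ℕ) × List ℕ) (y : ℕ) =>
      Nat.pair z.1.2 y ∈ M) ?_ (by fun_prop)
    exact hM.1.comp (f := fun w : (((ℕ × ℕ × ℕ) × ℕ) × List ℕ) × ℕ =>
        Nat.pair w.1.1.2 w.2) (by fun_prop)
  · exact (u_re hu hM).comp (f := fun z : ((ℕ × ℕ × ℕ) × ℕ) × List ℕ =>
      ((z.1.1.1, z.1.1.2.1), Nat.pair z.1.1.2.2 (encode z.2))) (by fun_prop)

theorem ii_dec {N C : Set ℕ} (hN : Le N C) :
    DecIn C fun x : List Bool × ℕ => x.2 ∈ II N x.1 := by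
  refine DecIn.all_lt (S := fun (x : List Bool × ℕ) (i : ℕ) =>
    (x.1[i]? = some true → x.2 ∈ col N i) ∧ (x.1[i]? = some false → x.2 ∉ col N i)) ?_
    (f := fun x : List Bool × ℕ => x.1.length) (by fun_prop)
  have h1 : DecIn C fun z : (List Bool × ℕ) × ℕ => z.1.2 ∈ col N z.2 :=
    DecIn.comp (S := fun n : ℕ => n ∈ N) hN (f := fun z : (List Bool × ℕ) × ℕ =>
      Nat.pair z.2 z.1.2) (by fun_prop)
  exact (DecIn.imp (DecIn.eq (by fun_prop) (by fun_prop)) h1).and
    (DecIn.imp (DecIn.eq (by fun_prop) (by fun_prop)) h1.not)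

/-- enumerability of `Cls (col M i) e m (II N σ)` -/
theorem cls_ii_re (hu : S_UNI) {M N C : Set ℕ} (hM : Le M C) (hN : Le N C) :
    REIn C fun x : (ℕ × ℕ × ℕ) × List Bool =>
      Cls (col M x.1.1) x.1.2.1 x.1.2.2 (II N x.2) := by
  refine REIn.ex (S := fun (x : (ℕ × ℕ × ℕ) × List Bool) (D : List ℕ) =>
    (∀ y ∈ D, y ∈ II N x.2) ∧
    U (col M x.1.1) x.1.2.1 (Nat.pair x.1.2.2 (encode D))) ?_
  refine REIn.and ?_ ?_
  · refine REIn.all_mem (S := fun (z : ((ℕ × ℕ × ℕ) × List Bool) × List ℕ) (y : ℕ) =>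
      y ∈ II N z.1.2) ?_ (by fun_prop)
    exact (ii_dec hN).1.comp (f := fun w : (((ℕ × ℕ × ℕ) × List Bool) × List ℕ) × ℕ =>
        (w.1.1.2, w.2)) (by fun_prop)
  · exact (u_re hu hM).comp (f := fun z : ((ℕ × ℕ × ℕ) × List Bool) × List ℕ =>
      ((z.1.1.1, z.1.1.2.1), Nat.pair z.1.1.2.2 (encode z.2))) (by fun_prop)

end Uf2L

open CptL Uf2L

theorem uf2 : S_JMP → S_SCT → S_LB → S_GBS → S_GPR → S_UNI → S_UF2 := by
  intro hj hsct hlb hgbs hgpr hu M N p hM hN hJM hpN hp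
  obtain ⟨hre, hdec, hleJ, hmon, hjn, hjn2, hcol⟩ := hj
  obtain ⟨huniv, hmono, hinf, hcompl⟩ := hgbs M p hM hp
  -- comparison of the oracles
  obtain ⟨a, ha⟩ := hJM
  obtain ⟨b, hb⟩ := hpN
  obtain ⟨k, hk⟩ := hN.join b a
  have hpk : Le p (col N k) := by
    have := (hjn (col N b) (col N a)).1
    rw [hk, hb] at this
    exact this
  have hJk : Le (Jmp M) (col N k) := by
    have := (hjn (col N b) (col N a)).2
    rw [hk, ha] at this
    exact this
  have hMN : Le M N := (hleJ M).trans (hJk.trans (hcol N k))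
  -- the class number `(i, e, m)` contains the ultrafilter
  have hT : DecIn (Jmp N) fun x : ℕ × ℕ × ℕ =>
      ∀ V ∈ UU M p, Cls (col M x.1) x.2.1 x.2.2 V := by
    have h1 : DecIn (Jmp M) fun x : (ℕ × ℕ × ℕ) × ℕ =>
        Cls (col M x.1.1) x.1.2.1 x.1.2.2 (col M x.2) :=
      hdec M _ _ (cls_re hu (Le.refl M))
    have h2 : REIn (col N k) fun x : ℕ × ℕ × ℕ => ∃ j : ℕ, j ∈ p ∧
        ¬ Cls (col M x.1) x.2.1 x.2.2 (col M j) := by
      refine REIn.ex (S := fun (x : ℕ × ℕ × ℕ) (j : ℕ) => j ∈ p ∧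
        ¬ Cls (col M x.1) x.2.1 x.2.2 (col M j)) ?_
      exact REIn.and (hpk.1.comp (f := fun z : (ℕ × ℕ × ℕ) × ℕ => z.2) (by fun_prop))
        (REIn.trans hJk h1.2)
    have h3 := (hdec N _ _ (REIn.trans (hcol N k) h2)).not
    refine h3.of_eq fun x => ?_
    constructor
    · rintro h V ⟨j, hjp, rfl⟩
      by_contra hcon
      exact h ⟨j, hjp, hcon⟩
    · rintro h ⟨j, hjp, hcon⟩
      exact hcon (h _ ⟨j, hjp, rfl⟩)
  have hBad : REIn (Jmp N) fun σ : List Bool => ¬ Good M p (II N σ) := by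
    have h1 : DecIn (Jmp N) fun x : (ℕ × ℕ × ℕ) × List Bool =>
        Cls (col M x.1.1) x.1.2.1 x.1.2.2 (II N x.2) :=
      hdec N _ _ (cls_ii_re hu hMN (Le.refl N))
    have h2 : REIn (Jmp N) fun σ : List Bool => ∃ x : ℕ × ℕ × ℕ,
        (∀ V ∈ UU M p, Cls (col M x.1) x.2.1 x.2.2 V) ∧
          ¬ Cls (col M x.1) x.2.1 x.2.2 (II N σ) := by
      refine REIn.ex (S := fun (σ : List Bool) (x : ℕ × ℕ × ℕ) =>
        (∀ V ∈ UU M p, Cls (col M x.1) x.2.1 x.2.2 V) ∧
          ¬ Cls (col M x.1) x.2.1 x.2.2 (II N σ)) ?_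
      exact REIn.and (hT.1.comp (f := fun z : List Bool × (ℕ × ℕ × ℕ) => z.2) (by fun_prop))
        (h1.2.comp (f := fun z : List Bool × (ℕ × ℕ × ℕ) => (z.2, z.1)) (by fun_prop))
    refine h2.of_eq fun σ => ?_
    unfold Good
    push Not
    constructor
    · rintro ⟨⟨i, e, m⟩, h⟩
      exact ⟨i, e, m, h⟩
    · rintro ⟨i, e, m, h⟩
      exact ⟨(i, e, m), h⟩
  -- the class is not empty
  have hex : ∃ X : Set ℕ, ∀ n, ¬ ¬ Good M p (II N (sg X n)) := by
    classical
    have hnil : Good M p (II N []) := by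
      refine hmono _ _ huniv fun y _ => ?_
      intro i hi
      simp at hi
    have hstep : ∀ σ : List Bool, Good M p (II N σ) → ∃ b : Bool, Good M p (II N (σ ++ [b])) := by
      intro σ hσ
      have hsub : II N σ ⊆ II N (σ ++ [true]) ∪ II N (σ ++ [false]) := by
        intro y hy
        have hlow : ∀ (b : Bool) (i : ℕ), i < σ.length → (σ ++ [b])[i]? = σ[i]? := by
          intro b i hi
          rw [List.getElem?_append_left hi]
        have htop : ∀ b : Bool, (σ ++ [b])[σ.length]? = some b := by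
          intro b
          rw [List.getElem?_append_right le_rfl]
          simp
        by_cases h : y ∈ col N σ.length
        · refine Or.inl fun i hi => ?_
          rw [List.length_append, List.length_singleton] at hi
          rcases Nat.lt_succ_iff_lt_or_eq.1 hi with hi | rfl
          · rw [hlow true i hi]
            exact hy i hi
          · rw [htop]
            exact ⟨fun _ => h, fun h2 => by simp at h2⟩
        · refine Or.inr fun i hi => ?_
          rw [List.length_append, List.length_singleton] at hi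
          rcases Nat.lt_succ_iff_lt_or_eq.1 hi with hi | rfl
          · rw [hlow false i hi]
            exact hy i hi
          · rw [htop]
            exact ⟨fun h2 => by simp at h2, fun _ => h⟩
      rcases hgpr M p hM hp _ _ (hmono _ _ hσ hsub) with h | h
      · exact ⟨true, h⟩
      · exact ⟨false, h⟩
    choose! nb hnb using hstep
    let s : ℕ → List Bool := fun n => Nat.rec [] (fun _ IH => IH ++ [nb IH]) n
    have hs0 : s 0 = [] := rfl
    have hs1 : ∀ n, s (n + 1) = s n ++ [nb (s n)] := fun n => rfl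
    have hgood : ∀ n, Good M p (II N (s n)) := by
      intro n
      induction n with
      | zero => exact hnil
      | succ n ih => rw [hs1]; exact hnb _ ih
    have hlen : ∀ n, (s n).length = n := by
      intro n
      induction n with
      | zero => rfl
      | succ n ih => rw [hs1, List.length_append, ih]; rfl
    refine ⟨{n | nb (s n) = true}, fun n => ?_⟩
    rw [not_not]
    have hsg : sg {n | nb (s n) = true} n = s n := by
      induction n with
      | zero => rfl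
      | succ n ih =>
        rw [sg_succ, ih, hs1]
        congr 2
        by_cases h : nb (s n) = true
        · exact (decide_eq_true h).trans h.symm
        · exact (decide_eq_false h).trans (Bool.not_eq_true _ ▸ h).symm
    rw [hsg]
    exact hgood n
  obtain ⟨q, hq, hlow⟩ := hlb (Jmp N) _ hBad hex
  have hq' : ∀ n, Good M p (II N (sg q n)) := fun n => not_not.1 (hq n)
  -- two facts about `q`
  have hin : ∀ i, i ∈ q → Good M p (col N i) := by
    intro i hi
    refine hmono _ _ (hq' (i + 1)) fun y hy => ?_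
    exact (mem_II_sg.1 hy i (Nat.lt_succ_self i)).1 hi
  -- nonempty intersections
  have hne : ∀ n, ∃ y, ∀ i < n, (i ∈ q ↔ y ∈ col N i) := by
    intro n
    obtain ⟨y, hy⟩ := (hinf _ (hq' n)).nonempty
    exact ⟨y, mem_II_sg.1 hy⟩
  have hmem : ∀ i, col N i ∈ UU N q → i ∈ q := by
    rintro i ⟨j, hjq, hji⟩
    obtain ⟨y, hy⟩ := hne (max i j + 1)
    have h1 := hy i (Nat.lt_succ_of_le (le_max_left _ _))
    have h2 := hy j (Nat.lt_succ_of_le (le_max_right _ _))
    rw [hji] at h2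
    exact h1.2 (h2.1 hjq)
  refine ⟨q, ⟨fun i => ⟨fun h => ⟨i, h, rfl⟩, hmem i⟩, ?_, ?_, ?_⟩, ?_, ?_, hlow⟩
  · -- dichotomy
    rintro V ⟨i, rfl⟩
    by_cases hi : i ∈ q
    · exact Or.inl ⟨i, hi, rfl⟩
    · right
      have hle : Le (col N i)ᶜ (col N i) := by
        refine (DecIn.not (DecIn.mem (A := col N i) (f := fun n : ℕ => n) (by fun_prop))).of_eq
          fun n => Iff.rfl
      obtain ⟨j, hj'⟩ := hsct.1 N hN _ _ hle ⟨i, rfl⟩
      refine ⟨j, ?_, hj'⟩
      obtain ⟨y, hy⟩ := hne (max i j + 1)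
      have h1 := hy i (Nat.lt_succ_of_le (le_max_left _ _))
      have h2 := hy j (Nat.lt_succ_of_le (le_max_right _ _))
      rw [hj'] at h2
      exact h2.2 fun h3 => hi (h1.2 h3)
  · -- intersections
    rintro V ⟨i, hi, rfl⟩ W ⟨j, hj', rfl⟩
    obtain ⟨l, hl⟩ := hN.join i j
    have hle : Le (col N i ∩ col N j) (col N l) := by
      have h1 : Le (col N i) (col N l) := by rw [← hl]; exact (hjn _ _).1
      have h2 : Le (col N j) (col N l) := by rw [← hl]; exact (hjn _ _).2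
      exact (DecIn.and h1 h2).of_eq fun n => Iff.rfl
    obtain ⟨t, ht⟩ := hsct.1 N hN _ _ hle ⟨l, rfl⟩
    refine ⟨t, ?_, ht⟩
    obtain ⟨y, hy⟩ := hne (max t (max i j) + 1)
    have h0 := hy t (Nat.lt_succ_of_le (le_max_left _ _))
    have h1 := hy i (Nat.lt_succ_of_le ((le_max_left _ _).trans (le_max_right _ _)))
    have h2 := hy j (Nat.lt_succ_of_le ((le_max_right _ _).trans (le_max_right _ _)))
    rw [ht] at h0
    exact h0.2 ⟨h1.1 hi, h2.1 hj'⟩
  · -- infinite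
    rintro V ⟨i, hi, rfl⟩
    exact hinf _ (hin i hi)
  · -- good
    rintro X ⟨i, hi, rfl⟩
    exact hin i hi
  · -- contains the first ultrafilter
    intro V hV
    obtain ⟨j, hjp, hjV⟩ := hV
    have hle : Le V (col N k) := by
      rw [← hjV]
      exact ((hcol M j).trans (hleJ M)).trans hJk
    obtain ⟨t, ht⟩ := hsct.1 N hN _ _ hle ⟨k, rfl⟩
    refine ⟨t, ?_, ht⟩
    by_contra hcon
    refine hcompl V ⟨j, hjp, hjV⟩ (hmono _ _ (hq' (t + 1)) fun y hy => ?_)
    have h1 := mem_II_sg.1 hy t (Nat.lt_succ_self t)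
    rw [ht] at h1
    exact fun h2 => hcon (h1.2 h2)

end Pool.Agent.Helper1K9.LT
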