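import Pool.Agent.Helper1K9.LT.Stm1

/-!
# Relay LT: the universal predicate
-/

set_option autoImplicit false

namespace Pool.Agent.Helper1K9.LT

open Encodable Pool.Agent.Helper446 Pool.Agent.Helper446.Defs Pool.Agent.Helper446.RE
  Pool.Agent.Helper446.Oracle Pool.Agent.R623.Dec

namespace UniL

/-- `Hlt` is enumerable in all variables. -/
theorem hlt_re : REPred fun x : (ℕ × ℕ) × (List ℕ × List ℕ) => Hlt x.1.1 x.1.2 x.2 := by
  have h1 : Partrec fun x : (ℕ × ℕ) × (List ℕ × List ℕ) =>
      Nat.Partrec.Code.eval (Denumerable.ofNat Nat.Partrec.Code x.1.1)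
        (Nat.pair x.1.2 (encode x.2)) := by
    refine Nat.Partrec.Code.eval_part.comp
      (f := fun c n => Nat.Partrec.Code.eval c n)
      (g := fun x : (ℕ × ℕ) × (List ℕ × List ℕ) => Denumerable.ofNat Nat.Partrec.Code x.1.1)
      (h := fun x : (ℕ × ℕ) × (List ℕ × List ℕ) => Nat.pair x.1.2 (encode x.2)) ?_ (by fun_prop)
    exact (Computable.ofNat Nat.Partrec.Code).comp (by fun_prop)
  exact h1.dom_re

/-- Every enumerable relation is `Hlt e` for some `e`. -/
theorem hlt_univ {α : Type} [Primcodable α] (R : α → List ℕ × List ℕ → Prop)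
    (hR : REPred (fun x : α × (List ℕ × List ℕ) => R x.1 x.2)) :
    ∃ e, ∀ a c, R a c ↔ Hlt e (encode a) c := by
  -- decode the input
  have h1 : REPred fun n : ℕ => ∃ x : α × (List ℕ × List ℕ), R x.1 x.2 ∧
      n = Nat.pair (encode x.1) (encode x.2) := by
    refine RE.ex (p := fun (n : ℕ) (x : α × (List ℕ × List ℕ)) => R x.1 x.2 ∧
      n = Nat.pair (encode x.1) (encode x.2)) ?_
    refine RE.and ?_ (RE.eq (by fun_prop) (by fun_prop))
    exact RE.comp hR (f := fun y : ℕ × (α × (List ℕ × List ℕ)) => y.2) (by fun_prop)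
  obtain ⟨c, hc⟩ := Nat.Partrec.Code.exists_code.1 h1
  refine ⟨encode c, fun a d => ?_⟩
  unfold Hlt
  rw [Denumerable.ofNat_encode]
  have h2 := congrFun hc (Nat.pair (encode a) (encode d))
  rw [h2]
  constructor
  · intro h
    simp only [Encodable.decode_nat, Part.coe_some, Part.bind_some]
    rw [Part.map_Dom]
    exact ⟨⟨(a, d), h, rfl⟩, trivial⟩
  · intro h
    simp only [Encodable.decode_nat, Part.coe_some, Part.bind_some] at h
    rw [Part.map_Dom] at h
    obtain ⟨⟨x, hx, hx2⟩, -⟩ := h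
    have h3 := congrArg Nat.unpair hx2
    rw [Nat.unpair_pair, Nat.unpair_pair] at h3
    have h4 := congrArg Prod.fst h3
    have h5 := congrArg Prod.snd h3
    have h4' : a = x.1 := Encodable.encode_injective h4
    have h5' : d = x.2 := Encodable.encode_injective h5
    rw [h4', h5']
    exact hx

end UniL

theorem uni : S_UNI := by
  refine ⟨⟨fun x c => Hlt x.1 x.2 c, UniL.hlt_re, fun A a => Iff.rfl⟩, ?_, ?_⟩
  · rintro α _ S ⟨R, hR, h⟩
    obtain ⟨e, he⟩ := UniL.hlt_univ R hR
    refine ⟨e, fun A a => ?_⟩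
    rw [h A a]
    unfold U
    simp only [he]
  · rintro A α _ S ⟨R, hR, h⟩
    obtain ⟨e, he⟩ := UniL.hlt_univ R hR
    refine ⟨e, fun a => ?_⟩
    rw [h a]
    unfold U
    simp only [he]

end Pool.Agent.Helper1K9.LT
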