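import Pool.Agent.Helper1K9.LT.Bit
import Pool.Agent.Helper1K9.LT.Cod
import Pool.Agent.Helper1K9.LT.Cpx
import Pool.Agent.Helper1K9.LT.Cpy
import Pool.Agent.Helper1K9.LT.Cut
import Pool.Agent.Helper1K9.LT.Dec
import Pool.Agent.Helper1K9.LT.Del
import Pool.Agent.Helper1K9.LT.Den
import Pool.Agent.Helper1K9.LT.Dgu
import Pool.Agent.Helper1K9.LT.Ere
import Pool.Agent.Helper1K9.LT.Evl
import Pool.Agent.Helper1K9.LT.Fin
import Pool.Agent.Helper1K9.LT.Gap
import Pool.Agent.Helper1K9.LT.Gbs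
import Pool.Agent.Helper1K9.LT.Gen
import Pool.Agent.Helper1K9.LT.Ggg
import Pool.Agent.Helper1K9.LT.Gpr
import Pool.Agent.Helper1K9.LT.Grw
import Pool.Agent.Helper1K9.LT.Idl
import Pool.Agent.Helper1K9.LT.J3
import Pool.Agent.Helper1K9.LT.Jmp
import Pool.Agent.Helper1K9.LT.Lb
import Pool.Agent.Helper1K9.LT.Lwr
import Pool.Agent.Helper1K9.LT.Ngc
import Pool.Agent.Helper1K9.LT.Pat
import Pool.Agent.Helper1K9.LT.Psc
import Pool.Agent.Helper1K9.LT.Qre
import Pool.Agent.Helper1K9.LT.Rro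
import Pool.Agent.Helper1K9.LT.Rt3
import Pool.Agent.Helper1K9.LT.Sct
import Pool.Agent.Helper1K9.LT.Sel
import Pool.Agent.Helper1K9.LT.Sg4
import Pool.Agent.Helper1K9.LT.Ss
import Pool.Agent.Helper1K9.LT.Thn
import Pool.Agent.Helper1K9.LT.Trn
import Pool.Agent.Helper1K9.LT.Uf1
import Pool.Agent.Helper1K9.LT.Uf2
import Pool.Agent.Helper1K9.LT.Uni

/-!
# Relay LT: everything together
-/

set_option autoImplicit false

namespace Pool.Agent.Helper1K9.LT

theorem h_jmp : S_JMP := jmp uni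
theorem h_sct : S_SCT := sct h_jmp
theorem h_lb : S_LB := lb uni h_jmp
theorem h_ss : S_SS := ss uni h_jmp h_lb
theorem h_gap : S_GAP := gap uni
theorem h_gbs : S_GBS := gbs h_gap
theorem h_gpr : S_GPR := gpr h_gap h_jmp
theorem h_uf1 : S_UF1 := uf1 h_jmp h_sct
theorem h_uf2 : S_UF2 := uf2 h_jmp h_sct h_lb h_gbs h_gpr uni
theorem h_pat : S_PAT := pat h_sct
theorem h_dgu : S_DGU := dgu h_jmp h_sct
theorem h_ere : S_ERE := ere qre h_jmp h_sct
theorem h_sel : S_SEL := sel h_jmp h_sct evl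
theorem h_cpx : S_CPX := cpx h_jmp evl h_ere
theorem h_ngc : S_NGC := ngc h_ere h_sct h_jmp
theorem h_dec : S_DEC := dec h_ngc psc h_pat h_sel h_dgu h_sct h_jmp
theorem h_den : S_DEN := den h_gap qre h_pat h_dgu
theorem h_grw : S_GRW := grw h_pat
theorem h_gen : S_GEN := gen h_jmp
theorem h_j3 : S_J3 := j3 uni
theorem h_ggg : S_GGG := ggg h_uf2 h_cpx h_gen h_j3 evl h_dec h_den h_grw cut h_sct h_jmp
theorem h_del : S_DEL := del h_sct h_jmp
theorem h_rt3 : S_RT3 := rt3 h_ss h_uf1 h_del h_ggg thn h_jmp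
theorem h_idl : S_IDL := idl h_rt3 uni h_jmp
theorem h_lwr : S_LWR := lwr (sg4 uni) cod cpy
theorem all : S_FIN := fin h_idl rro h_lwr bit

end Pool.Agent.Helper1K9.LT
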