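import Pool.Agent.Helper1K9.LT.Stm3

/-!
# Relay LT, leaf BIT: a computable Rado graph
-/

set_option autoImplicit false

namespace Pool.Agent.Helper1K9.LT

open Encodable Pool.Agent.Helper446 Pool.Agent.Helper446.Defs Pool.Agent.Helper446.RE
  Pool.Agent.Helper446.Oracle Pool.Agent.R623.Dec Pool.Agent.R623.Om Pool.Agent.Helper617.RM

namespace BitL

/-- `x` is a binary digit of `y` -/
def bt (x y : ℕ) : Prop := y / 2 ^ x % 2 = 1

theorem bt_iff (x y : ℕ) : bt x y ↔ y.testBit x = true := by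
  rw [Nat.testBit_eq_decide_div_mod_eq]
  simp [bt]

theorem lt_of_bt {x y : ℕ} (h : bt x y) : x < y := by
  rw [bt_iff] at h
  have h1 := Nat.ge_two_pow_of_testBit h
  exact lt_of_lt_of_le Nat.lt_two_pow_self h1

/-- the graph of binary digits -/
def G : SimpleGraph ℕ where
  Adj x y := bt x y ∨ bt y x
  symm := ⟨fun _ _ h => Or.symm h⟩
  loopless := ⟨fun x h => by
    rcases h with h | h <;> exact lt_irrefl x (lt_of_bt h)⟩

theorem exists_bits (U : Finset ℕ) : ∃ n : ℕ, ∀ i, bt i n ↔ i ∈ U := by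
  classical
  induction U using Finset.induction_on with
  | empty =>
    refine ⟨0, fun i => ?_⟩
    simp [bt]
  | insert a U ha ih =>
    obtain ⟨n, hn⟩ := ih
    refine ⟨n ||| 2 ^ a, fun i => ?_⟩
    rw [bt_iff, Nat.testBit_or, Nat.testBit_two_pow, Bool.or_eq_true, ← bt_iff, hn i,
      Finset.mem_insert]
    simp only [decide_eq_true_eq]
    constructor
    · rintro (h | h)
      · exact Or.inr h
      · exact Or.inl h.symm
    · rintro (h | h)
      · exact Or.inr h.symm
      · exact Or.inl h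

theorem rado : Pool.Agent.Helper52K9.RR.IsRado G Set.univ := by
  classical
  intro U V _ _ hd
  obtain ⟨b, hb⟩ := (U ∪ V).bddAbove
  have hb' : ∀ u ∈ U ∪ V, u < b + 1 := fun u hu => Nat.lt_succ_of_le (hb hu)
  obtain ⟨z, hz⟩ := exists_bits (insert (b + 1) U)
  have h1 : b + 1 < z := lt_of_bt ((hz _).2 (Finset.mem_insert_self _ _))
  have h2 : ∀ u ∈ U ∪ V, u < z := fun u hu => lt_trans (hb' u hu) h1
  refine ⟨z, Set.mem_univ _, ?_, ?_, ?_, ?_⟩
  · intro h
    exact lt_irrefl _ (h2 z (Finset.mem_union_left _ h))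
  · intro h
    exact lt_irrefl _ (h2 z (Finset.mem_union_right _ h))
  · intro u hu
    exact Or.inr ((hz u).2 (Finset.mem_insert_of_mem hu))
  · intro v hv h
    rcases h with h | h
    · exact lt_asymm (lt_of_bt h) (h2 v (Finset.mem_union_right _ hv))
    · have h3 := (hz v).1 h
      rw [Finset.mem_insert] at h3
      rcases h3 with h3 | h3
      · have h4 := hb' v (Finset.mem_union_right _ hv)
        omega
      · exact Finset.disjoint_left.1 hd h3 hv

theorem cp_bt : ComputablePred fun p : ℕ × ℕ => bt p.1 p.2 := by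
  have hp : Computable fun p : ℕ × ℕ => 2 ^ p.1 := by
    have h1 : Primrec₂ ((· ^ ·) : ℕ → ℕ → ℕ) := Primrec₂.unpaired'.1 Nat.Primrec.pow
    exact h1.to_comp.comp (Computable.const 2) Computable.fst
  have hd : Computable fun p : ℕ × ℕ => p.2 / 2 ^ p.1 :=
    (Primrec.nat_div.to_comp : Computable₂ fun a b : ℕ => a / b).comp Computable.snd hp
  have hm : Computable fun p : ℕ × ℕ => p.2 / 2 ^ p.1 % 2 :=
    (Primrec.nat_mod.to_comp : Computable₂ fun a b : ℕ => a % b).comp hd (Computable.const 2)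
  exact RE.cp_eq hm (Computable.const 1)

end BitL

open BitL

theorem cp_adj : ComputablePred fun p : ℕ × ℕ => G.Adj p.1 p.2 := by
  have h1 := cp_bt
  have h2 : ComputablePred fun p : ℕ × ℕ => bt p.2 p.1 :=
    RE.cp_comp cp_bt (Computable.snd.pair Computable.fst)
  have h3 : ComputablePred fun p : ℕ × ℕ => bt p.1 p.2 ∨ bt p.2 p.1 := by
    refine RE.cp_of_re (RE.or h1.to_re h2.to_re) ?_
    have h4 := RE.and h1.not.to_re h2.not.to_re
    refine REPred.of_eq h4 fun p => ?_
    rw [not_or]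
  exact h3

theorem bit : S_BIT := ⟨G, cp_adj, rado⟩

end Pool.Agent.Helper1K9.LT
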