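import Pool.Agent.Helper1K9.LT.Stm1

/-!
# Relay LT: compactness of Cantor space, quantification over all strings of a given length
-/

set_option autoImplicit false

namespace Pool.Agent.Helper1K9.LT

open Encodable Pool.Agent.Helper446 Pool.Agent.Helper446.Defs Pool.Agent.Helper446.RE
  Pool.Agent.Helper446.Oracle Pool.Agent.R623.Dec

namespace CptL

theorem length_sg (X : Set ℕ) (n : ℕ) : (sg X n).length = n := by
  simp [sg]

theorem sg_getElem? (X : Set ℕ) {n i : ℕ} (h : i < n) [Decidable (i ∈ X)] :
    (sg X n)[i]? = some (decide (i ∈ X)) := by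
  unfold sg
  rw [List.getElem?_map, List.getElem?_range h, Option.map_some]
  by_cases hx : i ∈ X <;> simp [hx]

theorem sg_true (X : Set ℕ) {n i : ℕ} : (sg X n)[i]? = some true ↔ i < n ∧ i ∈ X := by
  classical
  constructor
  · intro h
    have hi : i < n := by
      by_contra hcon
      rw [List.getElem?_eq_none (by rw [length_sg]; omega)] at h
      cases h
    rw [sg_getElem? X hi] at h
    exact ⟨hi, of_decide_eq_true (Option.some.inj h)⟩
  · rintro ⟨hi, h⟩
    rw [sg_getElem? X hi, decide_eq_true h]

theorem sg_false (X : Set ℕ) {n i : ℕ} : (sg X n)[i]? = some false ↔ i < n ∧ i ∉ X := by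
  classical
  constructor
  · intro h
    have hi : i < n := by
      by_contra hcon
      rw [List.getElem?_eq_none (by rw [length_sg]; omega)] at h
      cases h
    rw [sg_getElem? X hi] at h
    exact ⟨hi, of_decide_eq_false (Option.some.inj h)⟩
  · rintro ⟨hi, h⟩
    rw [sg_getElem? X hi, decide_eq_false h]

theorem sg_succ (X : Set ℕ) (n : ℕ) [Decidable (n ∈ X)] :
    sg X (n + 1) = sg X n ++ [decide (n ∈ X)] := by
  unfold sg
  rw [List.range_succ, List.map_append, List.map_singleton]
  congr 3

/-- every string is an initial segment of a set -/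
theorem exists_sg (σ : List Bool) : ∃ X : Set ℕ, sg X σ.length = σ := by
  classical
  refine ⟨{i | σ[i]? = some true}, ?_⟩
  apply List.ext_getElem?
  intro i
  by_cases hi : i < σ.length
  · have h1 : σ[i]? = some σ[i] := List.getElem?_eq_getElem hi
    rcases h : σ[i] with _ | _
    · rw [h1, h, sg_false]
      refine ⟨hi, ?_⟩
      rw [Set.mem_ofPred_eq, h1, h]
      simp
    · rw [h1, h, sg_true]
      exact ⟨hi, by rw [Set.mem_ofPred_eq, h1, h]⟩
  · rw [List.getElem?_eq_none (by rw [length_sg]; omega), List.getElem?_eq_none (by omega)]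

/-- all strings of length `n` -/
def allL : ℕ → List (List Bool)
  | 0 => [[]]
  | n + 1 => (allL n).map (fun σ => σ ++ [true]) ++ (allL n).map (fun σ => σ ++ [false])

theorem mem_allL {n : ℕ} {σ : List Bool} : σ ∈ allL n ↔ σ.length = n := by
  induction n generalizing σ with
  | zero => simp [allL]
  | succ n ih =>
    simp only [allL, List.mem_append, List.mem_map, ih]
    constructor
    · rintro (⟨τ, h, rfl⟩ | ⟨τ, h, rfl⟩) <;> simp [h]
    · intro h
      rcases List.eq_nil_or_concat σ with rfl | ⟨τ, b, rfl⟩
      · simp at h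
      · simp only [List.length_concat] at h
        rcases b with _ | _
        · exact Or.inr ⟨τ, by omega, by simp⟩
        · exact Or.inl ⟨τ, by omega, by simp⟩

theorem computable_allL : Computable allL := by
  have h1 : Primrec fun l : List (List Bool) =>
      l.map (fun σ => σ ++ [true]) ++ l.map (fun σ => σ ++ [false]) := by
    have h2 : ∀ b : Bool, Primrec fun l : List (List Bool) => l.map (fun σ => σ ++ [b]) := by
      intro b
      refine Primrec.list_map Primrec.id ?_
      exact Primrec.list_append.comp Primrec.snd (Primrec.const [b])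
    exact Primrec.list_append.comp (h2 true) (h2 false)
  have h3 : Computable fun n : ℕ => (Nat.rec (motive := fun _ => List (List Bool)) [[]]
      (fun _ IH => IH.map (fun σ => σ ++ [true]) ++ IH.map (fun σ => σ ++ [false])) n :
        List (List Bool)) := by
    refine Computable.nat_rec (f := fun n : ℕ => n) (g := fun _ : ℕ => [[]])
      (h := fun (_ : ℕ) (y : ℕ × List (List Bool)) =>
        y.2.map (fun σ => σ ++ [true]) ++ y.2.map (fun σ => σ ++ [false])) Computable.id
      (Computable.const _) ?_
    exact h1.to_comp.comp (Computable.snd.comp Computable.snd)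
  refine h3.of_eq fun n => ?_
  induction n with
  | zero => rfl
  | succ n ih =>
    show (Nat.rec (motive := fun _ => List (List Bool)) [[]]
      (fun _ IH => IH.map (fun σ => σ ++ [true]) ++ IH.map (fun σ => σ ++ [false])) n).map _ ++ _
      = _
    rw [ih]
    rfl

/-- quantification over all sets, for a predicate which depends on an initial segment only -/
theorem re_all_sg {α : Type} [Primcodable α] {A : Set ℕ} {S : α → List Bool → Prop}
    (hS : REIn A fun x : α × List Bool => S x.1 x.2) {f : α → ℕ} (hf : Computable f) :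
    REIn A fun a => ∀ X : Set ℕ, S a (sg X (f a)) := by
  have h1 : REIn A fun a => ∀ σ ∈ allL (f a), S a σ :=
    REIn.all_mem hS (computable_allL.comp hf)
  refine h1.of_eq fun a => ?_
  constructor
  · intro h X
    exact h _ (mem_allL.2 (length_sg X _))
  · intro h σ hσ
    obtain ⟨X, hX⟩ := exists_sg σ
    have := h X
    rw [mem_allL.1 hσ] at hX
    rwa [hX] at this

/-- Compactness of Cantor space. -/
theorem compact {P : List Bool → Prop} (h : ∀ X : Set ℕ, ∃ n, P (sg X n))
    (hm : ∀ (X : Set ℕ) (m n : ℕ), m ≤ n → P (sg X m) → P (sg X n)) :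
    ∃ n, ∀ X : Set ℕ, P (sg X n) := by
  classical
  have hX : ∀ f : ℕ → Bool, ∀ n, List.ofFn (fun i : Fin n => f i) = sg {i | f i = true} n := by
    intro f n
    apply List.ext_getElem?
    intro i
    by_cases hi : i < n
    · rw [sg_getElem? _ hi, List.getElem?_ofFn, dif_pos hi]
      congr 1
      by_cases h : f i = true
      · rw [decide_eq_true (by exact h)]
        exact h
      · rw [decide_eq_false (by exact h)]
        simpa using h
    · rw [List.getElem?_eq_none (by rw [List.length_ofFn]; omega),
        List.getElem?_eq_none (by rw [length_sg]; omega)]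
  let V : ℕ → Set (ℕ → Bool) := fun n => {f | P (List.ofFn (fun i : Fin n => f i))}
  have hV : ∀ n, IsOpen (V n) := by
    intro n
    have h1 : Continuous fun (f : ℕ → Bool) (i : Fin n) => f i :=
      continuous_pi fun i => continuous_apply _
    exact (isOpen_discrete {g : Fin n → Bool | P (List.ofFn g)}).preimage h1
  have hcov : (Set.univ : Set (ℕ → Bool)) ⊆ ⋃ n, V n := by
    intro f _
    obtain ⟨n, hn⟩ := h {i | f i = true}
    refine Set.mem_iUnion.2 ⟨n, ?_⟩
    show P (List.ofFn (fun i : Fin n => f i))
    rw [hX]
    exact hn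
  have hdir : Directed (· ⊆ ·) V := by
    intro m n
    refine ⟨max m n, fun f hf => ?_, fun f hf => ?_⟩
    · show P (List.ofFn (fun i : Fin (max m n) => f i))
      rw [hX]
      have hf' : P (List.ofFn (fun i : Fin m => f i)) := hf
      rw [hX] at hf'
      exact hm _ _ _ (le_max_left _ _) hf'
    · show P (List.ofFn (fun i : Fin (max m n) => f i))
      rw [hX]
      have hf' : P (List.ofFn (fun i : Fin n => f i)) := hf
      rw [hX] at hf'
      exact hm _ _ _ (le_max_right _ _) hf'
  obtain ⟨n, hn⟩ := isCompact_univ.elim_directed_cover V hV hcov hdir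
  refine ⟨n, fun X => ?_⟩
  have h1 : (fun i => decide (i ∈ X)) ∈ V n := hn (Set.mem_univ _)
  have h2 : P (List.ofFn (fun i : Fin n => decide ((i : ℕ) ∈ X))) := h1
  have h3 := hX (fun i => decide (i ∈ X)) n
  rw [h3] at h2
  have h4 : {i : ℕ | decide (i ∈ X) = true} = X := by
    ext i
    simp
  rwa [h4] at h2

end CptL

end Pool.Agent.Helper1K9.LT
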