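import Pool.Agent.R623.C.Dec

/-!
# Relay LT: definitions

Oracle computability (universal predicate, jump, join, columns), coded Scott sets, ultrafilters on
coded Scott sets, good sets, graphs of conflicts.
-/

set_option autoImplicit false

namespace Pool.Agent.Helper1K9.LT

open Encodable Pool.Agent.Helper446 Pool.Agent.Helper446.Defs Pool.Agent.Helper446.RE
  Pool.Agent.Helper446.Oracle Pool.Agent.R623.Dec

/-- `S` is a predicate with a set parameter which is uniformly enumerable in the parameter. -/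
def UR {α : Type} [Primcodable α] (S : Set ℕ → α → Prop) : Prop :=
  ∃ R : α → List ℕ × List ℕ → Prop, REPred (fun x : α × (List ℕ × List ℕ) => R x.1 x.2) ∧
    ∀ A a, S A a ↔ ∃ c, R a c ∧ Ok A c

/-- The program `e` stops on the input `n` together with the finite information `c`. -/
def Hlt (e n : ℕ) (c : List ℕ × List ℕ) : Prop :=
  (Nat.Partrec.Code.eval (Denumerable.ofNat Nat.Partrec.Code e) (Nat.pair n (encode c))).Dom

/-- The universal predicate: `n` belongs to the `e`-th set enumerable in `A`. -/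
def U (A : Set ℕ) (e n : ℕ) : Prop := ∃ c : List ℕ × List ℕ, Hlt e n c ∧ Ok A c

/-- The jump. -/
def Jmp (A : Set ℕ) : Set ℕ := {n | U A n.unpair.1 n.unpair.2}

/-- The join of two sets. -/
def Jn (A B : Set ℕ) : Set ℕ := {n | (n % 2 = 0 ∧ n / 2 ∈ A) ∨ (n % 2 = 1 ∧ n / 2 ∈ B)}

/-- The `i`-th column of `N`. -/
def col (N : Set ℕ) (i : ℕ) : Set ℕ := {n | Nat.pair i n ∈ N}

/-- The initial segment of length `n` of the set `X`. -/
noncomputable def sg (X : Set ℕ) (n : ℕ) : List Bool := by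
  classical exact (List.range n).map fun i => decide (i ∈ X)

/-- `N` codes a Scott set: the columns are closed under join and every nonempty `Π⁰₁` class relative
to a column contains a column. -/
structure Scott (N : Set ℕ) : Prop where
  join : ∀ i j, ∃ k, Jn (col N i) (col N j) = col N k
  basis : ∀ (i : ℕ) (Bad : List Bool → Prop), REIn (col N i) Bad →
    (∃ X : Set ℕ, ∀ n, ¬ Bad (sg X n)) → ∃ j, ∀ n, ¬ Bad (sg (col N j) n)

/-- `A` is a column of `N`. -/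
def InN (N A : Set ℕ) : Prop := ∃ i, col N i = A

/-- the family of the columns of `N` with index in `p` -/
def UU (N p : Set ℕ) : Set (Set ℕ) := {V | ∃ i ∈ p, col N i = V}

/-- `p` is (the set of indices of) a nonprincipal ultrafilter on the algebra of the columns of
`N`. -/
structure IsUF (N p : Set ℕ) : Prop where
  idx : ∀ i, i ∈ p ↔ col N i ∈ UU N p
  dich : ∀ V, InN N V → (V ∈ UU N p ∨ Vᶜ ∈ UU N p)
  inter : ∀ V ∈ UU N p, ∀ W ∈ UU N p, V ∩ W ∈ UU N p
  inf : ∀ V ∈ UU N p, V.Infinite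

/-- The upward closed class with index `(e, m)`, enumerable in `A`: the set `Y` contains a finite
set `D` with `U A e (m, D)`. -/
def Cls (A : Set ℕ) (e m : ℕ) (Y : Set ℕ) : Prop :=
  ∃ D : List ℕ, (∀ x ∈ D, x ∈ Y) ∧ U A e (Nat.pair m (encode D))

/-- `Y` is good: it belongs to every upward closed class, enumerable in a column of `M`, which
contains the whole ultrafilter. -/
def Good (M p Y : Set ℕ) : Prop :=
  ∀ i e m, (∀ V ∈ UU M p, Cls (col M i) e m V) → Cls (col M i) e m Y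

/-! ### Graphs of conflicts on points and on pairs -/

/-- `x` and `y` are joined by a point edge of `Γ`. -/
def P1 (Γ : Set ℕ) (x y : ℕ) : Prop := 2 * Nat.pair x y ∈ Γ ∨ 2 * Nat.pair y x ∈ Γ

/-- the (codes of) pairs `s` and `t` are joined by a pair edge of `Γ`. -/
def P2 (Γ : Set ℕ) (s t : ℕ) : Prop := 2 * Nat.pair s t + 1 ∈ Γ ∨ 2 * Nat.pair t s + 1 ∈ Γ

/-- All degrees are at most `d`. -/
def Deg (Γ : Set ℕ) (d : ℕ) : Prop :=
  (∀ (x : ℕ) (S : Finset ℕ), (∀ y ∈ S, y ≠ x ∧ P1 Γ x y) → S.card ≤ d) ∧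
  (∀ (s : ℕ) (S : Finset ℕ), (∀ t ∈ S, t ≠ s ∧ P2 Γ s t) → S.card ≤ d)

/-- There is no edge of `Γ` between points of `F ++ E` or pairs of points of `F ++ E`, except for
the edges inside `F`. -/
def Clean (Γ : Set ℕ) (F E : List ℕ) : Prop :=
  (∀ x ∈ F ++ E, ∀ y ∈ F ++ E, x ≠ y → ¬ (x ∈ F ∧ y ∈ F) → ¬ P1 Γ x y) ∧
  (∀ x ∈ F ++ E, ∀ y ∈ F ++ E, ∀ x' ∈ F ++ E, ∀ y' ∈ F ++ E, x < y → x' < y' →
    ¬ (x = x' ∧ y = y') → ¬ (y ∈ F ∧ y' ∈ F) → ¬ P2 Γ (Nat.pair x y) (Nat.pair x' y'))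

/-- No conflict between two pairs consisting of a point of `F` and the point `y`. -/
def HH (Γ : Set ℕ) (F : List ℕ) (y : ℕ) : Prop :=
  ∀ x ∈ F, ∀ x' ∈ F, x ≠ x' → ¬ P2 Γ (Nat.pair x y) (Nat.pair x' y)

/-- The finite set `F`, read as an initial segment of `G`, already shows that
`U (Jn B G) e n` holds. -/
def Ev (B : Set ℕ) (e n : ℕ) (F : List ℕ) : Prop :=
  ∃ c : List ℕ × List ℕ, Hlt e n c ∧ Ok (Jn B {x | x ∈ F}) c ∧
    ∀ x ∈ c.1 ++ c.2, x % 2 = 1 → ∃ f ∈ F, x / 2 ≤ f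

/-- The finite set `D` (above `F`) contains, for every graph `Γ` of degree at most `k` without
conflicts of the kind `HH` for the points of `D`, a clean extension of `F` with evidence for
`U _ e (w, v)`. -/
def QQ (B : Set ℕ) (e w v k : ℕ) (F D : List ℕ) : Prop :=
  ∀ Γ : Set ℕ, Deg Γ k → (∀ y ∈ D, (∀ f ∈ F, f < y) → HH Γ F y) →
    ∃ E : List ℕ, (∀ x ∈ E, x ∈ D ∧ ∀ f ∈ F, f < x) ∧ Clean Γ F E ∧
      Ev B e (Nat.pair w v) (F ++ E)

/-- `(F, v, k)` is small: some member of the ultrafilter contains no finite set `D` as in `QQ`. -/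
def EE (B M p : Set ℕ) (e w v k : ℕ) (F : List ℕ) : Prop :=
  ∃ V ∈ UU M p, ∀ D : List ℕ, (∀ x ∈ D, x ∈ V) → ¬ QQ B e w v k F D

/-! ### The forcing -/

/-- A condition `(F, x, δ, d)`: the finite part, the index of the reservoir, the index of the graph
and the bound for the degrees. -/
abbrev Cnd : Type := List ℕ × ℕ × ℕ × ℕ

/-- the condition is valid -/
def Vld (N q : Set ℕ) (c : Cnd) : Prop :=
  c.2.1 ∈ q ∧ Deg (col N c.2.2.1) c.2.2.2 ∧
    ∀ y ∈ col N c.2.1, (∀ f ∈ c.1, f < y) ∧ HH (col N c.2.2.1) c.1 y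

/-- `c'` extends `c` -/
def Ext (N : Set ℕ) (c' c : Cnd) : Prop :=
  ∃ E : List ℕ, c'.1 = c.1 ++ E ∧ (∀ y ∈ E, y ∈ col N c.2.1) ∧ Clean (col N c.2.2.1) c.1 E ∧
    (∀ y ∈ col N c'.2.1, y ∈ col N c.2.1) ∧ (∀ y ∈ col N c.2.2.1, y ∈ col N c'.2.2.1)

/-- the condition forces `∀ v, U (Jn B G) e (w, v)` -/
def Neg (B M N p : Set ℕ) (e w : ℕ) (c : Cnd) : Prop :=
  ∀ E : List ℕ, (∀ y ∈ E, y ∈ col N c.2.1) → Clean (col N c.2.2.1) c.1 E →
    ∀ v k, ¬ EE B M p e w v k (c.1 ++ E)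

/-- the condition forces `¬ U (Jn B G) e (w, v)` -/
def Pos (B N : Set ℕ) (e w v : ℕ) (c : Cnd) : Prop :=
  ∀ E : List ℕ, (∀ y ∈ E, y ∈ col N c.2.1) → Clean (col N c.2.2.1) c.1 E →
    ¬ Ev B e (Nat.pair w v) (c.1 ++ E)

end Pool.Agent.Helper1K9.LT
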