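import Pool.Agent.Helper1K9.LT.Ur

/-!
# Relay LT: basic properties of good sets
-/

set_option autoImplicit false

namespace Pool.Agent.Helper1K9.LT

open Encodable Pool.Agent.Helper446 Pool.Agent.Helper446.Defs Pool.Agent.Helper446.RE
  Pool.Agent.Helper446.Oracle Pool.Agent.R623.Dec

theorem gbs (hgap : S_GAP) : S_GBS := by
  intro M p _ huf
  obtain ⟨V0, hV0⟩ : ∃ V, V ∈ UU M p := by
    rcases huf.dich (col M 0) ⟨0, rfl⟩ with h | h
    exacts [⟨_, h⟩, ⟨_, h⟩]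
  refine ⟨?_, ?_, ?_, ?_⟩
  · intro i e m h
    obtain ⟨D, hD1, hD2⟩ := h V0 hV0
    exact ⟨D, fun x _ => Set.mem_univ x, hD2⟩
  · intro X Y hX hXY i e m h
    obtain ⟨D, hD1, hD2⟩ := hX i e m h
    exact ⟨D, fun x hx => hXY (hD1 x hx), hD2⟩
  · intro X hX hfin
    obtain ⟨n, hn⟩ := hfin.bddAbove
    have h1 : REIn (col M 0) fun D : List ℕ => ∃ x, x ∈ D ∧ n + 1 ≤ x := by
      refine REIn.ex (S := fun (D : List ℕ) x => x ∈ D ∧ n + 1 ≤ x) ?_
      exact REIn.and (REIn.of_re (RE.mem_list (by fun_prop) (by fun_prop)))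
        (REIn.of_re (RE.le (by fun_prop) (by fun_prop)))
    obtain ⟨D, hD1, x, hx1, hx2⟩ := hgap M p 0 _ h1 (fun V hV => by
      obtain ⟨x, hx1, hx2⟩ := (huf.inf V hV).exists_gt n
      exact ⟨[x], fun y hy => by simp at hy; rw [hy]; exact hx1, x, by simp, hx2⟩) X hX
    have := hn (hD1 x hx1)
    omega
  · rintro V ⟨i, hi, rfl⟩ hgood
    have hV : col M i ∈ UU M p := ⟨i, hi, rfl⟩
    have h1 : REIn (col M i) fun D : List ℕ => ∃ x, x ∈ D ∧ x ∈ col M i := by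
      refine REIn.ex (S := fun (D : List ℕ) x => x ∈ D ∧ x ∈ col M i) ?_
      exact REIn.and (REIn.of_re (RE.mem_list (by fun_prop) (by fun_prop)))
        (REIn.mem (by fun_prop))
    obtain ⟨D, hD1, x, hx1, hx2⟩ := hgap M p i _ h1 (fun W hW => by
      obtain ⟨x, hx⟩ := (huf.inf _ (huf.inter _ hV _ hW)).nonempty
      exact ⟨[x], fun y hy => by simp at hy; rw [hy]; exact hx.2, x, by simp, hx.1⟩) _ hgood
    exact hD1 x hx1 hx2

end Pool.Agent.Helper1K9.LT
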