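import Pool.Agent.Helper1K9.LT.Stm3

/-!
# Relay LT, leaf RRO: an ideal closed under rainbow Ramsey gives an omega-model
-/

set_option autoImplicit false

namespace Pool.Agent.Helper1K9.LT

open Encodable Pool.Agent.Helper446 Pool.Agent.Helper446.Defs Pool.Agent.Helper446.RE
  Pool.Agent.Helper446.Oracle Pool.Agent.R623.Dec Pool.Agent.R623.Om Pool.Agent.Helper617.RM

namespace RroL

/-- the pairing function -/
def pr (x y : ℕ) : ℕ := (x + y) * (x + y) + x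

theorem pr_inj {x y x' y' : ℕ} (h : pr x y = pr x' y') : x = x' ∧ y = y' := by
  unfold pr at h
  have h1 : x + y = x' + y' := by
    rcases lt_trichotomy (x + y) (x' + y') with h2 | h2 | h2
    · nlinarith
    · exact h2
    · nlinarith
  rw [h1] at h
  omega

theorem pr_comp : Computable fun x : ℕ × ℕ => pr x.1 x.2 := by
  unfold pr
  have h1 : Computable fun x : ℕ × ℕ => x.1 + x.2 := Primrec.nat_add.to_comp
  have h2 : Computable fun x : ℕ × ℕ => (x.1 + x.2) * (x.1 + x.2) :=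
    (Primrec.nat_mul.to_comp : Computable₂ fun a b : ℕ => a * b).comp h1 h1
  exact (Primrec.nat_add.to_comp : Computable₂ fun a b : ℕ => a + b).comp h2 Computable.fst

theorem pr_comp' {α : Type} [Primcodable α] {f g : α → ℕ} (hf : Computable f)
    (hg : Computable g) : Computable fun x => pr (f x) (g x) :=
  pr_comp.comp (hf.pair hg)

/-- the colouring restricted to increasing triples -/
def rst (c : ℕ → ℕ → ℕ → ℕ) (x y z : ℕ) : ℕ := if x < y ∧ y < z then c x y z else 0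

theorem rst_pos {c : ℕ → ℕ → ℕ → ℕ} {x y z : ℕ} (h1 : x < y) (h2 : y < z) :
    rst c x y z = c x y z := if_pos ⟨h1, h2⟩

theorem rst_neg {c : ℕ → ℕ → ℕ → ℕ} {x y z : ℕ} (h : ¬ (x < y ∧ y < z)) :
    rst c x y z = 0 := if_neg h

/-- the set coding the colouring -/
def gr (c : ℕ → ℕ → ℕ → ℕ) : Set ℕ :=
  {r | ∃ x y z : ℕ, x < y ∧ y < z ∧ r = pr x (pr y (pr z (c x y z)))}

theorem mem_gr {c : ℕ → ℕ → ℕ → ℕ} (x y z v : ℕ) :
    pr x (pr y (pr z v)) ∈ gr c ↔ (x < y ∧ y < z ∧ c x y z = v) := by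
  constructor
  · rintro ⟨x', y', z', h1, h2, h3⟩
    obtain ⟨rfl, h4⟩ := pr_inj h3
    obtain ⟨rfl, h5⟩ := pr_inj h4
    obtain ⟨rfl, h6⟩ := pr_inj h5
    exact ⟨h1, h2, h6.symm⟩
  · rintro ⟨h1, h2, h3⟩
    exact ⟨x, y, z, h1, h2, by rw [h3]⟩

theorem rst_rec (c : ℕ → ℕ → ℕ → ℕ) : Rec (gr c) (rst c) := by
  have hcp : Computable fun x : (ℕ × ℕ × ℕ) × ℕ =>
      pr x.1.1 (pr x.1.2.1 (pr x.1.2.2 x.2)) := by
    refine pr_comp' (by fun_prop) (pr_comp' (by fun_prop) (pr_comp' (by fun_prop) (by fun_prop)))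
  have h1 : DecIn (gr c) fun x : (ℕ × ℕ × ℕ) × ℕ => x.1.1 < x.1.2.1 ∧ x.1.2.1 < x.1.2.2 :=
    (DecIn.lt (by fun_prop) (by fun_prop)).and (DecIn.lt (by fun_prop) (by fun_prop))
  have h2 : DecIn (gr c) fun x : (ℕ × ℕ × ℕ) × ℕ =>
      pr x.1.1 (pr x.1.2.1 (pr x.1.2.2 x.2)) ∈ gr c := DecIn.mem hcp
  have h3 : DecIn (gr c) fun x : (ℕ × ℕ × ℕ) × ℕ => x.2 = 0 :=
    DecIn.eq (β := ℕ) (by fun_prop) (Computable.const 0)
  have h4 := h2.or (h1.not.and h3)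
  refine (h4.of_eq ?_).1
  rintro ⟨⟨x, y, z⟩, v⟩
  show (pr x (pr y (pr z v)) ∈ gr c ∨ ¬ (x < y ∧ y < z) ∧ v = 0) ↔ rst c x y z = v
  rw [mem_gr]
  by_cases h : x < y ∧ y < z
  · rw [rst_pos h.1 h.2]
    constructor
    · rintro (⟨-, -, h5⟩ | ⟨h5, -⟩)
      · exact h5
      · exact absurd h h5
    · intro h5
      exact Or.inl ⟨h.1, h.2, h5⟩
  · rw [rst_neg h]
    constructor
    · rintro (⟨h5, h6, -⟩ | ⟨-, h5⟩)
      · exact absurd ⟨h5, h6⟩ h
      · exact h5.symm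
    · intro h5
      exact Or.inr ⟨h, h5.symm⟩

end RroL

open RroL

theorem rro : S_RRO := by
  intro I hI hR k c hc hb
  have hbdd : Bdd (rst c) k := by
    intro a
    refine le_trans (Set.encard_le_encard ?_) (hb a)
    rintro ⟨x, y, z⟩ ⟨h1, h2, h3⟩
    exact ⟨h1, h2, (rst_pos h1 h2).symm.trans h3⟩
  obtain ⟨K, hK, hinf, hrb⟩ := hR (gr c) hc (rst c) k (rst_rec c) hbdd
  refine ⟨K, hK, ?_, ?_⟩
  · rintro ⟨b, h⟩
    exact hinf ((Set.finite_lt_nat b).subset fun y hy => h y hy)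
  · intro x hx y hy z hz x' hx' y' hy' z' hz' h1 h2 h3 h4 h5
    refine hrb x hx y hy z hz x' hx' y' hy' z' hz' h1 h2 h3 h4 ?_
    exact (rst_pos h1 h2).trans (Eq.trans h5 (rst_pos h3 h4).symm)

end Pool.Agent.Helper1K9.LT
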