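import Pool.Agent.Helper1K9.LT.Ru

/-!
# Relay LT: the predicates about graphs are enumerable in the graph
-/

set_option autoImplicit false

namespace Pool.Agent.Helper1K9.LT

open Encodable Pool.Agent.Helper446 Pool.Agent.Helper446.Defs Pool.Agent.Helper446.RE
  Pool.Agent.Helper446.Oracle Pool.Agent.R623.Dec

section rug

variable {α β : Type} [Primcodable α] [Primcodable β] {C : Set ℕ}

theorem RU.p1 {f g : α → ℕ} (hf : Computable f) (hg : Computable g) :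
    RU C fun Γ a => P1 Γ (f a) (g a) :=
  RU.or (RU.mem (f := fun a => 2 * Nat.pair (f a) (g a)) (by fun_prop))
    (RU.mem (f := fun a => 2 * Nat.pair (g a) (f a)) (by fun_prop))

theorem RU.p2 {f g : α → ℕ} (hf : Computable f) (hg : Computable g) :
    RU C fun Γ a => P2 Γ (f a) (g a) :=
  RU.or (RU.mem (f := fun a => 2 * Nat.pair (f a) (g a) + 1) (by fun_prop))
    (RU.mem (f := fun a => 2 * Nat.pair (g a) (f a) + 1) (by fun_prop))

theorem RU.np1 {f g : α → ℕ} (hf : Computable f) (hg : Computable g) :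
    RU C fun Γ a => ¬ P1 Γ (f a) (g a) :=
  (RU.and (RU.not_mem (f := fun a => 2 * Nat.pair (f a) (g a)) (by fun_prop))
    (RU.not_mem (f := fun a => 2 * Nat.pair (g a) (f a)) (by fun_prop))).of_eq
    fun _ _ => not_or.symm

theorem RU.np2 {f g : α → ℕ} (hf : Computable f) (hg : Computable g) :
    RU C fun Γ a => ¬ P2 Γ (f a) (g a) :=
  (RU.and (RU.not_mem (f := fun a => 2 * Nat.pair (f a) (g a) + 1) (by fun_prop))
    (RU.not_mem (f := fun a => 2 * Nat.pair (g a) (f a) + 1) (by fun_prop))).of_eq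
    fun _ _ => not_or.symm

theorem RU.np1_of_le {Δ : Set ℕ} (hΔ : Le Δ C) {f g : α → ℕ} (hf : Computable f)
    (hg : Computable g) : RU C fun _ a => ¬ P1 Δ (f a) (g a) := by
  refine RU.of_reIn (REIn.trans hΔ ?_)
  refine (REIn.and (REIn.not_mem (f := fun a => 2 * Nat.pair (f a) (g a)) (by fun_prop))
    (REIn.not_mem (f := fun a => 2 * Nat.pair (g a) (f a)) (by fun_prop))).of_eq
    fun _ => not_or.symm

theorem RU.np2_of_le {Δ : Set ℕ} (hΔ : Le Δ C) {f g : α → ℕ} (hf : Computable f)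
    (hg : Computable g) : RU C fun _ a => ¬ P2 Δ (f a) (g a) := by
  refine RU.of_reIn (REIn.trans hΔ ?_)
  refine (REIn.and (REIn.not_mem (f := fun a => 2 * Nat.pair (f a) (g a) + 1) (by fun_prop))
    (REIn.not_mem (f := fun a => 2 * Nat.pair (g a) (f a) + 1) (by fun_prop))).of_eq
    fun _ => not_or.symm

theorem not_p1_union {Δ Γ : Set ℕ} {x y : ℕ} : ¬ P1 (Δ ∪ Γ) x y ↔ ¬ P1 Δ x y ∧ ¬ P1 Γ x y := by
  unfold P1
  simp only [Set.mem_union]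
  tauto

theorem not_p2_union {Δ Γ : Set ℕ} {x y : ℕ} : ¬ P2 (Δ ∪ Γ) x y ↔ ¬ P2 Δ x y ∧ ¬ P2 Γ x y := by
  unfold P2
  simp only [Set.mem_union]
  tauto

/-- no repetition -/
theorem nodup_re : REPred fun l : List ℕ => l.Nodup := by
  have h1 : REPred fun l : List ℕ => ∀ j < l.length, ∀ i < j, l[i]? ≠ l[j]? := by
    refine RE.all_lt (p := fun (l : List ℕ) (j : ℕ) => ∀ i < j, l[i]? ≠ l[j]?) ?_ (by fun_prop)
    refine RE.all_lt (p := fun (x : List ℕ × ℕ) (i : ℕ) => x.1[i]? ≠ x.1[x.2]?) ?_ (by fun_prop)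
    exact RE.ne (by fun_prop) (by fun_prop)
  have h2 : (fun l : List ℕ => l.Nodup) = fun l : List ℕ => ∀ j < l.length, ∀ i < j,
      l[i]? ≠ l[j]? := by
    funext l
    apply propext
    rw [List.nodup_iff_getElem?_ne_getElem?]
    exact ⟨fun h j hj i hi => h i j hi hj, fun h i j hi hj => h j hj i hi⟩
  rw [h2]
  exact h1

theorem RU.many {P : Set ℕ → ℕ → ℕ → Prop} (hP : RU C fun Γ (x : ℕ × ℕ) => P Γ x.1 x.2) :
    RU C fun Γ (d : ℕ) => ∃ x : ℕ, ∃ S : Finset ℕ, (∀ y ∈ S, y ≠ x ∧ P Γ x y) ∧ d < S.card := by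
  have h1 : RU C fun Γ (d : ℕ) => ∃ z : ℕ × List ℕ, (∀ y ∈ z.2, y ≠ z.1 ∧ P Γ z.1 y) ∧
      (z.2.Nodup ∧ d < z.2.length) := by
    refine RU.ex (P := fun Γ (d : ℕ) (z : ℕ × List ℕ) => (∀ y ∈ z.2, y ≠ z.1 ∧ P Γ z.1 y) ∧
      (z.2.Nodup ∧ d < z.2.length)) ?_
    refine RU.and ?_ (RU.of_re (RE.and ?_ ?_))
    · refine RU.all_mem (P := fun Γ (w : ℕ × (ℕ × List ℕ)) (y : ℕ) => y ≠ w.2.1 ∧ P Γ w.2.1 y)
        (l := fun w => w.2.2) ?_ (by fun_prop)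
      refine RU.and (RU.of_re (RE.ne (by fun_prop) (by fun_prop))) ?_
      exact hP.comp (f := fun w : (ℕ × (ℕ × List ℕ)) × ℕ => (w.1.2.1, w.2)) (by fun_prop)
    · exact RE.comp nodup_re (f := fun w : ℕ × (ℕ × List ℕ) => w.2.2) (by fun_prop)
    · exact RE.lt (by fun_prop) (by fun_prop)
  refine h1.of_eq fun Γ d => ?_
  constructor
  · rintro ⟨⟨x, l⟩, h2, h3, h4⟩
    refine ⟨x, l.toFinset, fun y hy => h2 y (List.mem_toFinset.1 hy), ?_⟩
    rw [List.toFinset_card_of_nodup h3]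
    exact h4
  · rintro ⟨x, S, h2, h3⟩
    exact ⟨(x, S.toList), fun y hy => h2 y (Finset.mem_toList.1 hy), S.nodup_toList,
      by rw [Finset.length_toList]; exact h3⟩

theorem RU.ndeg {f : α → ℕ} (hf : Computable f) : RU C fun Γ a => ¬ Deg Γ (f a) := by
  have h1 : RU C fun Γ (d : ℕ) => (∃ x : ℕ, ∃ S : Finset ℕ, (∀ y ∈ S, y ≠ x ∧ P1 Γ x y) ∧
      d < S.card) ∨ ∃ x : ℕ, ∃ S : Finset ℕ, (∀ y ∈ S, y ≠ x ∧ P2 Γ x y) ∧ d < S.card :=
    RU.or (RU.many (P := fun Γ x y => P1 Γ x y) (RU.p1 (by fun_prop) (by fun_prop)))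
      (RU.many (P := fun Γ x y => P2 Γ x y) (RU.p2 (by fun_prop) (by fun_prop)))
  refine (h1.comp hf).of_eq fun Γ a => ?_
  unfold Deg
  rw [not_and_or]
  push Not
  exact Iff.rfl

theorem RU.nhh {f : α → List ℕ} {g : α → ℕ} (hf : Computable f) (hg : Computable g) :
    RU C fun Γ a => ¬ HH Γ (f a) (g a) := by
  have h1 : RU C fun Γ a => ∃ x ∈ f a, ∃ x' ∈ f a, x ≠ x' ∧
      P2 Γ (Nat.pair x (g a)) (Nat.pair x' (g a)) := by
    refine RU.ex_mem (P := fun Γ a x => ∃ x' ∈ f a, x ≠ x' ∧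
      P2 Γ (Nat.pair x (g a)) (Nat.pair x' (g a))) ?_ hf
    refine RU.ex_mem (P := fun Γ (b : α × ℕ) x' => b.2 ≠ x' ∧
      P2 Γ (Nat.pair b.2 (g b.1)) (Nat.pair x' (g b.1))) ?_ (by fun_prop)
    exact RU.and (RU.of_re (RE.ne (by fun_prop) (by fun_prop))) (RU.p2 (by fun_prop) (by fun_prop))
  refine h1.of_eq fun Γ a => ?_
  unfold HH
  push Not
  exact Iff.rfl

theorem clean_iff {Δ Γ : Set ℕ} {F E : List ℕ} : Clean (Δ ∪ Γ) F E ↔
    (∀ x ∈ F ++ E, ∀ y ∈ F ++ E, x = y ∨ (x ∈ F ∧ y ∈ F) ∨ (¬ P1 Δ x y ∧ ¬ P1 Γ x y)) ∧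
    (∀ x ∈ F ++ E, ∀ y ∈ F ++ E, ∀ x' ∈ F ++ E, ∀ y' ∈ F ++ E, y ≤ x ∨ y' ≤ x' ∨
      (x = x' ∧ y = y') ∨ (y ∈ F ∧ y' ∈ F) ∨
      (¬ P2 Δ (Nat.pair x y) (Nat.pair x' y') ∧ ¬ P2 Γ (Nat.pair x y) (Nat.pair x' y'))) := by
  unfold Clean
  simp only [not_p1_union, not_p2_union]
  constructor
  · rintro ⟨h1, h2⟩
    refine ⟨fun x hx y hy => ?_, fun x hx y hy x' hx' y' hy' => ?_⟩
    · by_cases h3 : x = y
      · exact Or.inl h3
      · by_cases h4 : x ∈ F ∧ y ∈ F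
        · exact Or.inr (Or.inl h4)
        · exact Or.inr (Or.inr (h1 x hx y hy h3 h4))
    · by_cases h3 : x < y
      · by_cases h4 : x' < y'
        · by_cases h5 : x = x' ∧ y = y'
          · exact Or.inr (Or.inr (Or.inl h5))
          · by_cases h6 : y ∈ F ∧ y' ∈ F
            · exact Or.inr (Or.inr (Or.inr (Or.inl h6)))
            · exact Or.inr (Or.inr (Or.inr (Or.inr (h2 x hx y hy x' hx' y' hy' h3 h4 h5 h6))))
        · exact Or.inr (Or.inl (not_lt.1 h4))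
      · exact Or.inl (not_lt.1 h3)
  · rintro ⟨h1, h2⟩
    refine ⟨fun x hx y hy h3 h4 => ?_, fun x hx y hy x' hx' y' hy' h3 h4 h5 h6 => ?_⟩
    · rcases h1 x hx y hy with h | h | h
      · exact absurd h h3
      · exact absurd h h4
      · exact h
    · rcases h2 x hx y hy x' hx' y' hy' with h | h | h | h | h
      · exact absurd h3 (not_lt.2 h)
      · exact absurd h4 (not_lt.2 h)
      · exact absurd h h5
      · exact absurd h h6
      · exact h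

theorem append_comp {f g : α → List ℕ} (hf : Computable f) (hg : Computable g) :
    Computable fun a => f a ++ g a := Primrec.list_append.to_comp.comp hf hg

theorem RU.clean {Δ : Set ℕ} (hΔ : Le Δ C) {f g : α → List ℕ} (hf : Computable f)
    (hg : Computable g) : RU C fun Γ a => Clean (Δ ∪ Γ) (f a) (g a) := by
  have hfg : Computable fun a => f a ++ g a := append_comp hf hg
  refine RU.of_eq ?_ (fun Γ a => clean_iff.symm)
  refine RU.and ?_ ?_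
  · refine RU.all_mem (P := fun Γ a x => ∀ y ∈ f a ++ g a, x = y ∨ (x ∈ f a ∧ y ∈ f a) ∨
      (¬ P1 Δ x y ∧ ¬ P1 Γ x y)) ?_ hfg
    refine RU.all_mem (P := fun Γ (b : α × ℕ) y => b.2 = y ∨ (b.2 ∈ f b.1 ∧ y ∈ f b.1) ∨
      (¬ P1 Δ b.2 y ∧ ¬ P1 Γ b.2 y)) ?_ (hfg.comp Computable.fst)
    refine RU.or (RU.of_re (RE.eq (by fun_prop) (by fun_prop))) (RU.or (RU.of_re (RE.and
      (RE.mem_list (by fun_prop) (by fun_prop)) (RE.mem_list (by fun_prop) (by fun_prop))))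
      (RU.and (RU.np1_of_le hΔ (by fun_prop) (by fun_prop)) (RU.np1 (by fun_prop) (by fun_prop))))
  · refine RU.all_mem (P := fun Γ a x => ∀ y ∈ f a ++ g a, ∀ x' ∈ f a ++ g a, ∀ y' ∈ f a ++ g a,
      y ≤ x ∨ y' ≤ x' ∨ (x = x' ∧ y = y') ∨ (y ∈ f a ∧ y' ∈ f a) ∨
      (¬ P2 Δ (Nat.pair x y) (Nat.pair x' y') ∧ ¬ P2 Γ (Nat.pair x y) (Nat.pair x' y'))) ?_ hfg
    refine RU.all_mem (P := fun Γ (b : α × ℕ) y => ∀ x' ∈ f b.1 ++ g b.1, ∀ y' ∈ f b.1 ++ g b.1,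
      y ≤ b.2 ∨ y' ≤ x' ∨ (b.2 = x' ∧ y = y') ∨ (y ∈ f b.1 ∧ y' ∈ f b.1) ∨
      (¬ P2 Δ (Nat.pair b.2 y) (Nat.pair x' y') ∧ ¬ P2 Γ (Nat.pair b.2 y) (Nat.pair x' y'))) ?_
      (hfg.comp Computable.fst)
    refine RU.all_mem (P := fun Γ (c : (α × ℕ) × ℕ) x' => ∀ y' ∈ f c.1.1 ++ g c.1.1,
      c.2 ≤ c.1.2 ∨ y' ≤ x' ∨ (c.1.2 = x' ∧ c.2 = y') ∨ (c.2 ∈ f c.1.1 ∧ y' ∈ f c.1.1) ∨
      (¬ P2 Δ (Nat.pair c.1.2 c.2) (Nat.pair x' y') ∧
        ¬ P2 Γ (Nat.pair c.1.2 c.2) (Nat.pair x' y'))) ?_ (hfg.comp (by fun_prop))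
    refine RU.all_mem (P := fun Γ (d : ((α × ℕ) × ℕ) × ℕ) y' =>
      d.1.2 ≤ d.1.1.2 ∨ y' ≤ d.2 ∨ (d.1.1.2 = d.2 ∧ d.1.2 = y') ∨
      (d.1.2 ∈ f d.1.1.1 ∧ y' ∈ f d.1.1.1) ∨
      (¬ P2 Δ (Nat.pair d.1.1.2 d.1.2) (Nat.pair d.2 y') ∧
        ¬ P2 Γ (Nat.pair d.1.1.2 d.1.2) (Nat.pair d.2 y'))) ?_ (hfg.comp (by fun_prop))
    refine RU.or (RU.of_re (RE.le (by fun_prop) (by fun_prop))) (RU.or (RU.of_re (RE.le
      (by fun_prop) (by fun_prop))) (RU.or (RU.of_re (RE.and (RE.eq (by fun_prop) (by fun_prop))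
      (RE.eq (by fun_prop) (by fun_prop)))) (RU.or (RU.of_re (RE.and
      (RE.mem_list (by fun_prop) (by fun_prop)) (RE.mem_list (by fun_prop) (by fun_prop))))
      (RU.and (RU.np2_of_le hΔ (by fun_prop) (by fun_prop)) (RU.np2 (by fun_prop) (by fun_prop))))))

theorem le_empty (C : Set ℕ) : Le ∅ C := by
  refine ⟨REIn.of_re ?_, REIn.of_re ?_⟩
  · have : (fun x : ℕ => x ∈ (∅ : Set ℕ)) = fun _ => False := by
      funext x
      simp
    rw [this]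
    exact RE.const False
  · have : (fun x : ℕ => ¬ x ∈ (∅ : Set ℕ)) = fun _ => True := by
      funext x
      simp
    rw [this]
    exact RE.const True

theorem RU.clean' {f g : α → List ℕ} (hf : Computable f) (hg : Computable g) :
    RU C fun Γ a => Clean Γ (f a) (g a) :=
  (RU.clean (le_empty C) hf hg).of_eq fun Γ a => by rw [Set.empty_union]

end rug

end Pool.Agent.Helper1K9.LT
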