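import Pool.Agent.Helper1K9.LT.Defs

/-!
# Relay LT: statements of blocks 1 and 2 (computability, Scott sets, ultrafilters, good sets)
-/

set_option autoImplicit false

namespace Pool.Agent.Helper1K9.LT

open Encodable Pool.Agent.Helper446 Pool.Agent.Helper446.Defs Pool.Agent.Helper446.RE
  Pool.Agent.Helper446.Oracle Pool.Agent.R623.Dec

/-- (1) UNI. The predicate `U` is uniformly enumerable and universal. (`Hlt` is `REPred` in all
variables by `Nat.Partrec.Code.eval_part`; every `REPred` is the domain of some code.) -/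
def S_UNI : Prop :=
  UR (fun A (x : ℕ × ℕ) => U A x.1 x.2) ∧
  (∀ (α : Type) [Primcodable α] (S : Set ℕ → α → Prop), UR S →
    ∃ e, ∀ A a, S A a ↔ U A e (encode a)) ∧
  (∀ (A : Set ℕ) (α : Type) [Primcodable α] (S : α → Prop), REIn A S →
    ∃ e, ∀ a, S a ↔ U A e (encode a))

/-- (2) JMP. Basic properties of jump, join and columns. -/
def S_JMP : Prop :=
  (∀ A, REIn A (· ∈ Jmp A)) ∧
  (∀ (A : Set ℕ) (α : Type) [Primcodable α] (S : α → Prop), REIn A S → DecIn (Jmp A) S) ∧
  (∀ A, Le A (Jmp A)) ∧
  (∀ A B, Le A B → Le (Jmp A) (Jmp B)) ∧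
  (∀ A B, Le A (Jn A B) ∧ Le B (Jn A B)) ∧
  (∀ A B C, Le A C → Le B C → Le (Jn A B) C) ∧
  (∀ N i, Le (col N i) N)

/-- (3) J3. Normal form of the third jump. -/
def S_J3 : Prop :=
  ∃ e0, ∀ (A : Set ℕ) (n : ℕ), n ∈ Jmp (Jmp (Jmp A)) ↔
    ∃ u, ∀ v, U A e0 (Nat.pair (Nat.pair n u) v)

/-- (4) LB. The low basis theorem, relative to `A`. -/
def S_LB : Prop :=
  ∀ (A : Set ℕ) (Bad : List Bool → Prop), REIn A Bad → (∃ X : Set ℕ, ∀ n, ¬ Bad (sg X n)) →
    ∃ X : Set ℕ, (∀ n, ¬ Bad (sg X n)) ∧ Le (Jmp (Jn X A)) (Jmp A)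

/-- (5) SS. There is a coded Scott set containing `A` whose code is low relative to `A`. (Low basis
theorem for the class of all `N` with `col N 0 = A`, `col N (3k+1)` the join of two earlier columns
and `col N (3k+2)` a member of the class number `k.unpair.2` relative to the column number
`k.unpair.1`, if this class is not empty; use `T = {σ | no prefix of σ is bad by stage |σ|}`.) -/
def S_SS : Prop := ∀ A : Set ℕ, ∃ N, Scott N ∧ InN N A ∧ Le (Jmp N) (Jmp A)

/-- (6) SCT. Consequences: a Scott set is closed downward under `Le`. (The class `{A}` is `Π⁰₁`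
relative to the column.) -/
def S_SCT : Prop :=
  (∀ N, Scott N → ∀ A C, Le A C → InN N C → InN N A) ∧
  (∀ N, Scott N → ∀ A C, InN N A → InN N C → ∃ D, InN N D ∧ Le A D ∧ Le C D)

/-- (7) UF1. A nonprincipal ultrafilter on the columns of `M`, inside `N`. (Basis property of `N` for
the class, `Π⁰₁` relative to `Jmp M`, of all `p` such that for all `n` the intersection of the
`col M i` (`i < n`, `i ∈ p`) and the complements of the `col M i` (`i < n`, `i ∉ p`) is
infinite.) -/
def S_UF1 : Prop :=
  ∀ M N : Set ℕ, Scott M → Scott N → InN N (Jmp M) → ∃ p, InN N p ∧ IsUF M p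

/-- (8) GAP. Good sets belong to the classes which contain the ultrafilter (any enumerable
description of the class). -/
def S_GAP : Prop :=
  ∀ (M p : Set ℕ) (i : ℕ) (Q : List ℕ → Prop), REIn (col M i) Q →
    (∀ V ∈ UU M p, ∃ D : List ℕ, (∀ x ∈ D, x ∈ V) ∧ Q D) →
    ∀ Y, Good M p Y → ∃ D : List ℕ, (∀ x ∈ D, x ∈ Y) ∧ Q D

/-- (9) GBS. Basic properties of good sets. (For the last two use the classes `Y ∩ V ≠ ∅` and
`Y` has an element `≥ n`.) -/
def S_GBS : Prop :=
  ∀ M p : Set ℕ, Scott M → IsUF M p →
    Good M p Set.univ ∧ (∀ X Y, Good M p X → X ⊆ Y → Good M p Y) ∧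
    (∀ X, Good M p X → X.Infinite) ∧ (∀ V ∈ UU M p, ¬ Good M p Vᶜ)

/-- (10) GPR. Goodness is partition regular. (Suppose `X` is not in the class `𝒜₀` and `Y` is not in
the class `𝒜₁`, both containing the ultrafilter. Let `𝓑` be the class of all `Z` such that for every
partition of `Z` in two parts the first is in `𝒜₀` or the second in `𝒜₁`; by compactness it is an
upward closed enumerable class (finite `D` such that all partitions of `D` ...) relative to the join
of the two columns. If a member `V` of the ultrafilter is not in `𝓑`, the basis property of `M` gives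
a partition of `V` in `M` without parts in `𝒜₀`, `𝒜₁` resp.; one part is in the ultrafilter,
contradiction. So `X ∪ Y` is in `𝓑`.) -/
def S_GPR : Prop :=
  ∀ M p : Set ℕ, Scott M → IsUF M p → ∀ X Y, Good M p (X ∪ Y) → Good M p X ∨ Good M p Y

/-- (11) UF2. An ultrafilter of good sets on the columns of `N`, low over `Jmp N`. (`S_LB` relative to
`Jmp N` for the class of all `q` such that all the finite intersections of `col N i` (`i ∈ q`) and
complements (`i ∉ q`) are good. It is nonempty by `S_GPR`. Not good is enumerable in `Jmp N`: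
`∃ i e m`, the class `(i, e, m)` contains the ultrafilter [this is decidable in `Jmp N`, because its
negation is enumerable in the join of `p` and `Jmp M`, a column of `N`] and does not contain the
set [decidable in `Jmp N`].) -/
def S_UF2 : Prop :=
  ∀ M N p : Set ℕ, Scott M → Scott N → InN N (Jmp M) → InN N p → IsUF M p →
    ∃ q, IsUF N q ∧ (∀ X ∈ UU N q, Good M p X) ∧ (∀ V ∈ UU M p, V ∈ UU N q) ∧
      Le (Jmp (Jn q (Jmp N))) (Jmp (Jmp N))

end Pool.Agent.Helper1K9.LT
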