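import Pool.Agent.Helper1K9.LT.Ur

/-!
# Relay LT: uniformly decidable predicates
-/

set_option autoImplicit false

namespace Pool.Agent.Helper1K9.LT

open Encodable Pool.Agent.Helper446 Pool.Agent.Helper446.Defs Pool.Agent.Helper446.RE
  Pool.Agent.Helper446.Oracle Pool.Agent.R623.Dec

variable {α β : Type} [Primcodable α] [Primcodable β]

/-- `S` and its negation are uniformly enumerable. -/
def UD (S : Set ℕ → α → Prop) : Prop := UR S ∧ UR fun A a => ¬ S A a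

theorem UD.dec {S : Set ℕ → α → Prop} (h : UD S) (A : Set ℕ) : DecIn A (S A) :=
  ⟨h.1.reIn A, h.2.reIn A⟩

theorem UD.of_eq {S T : Set ℕ → α → Prop} (h : UD S) (hST : ∀ A a, S A a ↔ T A a) : UD T :=
  ⟨h.1.of_eq hST, h.2.of_eq fun A a => not_congr (hST A a)⟩

theorem UD.and {S T : Set ℕ → α → Prop} (hS : UD S) (hT : UD T) : UD fun A a => S A a ∧ T A a :=
  ⟨hS.1.and hT.1, (hS.2.or hT.2).of_eq fun _ _ => by tauto⟩

theorem UD.or {S T : Set ℕ → α → Prop} (hS : UD S) (hT : UD T) : UD fun A a => S A a ∨ T A a :=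
  ⟨hS.1.or hT.1, (hS.2.and hT.2).of_eq fun _ _ => by tauto⟩

theorem UD.not {S : Set ℕ → α → Prop} (hS : UD S) : UD fun A a => ¬ S A a :=
  ⟨hS.2, hS.1.of_eq fun _ _ => not_not.symm⟩

theorem UD.comp {S : Set ℕ → β → Prop} (h : UD S) {f : α → β} (hf : Computable f) :
    UD fun A a => S A (f a) := ⟨h.1.comp hf, h.2.comp hf⟩

theorem UD.of_cp {S : α → Prop} (h : ComputablePred S) : UD fun _ => S :=
  ⟨UR.of_re h.to_re, UR.of_re h.not.to_re⟩

theorem UD.mem {f : α → ℕ} (hf : Computable f) : UD fun A a => f a ∈ A :=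
  ⟨UR.mem hf, UR.not_mem hf⟩

theorem UD.all_lt {S : Set ℕ → α → ℕ → Prop} (hS : UD fun A (x : α × ℕ) => S A x.1 x.2)
    {f : α → ℕ} (hf : Computable f) : UD fun A a => ∀ i < f a, S A a i := by
  refine ⟨hS.1.all_lt hf, ?_⟩
  have h1 : UR fun A a => ∃ i, i < f a ∧ ¬ S A a i := by
    refine UR.ex (S := fun A a i => i < f a ∧ ¬ S A a i) ?_
    exact UR.and (UR.of_re (RE.lt (by fun_prop) (by fun_prop))) hS.2
  refine h1.of_eq fun A a => ?_
  push Not
  rfl

theorem UD.all_mem {S : Set ℕ → α → β → Prop} (hS : UD fun A (x : α × β) => S A x.1 x.2)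
    {l : α → List β} (hl : Computable l) : UD fun A a => ∀ b ∈ l a, S A a b := by
  refine ⟨hS.1.all_mem hl, ?_⟩
  refine (UR.ex_mem (S := fun A a b => ¬ S A a b) hS.2 hl).of_eq fun A a => ?_
  push Not
  rfl

/-- Normal form: a uniformly enumerable predicate is the projection of a uniformly decidable
one. -/
theorem UR.proj {S : Set ℕ → α → Prop} (h : UR S) :
    ∃ W : Set ℕ → α × ((List ℕ × List ℕ) × ℕ) → Prop, UD W ∧
      ∀ A a, S A a ↔ ∃ x, W A (a, x) := by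
  obtain ⟨R, hR, h1⟩ := h
  obtain ⟨q, hq, h2⟩ := RE.re_iff.1 hR
  refine ⟨fun A y => q (y.1, y.2.1) y.2.2 = true ∧ Ok A y.2.1, ?_, fun A a => ?_⟩
  · refine UD.and (UD.of_cp ?_) (UD.and ?_ ?_)
    · refine ComputablePred.computable_iff.2 ⟨fun y : α × ((List ℕ × List ℕ) × ℕ) =>
        q (y.1, y.2.1) y.2.2, ?_, rfl⟩
      exact hq.comp (g := fun y : α × ((List ℕ × List ℕ) × ℕ) => (y.1, y.2.1))
        (h := fun y => y.2.2) (by fun_prop) (by fun_prop)
    · refine UD.all_mem (S := fun A (_ : α × ((List ℕ × List ℕ) × ℕ)) x => x ∈ A) ?_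
        (by fun_prop)
      exact UD.mem (by fun_prop)
    · refine UD.all_mem (S := fun A (_ : α × ((List ℕ × List ℕ) × ℕ)) x => x ∉ A) ?_
        (by fun_prop)
      exact (UD.mem (by fun_prop)).not
  · rw [h1]
    constructor
    · rintro ⟨c, hc, hok⟩
      obtain ⟨n, hn⟩ := (h2 (a, c)).1 hc
      exact ⟨(c, n), hn, hok⟩
    · rintro ⟨⟨c, n⟩, hn, hok⟩
      exact ⟨c, (h2 (a, c)).2 ⟨n, hn⟩, hok⟩

end Pool.Agent.Helper1K9.LT
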