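import Pool.Agent.Helper1K9.LT.Stm1

/-!
# Relay LT: uniform closure properties, and forcing by finite strings
-/

set_option autoImplicit false

namespace Pool.Agent.Helper1K9.LT

open Encodable Pool.Agent.Helper446 Pool.Agent.Helper446.Defs Pool.Agent.Helper446.RE
  Pool.Agent.Helper446.Oracle Pool.Agent.R623.Dec

section ur

variable {α β : Type} [Primcodable α] [Primcodable β]

theorem UR.reIn {S : Set ℕ → α → Prop} (h : UR S) (A : Set ℕ) : REIn A (S A) := by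
  obtain ⟨R, hR, h⟩ := h
  exact ⟨R, hR, h A⟩

theorem UR.of_eq {S T : Set ℕ → α → Prop} (h : UR S) (hST : ∀ A a, S A a ↔ T A a) : UR T := by
  have : S = T := funext fun A => funext fun a => propext (hST A a)
  rw [← this]; exact h

theorem UR.of_re {S : α → Prop} (h : REPred S) : UR (fun _ => S) := by
  refine ⟨fun a _ => S a, RE.comp h Computable.fst, fun A a => ⟨fun h => ⟨([], []), h, ?_⟩, ?_⟩⟩
  · exact ⟨fun x hx => by simp at hx, fun x hx => by simp at hx⟩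
  · rintro ⟨_, h, _⟩; exact h

theorem UR.mem {f : α → ℕ} (hf : Computable f) : UR fun A a => f a ∈ A := by
  refine ⟨fun a c => f a ∈ c.1, RE.mem_list (f := fun x : α × (List ℕ × List ℕ) => f x.1)
    (l := fun x : α × (List ℕ × List ℕ) => x.2.1) (by fun_prop) (by fun_prop), fun A a => ?_⟩
  constructor
  · intro h
    exact ⟨([f a], []), by simp, fun x hx => by simp at hx; rw [hx]; exact h,
      fun x hx => by simp at hx⟩
  · rintro ⟨c, h1, h2⟩; exact h2.1 _ h1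

theorem UR.not_mem {f : α → ℕ} (hf : Computable f) : UR fun A a => f a ∉ A := by
  refine ⟨fun a c => f a ∈ c.2, RE.mem_list (f := fun x : α × (List ℕ × List ℕ) => f x.1)
    (l := fun x : α × (List ℕ × List ℕ) => x.2.2) (by fun_prop) (by fun_prop), fun A a => ?_⟩
  constructor
  · intro h
    exact ⟨([], [f a]), by simp, fun x hx => by simp at hx,
      fun x hx => by simp at hx; rw [hx]; exact h⟩
  · rintro ⟨c, h1, h2⟩; exact h2.2 _ h1

theorem UR.comp {S : Set ℕ → β → Prop} (h : UR S) {f : α → β} (hf : Computable f) :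
    UR fun A a => S A (f a) := by
  obtain ⟨R, hR, h⟩ := h
  exact ⟨fun a c => R (f a) c, RE.comp hR (f := fun x : α × (List ℕ × List ℕ) => (f x.1, x.2))
    (by fun_prop), fun A a => h A (f a)⟩

theorem UR.and {S T : Set ℕ → α → Prop} (hS : UR S) (hT : UR T) :
    UR fun A a => S A a ∧ T A a := by
  obtain ⟨R, hR, h1⟩ := hS
  obtain ⟨R', hR', h2⟩ := hT
  refine ⟨fun a c => ∃ x : (List ℕ × List ℕ) × (List ℕ × List ℕ), R a x.1 ∧ R' a x.2 ∧
    c = (x.1.1 ++ x.2.1, x.1.2 ++ x.2.2), ?_, fun A a => ?_⟩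
  · refine RE.ex (p := fun (y : α × (List ℕ × List ℕ))
      (x : (List ℕ × List ℕ) × (List ℕ × List ℕ)) => R y.1 x.1 ∧ R' y.1 x.2 ∧
      y.2 = (x.1.1 ++ x.2.1, x.1.2 ++ x.2.2)) ?_
    refine RE.and ?_ (RE.and ?_ (RE.eq (by fun_prop) (by fun_prop)))
    · exact RE.comp hR (f := fun y : (α × (List ℕ × List ℕ)) ×
        ((List ℕ × List ℕ) × (List ℕ × List ℕ)) => (y.1.1, y.2.1)) (by fun_prop)
    · exact RE.comp hR' (f := fun y : (α × (List ℕ × List ℕ)) ×
        ((List ℕ × List ℕ) × (List ℕ × List ℕ)) => (y.1.1, y.2.2)) (by fun_prop)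
  · constructor
    · rintro ⟨h3, h4⟩
      obtain ⟨c, hc1, hc2⟩ := (h1 A a).1 h3
      obtain ⟨d, hd1, hd2⟩ := (h2 A a).1 h4
      exact ⟨_, ⟨(c, d), hc1, hd1, rfl⟩, hc2.append hd2⟩
    · rintro ⟨_, ⟨⟨c, d⟩, hc1, hd1, rfl⟩, h3⟩
      refine ⟨(h1 A a).2 ⟨c, hc1, ?_⟩, (h2 A a).2 ⟨d, hd1, ?_⟩⟩
      · exact ⟨fun x hx => h3.1 x (List.mem_append_left _ hx),
          fun x hx => h3.2 x (List.mem_append_left _ hx)⟩
      · exact ⟨fun x hx => h3.1 x (List.mem_append_right _ hx),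
          fun x hx => h3.2 x (List.mem_append_right _ hx)⟩

theorem UR.or {S T : Set ℕ → α → Prop} (hS : UR S) (hT : UR T) :
    UR fun A a => S A a ∨ T A a := by
  obtain ⟨R, hR, h1⟩ := hS
  obtain ⟨R', hR', h2⟩ := hT
  refine ⟨fun a c => R a c ∨ R' a c, RE.or hR hR', fun A a => ?_⟩
  simp only [h1, h2]
  constructor
  · rintro (⟨c, h3, h4⟩ | ⟨c, h3, h4⟩)
    exacts [⟨c, Or.inl h3, h4⟩, ⟨c, Or.inr h3, h4⟩]
  · rintro ⟨c, h3 | h3, h4⟩
    exacts [Or.inl ⟨c, h3, h4⟩, Or.inr ⟨c, h3, h4⟩]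

theorem UR.ex {S : Set ℕ → α → β → Prop} (hS : UR fun A (x : α × β) => S A x.1 x.2) :
    UR fun A a => ∃ b, S A a b := by
  obtain ⟨R, hR, h1⟩ := hS
  refine ⟨fun a c => ∃ b, R (a, b) c, ?_, fun A a => ?_⟩
  · refine RE.ex (p := fun (y : α × (List ℕ × List ℕ)) (b : β) => R (y.1, b) y.2) ?_
    exact RE.comp hR (f := fun y : (α × (List ℕ × List ℕ)) × β => ((y.1.1, y.2), y.1.2))
      (by fun_prop)
  · constructor
    · rintro ⟨b, hb⟩
      obtain ⟨c, h2, h3⟩ := (h1 A (a, b)).1 hb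
      exact ⟨c, ⟨b, h2⟩, h3⟩
    · rintro ⟨c, ⟨b, h2⟩, h3⟩
      exact ⟨b, (h1 A (a, b)).2 ⟨c, h2, h3⟩⟩

theorem UR.all_lt {S : Set ℕ → α → ℕ → Prop} (hS : UR fun A (x : α × ℕ) => S A x.1 x.2)
    {f : α → ℕ} (hf : Computable f) : UR fun A a => ∀ i < f a, S A a i := by
  obtain ⟨R, hR, h1⟩ := hS
  refine ⟨fun a c => ∀ i < f a, ∃ d : List ℕ × List ℕ, R (a, i) d ∧
    (∀ x ∈ d.1, x ∈ c.1) ∧ ∀ x ∈ d.2, x ∈ c.2, ?_, fun A a => ?_⟩
  · refine RE.all_lt (p := fun (y : α × (List ℕ × List ℕ)) (i : ℕ) =>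
      ∃ d : List ℕ × List ℕ, R (y.1, i) d ∧ (∀ x ∈ d.1, x ∈ y.2.1) ∧ ∀ x ∈ d.2, x ∈ y.2.2)
      ?_ (by fun_prop)
    refine RE.ex (p := fun (y : (α × (List ℕ × List ℕ)) × ℕ) (d : List ℕ × List ℕ) =>
      R (y.1.1, y.2) d ∧ (∀ x ∈ d.1, x ∈ y.1.2.1) ∧ ∀ x ∈ d.2, x ∈ y.1.2.2) ?_
    refine RE.and ?_ (RE.and ?_ ?_)
    · exact RE.comp hR (f := fun y : ((α × (List ℕ × List ℕ)) × ℕ) × (List ℕ × List ℕ) =>
        ((y.1.1.1, y.1.2), y.2)) (by fun_prop)
    · refine RE.all_mem (p := fun (y : ((α × (List ℕ × List ℕ)) × ℕ) × (List ℕ × List ℕ))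
        (x : ℕ) => x ∈ y.1.1.2.1) (l := fun y => y.2.1) ?_ (by fun_prop)
      exact RE.mem_list (by fun_prop) (by fun_prop)
    · refine RE.all_mem (p := fun (y : ((α × (List ℕ × List ℕ)) × ℕ) × (List ℕ × List ℕ))
        (x : ℕ) => x ∈ y.1.1.2.2) (l := fun y => y.2.2) ?_ (by fun_prop)
      exact RE.mem_list (by fun_prop) (by fun_prop)
  · constructor
    · intro h
      have h2 : ∀ i, ∃ d : List ℕ × List ℕ, i < f a → R (a, i) d ∧ Ok A d := by
        intro i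
        by_cases hi : i < f a
        · obtain ⟨d, hd⟩ := (h1 A (a, i)).1 (h i hi)
          exact ⟨d, fun _ => hd⟩
        · exact ⟨([], []), fun h => absurd h hi⟩
      choose d hd using h2
      refine ⟨((List.range (f a)).flatMap fun i => (d i).1,
        (List.range (f a)).flatMap fun i => (d i).2), fun i hi => ⟨d i, (hd i hi).1, ?_, ?_⟩,
        ⟨?_, ?_⟩⟩
      · intro x hx
        exact List.mem_flatMap.2 ⟨i, List.mem_range.2 hi, hx⟩
      · intro x hx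
        exact List.mem_flatMap.2 ⟨i, List.mem_range.2 hi, hx⟩
      · intro x hx
        obtain ⟨i, hi, hx⟩ := List.mem_flatMap.1 hx
        exact (hd i (List.mem_range.1 hi)).2.1 x hx
      · intro x hx
        obtain ⟨i, hi, hx⟩ := List.mem_flatMap.1 hx
        exact (hd i (List.mem_range.1 hi)).2.2 x hx
    · rintro ⟨c, hc, hok⟩ i hi
      obtain ⟨d, h2, h3, h4⟩ := hc i hi
      exact (h1 A (a, i)).2 ⟨d, h2, fun x hx => hok.1 x (h3 x hx), fun x hx => hok.2 x (h4 x hx)⟩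

theorem UR.all_mem {S : Set ℕ → α → β → Prop} (hS : UR fun A (x : α × β) => S A x.1 x.2)
    {l : α → List β} (hl : Computable l) : UR fun A a => ∀ b ∈ l a, S A a b := by
  have h1 : UR fun A a => ∀ i < (l a).length, ∃ b, (l a)[i]? = some b ∧ S A a b := by
    refine UR.all_lt (S := fun A a i => ∃ b, (l a)[i]? = some b ∧ S A a b) ?_ (by fun_prop)
    refine UR.ex (S := fun A (x : α × ℕ) b => (l x.1)[x.2]? = some b ∧ S A x.1 b) ?_
    refine UR.and (UR.of_re (RE.eq (by fun_prop) (by fun_prop))) ?_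
    exact hS.comp (f := fun x : (α × ℕ) × β => (x.1.1, x.2)) (by fun_prop)
  refine h1.of_eq fun A a => ?_
  constructor
  · intro h b hb
    obtain ⟨i, hi, rfl⟩ := List.getElem_of_mem hb
    obtain ⟨b', hb', hp'⟩ := h i hi
    rw [List.getElem?_eq_getElem hi] at hb'
    cases hb'
    exact hp'
  · intro h i hi
    exact ⟨(l a)[i], List.getElem?_eq_getElem hi, h _ (List.getElem_mem hi)⟩

theorem UR.ex_mem {S : Set ℕ → α → β → Prop} (hS : UR fun A (x : α × β) => S A x.1 x.2)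
    {l : α → List β} (hl : Computable l) : UR fun A a => ∃ b ∈ l a, S A a b := by
  refine UR.ex (S := fun A a b => b ∈ l a ∧ S A a b) (UR.and (UR.of_re ?_) hS)
  exact RE.mem_list (by fun_prop) (by fun_prop)

theorem UR.ex_lt {S : Set ℕ → α → ℕ → Prop} (hS : UR fun A (x : α × ℕ) => S A x.1 x.2)
    {f : α → ℕ} (hf : Computable f) : UR fun A a => ∃ i < f a, S A a i := by
  refine UR.ex (S := fun A a i => i < f a ∧ S A a i) (UR.and (UR.of_re ?_) hS)
  exact RE.lt (by fun_prop) (by fun_prop)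

end ur

/-! ### `Hlt` is enumerable -/

theorem hlt_re : REPred fun x : (ℕ × ℕ) × (List ℕ × List ℕ) => Hlt x.1.1 x.1.2 x.2 := by
  have h1 : Partrec fun x : (ℕ × ℕ) × (List ℕ × List ℕ) =>
      Nat.Partrec.Code.eval (Denumerable.ofNat Nat.Partrec.Code x.1.1)
        (Nat.pair x.1.2 (encode x.2)) :=
    Nat.Partrec.Code.eval_part.comp ((Computable.ofNat Nat.Partrec.Code).comp (by fun_prop))
      (by fun_prop)
  exact h1.dom_re

theorem U_ur : UR (fun A (x : ℕ × ℕ) => U A x.1 x.2) :=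
  ⟨fun x c => Hlt x.1 x.2 c, hlt_re, fun _ _ => Iff.rfl⟩

/-! ### Finite strings as partial information -/

theorem sg_length (X : Set ℕ) (n : ℕ) : (sg X n).length = n := by
  unfold sg
  rw [List.length_map, List.length_range]

theorem sg_get {X : Set ℕ} {n i : ℕ} (h : i < n) {b : Bool} :
    (sg X n)[i]? = some b ↔ (b = true ↔ i ∈ X) := by
  classical
  unfold sg
  rw [List.getElem?_map, List.getElem?_range h]
  simp only [Option.map_some, Option.some.injEq]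
  by_cases hi : i ∈ X
  · simp [hi, eq_comm]
  · simp [hi, eq_comm]

theorem sg_get_none {X : Set ℕ} {n i : ℕ} (h : n ≤ i) : (sg X n)[i]? = none :=
  List.getElem?_eq_none (by rw [sg_length]; exact h)

theorem sg_true {X : Set ℕ} {n i : ℕ} : (sg X n)[i]? = some true ↔ i < n ∧ i ∈ X := by
  by_cases h : i < n
  · rw [sg_get h]; simp [h]
  · rw [sg_get_none (not_lt.1 h)]; simp [h]

theorem sg_false {X : Set ℕ} {n i : ℕ} : (sg X n)[i]? = some false ↔ i < n ∧ i ∉ X := by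
  by_cases h : i < n
  · rw [sg_get h]; simp [h]
  · rw [sg_get_none (not_lt.1 h)]; simp [h]

theorem sg_take (X : Set ℕ) {m n : ℕ} (h : m ≤ n) : (sg X n).take m = sg X m := by
  unfold sg
  rw [← List.map_take, List.take_range, min_eq_left h]

theorem sg_prefix (X : Set ℕ) {m n : ℕ} (h : m ≤ n) : sg X m <+: sg X n := by
  rw [← sg_take X h]
  exact List.take_prefix _ _

/-- the string `σ`, as a part of `X`, and `A` guarantee that the information `c` about `Jn X A` is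
correct -/
def OkS (A : Set ℕ) (σ : List Bool) (c : List ℕ × List ℕ) : Prop :=
  (∀ x ∈ c.1, (x % 2 = 0 ∧ σ[x / 2]? = some true) ∨ (x % 2 = 1 ∧ x / 2 ∈ A)) ∧
  (∀ x ∈ c.2, (x % 2 = 0 ∧ σ[x / 2]? = some false) ∨ (x % 2 = 1 ∧ x / 2 ∉ A))

theorem jn_not {X A : Set ℕ} {x : ℕ} : x ∉ Jn X A ↔
    (x % 2 = 0 ∧ x / 2 ∉ X) ∨ (x % 2 = 1 ∧ x / 2 ∉ A) := by
  unfold Jn
  simp only [Set.mem_ofPred_eq]
  rcases Nat.mod_two_eq_zero_or_one x with h | h <;> simp [h]

theorem okS_ok {A X : Set ℕ} {n : ℕ} {c : List ℕ × List ℕ} (h : OkS A (sg X n) c) :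
    Ok (Jn X A) c := by
  refine ⟨fun x hx => ?_, fun x hx => ?_⟩
  · rcases h.1 x hx with ⟨h1, h2⟩ | ⟨h1, h2⟩
    · exact Or.inl ⟨h1, (sg_true.1 h2).2⟩
    · exact Or.inr ⟨h1, h2⟩
  · rw [jn_not]
    rcases h.2 x hx with ⟨h1, h2⟩ | ⟨h1, h2⟩
    · exact Or.inl ⟨h1, (sg_false.1 h2).2⟩
    · exact Or.inr ⟨h1, h2⟩

theorem ok_okS {A X : Set ℕ} {c : List ℕ × List ℕ} (h : Ok (Jn X A) c) :
    ∃ n, OkS A (sg X n) c := by
  refine ⟨(c.1 ++ c.2).sum + 1, fun x hx => ?_, fun x hx => ?_⟩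
  · have h1 : x ≤ (c.1 ++ c.2).sum := List.le_sum_of_mem (List.mem_append_left _ hx)
    rcases h.1 x hx with ⟨h2, h3⟩ | ⟨h2, h3⟩
    · exact Or.inl ⟨h2, sg_true.2 ⟨by omega, h3⟩⟩
    · exact Or.inr ⟨h2, h3⟩
  · have h1 : x ≤ (c.1 ++ c.2).sum := List.le_sum_of_mem (List.mem_append_right _ hx)
    rcases jn_not.1 (h.2 x hx) with ⟨h2, h3⟩ | ⟨h2, h3⟩
    · exact Or.inl ⟨h2, sg_false.2 ⟨by omega, h3⟩⟩
    · exact Or.inr ⟨h2, h3⟩

theorem getElem?_prefix {σ τ : List Bool} (h : σ <+: τ) {i : ℕ} {b : Bool}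
    (hi : σ[i]? = some b) : τ[i]? = some b := by
  obtain ⟨ρ, rfl⟩ := h
  obtain ⟨h1, -⟩ := List.getElem?_eq_some_iff.1 hi
  rw [List.getElem?_append_left h1]
  exact hi

theorem okS_mono {A : Set ℕ} {σ τ : List Bool} (h : σ <+: τ) {c : List ℕ × List ℕ}
    (hc : OkS A σ c) : OkS A τ c := by
  refine ⟨fun x hx => ?_, fun x hx => ?_⟩
  · rcases hc.1 x hx with ⟨h1, h2⟩ | h1
    · exact Or.inl ⟨h1, getElem?_prefix h h2⟩
    · exact Or.inr h1
  · rcases hc.2 x hx with ⟨h1, h2⟩ | h1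
    · exact Or.inl ⟨h1, getElem?_prefix h h2⟩
    · exact Or.inr h1

theorem cdiv2 {α : Type} [Primcodable α] {f : α → ℕ} (hf : Computable f) :
    Computable fun a => f a / 2 := (Primrec.nat_div2.to_comp.comp hf).of_eq fun _ => Nat.div2_val _

theorem cmod2 {α : Type} [Primcodable α] {f : α → ℕ} (hf : Computable f) :
    Computable fun a => f a % 2 :=
  (Primrec.nat_mod.to_comp.comp hf (Computable.const 2))

theorem okS_re (A : Set ℕ) :
    REIn A fun x : List Bool × (List ℕ × List ℕ) => OkS A x.1 x.2 := by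
  refine REIn.and ?_ ?_
  · refine REIn.all_mem (S := fun (y : List Bool × (List ℕ × List ℕ)) (x : ℕ) =>
      (x % 2 = 0 ∧ y.1[x / 2]? = some true) ∨ (x % 2 = 1 ∧ x / 2 ∈ A))
      (l := fun y => y.2.1) ?_ (by fun_prop)
    refine REIn.or (REIn.of_re (RE.and (RE.eq (cmod2 (by fun_prop)) (by fun_prop)) ?_))
      (REIn.and (REIn.of_re (RE.eq (cmod2 (by fun_prop)) (by fun_prop)))
        (REIn.mem (cdiv2 (by fun_prop))))
    exact RE.eq (cgetElem (by fun_prop) (cdiv2 (by fun_prop))) (by fun_prop)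
  · refine REIn.all_mem (S := fun (y : List Bool × (List ℕ × List ℕ)) (x : ℕ) =>
      (x % 2 = 0 ∧ y.1[x / 2]? = some false) ∨ (x % 2 = 1 ∧ x / 2 ∉ A))
      (l := fun y => y.2.2) ?_ (by fun_prop)
    refine REIn.or (REIn.of_re (RE.and (RE.eq (cmod2 (by fun_prop)) (by fun_prop)) ?_))
      (REIn.and (REIn.of_re (RE.eq (cmod2 (by fun_prop)) (by fun_prop)))
        (REIn.not_mem (cdiv2 (by fun_prop))))
    exact RE.eq (cgetElem (by fun_prop) (cdiv2 (by fun_prop))) (by fun_prop)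

/-- A uniformly enumerable predicate of `Jn X A` is forced by the initial segments of `X`. -/
theorem UR.forced {α : Type} [Primcodable α] {S : Set ℕ → α → Prop} (h : UR S) (A : Set ℕ) :
    ∃ F : α → List Bool → Prop, REIn A (fun x : α × List Bool => F x.1 x.2) ∧
      (∀ a σ τ, σ <+: τ → F a σ → F a τ) ∧
      ∀ X a, S (Jn X A) a ↔ ∃ n, F a (sg X n) := by
  obtain ⟨R, hR, h1⟩ := h
  refine ⟨fun a σ => ∃ c, R a c ∧ OkS A σ c, ?_, ?_, ?_⟩
  · refine REIn.ex (S := fun (x : α × List Bool) (c : List ℕ × List ℕ) =>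
      R x.1 c ∧ OkS A x.2 c) (REIn.and (REIn.of_re ?_) ?_)
    · exact RE.comp hR (f := fun x : (α × List Bool) × (List ℕ × List ℕ) => (x.1.1, x.2))
        (by fun_prop)
    · exact (okS_re A).comp (f := fun x : (α × List Bool) × (List ℕ × List ℕ) => (x.1.2, x.2))
        (by fun_prop)
  · rintro a σ τ h2 ⟨c, h3, h4⟩
    exact ⟨c, h3, okS_mono h2 h4⟩
  · intro X a
    rw [h1]
    constructor
    · rintro ⟨c, h2, h3⟩
      obtain ⟨n, h4⟩ := ok_okS h3
      exact ⟨n, c, h2, h4⟩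
    · rintro ⟨n, c, h2, h3⟩
      exact ⟨c, h2, okS_ok h3⟩

/-! ### König's lemma -/

theorem konig {B : List Bool → Prop} (mono : ∀ σ τ, σ <+: τ → B σ → B τ)
    (h : ∀ n, ∃ σ : List Bool, σ.length = n ∧ ¬ B σ) : ∃ X : Set ℕ, ∀ n, ¬ B (sg X n) := by
  choose s hs hB using h
  let F := Filter.hyperfilter ℕ
  refine ⟨{i | ∀ᶠ n in F, (s n)[i]? = some true}, fun m hm => ?_⟩
  have h1 : ∀ i < m, ∀ᶠ n in F, (s n)[i]? =
      (sg {i | ∀ᶠ n in F, (s n)[i]? = some true} m)[i]? := by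
    intro i hi
    have h2 : ∀ᶠ n in (F : Filter ℕ), i < n := by
      have : ∀ᶠ n in Filter.cofinite, i < n := by
        rw [Nat.cofinite_eq_atTop]
        exact Filter.eventually_gt_atTop i
      exact Filter.hyperfilter_le_cofinite this
    by_cases h3 : ∀ᶠ n in F, (s n)[i]? = some true
    · filter_upwards [h3] with n hn
      rw [hn]
      exact (sg_true.2 ⟨hi, h3⟩).symm
    · have h4 : ∀ᶠ n in (F : Filter ℕ), ¬ (s n)[i]? = some true :=
        Ultrafilter.eventually_not.2 h3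
      filter_upwards [h2, h4] with n hn hn'
      rw [sg_false.2 ⟨hi, h3⟩]
      have h5 : i < (s n).length := by rw [hs]; exact hn
      rw [List.getElem?_eq_getElem h5] at hn' ⊢
      cases hb : (s n)[i]
      · rfl
      · rw [hb] at hn'
        exact absurd rfl hn'
  have h2 : ∀ᶠ n in (F : Filter ℕ), ∀ i < m, (s n)[i]? =
      (sg {i | ∀ᶠ n in F, (s n)[i]? = some true} m)[i]? := by
    have := (Filter.eventually_all_finset (Finset.range m) (l := (F : Filter ℕ))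
      (p := fun i n => (s n)[i]? =
      (sg {i | ∀ᶠ n in F, (s n)[i]? = some true} m)[i]?)).2 fun i hi => h1 i (Finset.mem_range.1 hi)
    filter_upwards [this] with n hn i hi
    exact hn i (Finset.mem_range.2 hi)
  obtain ⟨n, hn⟩ := h2.exists
  refine hB n (mono _ _ ?_ hm)
  rw [List.prefix_iff_getElem?]
  intro i hi
  have hi' : i < m := by rwa [sg_length] at hi
  rw [hn i hi']
  exact List.getElem?_eq_getElem hi

end Pool.Agent.Helper1K9.LT
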